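import Pool.Agent.Lib.MP_de73ed_al_H.Spec
import Pool.Agent.Lib.MP_de73ed_al.EJ

set_option linter.all false
set_option autoImplicit false

/-! Module Comp: composition factors. -/

namespace Pool.Agent.Lib.MP_de73ed_al_H

open Pool.Agent.Lib.MP_de73ed_al

namespace Comp

theorem toEJ {J : GrpClass} (hJ : IsoClosed J) {G : Type} [Group G] (h : CompIn J G) :
    EJ J G := by
  refine ⟨h.1, ?_⟩
  intro A hA X _ ψ hψ hX
  haveI := hX
  have e := QuotientGroup.quotientKerEquivOfSurjective ψ hψ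
  have hs : IsSimpleGroup (A ⧸ ψ.ker) := e.isSimpleGroup
  exact hJ _ _ e (h.2 A ψ.ker hA hs)

theorem ofEJ {J : GrpClass} {G : Type} [Group G] (h : EJ J G) : CompIn J G :=
  ⟨h.1, fun N M _ hN hs => h.2 N hN (N ⧸ M) (QuotientGroup.mk' M)
    (QuotientGroup.mk'_surjective M) hs⟩

theorem subCF {J : GrpClass} (hJ : IsoClosed J) (h : HerJ J) : SubCF J :=
  fun X _ _ hX hJX Y => toEJ hJ (h X hX hJX Y)

theorem prime_dvd {J : GrpClass} (hJ : IsoClosed J) (p : ℕ) (hp : p.Prime) :
    ∀ (n : ℕ) (G : Type) [Group G] [Finite G], Nat.card G = n → EJ J G → p ∣ Nat.card G →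
      ∃ (T : Type) (_ : Group T), IsSimpleGroup T ∧ J T ∧ p ∣ Nat.card T := by
  intro n
  induction n using Nat.strong_induction_on with
  | _ n ih =>
    intro G _ _ hn hG hd
    have hcard : 1 < Nat.card G := lt_of_lt_of_le hp.one_lt (Nat.le_of_dvd Nat.card_pos hd)
    haveI hnt : Nontrivial G := Finite.one_lt_card_iff_nontrivial.1 hcard
    by_cases hS : IsSimpleGroup G
    · exact ⟨G, inferInstance, hS, EJ.simple hS hG, hd⟩
    · have hex : ∃ N : Subgroup G, N.Normal ∧ N ≠ ⊥ ∧ N ≠ ⊤ := by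
        by_contra hcon
        push Not at hcon
        apply hS
        refine { eq_bot_or_eq_top_of_normal := ?_ }
        intro H hH
        by_cases h : H = ⊥
        · exact Or.inl h
        · exact Or.inr (hcon H hH h)
      obtain ⟨N, hNn, hNb, hNt⟩ := hex
      haveI := hNn
      have hmul : Nat.card G = Nat.card (G ⧸ N) * Nat.card N :=
        Subgroup.card_eq_card_quotient_mul_card_subgroup N
      have hN1 : 1 < Nat.card N := by
        rw [Finite.one_lt_card_iff_nontrivial]
        exact (Subgroup.nontrivial_iff_ne_bot N).2 hNb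
      have hQ1 : 1 < Nat.card (G ⧸ N) := by
        have h0 : Nat.card (G ⧸ N) ≠ 1 := by
          intro h
          exact hNt (Subgroup.index_eq_one.1 h)
        have h1 : 0 < Nat.card (G ⧸ N) := Nat.card_pos
        omega
      have h1 : Nat.card N < n := by rw [← hn, hmul]; nlinarith
      have h2 : Nat.card (G ⧸ N) < n := by rw [← hn, hmul]; nlinarith
      rw [hmul] at hd
      rcases (Nat.Prime.dvd_mul hp).1 hd with h | h
      · exact ih _ h2 (G ⧸ N) rfl (EJ.quot _ (QuotientGroup.mk'_surjective N) hG) h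
      · exact ih _ h1 N rfl (EJ.normal N hG) h

end Comp

open Comp in
theorem compStmt : CompStmt := by
  intro J hJ
  refine ⟨?_, ?_, ?_, ?_, ?_, ?_, ?_, ?_, ?_⟩
  · intro G H _ _ φ hφ h
    exact ofEJ (EJ.quot φ hφ (toEJ hJ h))
  · intro G _ N hN h
    haveI := hN
    exact ofEJ (EJ.normal N (toEJ hJ h))
  · intro G _ _ N _ h1 h2
    exact ofEJ (EJ.ext' N (toEJ hJ h1) (toEJ hJ h2))
  · intro G _ _ hs
    constructor
    · intro h
      exact EJ.simple hs (toEJ hJ h)
    · intro h
      exact ofEJ (EJ.of_simple hJ hs h)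
  · intro G _ hs
    exact ofEJ EJ.of_subsingleton
  · intro hH G _ h U
    exact ofEJ (EJ.sub' (subCF hJ hH) (toEJ hJ h) U)
  · intro G _ h p hp hd
    haveI := h.1
    exact prime_dvd hJ p hp _ G rfl (toEJ hJ h) hd
  · intro hfin hsub hquot G _ hG
    refine ⟨hfin G hG, ?_⟩
    intro N M _ _ _
    exact hquot N _ (QuotientGroup.mk' M) (QuotientGroup.mk'_surjective M) (hsub G N hG)
  · intro G _ _ M N _ _ hM hN
    exact ofEJ (EJ.inf M N (toEJ hJ hM) (toEJ hJ hN))

end Pool.Agent.Lib.MP_de73ed_al_H
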