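import Pool.Agent.Lib.MP_de73ed_al_H.Spec
import Pool.Agent.Lib.MP_de73ed_al_H.Comp

set_option linter.all false
set_option autoImplicit false

/-! Module AS: factorizations reduce to almost simple groups. -/

namespace Pool.Agent.Lib.MP_de73ed_al_H

open Pool.Agent.Lib.MP_de73ed_al

namespace AS

variable {K : Type} [Group K]

/-- The normalizer. -/
abbrev NN (T : Subgroup K) : Subgroup K := Subgroup.normalizer (T : Set K)

/-- The centralizer. -/
abbrev CC (T : Subgroup K) : Subgroup K := Subgroup.centralizer (T : Set K)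

theorem mem_CC {T : Subgroup K} {g : K} : g ∈ CC T ↔ ∀ t ∈ T, t * g = g * t :=
  Subgroup.mem_centralizer_iff

theorem mem_NN [Finite K] {T : Subgroup K} {g : K} (h : ∀ t ∈ T, g * t * g⁻¹ ∈ T) : g ∈ NN T := by
  rw [Subgroup.mem_normalizer_iff_map_conj_eq]
  refine Subgroup.eq_of_le_of_card_ge ?_ ?_
  · rintro _ ⟨t, ht, rfl⟩
    exact h t ht
  · rw [Nat.card_congr (Subgroup.equivMapOfInjective T (MulAut.conj g).toMonoidHom
      (MulAut.conj g).injective).toEquiv]
    exact le_rfl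

theorem of_mem_NN {T : Subgroup K} {g : K} (h : g ∈ NN T) : ∀ t ∈ T, g * t * g⁻¹ ∈ T :=
  fun t ht => ((Subgroup.mem_normalizer_iff.1 h) t).1 ht

theorem of_mem_NN' {T : Subgroup K} {g : K} (h : g ∈ NN T) : ∀ t ∈ T, g⁻¹ * t * g ∈ T := by
  intro t ht
  have := of_mem_NN (inv_mem h) t ht
  rwa [inv_inv] at this

/-- `C_K(T)` is normalized by `N_K(T)`. -/
theorem conj_CC {T : Subgroup K} {g c : K} (hg : g ∈ NN T) (hc : c ∈ CC T) :
    g * c * g⁻¹ ∈ CC T := by
  rw [mem_CC] at hc ⊢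
  intro t ht
  have h1 := hc _ (of_mem_NN' hg t ht)
  calc t * (g * c * g⁻¹) = g * ((g⁻¹ * t * g) * c) * g⁻¹ := by group
    _ = g * (c * (g⁻¹ * t * g)) * g⁻¹ := by rw [h1]
    _ = g * c * g⁻¹ * t := by group

/-- The subgroup `C_K(T) (N_K(T) ⊓ A)`. -/
def XX (T A : Subgroup K) : Subgroup K where
  carrier := {x | ∃ c ∈ CC T, ∃ a ∈ NN T ⊓ A, x = c * a}
  one_mem' := ⟨1, one_mem _, 1, one_mem _, by group⟩
  mul_mem' := by
    rintro _ _ ⟨c, hc, a, ha, rfl⟩ ⟨c', hc', a', ha', rfl⟩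
    exact ⟨c * (a * c' * a⁻¹), mul_mem hc (conj_CC ha.1 hc'), a * a', mul_mem ha ha', by group⟩
  inv_mem' := by
    rintro _ ⟨c, hc, a, ha, rfl⟩
    refine ⟨a⁻¹ * c⁻¹ * (a⁻¹)⁻¹, conj_CC (inv_mem ha.1) (inv_mem hc), a⁻¹, inv_mem ha, by group⟩

theorem CC_le_XX (T A : Subgroup K) : CC T ≤ XX T A :=
  fun c hc => ⟨c, hc, 1, one_mem _, by group⟩

theorem inf_le_XX (T A : Subgroup K) : NN T ⊓ A ≤ XX T A :=
  fun a ha => ⟨1, one_mem _, a, ha, by group⟩

theorem CC_le_NN (T : Subgroup K) : CC T ≤ NN T := by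
  intro c hc
  rw [Subgroup.mem_normalizer_iff]
  intro t
  have hc' := mem_CC.1 hc
  constructor
  · intro ht
    have : c * t * c⁻¹ = t := by rw [← hc' t ht]; group
    rwa [this]
  · intro ht
    have h1 := hc' _ ht
    have : c * t * c⁻¹ = t := by
      have h2 : c * t * c⁻¹ * c = c * (c * t * c⁻¹) := h1
      have h3 : t = c * t * c⁻¹ := by
        have h4 : c * t = c * (c * t * c⁻¹) := by
          calc c * t = c * t * c⁻¹ * c := by group
            _ = c * (c * t * c⁻¹) := h2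
        exact mul_left_cancel h4
      exact h3.symm
    rwa [this] at ht

theorem XX_le_NN (T A : Subgroup K) : XX T A ≤ NN T := by
  rintro _ ⟨c, hc, a, ha, rfl⟩
  exact mul_mem (CC_le_NN T hc) ha.1

/-- `R ≤ C_K(T) T`. -/
theorem closure_le (T : Subgroup K) (hconj : ConjComm T) :
    ∀ r ∈ Subgroup.normalClosure (T : Set K), ∃ c ∈ CC T, ∃ t ∈ T, r = c * t := by
  let D : Subgroup K :=
    { carrier := {x | ∃ c ∈ CC T, ∃ t ∈ T, x = c * t}
      one_mem' := ⟨1, one_mem _, 1, one_mem _, by group⟩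
      mul_mem' := by
        rintro _ _ ⟨c, hc, t, ht, rfl⟩ ⟨c', hc', t', ht', rfl⟩
        refine ⟨c * c', mul_mem hc hc', t * t', mul_mem ht ht', ?_⟩
        have h1 := mem_CC.1 hc' t ht
        calc c * t * (c' * t') = c * (t * c') * t' := by group
          _ = c * (c' * t) * t' := by rw [h1]
          _ = c * c' * (t * t') := by group
      inv_mem' := by
        rintro _ ⟨c, hc, t, ht, rfl⟩
        refine ⟨c⁻¹, inv_mem hc, t⁻¹, inv_mem ht, ?_⟩
        have h1 := mem_CC.1 (inv_mem hc) t⁻¹ (inv_mem ht)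
        rw [mul_inv_rev, h1] }
  have hD : Subgroup.normalClosure (T : Set K) ≤ D := by
    unfold Subgroup.normalClosure
    rw [Subgroup.closure_le]
    intro x hx
    obtain ⟨t, ht, htx⟩ := Group.mem_conjugatesOfSet_iff.1 hx
    obtain ⟨g, rfl⟩ := isConj_iff.1 htx
    rcases hconj g with h | h
    · exact ⟨1, one_mem _, _, h t ht, by group⟩
    · refine ⟨g * t * g⁻¹, ?_, 1, one_mem _, by group⟩
      rw [mem_CC]
      intro s hs
      exact (h t ht s hs).symm
  intro r hr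
  exact hD hr

variable [Finite K]

/-- The product of elements in the different conjugates of `T`. -/
theorem crt (T : Subgroup K) (hconj : ConjComm T) (R : Subgroup K) [R.Normal] (hTR : T ≤ R)
    (γ : K ⧸ NN T → K) (hγ : ∀ ω, (γ ω : K ⧸ NN T) = ω) (t : K ⧸ NN T → K) (ht : ∀ ω, t ω ∈ T)
    (s : Finset (K ⧸ NN T)) :
    ∃ r ∈ R, (∀ ω ∈ s, (γ ω)⁻¹ * (r * (γ ω * t ω * (γ ω)⁻¹)⁻¹) * γ ω ∈ CC T) ∧
      (∀ ω, ω ∉ s → (γ ω)⁻¹ * r * γ ω ∈ CC T) := by
  classical
  -- elements of different conjugates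
  have hdiff : ∀ ω ω' : K ⧸ NN T, ω ≠ ω' →
      (γ ω)⁻¹ * (γ ω' * t ω' * (γ ω')⁻¹) * γ ω ∈ CC T := by
    intro ω ω' hne
    rcases hconj ((γ ω)⁻¹ * γ ω') with h | h
    · exfalso
      apply hne
      rw [← hγ ω, ← hγ ω', QuotientGroup.eq]
      exact mem_NN h
    · rw [mem_CC]
      intro s hs
      have := h (t ω') (ht ω') s hs
      calc s * ((γ ω)⁻¹ * (γ ω' * t ω' * (γ ω')⁻¹) * γ ω)
          = s * ((γ ω)⁻¹ * γ ω' * t ω' * ((γ ω)⁻¹ * γ ω')⁻¹) := by group
        _ = (γ ω)⁻¹ * γ ω' * t ω' * ((γ ω)⁻¹ * γ ω')⁻¹ * s := this.symm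
        _ = (γ ω)⁻¹ * (γ ω' * t ω' * (γ ω')⁻¹) * γ ω * s := by group
  have hR : R.Normal := inferInstance
  induction s using Finset.induction_on with
  | empty =>
    refine ⟨1, one_mem _, ?_, ?_⟩
    · intro ω hω
      simp at hω
    · intro ω _
      have : (γ ω)⁻¹ * 1 * γ ω = 1 := by group
      rw [this]
      exact one_mem _
  | insert ω₀ s hω₀ ih =>
    obtain ⟨r, hr, h1, h2⟩ := ih
    refine ⟨r * (γ ω₀ * t ω₀ * (γ ω₀)⁻¹), mul_mem hr (hR.conj_mem _ (hTR (ht ω₀)) _), ?_, ?_⟩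
    · intro ω hω
      rw [Finset.mem_insert] at hω
      by_cases he : ω = ω₀
      · subst he
        have := h2 ω hω₀
        convert this using 1
        group
      · have hs : ω ∈ s := hω.resolve_left he
        have h3 := h1 ω hs
        have h4 := hdiff ω ω₀ he
        -- `t ω` commutes with `h4`
        have h5 := mem_CC.1 h4 (t ω) (ht ω)
        have h6 := mul_mem h3 h4
        convert h6 using 1
        calc (γ ω)⁻¹ * (r * (γ ω₀ * t ω₀ * (γ ω₀)⁻¹) * (γ ω * t ω * (γ ω)⁻¹)⁻¹) * γ ω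
            = (γ ω)⁻¹ * r * γ ω * (t ω)⁻¹ * (t ω * ((γ ω)⁻¹ * (γ ω₀ * t ω₀ * (γ ω₀)⁻¹) * γ ω)) *
                (t ω)⁻¹ := by group
          _ = (γ ω)⁻¹ * r * γ ω * (t ω)⁻¹ * (((γ ω)⁻¹ * (γ ω₀ * t ω₀ * (γ ω₀)⁻¹) * γ ω) * t ω) *
                (t ω)⁻¹ := by rw [h5]
          _ = (γ ω)⁻¹ * (r * (γ ω * t ω * (γ ω)⁻¹)⁻¹) * γ ω *
                ((γ ω)⁻¹ * (γ ω₀ * t ω₀ * (γ ω₀)⁻¹) * γ ω) := by group
    · intro ω hω
      rw [Finset.mem_insert, not_or] at hω
      have h3 := h2 ω hω.2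
      have h4 := hdiff ω ω₀ hω.1
      have h6 := mul_mem h3 h4
      convert h6 using 1
      group

/-- The claim: `K = X B`. -/
theorem claim (R T A B : Subgroup K) [R.Normal] (hTR : T ≤ R) (hconj : ConjComm T)
    (hcl : Subgroup.normalClosure (T : Set K) = R) (hRT : ∀ r ∈ R, ∀ t ∈ T, r * t * r⁻¹ ∈ T)
    (hAB : Prd A B) (hRA : R ⊔ A = ⊤) (hRB : R ⊔ B = ⊤) :
    ∀ g : K, ∃ x ∈ XX T A, ∃ b ∈ B, g = x * b := by
  classical
  have hRN : R ≤ NN T := fun r hr => mem_NN (hRT r hr)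
  have hRAm : ∀ g : K, ∃ r ∈ R, ∃ a ∈ A, g = r * a := by
    intro g
    have : g ∈ ((R ⊔ A : Subgroup K) : Set K) := by rw [hRA]; trivial
    rw [Subgroup.normal_mul] at this
    obtain ⟨r, hr, a, ha, rfl⟩ := this
    exact ⟨r, hr, a, ha, rfl⟩
  have hRBm : ∀ g : K, ∃ r ∈ R, ∃ b ∈ B, g = r * b := by
    intro g
    have : g ∈ ((R ⊔ B : Subgroup K) : Set K) := by rw [hRB]; trivial
    rw [Subgroup.normal_mul] at this
    obtain ⟨r, hr, b, hb, rfl⟩ := this
    exact ⟨r, hr, b, hb, rfl⟩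
  -- `N₁ = X T`
  have hNX : ∀ n ∈ NN T, ∃ x ∈ XX T A, ∃ t ∈ T, n = x * t := by
    intro n hn
    obtain ⟨r, hr, a, ha, rfl⟩ := hRAm n
    have haN : a ∈ NN T := by
      have := (NN T).mul_mem ((NN T).inv_mem (hRN hr)) hn
      rwa [inv_mul_cancel_left] at this
    obtain ⟨c, hc, t, ht, rfl⟩ := closure_le T hconj r (by rw [hcl]; exact hr)
    refine ⟨c * a, ⟨c, hc, a, ⟨haN, ha⟩, rfl⟩, a⁻¹ * t * a, of_mem_NN' haN t ht, by group⟩
  by_contra hcon
  push Not at hcon
  obtain ⟨g₀, hg₀⟩ := hcon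
  -- representatives in `A`
  have hrep : ∀ ω : K ⧸ NN T, ∃ a ∈ A, (a : K ⧸ NN T) = ω := by
    intro ω
    obtain ⟨g, rfl⟩ := QuotientGroup.mk_surjective ω
    obtain ⟨r, hr, a, ha, h⟩ := hRAm g⁻¹
    refine ⟨a⁻¹, inv_mem ha, ?_⟩
    rw [QuotientGroup.eq]
    have h1 : a⁻¹⁻¹ * g = r⁻¹ := by
      have : g = a⁻¹ * r⁻¹ := by rw [← inv_inv g, h]; group
      rw [this]; group
    rw [h1]
    exact inv_mem (hRN hr)
  choose γ hγA hγ using hrep
  have hchoice : ∀ ω : K ⧸ NN T, ∃ t ∈ T, ∀ x ∈ XX T A, ∀ b ∈ B, t * (γ ω)⁻¹ ≠ x * b := by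
    intro ω
    by_contra hno
    push Not at hno
    obtain ⟨r₁, hr₁, b₁, hb₁, h₁⟩ := hRBm (γ ω)⁻¹
    obtain ⟨r₀, hr₀, b₀, hb₀, h₀⟩ := hRBm g₀
    obtain ⟨x, hx, t, ht, hxt⟩ := hNX (r₀ * r₁⁻¹) (hRN (mul_mem hr₀ (inv_mem hr₁)))
    obtain ⟨x', hx', b', hb', h'⟩ := hno t ht
    refine hg₀ (x * x') ((XX T A).mul_mem hx hx') (b' * (b₁⁻¹ * b₀))
      (B.mul_mem hb' (B.mul_mem (B.inv_mem hb₁) hb₀)) ?_
    calc g₀ = r₀ * b₀ := h₀
      _ = (r₀ * r₁⁻¹) * (r₁ * b₁) * (b₁⁻¹ * b₀) := by group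
      _ = (x * t) * (γ ω)⁻¹ * (b₁⁻¹ * b₀) := by rw [hxt, h₁]
      _ = x * (t * (γ ω)⁻¹) * (b₁⁻¹ * b₀) := by group
      _ = x * x' * (b' * (b₁⁻¹ * b₀)) := by rw [h']; group
  choose t ht htne using hchoice
  haveI : Fintype (K ⧸ NN T) := Fintype.ofFinite _
  obtain ⟨r, hr, hr1, -⟩ := crt T hconj R hTR γ hγ t ht Finset.univ
  obtain ⟨a, ha, b, hb, hab⟩ := hAB r
  set ω : K ⧸ NN T := (a : K ⧸ NN T) with hω
  have hmem : (γ ω)⁻¹ * a ∈ NN T := by
    have : (γ ω : K ⧸ NN T) = (a : K ⧸ NN T) := hγ ω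
    exact QuotientGroup.eq.1 this
  have hX1 : (γ ω)⁻¹ * a ∈ XX T A := inf_le_XX T A ⟨hmem, A.mul_mem (A.inv_mem (hγA ω)) ha⟩
  have hC := hr1 ω (Finset.mem_univ _)
  set c := (γ ω)⁻¹ * (r * (γ ω * t ω * (γ ω)⁻¹)⁻¹) * γ ω with hc
  refine htne ω (c⁻¹ * ((γ ω)⁻¹ * a)) (mul_mem (inv_mem (CC_le_XX T A hC)) hX1) b hb ?_
  have h1 : (γ ω)⁻¹ * r = c * (t ω * (γ ω)⁻¹) := by rw [hc]; group
  have h2 : t ω * (γ ω)⁻¹ = c⁻¹ * ((γ ω)⁻¹ * r) := by rw [h1]; group
  rw [h2, hab]
  group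

/-- The almost simple quotient `N_K(T) / C_K(T)`. -/
theorem almost (F : GrpClass) (hF : IsFormation F) (hFs : SubClosed F) (J : GrpClass)
    (hJ : IsoClosed J) (hJs : SubCF J) (hfc : FactClosed F J) (hFK : F K) (T A B : Subgroup K)
    (hTs : IsSimpleGroup T) (hTn : NonAb T) (hA : EJ J A) (hB : EJ J B)
    (hcl : ∀ g : K, ∃ x ∈ XX T A, ∃ b ∈ B, g = x * b) : J T := by
  haveI hCn : ((CC T).subgroupOf (NN T)).Normal := by
    refine ⟨fun c hc g => ?_⟩
    exact conj_CC g.2 hc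
  have hTN : T ≤ NN T := Subgroup.le_normalizer
  let τ : T →* (NN T ⧸ (CC T).subgroupOf (NN T)) :=
    (QuotientGroup.mk' _).comp (Subgroup.inclusion hTN)
  have hτ1 : ∀ x : T, τ x = 1 ↔ (x : K) ∈ CC T := by
    intro x
    show ((Subgroup.inclusion hTN x : NN T) : NN T ⧸ (CC T).subgroupOf (NN T)) = 1 ↔ _
    rw [QuotientGroup.eq_one_iff]
    rfl
  have hinj : Function.Injective τ := by
    rw [← MonoidHom.ker_eq_bot_iff]
    rcases (inferInstance : τ.ker.Normal).eq_bot_or_eq_top with h | h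
    · exact h
    · exfalso
      apply hTn
      intro a ha b hb
      have : (⟨b, hb⟩ : T) ∈ τ.ker := by rw [h]; trivial
      exact mem_CC.1 ((hτ1 _).1 this) a ha
  have hTC : ∀ x ∈ T, x ∈ CC T → x = 1 := by
    intro x hx hxC
    have h1 : τ ⟨x, hx⟩ = 1 := (hτ1 _).2 hxC
    have h2 : (⟨x, hx⟩ : T) = 1 := hinj (by rw [h1, map_one])
    exact congrArg Subtype.val h2
  have e : T ≃* τ.range := MonoidHom.ofInjective hinj
  have hsoc : IsSoc τ.range := by
    refine ⟨?_, ?_, ?_, ?_⟩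
    · refine ⟨?_⟩
      rintro _ ⟨x, rfl⟩ g
      obtain ⟨n, rfl⟩ := QuotientGroup.mk_surjective g
      refine ⟨⟨(n : K) * x * (n : K)⁻¹, of_mem_NN n.2 x x.2⟩, ?_⟩
      rfl
    · exact e.symm.isSimpleGroup
    · intro h
      apply hTn
      intro a ha b hb
      have h1 := h (τ ⟨a, ha⟩) ⟨_, rfl⟩ (τ ⟨b, hb⟩) ⟨_, rfl⟩
      rw [← map_mul, ← map_mul] at h1
      exact congrArg Subtype.val (hinj h1)
    · rw [eq_bot_iff]
      intro y hy
      obtain ⟨n, rfl⟩ := QuotientGroup.mk_surjective y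
      rw [Subgroup.mem_bot, QuotientGroup.eq_one_iff]
      show (n : K) ∈ CC T
      rw [mem_CC]
      intro t ht
      have h1 := (Subgroup.mem_centralizer_iff.1 hy) (τ ⟨t, ht⟩) ⟨_, rfl⟩
      have h2 : (((Subgroup.inclusion hTN ⟨t, ht⟩ : NN T) * n : NN T) :
          NN T ⧸ (CC T).subgroupOf (NN T)) =
          ((n * (Subgroup.inclusion hTN ⟨t, ht⟩ : NN T) : NN T) :
          NN T ⧸ (CC T).subgroupOf (NN T)) := h1
      rw [QuotientGroup.eq] at h2
      have h3 : (t * (n : K))⁻¹ * ((n : K) * t) ∈ CC T := h2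
      -- it is also in `T` after conjugation
      have h4 : (n : K) * t * (n : K)⁻¹ ∈ T := of_mem_NN n.2 t ht
      have h5 : (n : K) * ((t * (n : K))⁻¹ * ((n : K) * t)) * (n : K)⁻¹ ∈ CC T := conj_CC n.2 h3
      have h6 : (n : K) * ((t * (n : K))⁻¹ * ((n : K) * t)) * (n : K)⁻¹ =
          t⁻¹ * ((n : K) * t * (n : K)⁻¹) := by group
      rw [h6] at h5
      have h7 := hTC _ (mul_mem (inv_mem ht) h4) h5
      have h8 : (n : K) * t * (n : K)⁻¹ = t := by
        have := congrArg (t * ·) h7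
        simpa using this
      calc t * (n : K) = (n : K) * t * (n : K)⁻¹ * n := by rw [h8]
        _ = (n : K) * t := by group
  have hFA : F (NN T ⧸ (CC T).subgroupOf (NN T)) :=
    hF.quot _ _ (QuotientGroup.mk' _) (QuotientGroup.mk'_surjective _) (hFs K (NN T) hFK)
  have himg : ∀ D : Subgroup K, EJ J D →
      CompIn J ((D.subgroupOf (NN T)).map (QuotientGroup.mk' ((CC T).subgroupOf (NN T)))) := by
    intro D hD
    have h1 : EJ J (D.subgroupOf (NN T)) := by
      refine EJ.of_injective hJs (H := D)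
        ({ toFun := fun x => ⟨((x : NN T) : K), x.2⟩
           map_one' := rfl
           map_mul' := fun _ _ => rfl } : (D.subgroupOf (NN T)) →* D) ?_ hD
      intro x y hxy
      have : ((x : NN T) : K) = ((y : NN T) : K) := congrArg (fun z : D => (z : K)) hxy
      exact Subtype.ext (Subtype.ext this)
    exact Comp.ofEJ (EJ.quot _ (MonoidHom.subgroupMap_surjective _ _) h1)
  have hJT := hfc (NN T ⧸ (CC T).subgroupOf (NN T)) τ.range
    ((A.subgroupOf (NN T)).map (QuotientGroup.mk' ((CC T).subgroupOf (NN T))))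
    ((B.subgroupOf (NN T)).map (QuotientGroup.mk' ((CC T).subgroupOf (NN T))))
    hFA hsoc (himg A hA) (himg B hB) ?_
  · exact hJ _ _ e.symm hJT
  · intro y
    obtain ⟨n, rfl⟩ := QuotientGroup.mk_surjective y
    obtain ⟨x, hx, b, hb, hxb⟩ := hcl (n : K)
    have hxN := XX_le_NN T A hx
    have hbN : b ∈ NN T := by
      have h1 : b = x⁻¹ * (n : K) := by rw [hxb]; group
      rw [h1]
      exact mul_mem (inv_mem hxN) n.2
    obtain ⟨c, hc, a, ha, rfl⟩ := hx
    refine ⟨((⟨a, ha.1⟩ : NN T) : NN T ⧸ (CC T).subgroupOf (NN T)), ⟨⟨a, ha.1⟩, ha.2, rfl⟩,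
      ((⟨b, hbN⟩ : NN T) : NN T ⧸ (CC T).subgroupOf (NN T)), ⟨⟨b, hbN⟩, hb, rfl⟩, ?_⟩
    have h1 : ((n : NN T) : NN T ⧸ (CC T).subgroupOf (NN T)) =
        (((⟨a, ha.1⟩ : NN T) * (⟨b, hbN⟩ : NN T) : NN T) : NN T ⧸ (CC T).subgroupOf (NN T)) := by
      rw [QuotientGroup.eq]
      show (n : K)⁻¹ * (a * b) ∈ CC T
      have h2 : (n : K)⁻¹ * (a * b) = (a * b)⁻¹ * c⁻¹ * ((a * b)⁻¹)⁻¹ := by rw [hxb]; group
      rw [h2]
      exact conj_CC (inv_mem (mul_mem ha.1 hbN)) (inv_mem hc)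
    exact h1

/-- A group generated by normal subgroups with the composition factors in `J`. -/
theorem gen (J : GrpClass) (R : Type) [Group R] [Finite R] (s : Set R)
    (hs : Subgroup.closure s = ⊤)
    (h : ∀ x ∈ s, ∃ N : Subgroup R, N.Normal ∧ EJ J N ∧ x ∈ N) : EJ J R := by
  have key : ∀ u : Set R, u.Finite → u ⊆ s → ∃ N : Subgroup R, N.Normal ∧ EJ J N ∧ u ⊆ N := by
    intro u hu
    induction u, hu using Set.Finite.induction_on with
    | empty =>
      intro _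
      exact ⟨⊥, inferInstance, EJ.of_subsingleton, Set.empty_subset _⟩
    | insert _ _ ih =>
      rename_i x u hx hu
      intro hsub
      obtain ⟨N, hN, hNJ, hsN⟩ := ih ((Set.subset_insert _ _).trans hsub)
      obtain ⟨M, hM, hMJ, hxM⟩ := h x (hsub (Set.mem_insert _ _))
      haveI := hN
      haveI := hM
      refine ⟨M ⊔ N, inferInstance, EJ.sup M N hMJ hNJ, ?_⟩
      rintro y (rfl | hy)
      · exact (le_sup_left : M ≤ M ⊔ N) hxM
      · exact (le_sup_right : N ≤ M ⊔ N) (hsN hy)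
  obtain ⟨N, hN, hNJ, hu⟩ := key s (Set.toFinite s) le_rfl
  have : N = ⊤ := by
    rw [eq_top_iff, ← hs, Subgroup.closure_le]
    exact hu
  subst this
  exact EJ.iso Subgroup.topEquiv hNJ

/-- The product of the conjugates of `T`. -/
theorem conjs (J : GrpClass) (R T : Subgroup K) [R.Normal] (hTR : T ≤ R)
    (hcl : Subgroup.normalClosure (T : Set K) = R) (hRT : ∀ r ∈ R, ∀ t ∈ T, r * t * r⁻¹ ∈ T)
    (hT : EJ J T) : EJ J R := by
  have hRn : R.Normal := inferInstance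
  refine gen J R {x | (x : K) ∈ Group.conjugatesOfSet (T : Set K)} ?_ ?_
  · rw [eq_top_iff]
    rintro ⟨r, hr⟩ -
    have h1 : (Subgroup.closure {x : R | (x : K) ∈ Group.conjugatesOfSet (T : Set K)}).map
        R.subtype = R := by
      rw [MonoidHom.map_closure]
      have h2 : R.subtype '' {x : R | (x : K) ∈ Group.conjugatesOfSet (T : Set K)} =
          Group.conjugatesOfSet (T : Set K) := by
        ext y
        constructor
        · rintro ⟨x, hx, rfl⟩
          exact hx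
        · intro hy
          have hyR : y ∈ R := by
            rw [← hcl]
            exact Subgroup.subset_closure hy
          exact ⟨⟨y, hyR⟩, hy, rfl⟩
      rw [h2]
      exact hcl
    have h3 : r ∈ (Subgroup.closure {x : R | (x : K) ∈ Group.conjugatesOfSet (T : Set K)}).map
        R.subtype := by
      rw [h1]
      exact hr
    obtain ⟨x, hx, hxr⟩ := h3
    have : x = ⟨r, hr⟩ := Subtype.ext hxr
    rw [← this]
    exact hx
  · rintro ⟨x, hxR⟩ hx
    obtain ⟨t, ht, htx⟩ := Group.mem_conjugatesOfSet_iff.1 hx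
    obtain ⟨g, hg⟩ := isConj_iff.1 htx
    let Tg : Subgroup K := T.map (MulAut.conj g).toMonoidHom
    have hTgR : Tg ≤ R := by
      rintro _ ⟨y, hy, rfl⟩
      exact hRn.conj_mem y (hTR hy) g
    have e1 : T ≃* Tg :=
      Subgroup.equivMapOfInjective T (MulAut.conj g).toMonoidHom (MulAut.conj g).injective
    have e2 : Tg.subgroupOf R ≃* Tg := Subgroup.subgroupOfEquivOfLe hTgR
    refine ⟨Tg.subgroupOf R, ?_, EJ.iso (e1.trans e2.symm) hT, ?_⟩
    · refine ⟨?_⟩
      rintro ⟨n, hn⟩ hn' ⟨r, hr⟩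
      obtain ⟨y, hy, hyn⟩ := hn'
      have hyn' : g * y * g⁻¹ = n := hyn
      refine ⟨(g⁻¹ * r * g) * y * (g⁻¹ * r * g)⁻¹, hRT _ ?_ y hy, ?_⟩
      · have := hRn.conj_mem r hr g⁻¹
        rwa [inv_inv] at this
      · show g * ((g⁻¹ * r * g) * y * (g⁻¹ * r * g)⁻¹) * g⁻¹ = r * n * r⁻¹
        rw [← hyn']
        group
    · exact ⟨t, ht, hg⟩

/-- `|K|` divides `|A| |B|`. -/
theorem card_dvd (A B : Subgroup K) (hAB : Prd A B) : Nat.card K ∣ Nat.card A * Nat.card B := by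
  haveI : MulAction.IsPretransitive A (K ⧸ B) := by
    refine ⟨?_⟩
    intro x y
    obtain ⟨g, rfl⟩ := QuotientGroup.mk_surjective x
    obtain ⟨h, rfl⟩ := QuotientGroup.mk_surjective y
    obtain ⟨a, ha, b, hb, rfl⟩ := hAB g
    obtain ⟨a', ha', b', hb', rfl⟩ := hAB h
    refine ⟨⟨a' * a⁻¹, A.mul_mem ha' (A.inv_mem ha)⟩, ?_⟩
    show (((a' * a⁻¹) * (a * b) : K) : K ⧸ B) = ((a' * b' : K) : K ⧸ B)
    rw [QuotientGroup.eq]
    have : (a' * a⁻¹ * (a * b))⁻¹ * (a' * b') = b⁻¹ * b' := by group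
    rw [this]
    exact B.mul_mem (B.inv_mem hb) hb'
  have h1 := MulAction.index_stabilizer_of_transitive A ((1 : K) : K ⧸ B)
  have h2 : B.index ∣ Nat.card A := by
    have h3 : B.index = Nat.card (K ⧸ B) := rfl
    rw [h3, ← h1]
    exact Subgroup.index_dvd_card _
  rw [← Subgroup.index_mul_card B]
  exact Nat.mul_dvd_mul h2 dvd_rfl

end AS

open AS in
theorem asStmt (hCent : CentStmt) (hSoc : SocStmt) : ASStmt := by
  intro F hF hFs J hJ hJh hfc
  have hJs : SubCF J := Comp.subCF hJ hJh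
  have key : ∀ (n : ℕ) (K : Type) [Group K] [Finite K], Nat.card K = n → F K →
      ∀ A B : Subgroup K, EJ J A → EJ J B → Prd A B → EJ J K := by
    intro n
    induction n using Nat.strong_induction_on with
    | _ n ih =>
      intro K _ _ hn hFK A B hA hB hAB
      rcases subsingleton_or_nontrivial K with hs | hnt
      · exact EJ.of_subsingleton
      have htop : (⊤ : Subgroup K) ≠ ⊥ := by
        intro h
        obtain ⟨x, hx⟩ := exists_ne (1 : K)
        have : x ∈ (⊥ : Subgroup K) := by rw [← h]; trivial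
        exact hx (Subgroup.mem_bot.1 this)
      obtain ⟨R, hRc, -⟩ := (hCent.2.1 K ⊤ inferInstance htop).2
      haveI hRn : R.Normal := hRc.nH
      have hRb : R ≠ ⊥ := hRc.lt.ne'
      -- the quotient
      have hQ : EJ J (K ⧸ R) := by
        have hmul : Nat.card K = Nat.card (K ⧸ R) * Nat.card R :=
          Subgroup.card_eq_card_quotient_mul_card_subgroup R
        have h1 : 1 < Nat.card R := by
          rw [Finite.one_lt_card_iff_nontrivial]
          exact (Subgroup.nontrivial_iff_ne_bot R).2 hRb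
        have h2 : 0 < Nat.card (K ⧸ R) := Nat.card_pos
        refine ih (Nat.card (K ⧸ R)) (by rw [← hn, hmul]; nlinarith) (K ⧸ R) rfl
          (hF.quot K _ _ (QuotientGroup.mk'_surjective R) hFK)
          (A.map (QuotientGroup.mk' R)) (B.map (QuotientGroup.mk' R))
          (EJ.quot _ (MonoidHom.subgroupMap_surjective _ _) hA)
          (EJ.quot _ (MonoidHom.subgroupMap_surjective _ _) hB) ?_
        intro y
        obtain ⟨g, rfl⟩ := QuotientGroup.mk_surjective y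
        obtain ⟨a, ha, b, hb, rfl⟩ := hAB g
        exact ⟨(a : K ⧸ R), ⟨a, ha, rfl⟩, (b : K ⧸ R), ⟨b, hb, rfl⟩, rfl⟩
      suffices hR : EJ J R from EJ.ext' R hR hQ
      by_contra hR
      -- nonabelian
      have hna : NonAb R := by
        intro hab
        apply hR
        refine EJ.of_comm ?_ ?_
        · rintro ⟨x, hx⟩ ⟨y, hy⟩
          exact Subtype.ext (hab x hx y hy)
        · intro q hq hd X _ hX
          have hdK : q ∣ Nat.card K := hd.trans (Subgroup.card_subgroup_dvd_card R)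
          have hdAB : q ∣ Nat.card A * Nat.card B := hdK.trans (card_dvd A B hAB)
          rcases (Nat.Prime.dvd_mul hq).1 hdAB with h | h
          · exact EJ.cyclic hJs hA q hq h hX
          · exact EJ.cyclic hJs hB q hq h hX
      -- the factorizer of `R`
      have hL : (R ⊔ A) ⊓ (R ⊔ B) = ⊤ := by
        by_contra hLt
        apply hR
        set L : Subgroup K := (R ⊔ A) ⊓ (R ⊔ B) with hLdef
        have hcard : Nat.card L < n := by
          rw [← hn]
          rcases lt_or_eq_of_le (Subgroup.card_le_card_group L) with h | h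
          · exact h
          · exact absurd (Subgroup.eq_top_of_card_eq L h) hLt
        have hmono : ∀ D : Subgroup K, EJ J D → EJ J (D.subgroupOf L) := by
          intro D hD
          refine EJ.of_injective hJs (H := D)
            ({ toFun := fun x => ⟨((x : L) : K), x.2⟩
               map_one' := rfl
               map_mul' := fun _ _ => rfl } : (D.subgroupOf L) →* D) ?_ hD
          intro x y hxy
          have : ((x : L) : K) = ((y : L) : K) := congrArg (fun z : D => (z : K)) hxy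
          exact Subtype.ext (Subtype.ext this)
        have hEL : EJ J L := by
          refine ih _ hcard L rfl (hFs K L hFK) (A.subgroupOf L) (B.subgroupOf L)
            (hmono A hA) (hmono B hB) ?_
          rintro ⟨g, hg⟩
          obtain ⟨a, ha, b, hb, hab⟩ := hAB g
          have haL : a ∈ L := by
            refine ⟨(le_sup_right : A ≤ R ⊔ A) ha, ?_⟩
            have h1 : a = g * b⁻¹ := by rw [hab]; group
            rw [h1]
            exact (R ⊔ B).mul_mem hg.2 ((R ⊔ B).inv_mem ((le_sup_right : B ≤ R ⊔ B) hb))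
          have hbL : b ∈ L := by
            have h1 : b = a⁻¹ * g := by rw [hab]; group
            rw [h1]
            exact L.mul_mem (L.inv_mem haL) hg
          exact ⟨⟨a, haL⟩, ha, ⟨b, hbL⟩, hb, Subtype.ext hab⟩
        have hRL : R ≤ L := le_inf le_sup_left le_sup_left
        exact EJ.iso (Subgroup.subgroupOfEquivOfLe hRL) (EJ.normal (R.subgroupOf L) hEL)
      have hRA : R ⊔ A = ⊤ := by
        rw [eq_top_iff, ← hL]
        exact inf_le_left
      have hRB : R ⊔ B = ⊤ := by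
        rw [eq_top_iff, ← hL]
        exact inf_le_right
      obtain ⟨T, hTR, hTs, hTn, hconj, hcl, hRT⟩ := hSoc.1 K R hRc hna
      have hclaim := claim R T A B hTR hconj hcl hRT hAB hRA hRB
      have hJT : J T := almost F hF hFs J hJ hJs hfc hFK T A B hTs hTn hA hB hclaim
      have hET : EJ J T := EJ.of_simple hJ hTs hJT
      exact hR (conjs J R T hTR hcl hRT hET)
  intro K _ _ hFK A B hA hB hAB
  exact Comp.ofEJ (key _ K rfl hFK A B (Comp.toEJ hJ hA) (Comp.toEJ hJ hB) hAB)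

end Pool.Agent.Lib.MP_de73ed_al_H
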