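import Pool.Agent.Lib.MP_de73ed_al_H.Spec

set_option linter.all false
set_option autoImplicit false

/-! Module AutS: the almost simple group of the automorphisms of a component. -/

namespace Pool.Agent.Lib.MP_de73ed_al_H

open Pool.Agent.Lib.MP_de73ed_al

namespace AutSM

theorem ex_lift {A B C : Type} [Group A] [Group B] [Group C] (f : A →* B)
    (hf : Function.Surjective f) (g : A →* C) (h : f.ker ≤ g.ker) :
    ∃ φ : B →* C, ∀ a, φ (f a) = g a :=
  ⟨f.liftOfSurjective hf ⟨g, h⟩, fun a => MonoidHom.liftOfRightInverse_comp_apply f _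
    (Function.rightInverse_surjInv hf) ⟨g, h⟩ a⟩

/-- An element of a nonabelian simple group which commutes with all elements is trivial. -/
theorem center_simple {S : Type} [Group S] (hs : IsSimpleGroup S)
    (hn : ¬ ∀ a b : S, a * b = b * a) (x : S) (hx : ∀ y : S, x * y = y * x) : x = 1 := by
  have h1 : x ∈ Subgroup.center S := by
    rw [Subgroup.mem_center_iff]
    intro g
    exact (hx g).symm
  rcases hs.eq_bot_or_eq_top_of_normal (Subgroup.center S) inferInstance with h | h
  · rw [h, Subgroup.mem_bot] at h1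
    exact h1
  · exfalso
    apply hn
    intro a b
    have h2 : a ∈ Subgroup.center S := by rw [h]; exact Subgroup.mem_top a
    rw [Subgroup.mem_center_iff] at h2
    exact (h2 b).symm

/-- The elements of the normal closure of `S` induce inner automorphisms on `S`. -/
theorem inner {G : Type} [Group G] (S : Subgroup G) (hS : IsComp S) (n : G)
    (hn : n ∈ Subgroup.normalClosure (S : Set G)) :
    ∃ t ∈ S, ∀ s ∈ S, n * s * n⁻¹ = t * s * t⁻¹ := by
  let Q : Subgroup G :=
    { carrier := {n | ∃ t ∈ S, ∀ s ∈ S, n * s * n⁻¹ = t * s * t⁻¹}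
      one_mem' := ⟨1, S.one_mem, fun s _ => rfl⟩
      mul_mem' := by
        rintro a b ⟨t, ht, h1⟩ ⟨u, hu, h2⟩
        refine ⟨t * u, S.mul_mem ht hu, ?_⟩
        intro s hs
        have h3 : a * b * s * (a * b)⁻¹ = a * (b * s * b⁻¹) * a⁻¹ := by group
        rw [h3, h2 s hs, h1 _ (S.mul_mem (S.mul_mem hu hs) (S.inv_mem hu))]
        group
      inv_mem' := by
        rintro a ⟨t, ht, h1⟩
        refine ⟨t⁻¹, S.inv_mem ht, ?_⟩
        intro s hs
        have h2 : t⁻¹ * s * t ∈ S := S.mul_mem (S.mul_mem (S.inv_mem ht) hs) ht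
        have h3 := h1 _ h2
        have h4 : t * (t⁻¹ * s * t) * t⁻¹ = s := by group
        rw [h4] at h3
        have h5 : a⁻¹ * s * a = t⁻¹ * s * t := by
          calc a⁻¹ * s * a = a⁻¹ * (a * (t⁻¹ * s * t) * a⁻¹) * a := by rw [h3]
            _ = t⁻¹ * s * t := by group
        rw [inv_inv, inv_inv]
        exact h5 }
  have hQ : Subgroup.normalClosure (S : Set G) ≤ Q := by
    rw [Subgroup.normalClosure, Subgroup.closure_le]
    intro x hx
    obtain ⟨a, ha, hax⟩ := Group.mem_conjugatesOfSet_iff.1 hx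
    obtain ⟨g, rfl⟩ := isConj_iff.1 hax
    rcases hS.conj g with h | h
    · exact ⟨g * a * g⁻¹, h a ha, fun s _ => rfl⟩
    · refine ⟨1, S.one_mem, ?_⟩
      intro s hs
      rw [h a ha s hs]
      group
  exact hQ hn

/-- Inner automorphisms of `S` as elements of `AutG S`. -/
def toA {G : Type} [Group G] (S : Subgroup G) : S →* AutG S where
  toFun t := ⟨MulAut.conj t, ⟨⟨(t : G), Subgroup.le_normalizer t.2⟩, by
    ext s
    rfl⟩⟩
  map_one' := by
    apply Subtype.ext
    exact map_one MulAut.conj
  map_mul' a b := by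
    apply Subtype.ext
    exact map_mul MulAut.conj a b

theorem toA_coe {G : Type} [Group G] (S : Subgroup G) (t : S) :
    ((toA S t : AutG S) : MulAut S) = MulAut.conj t := rfl

end AutSM

open AutSM in
theorem autSStmt : SocStmt → AutSStmt := by
  intro _ G _ _ S hS
  have hnab : ¬ ∀ a b : S, a * b = b * a := by
    intro h
    apply hS.nonab
    intro a ha b hb
    exact congrArg Subtype.val (h ⟨a, ha⟩ ⟨b, hb⟩)
  have hinj : Function.Injective (toA S) := by
    rw [injective_iff_map_eq_one]
    intro t ht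
    apply center_simple hS.simple hnab
    intro y
    have h1 : MulAut.conj t y = y := by
      have h2 := congrArg (fun a : AutG S => (a : MulAut S) y) ht
      exact h2
    rw [MulAut.conj_apply, mul_inv_eq_iff_eq_mul] at h1
    exact h1
  have hmem : ∀ a : AutG S, a ∈ (toA S).range ↔ ∃ t : S, (a : MulAut S) = MulAut.conj t := by
    intro a
    constructor
    · rintro ⟨t, rfl⟩
      exact ⟨t, rfl⟩
    · rintro ⟨t, ht⟩
      exact ⟨t, Subtype.ext ht.symm⟩
  have e : S ≃* (toA S).range := MonoidHom.ofInjective hinj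
  have hconj : ∀ (a : AutG S) (t : S), a * toA S t * a⁻¹ = toA S ((a : MulAut S) t) := by
    intro a t
    apply Subtype.ext
    ext s
    change (((a : MulAut S) (t * (((a⁻¹ : AutG S) : MulAut S) s) * t⁻¹) : S) : G) =
      (((a : MulAut S) t * s * ((a : MulAut S) t)⁻¹ : S) : G)
    rw [map_mul, map_mul, map_inv]
    have h1 : (a : MulAut S) (((a⁻¹ : AutG S) : MulAut S) s) = s := by
      rw [Subgroup.coe_inv, MulAut.apply_inv_self]
    rw [h1]
  refine ⟨(toA S).range, ⟨?_, ?_, ?_, ?_⟩, ⟨e⟩, hmem, ?_⟩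
  · refine ⟨?_⟩
    rintro _ ⟨t, rfl⟩ a
    rw [hconj]
    exact ⟨_, rfl⟩
  · haveI := hS.simple
    exact e.symm.isSimpleGroup
  · intro h
    apply hnab
    intro a b
    apply hinj
    rw [map_mul, map_mul]
    exact h _ ⟨a, rfl⟩ _ ⟨b, rfl⟩
  · rw [eq_bot_iff]
    intro a ha
    rw [Subgroup.mem_centralizer_iff] at ha
    rw [Subgroup.mem_bot]
    apply Subtype.ext
    apply MulEquiv.ext
    intro t
    have h1 := ha _ ⟨t, rfl⟩
    have h2 : a * toA S t * a⁻¹ = toA S t := by
      rw [← h1, mul_inv_cancel_right]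
    rw [hconj] at h2
    exact hinj h2
  · intro hT
    have hker : ((QuotientGroup.mk' (Subgroup.normalClosure (S : Set G))).subgroupMap
        (Subgroup.normalizer (S : Set G))).ker ≤
        ((QuotientGroup.mk' (toA S).range).comp S.normalizerMonoidHom.rangeRestrict).ker := by
      intro n hn
      rw [MonoidHom.mem_ker] at hn
      have h1 : (QuotientGroup.mk' (Subgroup.normalClosure (S : Set G))) (n : G) = 1 :=
        congrArg Subtype.val hn
      rw [QuotientGroup.mk'_apply, QuotientGroup.eq_one_iff] at h1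
      obtain ⟨t, ht, h2⟩ := inner S hS n h1
      rw [MonoidHom.mem_ker]
      change QuotientGroup.mk' (toA S).range (S.normalizerMonoidHom.rangeRestrict n) = 1
      rw [QuotientGroup.mk'_apply, QuotientGroup.eq_one_iff]
      refine ⟨⟨t, ht⟩, ?_⟩
      apply Subtype.ext
      apply MulEquiv.ext
      intro s
      apply Subtype.ext
      exact (h2 s s.2).symm
    obtain ⟨φ, hφ⟩ := ex_lift _ (MonoidHom.subgroupMap_surjective _ _) _ hker
    refine ⟨(Subgroup.normalizer (S : Set G)).map
      (QuotientGroup.mk' (Subgroup.normalClosure (S : Set G))), φ, ?_⟩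
    intro q
    obtain ⟨a, rfl⟩ := QuotientGroup.mk'_surjective (toA S).range q
    obtain ⟨n, rfl⟩ := MonoidHom.rangeRestrict_surjective S.normalizerMonoidHom a
    exact ⟨_, hφ n⟩

end Pool.Agent.Lib.MP_de73ed_al_H
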