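import Pool.Agent.Lib.MP_de73ed_al_H.Spec

set_option linter.all false
set_option autoImplicit false

/-! Module CA: the condition (a). -/

namespace Pool.Agent.Lib.MP_de73ed_al_H

open Pool.Agent.Lib.MP_de73ed_al

namespace CAM

theorem iso {F : GrpClass} (hF : IsFormation F) {X Y : Type} [Group X] [Group Y] (e : X ≃* Y)
    (h : F X) : F Y :=
  hF.quot X Y e.toMonoidHom e.surjective h

theorem emb {F : GrpClass} (hF : IsFormation F) (hs : SubClosed F) {X Y : Type} [Group X] [Group Y]
    (f : X →* Y) (hf : Function.Injective f) (h : F Y) : F X :=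
  iso hF (MonoidHom.ofInjective hf).symm (hs Y f.range h)

theorem subdirect {H : GrpClass} (hH : IsFormation H) (X : Type) [Group X] [Finite X]
    (ι : Type) [Finite ι] [Nonempty ι] (Y : ι → Type) [∀ i, Group (Y i)] (f : ∀ i, X →* Y i)
    (hf : ∀ i, Function.Surjective (f i)) (hY : ∀ i, H (Y i))
    (hinj : ∀ x, (∀ i, f i x = 1) → x = 1) : H X := by
  classical
  haveI := Fintype.ofFinite ι
  have key : ∀ s : Finset ι, ∃ (N : Subgroup X) (_ : N.Normal),
      (∀ x ∈ N, ∀ i ∈ s, f i x = 1) ∧ H (X ⧸ N) := by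
    intro s
    induction s using Finset.induction_on with
    | empty =>
      refine ⟨⊤, inferInstance, fun x _ i hi => absurd hi (Finset.notMem_empty i), ?_⟩
      obtain ⟨i⟩ := ‹Nonempty ι›
      haveI : Subsingleton (X ⧸ (⊤ : Subgroup X)) := QuotientGroup.subsingleton_quotient_top
      exact hH.quot (Y i) _ 1 (fun y => ⟨1, Subsingleton.elim _ _⟩) (hY i)
    | insert a s ha ih =>
      obtain ⟨N, hN, h1, h2⟩ := ih
      have h3 : H (X ⧸ (f a).ker) :=
        iso hH (QuotientGroup.quotientKerEquivOfSurjective (f a) (hf a)).symm (hY a)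
      refine ⟨(f a).ker ⊓ N, inferInstance, ?_, hH.inf X _ _ h3 h2⟩
      intro x hx i hi
      rcases Finset.mem_insert.1 hi with rfl | hi
      · exact hx.1
      · exact h1 x hx.2 i hi
  obtain ⟨N, hN, h1, h2⟩ := key Finset.univ
  have h3 : Function.Injective (QuotientGroup.mk' N) := by
    rw [injective_iff_map_eq_one]
    intro x hx
    exact hinj x fun i => h1 x ((QuotientGroup.eq_one_iff x).1 hx) i (Finset.mem_univ i)
  exact iso hH (MulEquiv.ofBijective (QuotientGroup.mk' N)
    ⟨h3, QuotientGroup.mk'_surjective N⟩).symm h2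

theorem wrc_congr {F : GrpClass} (hF : IsFormation F) {S T X : Type} [Group S] [Group T] [Group X]
    (e : S ≃* T) (h : Wrc F S X) : Wrc F T X :=
  iso hF (RegularWreathProduct.congr e (MulEquiv.refl X)) h

variable {G : Type} [Group G]

theorem mem_norm [Finite G] (S : Subgroup G) (x : G) (h : ∀ s ∈ S, x * s * x⁻¹ ∈ S) :
    x ∈ Subgroup.normalizer (S : Set G) := by
  have hle : S.map (MulAut.conj x).toMonoidHom ≤ S := by
    rintro _ ⟨s, hs, rfl⟩
    exact h s hs
  have heq : S.map (MulAut.conj x).toMonoidHom = S := by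
    apply Subgroup.eq_of_le_of_card_ge hle
    rw [Subgroup.card_map_of_injective (MulAut.conj x).injective]
  rw [Subgroup.mem_normalizer_iff]
  intro s
  refine ⟨fun hs => h s hs, fun hs => ?_⟩
  have hs2 : x * s * x⁻¹ ∈ S.map (MulAut.conj x).toMonoidHom := by rw [heq]; exact hs
  obtain ⟨s', hs', he⟩ := hs2
  have h2 : s' = s := (MulAut.conj x).injective he
  exact h2 ▸ hs'

theorem nc_smul (S : Subgroup G) (hN : ∀ r ∈ Subgroup.normalClosure (S : Set G),
    r ∈ Subgroup.normalizer (S : Set G)) (n : G) (hn : n ∈ Subgroup.normalClosure (S : Set G))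
    (ω : G ⧸ Subgroup.normalizer (S : Set G)) : n • ω = ω := by
  induction ω using QuotientGroup.induction_on with
  | H x =>
    show ((n * x : G) : G ⧸ Subgroup.normalizer (S : Set G)) = (x : G ⧸ _)
    apply Eq.symm
    apply QuotientGroup.eq.2
    apply hN
    have h1 := (Subgroup.normalClosure_normal (s := (S : Set G))).conj_mem n hn x⁻¹
    rw [inv_inv] at h1
    rw [← mul_assoc]
    exact h1

/-- `S` embeds in the group of its automorphisms induced by `G`. -/
theorem F_S {F : GrpClass} (hF : IsFormation F) (hs : SubClosed F) (S : Subgroup G) (hS : IsComp S)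
    (h : F (AutG S)) : F S := by
  have hle : S ≤ Subgroup.normalizer (S : Set G) := Subgroup.le_normalizer
  let f : S →* AutG S := S.normalizerMonoidHom.rangeRestrict.comp (Subgroup.inclusion hle)
  refine emb hF hs f ?_ h
  rw [injective_iff_map_eq_one]
  intro s hs1
  have h1 : S.normalizerMonoidHom (Subgroup.inclusion hle s) = 1 := congrArg Subtype.val hs1
  have h2 : ∀ t : S, s * t = t * s := by
    intro t
    have h3 : (s : G) * t * (s : G)⁻¹ = t := congrArg Subtype.val (DFunLike.congr_fun h1 t)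
    apply Subtype.ext
    show (s : G) * t = t * s
    calc (s : G) * t = ((s : G) * t * (s : G)⁻¹) * s := by group
      _ = t * s := by rw [h3]
  haveI := hS.simple
  have h4 : s ∈ Subgroup.center S := Subgroup.mem_center_iff.2 fun t => (h2 t).symm
  rcases (inferInstance : (Subgroup.center S).Normal).eq_bot_or_eq_top with h5 | h5
  · rw [h5] at h4
    exact h4
  · exfalso
    apply hS.nonab
    intro a ha b hb
    have h6 : (⟨a, ha⟩ : S) ∈ Subgroup.center S := by rw [h5]; trivial
    have h7 := Subgroup.mem_center_iff.1 h6 ⟨b, hb⟩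
    exact (congrArg Subtype.val h7).symm

theorem F_AutG {F : GrpClass} (hF : IsFormation F) (hs : SubClosed F) (S : Subgroup G) (h : F G) :
    F (AutG S) :=
  hF.quot _ _ S.normalizerMonoidHom.rangeRestrict (MonoidHom.rangeRestrict_surjective _)
    (hs G _ h)

theorem F_PermG {F : GrpClass} (hF : IsFormation F) (S : Subgroup G)
    (hN : ∀ r ∈ Subgroup.normalClosure (S : Set G), r ∈ Subgroup.normalizer (S : Set G))
    (h : F (G ⧸ Subgroup.normalClosure (S : Set G))) : F (PermG S) := by
  have hk : ∀ n ∈ Subgroup.normalClosure (S : Set G),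
      (MulAction.toPermHom G (G ⧸ Subgroup.normalizer (S : Set G))).rangeRestrict n = 1 := by
    intro n hn
    apply Subtype.ext
    apply Equiv.ext
    intro ω
    exact nc_smul S hN n hn ω
  refine hF.quot _ _ (QuotientGroup.lift (Subgroup.normalClosure (S : Set G))
    (MulAction.toPermHom G (G ⧸ Subgroup.normalizer (S : Set G))).rangeRestrict hk) ?_ h
  intro y
  obtain ⟨g, hg⟩ := MonoidHom.rangeRestrict_surjective _ y
  exact ⟨(g : G ⧸ _), hg⟩

/-- The induction hypothesis for groups of order less than `n`. -/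
def IH (F : GrpClass) (n : ℕ) : Prop :=
  ∀ (G : Type) [Group G] [Finite G] (S : Subgroup G), Nat.card G < n → IsComp S →
    F (G ⧸ Subgroup.normalClosure (S : Set G)) → F (AutG S) → (F G ↔ Wrc F S (PermG S))

theorem step {F : GrpClass} (hF : IsFormation F) (hs : SubClosed F) (hSub : SubStmt) [Finite G]
    (S B : Subgroup G) (hW : IsFormation (Wrc F S)) (hWs : SubClosed (Wrc F S))
    (ih : IH F (Nat.card G)) (hS : IsComp S) (hQ : F (G ⧸ Subgroup.normalClosure (S : Set G)))
    (hA : F (AutG S)) (hB : Subgroup.normalClosure (S : Set G) ≤ B) (hBt : B ≠ ⊤) :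
    (F B → Wrc F S (PermB S B)) ∧ (Wrc F S (PermG S) → F B) := by
  obtain ⟨K, hK, T, ρ, h1, h2, h3⟩ := hSub G S B hS hB
  have hcard : Nat.card B < Nat.card G := by
    by_contra hc
    exact hBt (Subgroup.eq_top_of_le_card B (not_lt.1 hc))
  have hcg : ∀ g, Nat.card (B ⧸ K g) < Nat.card G := fun g =>
    lt_of_le_of_lt (Nat.card_le_card_of_surjective _ (QuotientGroup.mk'_surjective (K g))) hcard
  have key : ∀ g, (F (B ⧸ K g) ↔ Wrc F (T g) (PermG (T g))) := by
    intro g
    obtain ⟨hT, -, -, ⟨U, φ, hφ⟩, ⟨ψ, hψ⟩⟩ := h3 g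
    exact ih (B ⧸ K g) (T g) (hcg g) hT (hF.quot _ _ φ hφ (hs _ U hQ)) (emb hF hs ψ hψ hA)
  constructor
  · intro hFB
    refine subdirect hW (PermB S B) G (fun g => PermG (T g)) ρ (fun g => (h3 g).2.2.1) ?_ h2
    intro g
    obtain ⟨-, ⟨e⟩, -⟩ := h3 g
    exact wrc_congr hF e ((key g).1 (hF.quot _ _ (QuotientGroup.mk' (K g))
      (QuotientGroup.mk'_surjective _) hFB))
  · intro hP
    have hle : PermB S B ≤ PermG S := Subgroup.map_le_range _ _
    have hPB : Wrc F S (PermB S B) :=
      iso hW (Subgroup.subgroupOfEquivOfLe hle) (hWs _ ((PermB S B).subgroupOf (PermG S)) hP)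
    refine subdirect hF B G (fun g => B ⧸ K g) (fun g => QuotientGroup.mk' (K g))
      (fun g => QuotientGroup.mk'_surjective _) ?_ ?_
    · intro g
      obtain ⟨-, ⟨e⟩, hρ, -⟩ := h3 g
      exact (key g).2 (wrc_congr hF e.symm (hW.quot _ _ (ρ g) hρ hPB))
    · intro b hb
      exact h1 b fun g => (QuotientGroup.eq_one_iff b).1 (hb g)

theorem main {F : GrpClass} (hloc : IsLocal F) (hs : SubClosed F) (hP : PrdC F) (hI : CondI F)
    (hO : OutSol F) (hSub : SubStmt) (hCore : CoreStmt) (hSoc : SocStmt) (hKA : KAStmt)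
    (hKB : KBStmt) : ∀ n : ℕ, ∀ (G : Type) [Group G] [Finite G] (S : Subgroup G), Nat.card G = n →
      IsComp S → F (G ⧸ Subgroup.normalClosure (S : Set G)) → F (AutG S) →
      (F G ↔ Wrc F S (PermG S)) := by
  have hF : IsFormation F := hloc.1
  intro n
  induction n using Nat.strong_induction_on with
  | _ n ih =>
    intro G _ _ S hn hS hQ hA
    have ih' : IH F (Nat.card G) := fun G' _ _ S' hc hS' hQ' hA' =>
      ih (Nat.card G') (hn ▸ hc) G' S' rfl hS' hQ' hA'
    by_cases hu : ∀ A B : Subgroup (G ⧸ Subgroup.normalClosure (S : Set G)), Prd A B →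
        A = ⊤ ∨ B = ⊤
    · exact hCore F hloc hs hP hI hO G S hS hQ hA hu
    · push Not at hu
      obtain ⟨A, B, hAB, hAt, hBt⟩ := hu
      have hFS : F S := F_S hF hs S hS hA
      obtain ⟨hK1, hK2, -⟩ := hKB F hF hs hP S hFS
      have hWs : SubClosed (Wrc F S) := (hKA F hF hs S).2.1
      have hN : ∀ r ∈ Subgroup.normalClosure (S : Set G), r ∈ Subgroup.normalizer (S : Set G) :=
        fun r hr => mem_norm S r ((hSoc.2 G S hS).1 r hr)
      have hmk := QuotientGroup.mk'_surjective (Subgroup.normalClosure (S : Set G))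
      have hle : ∀ D : Subgroup (G ⧸ Subgroup.normalClosure (S : Set G)),
          Subgroup.normalClosure (S : Set G) ≤
            D.comap (QuotientGroup.mk' (Subgroup.normalClosure (S : Set G))) := by
        intro D x hx
        have h1 : QuotientGroup.mk' (Subgroup.normalClosure (S : Set G)) x = 1 :=
          (QuotientGroup.eq_one_iff x).2 hx
        show QuotientGroup.mk' (Subgroup.normalClosure (S : Set G)) x ∈ D
        rw [h1]
        exact D.one_mem
      have htop : ∀ D : Subgroup (G ⧸ Subgroup.normalClosure (S : Set G)), D ≠ ⊤ →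
          D.comap (QuotientGroup.mk' (Subgroup.normalClosure (S : Set G))) ≠ ⊤ := by
        intro D hD h1
        apply hD
        rw [eq_top_iff]
        intro y _
        obtain ⟨x, rfl⟩ := hmk y
        have h2 : x ∈ D.comap (QuotientGroup.mk' (Subgroup.normalClosure (S : Set G))) := by
          rw [h1]; trivial
        exact h2
      have hprd : Prd (A.comap (QuotientGroup.mk' (Subgroup.normalClosure (S : Set G))))
          (B.comap (QuotientGroup.mk' (Subgroup.normalClosure (S : Set G)))) := by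
        intro g
        obtain ⟨a, ha, b, hb, hab⟩ := hAB (QuotientGroup.mk' _ g)
        obtain ⟨a', rfl⟩ := hmk a
        refine ⟨a', ha, a'⁻¹ * g, ?_, by group⟩
        show QuotientGroup.mk' _ (a'⁻¹ * g) ∈ B
        rw [map_mul, map_inv, hab, inv_mul_cancel_left]
        exact hb
      have sA := step hF hs hSub S _ hK2 hWs ih' hS hQ hA (hle A) (htop A hAt)
      have sB := step hF hs hSub S _ hK2 hWs ih' hS hQ hA (hle B) (htop B hBt)
      constructor
      · intro hG
        have hPG : F (PermG S) := F_PermG hF S hN hQ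
        have hA' := sA.1 (hs G _ hG)
        have hB' := sB.1 (hs G _ hG)
        refine hK1 (PermG S) hPG
          ((PermB S (A.comap (QuotientGroup.mk' _))).subgroupOf (PermG S))
          ((PermB S (B.comap (QuotientGroup.mk' _))).subgroupOf (PermG S))
          (iso hK2 (Subgroup.subgroupOfEquivOfLe (Subgroup.map_le_range _ _)).symm hA')
          (iso hK2 (Subgroup.subgroupOfEquivOfLe (Subgroup.map_le_range _ _)).symm hB') ?_
        rintro ⟨π, g, rfl⟩
        obtain ⟨a, ha, b, hb, rfl⟩ := hprd g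
        refine ⟨⟨MulAction.toPermHom G _ a, ⟨a, rfl⟩⟩, ?_, ⟨MulAction.toPermHom G _ b, ⟨b, rfl⟩⟩,
          ?_, ?_⟩
        · exact ⟨a, ha, rfl⟩
        · exact ⟨b, hb, rfl⟩
        · apply Subtype.ext
          exact map_mul _ a b
      · intro hW
        exact hP G _ hQ _ _ (hle A) (hle B) (sA.2 hW) (sB.2 hW) hprd

end CAM

theorem caStmt : SubStmt → CoreStmt → SocStmt → KAStmt → KBStmt → KCStmt → CompStmt → CAStmt := by
  intro hSub hCore hSoc hKA hKB hKC hComp F hloc hs hP hI hO G _ _ S hS hQ
  have hF : IsFormation F := hloc.1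
  have hN : ∀ r ∈ Subgroup.normalClosure (S : Set G), r ∈ Subgroup.normalizer (S : Set G) :=
    fun r hr => CAM.mem_norm S r ((hSoc.2 G S hS).1 r hr)
  have hPG : F (PermG S) := CAM.F_PermG hF S hN hQ
  have main := fun hA => CAM.main hloc hs hP hI hO hSub hCore hSoc hKA hKB _ G S rfl hS hQ hA
  constructor
  · intro hG
    have hA : F (AutG S) := CAM.F_AutG hF hs S hG
    exact ⟨hA, ((hKC F hloc hs hP S (CAM.F_S hF hs S hS hA) (PermG S)).1 ((main hA).1 hG)).2⟩
  · rintro ⟨hA, hW⟩
    exact (main hA).2 ((hKC F hloc hs hP S (CAM.F_S hF hs S hS hA) (PermG S)).2 ⟨hPG, hW⟩)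

end Pool.Agent.Lib.MP_de73ed_al_H
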