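import Pool.Agent.Lib.MP_de73ed_al_H.Spec

set_option linter.all false

/-! Module CBC: the conditions (b) and (c). -/

namespace Pool.Agent.Lib.MP_de73ed_al_H

open Pool.Agent.Lib.MP_de73ed_al

theorem cbcStmt (hKA : KAStmt) (hKB : KBStmt) (hKC : KCStmt) (hTw : TwStmt) : CBCStmt := by
  intro F hL hS hP
  have hF : IsFormation F := hL.1
  refine ⟨?_, ?_⟩
  · intro S _ _ _ hFS A _ T B C hA _ hB hC hBC
    haveI : Finite A := hF.finite A hA
    have h1 : Wrc F S B := (hKC F hL hS hP S hFS B).2 ⟨hS A B hA, hB⟩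
    have h2 : Wrc F S C := (hKC F hL hS hP S hFS C).2 ⟨hS A C hA, hC⟩
    have h3 : Wrc F S A := (hKB F hF hS hP S hFS).1 A hA B C h1 h2 hBC
    exact (hKA F hF hS S).2.1 A T h3
  · intro A _ _ T _ _ hQ
    refine ⟨?_, ?_⟩
    · intro B C hB hC hFB hFC hBC
      exact hP A T hQ B C hB hC hFB hFC hBC
    · intro hT hC
      exact hTw F hF hS hP A T ((hKC F hL hS hP T hT (A ⧸ T)).2 ⟨hQ, hC⟩)

end Pool.Agent.Lib.MP_de73ed_al_H
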