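import Pool.Agent.Lib.MP_de73ed_al_H.Spec

set_option linter.all false

/-! Module Core: the unfactorizable case of the condition (a). -/

namespace Pool.Agent.Lib.MP_de73ed_al_H

open Pool.Agent.Lib.MP_de73ed_al

namespace CrPart

theorem of_equiv {F : GrpClass} (hF : IsFormation F) {G H : Type} [Group G] [Group H]
    (e : G ≃* H) (h : F G) : F H :=
  hF.quot G H e.toMonoidHom e.surjective h

theorem of_range {F : GrpClass} (hF : IsFormation F) {G H : Type} [Group G] [Group H]
    (φ : G →* H) (h : F G) : F φ.range :=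
  hF.quot G _ φ.rangeRestrict φ.rangeRestrict_surjective h

theorem of_inj {F : GrpClass} (hF : IsFormation F) (hS : SubClosed F) {G H : Type} [Group G]
    [Group H] (φ : G →* H) (hφ : Function.Injective φ) (h : F H) : F G :=
  of_equiv hF (MonoidHom.ofInjective hφ).symm (hS H φ.range h)

theorem solvable_pi {Ω B : Type} [Group B] (h : Group.IsSolvable B) : Group.IsSolvable (Ω → B) := by
  obtain ⟨n, hn⟩ := h.solvable
  refine ⟨n, ?_⟩
  rw [eq_bot_iff]
  intro x hx
  rw [Subgroup.mem_bot]
  ext ω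
  have h1 : x ω ∈ (derivedSeries (Ω → B) n).map (Pi.evalMonoidHom (fun _ : Ω => B) ω) :=
    ⟨x, hx, rfl⟩
  have h2 := map_derivedSeries_le_derivedSeries (Pi.evalMonoidHom (fun _ : Ω => B) ω) n h1
  rw [hn, Subgroup.mem_bot] at h2
  exact h2

section

variable {A Ω P : Type} [Group A] [Group P] [MulAction P Ω]

/-- The base group. -/
def base (A Ω P : Type) [Group A] [Group P] [MulAction P Ω] : Subgroup (WP A Ω P) :=
  (SemidirectProduct.rightHom : WP A Ω P →* P).ker

/-- The functions with values in `T`. -/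
def baseT (Ω P : Type) [Group P] [MulAction P Ω] (T : Subgroup A) : Subgroup (WP A Ω P) where
  carrier := {w | w.right = 1 ∧ ∀ ω, w.left ω ∈ T}
  one_mem' := ⟨rfl, fun ω => T.one_mem⟩
  mul_mem' := by
    rintro w w' ⟨h1, h2⟩ ⟨h3, h4⟩
    refine ⟨?_, fun ω => ?_⟩
    · rw [SemidirectProduct.mul_right, h1, h3, one_mul]
    · rw [SemidirectProduct.mul_left, h1, map_one]
      exact T.mul_mem (h2 ω) (h4 ω)
  inv_mem' := by
    rintro w ⟨h1, h2⟩
    refine ⟨?_, fun ω => ?_⟩
    · rw [SemidirectProduct.inv_right, h1, inv_one]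
    · rw [SemidirectProduct.inv_left, h1, inv_one, map_one]
      exact T.inv_mem (h2 ω)

theorem mem_baseT {T : Subgroup A} {w : WP A Ω P} :
    w ∈ baseT Ω P T ↔ w.right = 1 ∧ ∀ ω, w.left ω ∈ T := Iff.rfl

theorem mem_base {w : WP A Ω P} : w ∈ base A Ω P ↔ w.right = 1 := MonoidHom.mem_ker

theorem act_apply (p : P) (f : Ω → A) (ω : Ω) :
    (mulAutArrow p : MulAut (Ω → A)) f ω = f (p⁻¹ • ω) := rfl

theorem baseT_normal (T : Subgroup A) (hT : T.Normal) : (baseT Ω P T).Normal := by
  constructor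
  rintro n ⟨h1, h2⟩ w
  refine ⟨?_, fun ω => ?_⟩
  · rw [SemidirectProduct.mul_right, SemidirectProduct.mul_right, h1,
      SemidirectProduct.inv_right, mul_one, mul_inv_cancel]
  · rw [SemidirectProduct.mul_left, SemidirectProduct.mul_left, SemidirectProduct.mul_right, h1,
      mul_one, SemidirectProduct.inv_left, ← MulAut.mul_apply, ← map_mul, mul_inv_cancel, map_one]
    change w.left ω * n.left (w.right⁻¹ • ω) * (w.left ω)⁻¹ ∈ T
    exact hT.conj_mem _ (h2 _) _

theorem baseT_le (T : Subgroup A) : baseT Ω P T ≤ base A Ω P := fun w h => mem_base.2 h.1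

/-- The base group modulo `T`. -/
def chi (Ω P : Type) [Group P] [MulAction P Ω] (T : Subgroup A) [T.Normal] :
    base A Ω P →* (Ω → A ⧸ T) where
  toFun w := fun ω => ((w : WP A Ω P).left ω : A ⧸ T)
  map_one' := rfl
  map_mul' w w' := by
    ext ω
    have h1 : (w : WP A Ω P).right = 1 := mem_base.1 w.2
    change (((w * w' : base A Ω P) : WP A Ω P).left ω : A ⧸ T) = _
    rw [Subgroup.coe_mul, SemidirectProduct.mul_left, h1, map_one]
    rfl

theorem chi_ker (T : Subgroup A) [T.Normal] (w : base A Ω P) :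
    w ∈ (chi Ω P T).ker ↔ (w : WP A Ω P) ∈ baseT Ω P T := by
  rw [MonoidHom.mem_ker, mem_baseT]
  constructor
  · intro h
    refine ⟨mem_base.1 w.2, fun ω => ?_⟩
    exact (QuotientGroup.eq_one_iff _).1 (congrFun h ω)
  · rintro ⟨-, h⟩
    ext ω
    exact (QuotientGroup.eq_one_iff _).2 (h ω)

end

/-- `W / N₀ ∈ F`. -/
theorem quot_mem {F : GrpClass} (hloc : IsLocal F) (hs : SubClosed F) (hI : CondI F)
    (hEx : ExStmt) (hLift : LiftStmt) {A Ω P : Type} [Group A] [Group P] [Finite A] [Finite Ω]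
    [Finite P] [MulAction P Ω] (T : Subgroup A) [T.Normal] (hsol : Group.IsSolvable (A ⧸ T))
    (π : Set ℕ) (hπ : ∀ q ∈ π, q.Prime ∧ ∀ r ∈ π, Ext F q (Multiplicative (ZMod r)))
    (hcard : ∀ q : ℕ, q.Prime → q ∣ Nat.card (A ⧸ T) → q ∈ π) (hFP : F P)
    (hEP : ∀ q ∈ π, Ext F q P) (hn : (baseT Ω P T).Normal) :
    F (WP A Ω P ⧸ baseT Ω P T) := by
  have hF : IsFormation F := hloc.1
  haveI : Finite (WP A Ω P) := Finite.of_equiv _ SemidirectProduct.equivProd.symm
  let V : Subgroup (WP A Ω P ⧸ baseT Ω P T) := (base A Ω P).map (QuotientGroup.mk' (baseT Ω P T))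
  haveI hVn : V.Normal :=
    (MonoidHom.normal_ker _).map _ (QuotientGroup.mk'_surjective _)
  -- `V` is isomorphic to a subgroup of `Ω → A ⧸ T`
  let ψ : base A Ω P →* V := (QuotientGroup.mk' (baseT Ω P T)).subgroupMap (base A Ω P)
  have hψ : Function.Surjective ψ := MonoidHom.subgroupMap_surjective _ _
  have hker : ψ.ker = (chi Ω P T).ker := by
    ext w
    rw [chi_ker, MonoidHom.mem_ker]
    constructor
    · intro h
      exact (QuotientGroup.eq_one_iff (w : WP A Ω P)).1 (congrArg Subtype.val h)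
    · intro h
      exact Subtype.ext ((QuotientGroup.eq_one_iff (w : WP A Ω P)).2 h)
  let e : V ≃* (chi Ω P T).range :=
    ((QuotientGroup.quotientKerEquivOfSurjective ψ hψ).symm.trans
      (QuotientGroup.quotientMulEquivOfEq hker)).trans (QuotientGroup.quotientKerEquivRange _)
  have hVsol : Group.IsSolvable V := by
    haveI := solvable_pi (Ω := Ω) hsol
    exact Group.isSolvable_of_isSolvable_injective (f := (chi Ω P T).range.subtype.comp
      e.toMonoidHom) ((Subgroup.subtype_injective _).comp e.injective)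
  have hVcard : ∀ q : ℕ, q.Prime → q ∣ Nat.card V → q ∈ π := by
    intro q hq hqd
    apply hcard q hq
    have h1 : Nat.card V = Nat.card (chi Ω P T).range := Nat.card_congr e.toEquiv
    have h2 : Nat.card (chi Ω P T).range ∣ Nat.card (Ω → A ⧸ T) := Subgroup.card_subgroup_dvd_card _
    rw [h1] at hqd
    have h3 := hqd.trans h2
    rw [Nat.card_fun] at h3
    exact hq.dvd_of_dvd_pow h3
  -- the quotient by `V` is an image of `P`
  let ρ : P →* ((WP A Ω P ⧸ baseT Ω P T) ⧸ V) :=
    (QuotientGroup.mk' V).comp ((QuotientGroup.mk' (baseT Ω P T)).comp SemidirectProduct.inr)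
  have hρ : Function.Surjective ρ := by
    intro x
    obtain ⟨x, rfl⟩ := QuotientGroup.mk_surjective x
    obtain ⟨w, rfl⟩ := QuotientGroup.mk_surjective x
    refine ⟨w.right, ?_⟩
    change (((SemidirectProduct.inr w.right : WP A Ω P) : WP A Ω P ⧸ baseT Ω P T) :
      (WP A Ω P ⧸ baseT Ω P T) ⧸ V) = _
    rw [QuotientGroup.eq]
    refine ⟨(SemidirectProduct.inr w.right)⁻¹ * w, ?_, ?_⟩
    · rw [SetLike.mem_coe, mem_base]
      simp
    · rfl
  refine hLift F hloc hs hI π hπ _ V hVsol hVcard (hF.quot _ _ ρ hρ hFP) fun q hq => ?_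
  exact ((hEx F hloc hs).1 q (hπ q hq).1).1.1.quot _ _ ρ hρ (hEP q hq)

/-- The map `WP S Ω P → WP A Ω P` induced by `S → A`. -/
def mapS {S A Ω P : Type} [Group S] [Group A] [Group P] [MulAction P Ω] (e : S →* A) :
    WP S Ω P →* WP A Ω P where
  toFun w := ⟨fun ω => e (w.left ω), w.right⟩
  map_one' := by
    ext <;> simp
  map_mul' w w' := by
    ext
    · change e ((w.left * (mulAutArrow w.right) w'.left) _) = _
      rw [Pi.mul_apply, map_mul]
      rfl
    · rfl

theorem mapS_inj {S A Ω P : Type} [Group S] [Group A] [Group P] [MulAction P Ω] (e : S →* A)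
    (he : Function.Injective e) : Function.Injective (mapS (Ω := Ω) (P := P) e) := by
  intro w w' h
  have h1 := congrArg SemidirectProduct.left h
  have h2 := congrArg SemidirectProduct.right h
  ext ω
  · exact he (congrFun h1 ω)
  · exact h2

end CrPart

open CrPart in
theorem coreStmt (hCyc : CycStmt) (hPi : PiMStmt) (hEx : ExStmt) (hKA : KAStmt) (hKB : KBStmt)
    (hEmb : EmbStmt) (hLift : LiftStmt) (hSoc : SocStmt) (hAut : AutSStmt) : CoreStmt := by
  intro F hloc hs hP hI hO G _ _ S hcomp hQ hA hunf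
  have hF : IsFormation F := hloc.1
  obtain ⟨hα, -, -, -⟩ := hSoc.2 G S hcomp
  obtain ⟨T, hT, ⟨eT⟩, hTm, hTq⟩ := hAut G S hcomp
  haveI := hT.normal
  obtain ⟨U', φ, hφ⟩ := hTq hT.normal
  have hFT : F T := hs _ T hA
  have hFS : F S := of_equiv hF eT.symm hFT
  set N := Subgroup.normalClosure (S : Set G) with hNdef
  haveI hNn : N.Normal := Subgroup.normalClosure_normal
  have hNS : N ≤ Subgroup.normalizer (S : Set G) := by
    intro n hn
    rw [Subgroup.mem_normalizer_iff]
    intro s
    refine ⟨hα n hn s, fun h => ?_⟩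
    have h1 := hα n⁻¹ (Subgroup.inv_mem _ hn) _ h
    have h2 : n⁻¹ * (n * s * n⁻¹) * n⁻¹⁻¹ = s := by group
    rwa [h2] at h1
  have hNact : ∀ n ∈ N, MulAction.toPermHom G (G ⧸ Subgroup.normalizer (S : Set G)) n = 1 := by
    intro n hn
    ext x
    obtain ⟨x, rfl⟩ := QuotientGroup.mk_surjective x
    change (((n * x : G)) : G ⧸ Subgroup.normalizer (S : Set G)) = (x : G ⧸ _)
    rw [QuotientGroup.eq]
    apply hNS
    have h1 : (n * x)⁻¹ * x = x⁻¹ * n⁻¹ * (x⁻¹)⁻¹ := by group
    rw [h1]
    exact hNn.conj_mem _ (Subgroup.inv_mem _ hn) _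
  -- `PermG S` is an image of `G / N`
  let τ : (G ⧸ N) →* PermG S := QuotientGroup.lift N
    (MulAction.toPermHom G (G ⧸ Subgroup.normalizer (S : Set G))).rangeRestrict
    (fun n hn => Subtype.ext (hNact n hn))
  have hτ : Function.Surjective τ := by
    rintro ⟨_, g, rfl⟩
    exact ⟨(g : G ⧸ N), rfl⟩
  have hFP : F (PermG S) := hF.quot _ _ τ hτ hQ
  haveI : Finite (PermG S) := hF.finite _ hFP
  haveI : Finite (AutG S) := hF.finite _ hA
  by_cases hQn : Nontrivial (G ⧸ N)
  swap
  · -- `G = N`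
    have hsub : Subsingleton (G ⧸ N) := not_nontrivial_iff_subsingleton.1 hQn
    have hPs : Subsingleton (PermG S) := ⟨fun a b => by
      obtain ⟨a', rfl⟩ := hτ a
      obtain ⟨b', rfl⟩ := hτ b
      rw [Subsingleton.elim a' b']⟩
    have hall : ∀ g : G, g ∈ Subgroup.normalizer (S : Set G) := fun g =>
      hNS ((QuotientGroup.eq_one_iff g).1 (Subsingleton.elim _ _))
    refine ⟨fun _ => ?_, fun _ => ?_⟩
    · -- `S ≀ 1`
      let κ : RegularWreathProduct S (PermG S) →* S :=
        { toFun := fun w => w.left 1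
          map_one' := rfl
          map_mul' := by
            intro w w'
            change w.left 1 * w'.left (w.right⁻¹ * 1) = _
            rw [Subsingleton.elim (w.right⁻¹ * 1) 1] }
      refine of_inj hF hs κ ?_ hFS
      intro w w' h
      ext x
      · rw [Subsingleton.elim x 1]
        exact congrArg Subtype.val h
      · rw [Subsingleton.elim w.right w'.right]
    · let ι : G →* Subgroup.normalizer (S : Set G) :=
        { toFun := fun g => ⟨g, hall g⟩
          map_one' := rfl
          map_mul' := fun _ _ => rfl }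
      refine of_inj hF hs (S.normalizerMonoidHom.rangeRestrict.comp ι) ?_ hA
      rw [injective_iff_map_eq_one]
      intro g hg
      have h1 : S.normalizerMonoidHom (ι g) = 1 := congrArg Subtype.val hg
      have h2 : ι g ∈ S.normalizerMonoidHom.ker := h1
      rw [Subgroup.normalizerMonoidHom_ker] at h2
      have h3 : g ∈ Subgroup.centralizer (S : Set G) := h2
      have h4 : (Subgroup.centralizer (S : Set G)).Normal := by
        constructor
        intro n hn y
        rw [Subgroup.mem_centralizer_iff] at hn ⊢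
        intro s hs'
        have h5 : y⁻¹ * s * y ∈ S := by
          have h6 := (Subgroup.mem_normalizer_iff.1 (hall y⁻¹) s).1 hs'
          rwa [inv_inv] at h6
        have h7 := hn _ h5
        calc s * (y * n * y⁻¹) = y * ((y⁻¹ * s * y) * n) * y⁻¹ := by group
          _ = y * (n * (y⁻¹ * s * y)) * y⁻¹ := by rw [h7]
          _ = y * n * y⁻¹ * s := by group
      have h8 : g ∈ (Subgroup.centralizer (S : Set G)).normalCore := by
        rw [Subgroup.normalCore_eq_self]
        exact h3
      rwa [hcomp.cent, Subgroup.mem_bot] at h8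
  -- main case
  obtain ⟨π, hπ1, hπ2, hπ3⟩ := hPi F hloc hs hI (G ⧸ N) hQn hQ hunf
  have hEP : ∀ q ∈ π, Ext F q (PermG S) := fun q hq =>
    ((hEx F hloc hs).1 q (hπ1 q hq).1).1.1.quot _ _ τ hτ (hπ2 q hq)
  have hsol : Group.IsSolvable (AutG S ⧸ T) := hO (AutG S) T hT hFT
  have hcard : ∀ q : ℕ, q.Prime → q ∣ Nat.card (AutG S ⧸ T) → q ∈ π := by
    intro q hq hqd
    apply hπ3 q hq
    have h1 : Nat.card (AutG S ⧸ T) ∣ Nat.card U' := Subgroup.card_dvd_of_surjective φ hφ
    exact (hqd.trans h1).trans (Subgroup.card_subgroup_dvd_card U')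
  let Ω : Type := G ⧸ Subgroup.normalizer (S : Set G)
  haveI hNn0 : (baseT Ω (PermG S) T).Normal := baseT_normal T hT.normal
  have hquot : F (WP (AutG S) Ω (PermG S) ⧸ baseT Ω (PermG S) T) :=
    quot_mem hloc hs hI hEx hLift T hsol π hπ1 hcard hFP hEP hNn0
  haveI : Finite (WP (AutG S) Ω (PermG S)) := Finite.of_equiv _ SemidirectProduct.equivProd.symm
  -- the base group is in `F`
  have hbase : F (base (AutG S) Ω (PermG S)) := by
    have h1 : F (Ω → AutG S) := (hCyc F hF).2 (AutG S) Ω hA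
    let κ : (Ω → AutG S) →* base (AutG S) Ω (PermG S) :=
      (SemidirectProduct.inl : (Ω → AutG S) →* WP (AutG S) Ω (PermG S)).codRestrict _ (fun f => by
        rw [mem_base]
        rfl)
    refine hF.quot _ _ κ ?_ h1
    rintro ⟨w, hw⟩
    refine ⟨w.left, Subtype.ext ?_⟩
    change (SemidirectProduct.inl w.left : WP (AutG S) Ω (PermG S)) = w
    ext x
    · rfl
    · rw [mem_base.1 hw]
      rfl
  -- the map of `WP S Ω P` to `W`
  let eS : S →* AutG S := T.subtype.comp eT.toMonoidHom
  have heS : Function.Injective eS := (Subgroup.subtype_injective T).comp eT.injective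
  let μ : WP S Ω (PermG S) →* WP (AutG S) Ω (PermG S) := mapS eS
  have hμ : Function.Injective μ := mapS_inj eS heS
  have hμr : ∀ w : WP (AutG S) Ω (PermG S), (∀ ω, w.left ω ∈ T) → w ∈ μ.range := by
    intro w hw
    refine ⟨⟨fun ω => eT.symm ⟨w.left ω, hw ω⟩, w.right⟩, ?_⟩
    refine SemidirectProduct.ext (funext fun ω => ?_) rfl
    change ((eT (eT.symm ⟨w.left ω, hw ω⟩) : T) : AutG S) = w.left ω
    rw [MulEquiv.apply_symm_apply]
  have claim1 : F (WP S Ω (PermG S)) → F (WP (AutG S) Ω (PermG S)) := by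
    intro h
    refine hP _ (baseT Ω (PermG S) T) hquot (base (AutG S) Ω (PermG S)) μ.range (baseT_le T)
      (fun w hw => hμr w hw.2) hbase (of_range hF μ h) ?_
    intro w
    refine ⟨w * (SemidirectProduct.inr w.right)⁻¹, ?_, SemidirectProduct.inr w.right, ?_, by group⟩
    · rw [mem_base]
      simp
    · exact hμr _ fun ω => T.one_mem
  obtain ⟨Φ, hΦ, hΦr, hΦN⟩ := hEmb G S hcomp
  have claim2 : F G → F (WP (AutG S) Ω (PermG S)) := by
    intro h
    refine hP _ (baseT Ω (PermG S) T) hquot (base (AutG S) Ω (PermG S)) Φ.range (baseT_le T)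
      ?_ hbase (of_range hF Φ h) ?_
    · rintro w ⟨h1, h2⟩
      obtain ⟨n, -, hn⟩ := (hΦN w).1 ⟨h1, fun ω => (hTm _).1 (h2 ω)⟩
      exact ⟨n, hn⟩
    · intro w
      obtain ⟨g, hg⟩ := hΦr w.right
      refine ⟨w * (Φ g)⁻¹, ?_, Φ g, ⟨g, rfl⟩, by group⟩
      rw [mem_base, SemidirectProduct.mul_right, SemidirectProduct.inv_right, hg, mul_inv_cancel]
  constructor
  · intro h
    have h1 : F (WP S Ω (PermG S)) := of_inj hF hs μ hμ (claim2 h)
    haveI : Finite (PermG S) := inferInstance
    exact (hKB F hF hs hP S hFS).2.2 (PermG S) Ω hFP h1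
  · intro h
    have h1 : F (WP S Ω (PermG S)) := (hKA F hF hs S).1 (PermG S) Ω h
    exact of_inj hF hs Φ hΦ (claim1 h1)

end Pool.Agent.Lib.MP_de73ed_al_H
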