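import Pool.Agent.Lib.MP_de73ed_al.Defs

set_option linter.all false

/-!
Definitions for the theorem on the subgroup-closed superradical local formations of finite groups.
-/

namespace Pool.Agent.Lib.MP_de73ed_al_H

open Pool.Agent.Lib.MP_de73ed_al

/-- `F` is closed under subgroups. -/
def SubClosed (F : GrpClass) : Prop := ∀ (G : Type) [Group G] (H : Subgroup G), F G → F H

/-- `G = A B`. -/
def Prd {G : Type} [Group G] (A B : Subgroup G) : Prop := ∀ g : G, ∃ a ∈ A, ∃ b ∈ B, g = a * b

/-- All composition factors of the finite group `G` (the simple quotients of the subnormal subgroups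
of `G`) are in `J`. -/
def CompIn (J : GrpClass) : GrpClass := fun G _ => Finite G ∧
  ∀ (N : Subgroup G) (M : Subgroup N) [M.Normal], Subn N ⊤ → IsSimpleGroup (N ⧸ M) → J (N ⧸ M)

/-- The finite groups `X` such that every finite extension `W` of a `p`-group by `X` is in `F`. -/
def Ext (F : GrpClass) (p : ℕ) : GrpClass := fun X _ => Finite X ∧
  ∀ (W : Type) [Group W] [Finite W] (φ : W →* X), Function.Surjective φ → IsPGroup p φ.ker → F W

/-- The groups `X` whose regular wreath product `S ≀ X` is in `F`. -/
def Wrc (F : GrpClass) (S : Type) [Group S] : GrpClass := fun X _ => F (RegularWreathProduct S X)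

/-- `T` is a nonabelian simple normal subgroup of `A` with trivial centralizer (so `A` is almost
simple with socle `T`). -/
structure IsSoc {A : Type} [Group A] (T : Subgroup A) : Prop where
  normal : T.Normal
  simple : IsSimpleGroup T
  nonab : ¬ ∀ a ∈ T, ∀ b ∈ T, a * b = b * a
  cent : Subgroup.centralizer (T : Set A) = ⊥

/-- `S` is a nonabelian simple subgroup of `G`, every conjugate of `S` in `G` is equal to `S` or
commutes with `S`, and the product `N` of the conjugates of `S` has trivial centralizer in `G`. (So
`N` is the unique minimal normal subgroup of `G` and the direct product of the conjugates of `S`.) -/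
structure IsComp {G : Type} [Group G] (S : Subgroup G) : Prop where
  simple : IsSimpleGroup S
  nonab : ¬ ∀ a ∈ S, ∀ b ∈ S, a * b = b * a
  conj : ∀ g : G, (∀ s ∈ S, g * s * g⁻¹ ∈ S) ∨
    ∀ s ∈ S, ∀ t ∈ S, g * s * g⁻¹ * t = t * (g * s * g⁻¹)
  cent : (Subgroup.centralizer (S : Set G)).normalCore = ⊥

/-- The group of the automorphisms of `S` which are induced by elements of `G`. -/
abbrev AutG {G : Type} [Group G] (S : Subgroup G) : Subgroup (MulAut S) :=
  S.normalizerMonoidHom.range

/-- The group of the permutations of the conjugates of `S` which are induced by elements of `G`. -/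
abbrev PermG {G : Type} [Group G] (S : Subgroup G) :
    Subgroup (Equiv.Perm (G ⧸ Subgroup.normalizer (S : Set G))) :=
  (MulAction.toPermHom G (G ⧸ Subgroup.normalizer (S : Set G))).range

/-- If an almost simple group `A ∈ F` with socle `T` is the product of two subgroups with all
composition factors in `J`, then `T ∈ J`. -/
def FactClosed (F J : GrpClass) : Prop :=
  ∀ (A : Type) [Group A] (T B C : Subgroup A), F A → IsSoc T → CompIn J B → CompIn J C → Prd B C →
    J T

/-- (i) For `C_p ∈ F`: a group in `F` with all composition factors in `F(p)` is in `F(p)`. -/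
def CondI (F : GrpClass) : Prop :=
  ∀ p : ℕ, p.Prime → F (Multiplicative (ZMod p)) → ∀ (G : Type) [Group G], F G →
    CompIn (Ext F p) G → Ext F p G

/-- (ii) -/
def CondII (F : GrpClass) : Prop := ∀ p : ℕ, p.Prime → FactClosed F (Ext F p)

/-- (iii) Let `S` be a component of `G` as in `IsComp`, `N` the product of its conjugates,
`G / N ∈ F`. If `G = B C` with `N ≤ B, C ∈ F` then `G ∈ F`. -/
def CondIII (F : GrpClass) : Prop :=
  ∀ (G : Type) [Group G] [Finite G] (S B C : Subgroup G), IsComp S →
    F (G ⧸ Subgroup.normalClosure (S : Set G)) → Subgroup.normalClosure (S : Set G) ≤ B →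
    Subgroup.normalClosure (S : Set G) ≤ C → F B → F C → Prd B C → F G

/-- (a) Let `S` be a component of `G` as in `IsComp`, `N` the product of its conjugates,
`G / N ∈ F`. Then `G ∈ F` if and only if the group of automorphisms of `S` induced by `G` is in `F`
and `S ≀ X ∈ F` for all composition factors `X` of the group of permutations of the conjugates of
`S`. -/
def CondA (F : GrpClass) : Prop :=
  ∀ (G : Type) [Group G] [Finite G] (S : Subgroup G), IsComp S →
    F (G ⧸ Subgroup.normalClosure (S : Set G)) →
    (F G ↔ F (AutG S) ∧ CompIn (Wrc F S) (PermG S))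

/-- (b) -/
def CondB (F : GrpClass) : Prop :=
  ∀ (S : Type) [Group S], IsSimpleGroup S → (¬ ∀ a b : S, a * b = b * a) → F S →
    FactClosed F (Wrc F S)

/-- (c) For an almost simple group `A` with socle `T` and `A / T ∈ F`: if `A = B C` with
`T ≤ B, C ∈ F` then `A ∈ F`; and if `T ∈ F` and `T ≀ X ∈ F` for all composition factors `X` of `A / T`
then `A ∈ F`. -/
def CondC (F : GrpClass) : Prop :=
  ∀ (A : Type) [Group A] [Finite A] (T : Subgroup A) [T.Normal], IsSoc T → F (A ⧸ T) →
    (∀ B C : Subgroup A, T ≤ B → T ≤ C → F B → F C → Prd B C → F A) ∧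
    (F T → CompIn (Wrc F T) (A ⧸ T) → F A)

/-- `Out(T)` is soluble for the nonabelian simple groups `T` in `F` (by the classification of the
finite simple groups this holds for all `F`). -/
def OutSol (F : GrpClass) : Prop :=
  ∀ (A : Type) [Group A] [Finite A] (T : Subgroup A) [T.Normal], IsSoc T → F T →
    Group.IsSolvable (A ⧸ T)

end Pool.Agent.Lib.MP_de73ed_al_H
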