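import Pool.Agent.Lib.MP_de73ed_al_H.Spec

set_option linter.all false
set_option autoImplicit false

/-! Module Emb: the embedding of `G` in the wreath product. -/

namespace Pool.Agent.Lib.MP_de73ed_al_H

open Pool.Agent.Lib.MP_de73ed_al

namespace EmbM

variable {G : Type} [Group G]

theorem mem_norm [Finite G] (S : Subgroup G) (x : G) (h : ∀ s ∈ S, x * s * x⁻¹ ∈ S) :
    x ∈ Subgroup.normalizer (S : Set G) := by
  have hle : S.map (MulAut.conj x).toMonoidHom ≤ S := by
    rintro _ ⟨s, hs, rfl⟩
    exact h s hs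
  have heq : S.map (MulAut.conj x).toMonoidHom = S := by
    apply Subgroup.eq_of_le_of_card_ge hle
    rw [Subgroup.card_map_of_injective (MulAut.conj x).injective]
  rw [Subgroup.mem_normalizer_iff]
  intro s
  refine ⟨fun hs => h s hs, fun hs => ?_⟩
  have hs2 : x * s * x⁻¹ ∈ S.map (MulAut.conj x).toMonoidHom := by rw [heq]; exact hs
  obtain ⟨s', hs', he⟩ := hs2
  have h2 : s' = s := (MulAut.conj x).injective he
  exact h2 ▸ hs'

/-- The points. -/
abbrev Om (S : Subgroup G) : Type := G ⧸ Subgroup.normalizer (S : Set G)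

theorem cc_mem (S : Subgroup G) (g : G) (ω : Om S) :
    (Quotient.out ω)⁻¹ * g * Quotient.out (g⁻¹ • ω) ∈ Subgroup.normalizer (S : Set G) := by
  have h1 : ((Quotient.out ω : G) : Om S) = ω := QuotientGroup.out_eq' ω
  have h2 : ((Quotient.out (g⁻¹ • ω) : G) : Om S) = g⁻¹ • ω := QuotientGroup.out_eq' _
  have h3 : ((g * Quotient.out (g⁻¹ • ω) : G) : Om S) = ω := by
    have h4 : ((g * Quotient.out (g⁻¹ • ω) : G) : Om S) =
      g • ((Quotient.out (g⁻¹ • ω) : G) : Om S) := rfl
    rw [h4, h2, smul_inv_smul]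
  have h5 := QuotientGroup.eq.1 (h1.trans h3.symm)
  rw [mul_assoc]
  exact h5

/-- The cocycle. -/
noncomputable def cc (S : Subgroup G) (g : G) (ω : Om S) : Subgroup.normalizer (S : Set G) :=
  ⟨(Quotient.out ω)⁻¹ * g * Quotient.out (g⁻¹ • ω), cc_mem S g ω⟩

theorem cc_mul (S : Subgroup G) (g h : G) (ω : Om S) :
    cc S (g * h) ω = cc S g ω * cc S h (g⁻¹ • ω) := by
  apply Subtype.ext
  show (Quotient.out ω)⁻¹ * (g * h) * Quotient.out ((g * h)⁻¹ • ω) =
    ((Quotient.out ω)⁻¹ * g * Quotient.out (g⁻¹ • ω)) *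
      ((Quotient.out (g⁻¹ • ω))⁻¹ * h * Quotient.out (h⁻¹ • g⁻¹ • ω))
  rw [mul_inv_rev, mul_smul]
  group

/-- The embedding. -/
noncomputable def emb (S : Subgroup G) : G →* WP (AutG S) (Om S) (PermG S) where
  toFun g := ⟨fun ω => ⟨S.normalizerMonoidHom (cc S g ω), ⟨_, rfl⟩⟩,
    ⟨MulAction.toPermHom G (Om S) g, ⟨g, rfl⟩⟩⟩
  map_one' := by
    apply SemidirectProduct.ext
    · funext ω
      apply Subtype.ext
      have h1 : cc S 1 ω = 1 := by
        apply Subtype.ext
        show (Quotient.out ω)⁻¹ * 1 * Quotient.out ((1 : G)⁻¹ • ω) = 1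
        rw [inv_one, one_smul]
        group
      show S.normalizerMonoidHom (cc S 1 ω) = 1
      rw [h1, map_one]
    · apply Subtype.ext
      show MulAction.toPermHom G (Om S) 1 = 1
      rw [map_one]
  map_mul' g h := by
    apply SemidirectProduct.ext
    · funext ω
      apply Subtype.ext
      show S.normalizerMonoidHom (cc S (g * h) ω) =
        S.normalizerMonoidHom (cc S g ω) * S.normalizerMonoidHom (cc S h (g⁻¹ • ω))
      rw [cc_mul, map_mul]
    · apply Subtype.ext
      show MulAction.toPermHom G (Om S) (g * h) = _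
      rw [map_mul]
      rfl

theorem emb_left (S : Subgroup G) (g : G) (ω : Om S) :
    (((emb S g).left ω : AutG S) : MulAut S) = S.normalizerMonoidHom (cc S g ω) := rfl

theorem emb_right (S : Subgroup G) (g : G) :
    ((emb S g).right : Equiv.Perm (Om S)) = MulAction.toPermHom G (Om S) g := rfl

theorem nmh_one (S : Subgroup G) (n : Subgroup.normalizer (S : Set G))
    (h : S.normalizerMonoidHom n = 1) (s : G) (hs : s ∈ S) : (n : G) * s * (n : G)⁻¹ = s := by
  have h1 := DFunLike.congr_fun h (⟨s, hs⟩ : S)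
  exact congrArg Subtype.val h1

theorem nmh_eq_one (S : Subgroup G) (n : Subgroup.normalizer (S : Set G))
    (h : ∀ s ∈ S, (n : G) * s * (n : G)⁻¹ = s) : S.normalizerMonoidHom n = 1 := by
  apply MulEquiv.ext
  intro s
  apply Subtype.ext
  exact h s s.2

theorem nmh_conj (S : Subgroup G) (n : Subgroup.normalizer (S : Set G)) (t : S)
    (h : ∀ s ∈ S, (n : G) * s * (n : G)⁻¹ = t * s * (t : G)⁻¹) :
    S.normalizerMonoidHom n = MulAut.conj t := by
  apply MulEquiv.ext
  intro s
  apply Subtype.ext
  exact h s s.2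

theorem emb_inj (S : Subgroup G) (hS : IsComp S) : Function.Injective (emb S) := by
  rw [injective_iff_map_eq_one]
  intro g hg
  have hr : ∀ ω : Om S, g • ω = ω := by
    intro ω
    have h1 : ((emb S g).right : Equiv.Perm (Om S)) = 1 := by rw [hg]; rfl
    have h2 := DFunLike.congr_fun ((emb_right S g).symm.trans h1) ω
    exact h2
  have hr' : ∀ ω : Om S, g⁻¹ • ω = ω := fun ω => by
    rw [inv_smul_eq_iff, hr]
  have hl : ∀ ω : Om S, ∀ s ∈ S, ((Quotient.out ω)⁻¹ * g * Quotient.out ω) * s *
      ((Quotient.out ω)⁻¹ * g * Quotient.out ω)⁻¹ = s := by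
    intro ω s hs
    have h1 : S.normalizerMonoidHom (cc S g ω) = 1 := by
      rw [← emb_left, hg]; rfl
    have h2 := nmh_one S _ h1 s hs
    have h3 : ((cc S g ω : Subgroup.normalizer (S : Set G)) : G) =
        (Quotient.out ω)⁻¹ * g * Quotient.out ω := by
      show (Quotient.out ω)⁻¹ * g * Quotient.out (g⁻¹ • ω) = _
      rw [hr']
    rw [h3] at h2
    exact h2
  have hc : g ∈ (Subgroup.centralizer (S : Set G)).normalCore := by
    intro b
    rw [Subgroup.mem_centralizer_iff]
    intro s hs
    have h1 : ((Quotient.out ((b⁻¹ : G) : Om S) : G) : Om S) = ((b⁻¹ : G) : Om S) :=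
      QuotientGroup.out_eq' _
    have h2 := QuotientGroup.eq.1 h1
    set o : G := Quotient.out ((b⁻¹ : G) : Om S) with ho
    have h3 : (o⁻¹ * b⁻¹) * s * (o⁻¹ * b⁻¹)⁻¹ ∈ S := (Subgroup.mem_normalizer_iff.1 h2 s).1 hs
    have h4 := hl ((b⁻¹ : G) : Om S) _ h3
    rw [← ho] at h4
    have h5 : b * g * b⁻¹ * s * (b * g * b⁻¹)⁻¹ = s := by
      have h6 : b * g * b⁻¹ * s * (b * g * b⁻¹)⁻¹ = (b * o) * ((o⁻¹ * g * o) * ((o⁻¹ * b⁻¹) * s *
        (o⁻¹ * b⁻¹)⁻¹) * (o⁻¹ * g * o)⁻¹) * (b * o)⁻¹ := by group
      rw [h6, h4]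
      group
    calc s * (b * g * b⁻¹) = (b * g * b⁻¹ * s * (b * g * b⁻¹)⁻¹) * (b * g * b⁻¹) := by rw [h5]
      _ = b * g * b⁻¹ * s := by group
  rw [hS.cent] at hc
  exact hc

/-- Elements of the normal closure induce inner automorphisms of `S`. -/
theorem inner (S : Subgroup G) (hS : IsComp S) (n : G)
    (hn : n ∈ Subgroup.normalClosure (S : Set G)) :
    ∃ t : S, ∀ s ∈ S, n * s * n⁻¹ = t * s * (t : G)⁻¹ := by
  induction hn using Subgroup.closure_induction with
  | mem x hx =>
    obtain ⟨a, ha, hax⟩ := Group.mem_conjugatesOfSet_iff.1 hx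
    obtain ⟨c, rfl⟩ := isConj_iff.1 hax
    rcases hS.conj c with h | h
    · exact ⟨⟨c * a * c⁻¹, h a ha⟩, fun s _ => rfl⟩
    · refine ⟨1, fun s hs => ?_⟩
      rw [h a ha s hs]
      show s * (c * a * c⁻¹) * (c * a * c⁻¹)⁻¹ = 1 * s * (1 : G)⁻¹
      group
  | one => exact ⟨1, fun s _ => by simp⟩
  | mul x y _ _ hx hy =>
    obtain ⟨t, ht⟩ := hx
    obtain ⟨u, hu⟩ := hy
    refine ⟨t * u, fun s hs => ?_⟩
    have h1 : (u : G) * s * (u : G)⁻¹ ∈ S := S.mul_mem (S.mul_mem u.2 hs) (S.inv_mem u.2)
    have h2 : x * y * s * (x * y)⁻¹ = x * (y * s * y⁻¹) * x⁻¹ := by group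
    rw [h2, hu s hs, ht _ h1]
    show _ = ((t : G) * u) * s * ((t : G) * u)⁻¹
    group
  | inv x _ hx =>
    obtain ⟨t, ht⟩ := hx
    refine ⟨t⁻¹, fun s hs => ?_⟩
    have h1 : (t : G)⁻¹ * s * t ∈ S := S.mul_mem (S.mul_mem (S.inv_mem t.2) hs) t.2
    have h2 := ht _ h1
    have h3 : (t : G) * ((t : G)⁻¹ * s * t) * (t : G)⁻¹ = s := by group
    rw [h3] at h2
    show x⁻¹ * s * x⁻¹⁻¹ = (t : G)⁻¹ * s * ((t : G)⁻¹)⁻¹
    rw [inv_inv, inv_inv]
    calc x⁻¹ * s * x = x⁻¹ * (x * ((t : G)⁻¹ * s * t) * x⁻¹) * x := by rw [h2]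
      _ = (t : G)⁻¹ * s * t := by group

theorem nc_smul (S : Subgroup G) (hN : ∀ r ∈ Subgroup.normalClosure (S : Set G),
    r ∈ Subgroup.normalizer (S : Set G)) (n : G) (hn : n ∈ Subgroup.normalClosure (S : Set G))
    (ω : Om S) : n • ω = ω := by
  induction ω using QuotientGroup.induction_on with
  | H x =>
    show ((n * x : G) : Om S) = (x : Om S)
    apply Eq.symm
    apply QuotientGroup.eq.2
    apply hN
    have h1 := (Subgroup.normalClosure_normal (s := (S : Set G))).conj_mem n hn x⁻¹
    rw [inv_inv] at h1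
    rw [← mul_assoc]
    exact h1

end EmbM

theorem embStmt : SocStmt → EmbStmt := by
  intro hSoc G _ _ S hS
  have hN : ∀ r ∈ Subgroup.normalClosure (S : Set G), r ∈ Subgroup.normalizer (S : Set G) :=
    fun r hr => EmbM.mem_norm S r ((hSoc.2 G S hS).1 r hr)
  refine ⟨EmbM.emb S, EmbM.emb_inj S hS, ?_, ?_⟩
  · rintro ⟨π, g, rfl⟩
    exact ⟨g, rfl⟩
  · have hout : ∀ n ∈ Subgroup.normalClosure (S : Set G), ∀ ω : EmbM.Om S,
        ((EmbM.cc S n ω : Subgroup.normalizer (S : Set G)) : G) =
          (Quotient.out ω)⁻¹ * n * Quotient.out ω := by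
      intro n hn ω
      show (Quotient.out ω)⁻¹ * n * Quotient.out (n⁻¹ • ω) = _
      rw [EmbM.nc_smul S hN _ (Subgroup.inv_mem _ hn)]
    have hright : ∀ n ∈ Subgroup.normalClosure (S : Set G), (EmbM.emb S n).right = 1 := by
      intro n hn
      apply Subtype.ext
      apply Equiv.ext
      intro ω
      exact EmbM.nc_smul S hN n hn ω
    intro w
    constructor
    · rintro ⟨hw, hl⟩
      choose t ht using hl
      haveI : Finite (EmbM.Om S) := inferInstance
      haveI := Fintype.ofFinite (EmbM.Om S)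
      classical
      have key : ∀ F : Finset (EmbM.Om S), ∃ n ∈ Subgroup.normalClosure (S : Set G),
          ∀ ω, (((EmbM.emb S n).left ω : AutG S) : MulAut S) =
            if ω ∈ F then MulAut.conj (t ω) else 1 := by
        intro F
        induction F using Finset.induction_on with
        | empty =>
          refine ⟨1, Subgroup.one_mem _, fun ω => ?_⟩
          rw [map_one]
          simp
        | insert a F ha ih =>
          obtain ⟨n, hn, hnl⟩ := ih
          have he : (Quotient.out a : G) * (t a : G) * (Quotient.out a : G)⁻¹ ∈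
              Subgroup.normalClosure (S : Set G) :=
            (Subgroup.normalClosure_normal (s := (S : Set G))).conj_mem _
              (Subgroup.subset_normalClosure (t a).2) _
          refine ⟨_, Subgroup.mul_mem _ he hn, fun ω => ?_⟩
          have h0 : (((EmbM.emb S ((Quotient.out a : G) * (t a : G) * (Quotient.out a : G)⁻¹ * n)).left
              ω : AutG S) : MulAut S) = S.normalizerMonoidHom (EmbM.cc S
                ((Quotient.out a : G) * (t a : G) * (Quotient.out a : G)⁻¹) ω) *
                (((EmbM.emb S n).left ω : AutG S) : MulAut S) := by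
            rw [EmbM.emb_left, EmbM.cc_mul, map_mul, EmbM.nc_smul S hN _ (Subgroup.inv_mem _ he)]
            rfl
          rw [h0, hnl]
          by_cases hωa : ω = a
          · subst hωa
            rw [if_neg ha, if_pos (Finset.mem_insert_self _ _), mul_one]
            apply EmbM.nmh_conj
            intro s hs
            rw [hout _ he]
            group
          · have h1 : (ω ∈ insert a F) ↔ ω ∈ F := by
              rw [Finset.mem_insert]
              exact ⟨fun h => h.resolve_left hωa, Or.inr⟩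
            have h2 : S.normalizerMonoidHom (EmbM.cc S
                ((Quotient.out a : G) * (t a : G) * (Quotient.out a : G)⁻¹) ω) = 1 := by
              apply EmbM.nmh_eq_one
              intro s hs
              rw [hout _ he]
              have h3 : (Quotient.out ω : G)⁻¹ * Quotient.out a ∉
                  Subgroup.normalizer (S : Set G) := by
                intro h4
                apply hωa
                have h5 := QuotientGroup.eq.2 h4
                rw [QuotientGroup.out_eq', QuotientGroup.out_eq'] at h5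
                exact h5
              rcases hS.conj ((Quotient.out ω : G)⁻¹ * Quotient.out a) with h6 | h6
              · exact absurd (EmbM.mem_norm S _ h6) h3
              · have h7 := h6 _ (t a).2 s hs
                have h8 : (Quotient.out ω : G)⁻¹ * ((Quotient.out a : G) * (t a : G) *
                    (Quotient.out a : G)⁻¹) * Quotient.out ω =
                    (Quotient.out ω : G)⁻¹ * Quotient.out a * (t a : G) *
                      ((Quotient.out ω : G)⁻¹ * Quotient.out a)⁻¹ := by group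
                rw [h8, h7]
                group
            rw [h2, one_mul]
            by_cases h3 : ω ∈ F
            · rw [if_pos h3, if_pos (h1.2 h3)]
            · rw [if_neg h3, if_neg (fun h => h3 (h1.1 h))]
      obtain ⟨n, hn, hnl⟩ := key Finset.univ
      refine ⟨n, hn, ?_⟩
      apply SemidirectProduct.ext
      · funext ω
        apply Subtype.ext
        rw [hnl, if_pos (Finset.mem_univ _), ht]
      · rw [hright n hn, hw]
    · rintro ⟨n, hn, rfl⟩
      refine ⟨hright n hn, fun ω => ?_⟩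
      have h1 : (Quotient.out ω : G)⁻¹ * n * Quotient.out ω ∈
          Subgroup.normalClosure (S : Set G) := by
        have h2 := (Subgroup.normalClosure_normal (s := (S : Set G))).conj_mem n hn
          (Quotient.out ω : G)⁻¹
        rw [inv_inv] at h2
        exact h2
      obtain ⟨t, ht⟩ := EmbM.inner S hS _ h1
      refine ⟨t, ?_⟩
      rw [EmbM.emb_left]
      apply EmbM.nmh_conj
      intro s hs
      rw [hout n hn]
      exact ht s hs

end Pool.Agent.Lib.MP_de73ed_al_H
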