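import Pool.Agent.Lib.MP_de73ed_al_H.Spec
import Pool.Agent.Lib.MP_de73ed_al.Down

set_option linter.all false

/-!
The canonical function `F(p) = Ext F p` of a local formation closed under subgroups.
-/

namespace Pool.Agent.Lib.MP_de73ed_al_H

open Pool.Agent.Lib.MP_de73ed_al

namespace ExM

section

variable {f : ℕ → GrpClass}

private theorem ker_pgroup {W X : Type} [Group W] [Group X] {p : ℕ} {φ : W →* X}
    (hexp : ∀ v ∈ φ.ker, v ^ p = 1) : IsPGroup p φ.ker := by
  rintro ⟨v, hv⟩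
  exact ⟨1, Subtype.ext (by simpa using hexp v hv)⟩

/-- `Ext (LF f) p = FP f p`. -/
theorem ext_iff (hU : UpStmt) (hD : DownStmt) (hW : WrStmt) (hf : Forms f)
    (hform : IsFormation (LF f)) {p : ℕ} (hp : p.Prime) (hFP : IsFormation (FP f p))
    (X : Type) [Group X] : Ext (LF f) p X ↔ FP f p X := by
  constructor
  · rintro ⟨hfin, h⟩
    obtain ⟨W, _, φ, hWf, hφ, hne, hexp, hcomm, hself⟩ := hW p hp X
    have hLW : LF f W := h W φ hφ (ker_pgroup hexp)
    have h1 := hD f hf hform p hp W φ.ker hne hexp hcomm hself hLW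
    exact hFP.quot _ _ (QuotientGroup.quotientKerEquivOfSurjective φ hφ).toMonoidHom
      (QuotientGroup.quotientKerEquivOfSurjective φ hφ).surjective h1
  · intro h
    haveI : Finite X := h.1.1
    refine ⟨inferInstance, fun W _ _ φ hφ hker => ?_⟩
    refine hU f hf p hp W φ.ker hker ?_
    exact hFP.quot X _ (QuotientGroup.quotientKerEquivOfSurjective φ hφ).symm.toMonoidHom
      (QuotientGroup.quotientKerEquivOfSurjective φ hφ).symm.surjective h

/-- (e1), subgroups. -/
theorem fp_sub (hU : UpStmt) (hD : DownStmt) (hW : WrStmt) (hf : Forms f)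
    (hform : IsFormation (LF f)) (hS : SubClosed (LF f)) {p : ℕ} (hp : p.Prime)
    (hFP : IsFormation (FP f p)) : SubClosed (FP f p) := by
  intro X _ Y hX
  haveI : Finite X := hX.1.1
  obtain ⟨W, _, φ, hWf, hφ, hne, hexp, hcomm, hself⟩ := hW p hp X
  have hker : IsPGroup p φ.ker := ker_pgroup hexp
  have hquot : FP f p (W ⧸ φ.ker) := by
    refine hFP.quot X _ (QuotientGroup.quotientKerEquivOfSurjective φ hφ).symm.toMonoidHom
      (QuotientGroup.quotientKerEquivOfSurjective φ hφ).symm.surjective hX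
  have hLW : LF f W := hU f hf p hp W φ.ker hker hquot
  have hLWY : LF f (Y.comap φ) := hS W (Y.comap φ) hLW
  have hle : φ.ker ≤ Y.comap φ := by
    intro x hx
    show φ x ∈ Y
    rw [hx]
    exact one_mem _
  have hfp := hD f hf hform p hp (Y.comap φ) (φ.ker.subgroupOf (Y.comap φ))
    (by
      intro h
      apply hne
      rw [Subgroup.subgroupOf_eq_bot] at h
      have := h.eq_bot_of_le hle
      exact this)
    (by
      rintro ⟨v, hv⟩ hv'
      exact Subtype.ext (by simpa using hexp v hv'))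
    (by
      rintro ⟨v, hv⟩ hv' ⟨w, hw⟩ hw'
      exact Subtype.ext (hcomm v hv' w hw'))
    (by
      rintro ⟨w, hw⟩ h
      refine hself w fun v hv => ?_
      exact congrArg Subtype.val (h ⟨v, hle hv⟩ hv))
    hLWY
  have hk : ∀ x ∈ φ.ker.subgroupOf (Y.comap φ), (φ.subgroupComap Y) x = 1 := by
    rintro ⟨x, hx⟩ hx'
    exact Subtype.ext hx'
  refine hFP.quot _ _ (QuotientGroup.lift _ (φ.subgroupComap Y) hk) ?_ hfp
  rintro ⟨y, hy⟩
  obtain ⟨w, rfl⟩ := hφ y
  exact ⟨((⟨w, hy⟩ : Y.comap φ) : (Y.comap φ) ⧸ _), rfl⟩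

/-- (e4) -/
theorem fp_cent (hC : CentStmt) (hf : Forms f) (hform : IsFormation (LF f)) {p : ℕ}
    (hp : p.Prime) (W : Type) [Group W] (V C : Subgroup W) [V.Normal] [C.Normal] (hne : V ≠ ⊥)
    (hexp : ∀ v ∈ V, v ^ p = 1) (hcomm : ∀ v ∈ V, ∀ w ∈ V, v * w = w * v)
    (hc : ∀ w : W, w ∈ C ↔ ∀ v ∈ V, w * v = v * w) (hW : LF f W) : FP f p (W ⧸ C) := by
  haveI : Finite W := hW.1
  obtain ⟨D, hDn, hVD, hfD, hD⟩ := Down.claim hC f hf p hp W V hexp hcomm hW (Nat.card V) V
    inferInstance le_rfl hne le_rfl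
  refine ⟨hform.quot W (W ⧸ C) (QuotientGroup.mk' C) (QuotientGroup.mk'_surjective C) hW, ?_⟩
  have hN : (D.map (QuotientGroup.mk' C)).Normal :=
    hDn.map (QuotientGroup.mk' C) (QuotientGroup.mk'_surjective C)
  refine ⟨D.map (QuotientGroup.mk' C), hN, ?_, ?_⟩
  · rintro ⟨z, hz⟩
    obtain ⟨x, hx, rfl⟩ := hz
    obtain ⟨k, hk⟩ := hD x hx
    refine ⟨k, ?_⟩
    apply Subtype.ext
    have h1 : x ^ p ^ k ∈ C := (hc _).2 hk
    have h2 : (QuotientGroup.mk' C x) ^ p ^ k = 1 := by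
      rw [← map_pow]
      exact (QuotientGroup.eq_one_iff _).2 h1
    simpa using h2
  · have hker : D ≤ ((QuotientGroup.mk' (D.map (QuotientGroup.mk' C))).comp
        (QuotientGroup.mk' C)).ker := by
      intro x hx
      rw [MonoidHom.mem_ker]
      exact (QuotientGroup.eq_one_iff _).2 (Subgroup.mem_map_of_mem _ hx)
    refine (hf p hp).quot (W ⧸ D) ((W ⧸ C) ⧸ D.map (QuotientGroup.mk' C))
      (QuotientGroup.lift D ((QuotientGroup.mk' (D.map (QuotientGroup.mk' C))).comp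
        (QuotientGroup.mk' C)) hker) ?_ hfD
    apply QuotientGroup.lift_surjective_of_surjective
    exact (QuotientGroup.mk'_surjective _).comp (QuotientGroup.mk'_surjective _)

/-- (e5) -/
theorem fp_simple {p : ℕ} (hp : p.Prime) (X : Type) [Group X] (hs : IsSimpleGroup X)
    (hna : ¬ ∀ a b : X, a * b = b * a) (hX : LF f X) (hd : p ∣ Nat.card X) : FP f p X := by
  have hchief : IsChief (⊥ : Subgroup X) ⊤ :=
    ⟨inferInstance, inferInstance, bot_lt_top, fun N hN _ _ => hs.eq_bot_or_eq_top_of_normal N hN⟩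
  have hcent : IsCent (⊥ : Subgroup X) ⊤ ⊥ := by
    intro g
    constructor
    · intro hg h _
      rw [Subgroup.mem_bot] at hg
      rw [hg, Subgroup.mem_bot]
      simp
    · intro h
      have hg : g ∈ Subgroup.center X := by
        rw [Subgroup.mem_center_iff]
        intro x
        have h1 := h x (Subgroup.mem_top x)
        rw [Subgroup.mem_bot, mul_inv_eq_one, mul_inv_eq_iff_eq_mul] at h1
        exact h1.symm
      rcases hs.eq_bot_or_eq_top_of_normal (Subgroup.center X) inferInstance with h1 | h1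
      · rwa [h1] at hg
      · exfalso
        refine hna fun a b => ?_
        have hb : b ∈ Subgroup.center X := h1 ▸ Subgroup.mem_top b
        exact (Subgroup.mem_center_iff.1 hb) a
  have h1 : f p (X ⧸ (⊥ : Subgroup X)) := hX.2 ⊥ ⊤ ⊥ hchief hcent p hp (by
    rw [Subgroup.relIndex_bot_left, Subgroup.card_top]
    exact hd)
  exact ⟨hX, ⊥, inferInstance, IsPGroup.of_bot, h1⟩

/-- (e6) -/
theorem fp_pgroup (hPL : PLocStmt) (hf : Forms f) {p : ℕ} (hp : p.Prime)
    (hc : LF f (Multiplicative (ZMod p))) (X : Type) [Group X] [Finite X] (hX : IsPGroup p X) :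
    FP f p X := by
  have hcard : p ∣ Nat.card (Multiplicative (ZMod p)) := by
    have h1 : Nat.card (Multiplicative (ZMod p)) = p := Nat.card_zmod p
    rw [h1]
  obtain ⟨Y, _, hY⟩ := (hPL f hf).2 (Multiplicative (ZMod p)) hc p hp hcard
  refine ⟨(hPL f hf).1 p hp ⟨Y, _, hY⟩ X hX, ⊤, inferInstance, hX.to_subgroup ⊤, ?_⟩
  refine (hf p hp).quot Y (X ⧸ (⊤ : Subgroup X)) 1 ?_ hY
  intro z
  obtain ⟨x, rfl⟩ := QuotientGroup.mk_surjective z
  refine ⟨1, ?_⟩
  rw [MonoidHom.one_apply]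
  exact ((QuotientGroup.eq_one_iff x).2 (Subgroup.mem_top x)).symm

theorem chief_le {G : Type} [Group G] {L K H : Subgroup G} (hL : IsChief ⊥ L)
    (h : IsChief K H) (hHL : H ≤ L) : K = ⊥ ∧ H = L := by
  have hH : H = L := by
    rcases hL.eq H h.nH bot_le hHL with h1 | h1
    · have h2 := h.lt
      rw [h1] at h2
      exact absurd h2 not_lt_bot
    · exact h1
  refine ⟨?_, hH⟩
  rcases hL.eq K h.nK bot_le (h.lt.le.trans hHL) with h1 | h1
  · exact h1
  · have h2 := h.lt
    rw [h1, hH] at h2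
    exact absurd h2 (lt_irrefl _)

/-- A minimal normal subgroup. -/
theorem step (hCF : CFStmt) (hf : Forms f) (G : Type) [Group G] [Finite G] (L C : Subgroup G)
    [L.Normal] [C.Normal] (hL : IsChief ⊥ L) (hC : IsCent ⊥ L C) (hGL : LF f (G ⧸ L))
    (h : ∀ q : ℕ, q.Prime → q ∣ Nat.card L → f q (G ⧸ C)) : LF f G := by
  refine hCF f hf G L hGL ?_
  intro K H C' _ hKH hHL hC' q hq hdvd
  obtain ⟨rfl, rfl⟩ := chief_le hL hKH hHL
  have hCC : C' = C := Subgroup.ext fun g => (hC' g).trans (hC g).symm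
  subst hCC
  rw [Subgroup.relIndex_bot_left] at hdvd
  exact h q hq hdvd

/-- (e7) -/
theorem e7 (hCF : CFStmt) (hT : TrivStmt) (hf : Forms f) {p : ℕ} (hp : p.Prime)
    (G : Type) [Group G] [Finite G] (L C : Subgroup G) [L.Normal] [C.Normal] (hL : IsChief ⊥ L)
    (hpL : IsPGroup p L) (hC : IsCent ⊥ L C) (hGL : LF f (G ⧸ L)) (hGC : FP f p (G ⧸ C)) :
    LF f G := by
  haveI : Fact p.Prime := ⟨hp⟩
  obtain ⟨hGC1, N', hN', hpN', hfN'⟩ := hGC
  obtain ⟨n, hn⟩ := IsPGroup.iff_card.1 hpL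
  have hN : (N'.comap (QuotientGroup.mk' C)).Normal := hN'.comap _
  have hle : N'.comap (QuotientGroup.mk' C) ≤ C := by
    refine hT G ⊥ L C _ p hp hL hC ⟨n, by rw [Subgroup.relIndex_bot_left, hn]⟩ hN ?_
    intro x hx
    obtain ⟨k, hk⟩ := hpN' ⟨_, hx⟩
    refine ⟨k, ?_⟩
    have h1 := congrArg Subtype.val hk
    exact (QuotientGroup.eq_one_iff (N := C) (x ^ p ^ k)).1 (by simpa using h1)
  have hfC : f p (G ⧸ C) := by
    refine (hf p hp).quot _ _ (QuotientGroup.lift N' (MonoidHom.id (G ⧸ C)) ?_) ?_ hfN'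
    · intro x hx
      obtain ⟨g, rfl⟩ := QuotientGroup.mk_surjective x
      exact (QuotientGroup.eq_one_iff (N := C) g).2 (hle hx)
    · intro x
      exact ⟨(x : (G ⧸ C) ⧸ N'), rfl⟩
  refine step hCF hf G L C hL hC hGL fun q hq hd => ?_
  rw [hn] at hd
  have hqp : q = p := (Nat.prime_dvd_prime_iff_eq hq hp).1 (hq.dvd_of_dvd_pow hd)
  rw [hqp]
  exact hfC

/-- (e8) -/
theorem e8 (hCF : CFStmt) (hf : Forms f) (G : Type) [Group G] [Finite G] (L C : Subgroup G)
    [L.Normal] [C.Normal] (hL : IsChief ⊥ L) (hna : NonAb L) (hC : IsCent ⊥ L C)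
    (hGL : LF f (G ⧸ L)) (hGC : LF f (G ⧸ C)) : LF f G := by
  have hLC : L ⊓ C = ⊥ := by
    rcases hL.eq (L ⊓ C) inferInstance bot_le inf_le_left with h1 | h1
    · exact h1
    · exfalso
      refine hna fun a ha b hb => ?_
      have haC : a ∈ C := (h1.symm ▸ ha : a ∈ L ⊓ C).2
      have h2 := (hC a).1 haC b hb
      rw [Subgroup.mem_bot, mul_inv_eq_one, mul_inv_eq_iff_eq_mul] at h2
      exact h2
  have hinj : Set.InjOn (QuotientGroup.mk' C) (L : Set G) := by
    intro x hx y hy hxy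
    have h1 : x⁻¹ * y ∈ C := QuotientGroup.eq.1 hxy
    have h2 : x⁻¹ * y ∈ L ⊓ C := ⟨L.mul_mem (L.inv_mem hx) hy, h1⟩
    rw [hLC, Subgroup.mem_bot] at h2
    exact (inv_mul_eq_one.1 h2)
  have hcard : Nat.card (L.map (QuotientGroup.mk' C)) = Nat.card L :=
    Nat.card_image_of_injOn hinj
  have hchief : IsChief (⊥ : Subgroup (G ⧸ C)) (L.map (QuotientGroup.mk' C)) := by
    refine ⟨inferInstance, hL.nH.map _ (QuotientGroup.mk'_surjective C), ?_, ?_⟩
    · rw [bot_lt_iff_ne_bot]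
      intro h1
      rw [h1, Subgroup.card_bot] at hcard
      have h2 : L = ⊥ := Subgroup.card_eq_one.1 hcard.symm
      exact hL.lt.ne h2.symm
    · intro N hN _ hNL
      rcases hL.eq (N.comap (QuotientGroup.mk' C) ⊓ L)
        (@Subgroup.normal_inf_normal _ _ _ _ (hN.comap _) hL.nH) bot_le inf_le_right with h1 | h1
      · left
        rw [eq_bot_iff]
        intro n hn
        obtain ⟨l, hl, rfl⟩ := hNL hn
        have h2 : l ∈ N.comap (QuotientGroup.mk' C) ⊓ L := ⟨hn, hl⟩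
        rw [h1, Subgroup.mem_bot] at h2
        rw [h2, map_one]
        exact one_mem _
      · right
        refine le_antisymm hNL ?_
        rintro _ ⟨l, hl, rfl⟩
        exact (h1.symm ▸ hl : l ∈ N.comap (QuotientGroup.mk' C) ⊓ L).1
  have hcent : IsCent (⊥ : Subgroup (G ⧸ C)) (L.map (QuotientGroup.mk' C)) ⊥ := by
    intro z
    constructor
    · intro hz h _
      rw [Subgroup.mem_bot] at hz
      rw [hz, Subgroup.mem_bot]
      simp
    · intro h
      obtain ⟨x, rfl⟩ := QuotientGroup.mk_surjective z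
      have hx : x ∈ C := by
        rw [hC]
        intro l hl
        have h1 : ((x * l * x⁻¹ * l⁻¹ : G) : G ⧸ C) = 1 := by
          have h2 := h (QuotientGroup.mk' C l) (Subgroup.mem_map_of_mem _ hl)
          rw [Subgroup.mem_bot] at h2
          exact h2
        have h3 : x * l * x⁻¹ * l⁻¹ ∈ L ⊓ C :=
          ⟨L.mul_mem (hL.nH.conj_mem l hl x) (L.inv_mem hl), (QuotientGroup.eq_one_iff _).1 h1⟩
        rwa [hLC] at h3
      rw [Subgroup.mem_bot]
      exact (QuotientGroup.eq_one_iff x).2 hx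
  refine step hCF hf G L C hL hC hGL fun q hq hd => ?_
  have h1 : f q ((G ⧸ C) ⧸ (⊥ : Subgroup (G ⧸ C))) := hGC.2 ⊥ _ ⊥ hchief hcent q hq (by
    rw [Subgroup.relIndex_bot_left, hcard]
    exact hd)
  exact (hf q hq).quot _ _ (QuotientGroup.quotientBot (G := G ⧸ C)).toMonoidHom
    (QuotientGroup.quotientBot (G := G ⧸ C)).surjective h1

end

end ExM

open ExM in
theorem exStmt : CentStmt → CFStmt → TrivStmt → UpStmt → DownStmt → WrStmt → FPPropsStmt →
    PLocStmt → ExStmt := by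
  intro hC hCF hT hU hD hW hFPP hPL F hF hS
  obtain ⟨hform, f, hf, hFf⟩ := hF
  have hFe : F = LF f := by
    funext G _
    exact propext (hFf G)
  subst hFe
  have hN : NClosed (LF f) := fun G _ N _ h => hS G N h
  have hFP : ∀ p, p.Prime → IsFormation (FP f p) := fun p hp => (hFPP f hf hform hN p hp).1
  have hE : ∀ p, p.Prime → Ext (LF f) p = FP f p := by
    intro p hp
    funext X _
    exact propext (ext_iff hU hD hW hf hform hp (hFP p hp) X)
  refine ⟨fun p hp => ⟨?_, ?_, ?_, ?_, ?_, ?_, ?_⟩, ?_⟩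
  · rw [hE p hp]
    exact ⟨hFP p hp, fp_sub hU hD hW hf hform hS hp (hFP p hp)⟩
  · intro X _ hX
    rw [hE p hp] at hX
    exact hX.1
  · intro X _ _ V _ hV hX
    refine ⟨inferInstance, fun W _ _ φ hφ hker => ?_⟩
    refine hX.2 W ((QuotientGroup.mk' V).comp φ)
      ((QuotientGroup.mk'_surjective V).comp hφ) ?_
    have h1 : ((QuotientGroup.mk' V).comp φ).ker = V.comap φ := by
      rw [← MonoidHom.comap_ker, QuotientGroup.ker_mk']
    rw [h1]
    exact hV.comap_of_ker_isPGroup φ hker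
  · intro W _ V C _ _ hne hexp hcomm hc hFW
    rw [hE p hp]
    exact fp_cent hC hf hform hp W V C hne hexp hcomm hc hFW
  · intro X _ hs hna hX hd
    rw [hE p hp]
    exact fp_simple hp X hs hna hX hd
  · intro hc X _ _ hX
    rw [hE p hp]
    exact fp_pgroup hPL hf hp hc X hX
  · intro G _ _ L C _ _ hL hpL hCC hGL hGC
    rw [hE p hp] at hGC
    exact e7 hCF hT hf hp G L C hL hpL hCC hGL hGC
  · intro G _ _ L C _ _ hL hna hCC hGL hGC
    exact e8 hCF hf G L C hL hna hCC hGL hGC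

end Pool.Agent.Lib.MP_de73ed_al_H
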