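import Pool.Agent.Lib.MP_de73ed_al_H.Spec

set_option linter.all false

/-! Module KA: wreath products and a subgroup-closed formation. -/

namespace Pool.Agent.Lib.MP_de73ed_al_H

open Pool.Agent.Lib.MP_de73ed_al

namespace KAM

/-- The embedding of `S` in the regular wreath product (functions supported at `1`). -/
noncomputable def emb (S P : Type) [Group S] [Group P] : S →* RegularWreathProduct S P := by
  classical
  exact
  { toFun := fun s => ⟨Pi.mulSingle 1 s, 1⟩
    map_one' := by
      ext x
      · simp
      · rfl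
    map_mul' := by
      intro a b
      ext x
      · simp only [RegularWreathProduct.mul_left, Pi.mul_apply, inv_one, one_mul,
          Pi.mulSingle_mul]
      · simp }

theorem emb_inj (S P : Type) [Group S] [Group P] : Function.Injective (emb S P) := by
  classical
  intro a b h
  have h1 := congrArg (fun w => RegularWreathProduct.left w 1) h
  simpa [emb] using h1

theorem ka4 (F : GrpClass) (hF : IsFormation F) (hS : SubClosed F) (S : Type) [Group S]
    (P : Type) [Group P] (h : Wrc F S P) : F P ∧ F S := by
  constructor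
  · refine hF.quot _ P RegularWreathProduct.rightHom ?_ h
    intro p
    exact ⟨⟨1, p⟩, rfl⟩
  · have h1 : F (emb S P).range := hS _ _ h
    let e : S ≃* (emb S P).range := MonoidHom.ofInjective (emb_inj S P)
    exact hF.quot _ S e.symm.toMonoidHom e.symm.surjective h1

/-- Evaluation along the orbit of `ω`. -/
def orb (S Ω P : Type) [Group S] [Group P] [MulAction P Ω] (ω : Ω) :
    WP S Ω P →* RegularWreathProduct S P where
  toFun w := ⟨fun x => w.left (x • ω), w.right⟩
  map_one' := by
    ext x
    · rfl
    · rfl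
  map_mul' := by
    intro a b
    ext x
    · change a.left (x • ω) * (b.left (a.right⁻¹ • (x • ω))) =
        a.left (x • ω) * b.left ((a.right⁻¹ * x) • ω)
      rw [mul_smul]
    · rfl

/-- Good normal subgroups. -/
def GN (F : GrpClass) (W : Type) [Group W] (N : Subgroup W) : Prop := ∃ _ : N.Normal, F (W ⧸ N)

theorem gn_inf (F : GrpClass) (hF : IsFormation F) (W : Type) [Group W] [Finite W]
    {M N : Subgroup W} (hM : GN F W M) (hN : GN F W N) : GN F W (M ⊓ N) := by
  obtain ⟨i, h⟩ := hM
  obtain ⟨j, k⟩ := hN
  exact ⟨inferInstance, hF.inf W M N h k⟩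

theorem gn_ker (F : GrpClass) (hF : IsFormation F) (hS : SubClosed F) (W Q : Type) [Group W]
    [Group Q] (ψ : W →* Q) (hQ : F Q) : GN F W ψ.ker := by
  refine ⟨inferInstance, ?_⟩
  have h1 : F ψ.range := hS _ _ hQ
  let e := QuotientGroup.quotientKerEquivRange ψ
  exact hF.quot _ _ e.symm.toMonoidHom e.symm.surjective h1

theorem gn_bot (F : GrpClass) (hF : IsFormation F) (W : Type) [Group W] (h : GN F W ⊥) : F W := by
  obtain ⟨i, h⟩ := h
  have e : (W ⧸ (⊥ : Subgroup W)) ≃* W := QuotientGroup.quotientBot
  exact hF.quot _ _ e.toMonoidHom e.surjective h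

theorem ka1 (F : GrpClass) (hF : IsFormation F) (hS : SubClosed F) (S : Type) [Group S]
    (P Ω : Type) [Group P] [Finite P] [Finite Ω] [MulAction P Ω] (h : Wrc F S P) :
    F (WP S Ω P) := by
  classical
  haveI : Finite (RegularWreathProduct S P) := hF.finite _ h
  haveI : Finite S := Finite.of_injective _ (emb_inj S P)
  haveI : Finite (WP S Ω P) := Finite.of_injective
    (fun w : WP S Ω P => ((w.left, w.right) : (Ω → S) × P)) (by
      intro a b hab
      have h1 := congrArg Prod.fst hab
      have h2 := congrArg Prod.snd hab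
      exact SemidirectProduct.ext h1 h2)
  haveI := Fintype.ofFinite Ω
  have h0 : GN F (WP S Ω P) (SemidirectProduct.rightHom : WP S Ω P →* P).ker :=
    gn_ker F hF hS _ _ _ (ka4 F hF hS S P h).1
  have h1 : ∀ s : Finset Ω, GN F (WP S Ω P)
      ((SemidirectProduct.rightHom : WP S Ω P →* P).ker ⊓ s.inf (fun ω => (orb S Ω P ω).ker)) := by
    intro s
    induction s using Finset.induction_on with
    | empty => simpa using h0
    | insert a s _ ih =>
      rw [Finset.inf_insert]
      have e : (SemidirectProduct.rightHom : WP S Ω P →* P).ker ⊓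
          ((orb S Ω P a).ker ⊓ s.inf (fun ω => (orb S Ω P ω).ker)) =
          (orb S Ω P a).ker ⊓ ((SemidirectProduct.rightHom : WP S Ω P →* P).ker ⊓
            s.inf (fun ω => (orb S Ω P ω).ker)) := by
        rw [← inf_assoc, ← inf_assoc, inf_comm (orb S Ω P a).ker]
      rw [e]
      exact gn_inf F hF _ (gn_ker F hF hS _ _ _ h) ih
  have h2 := h1 Finset.univ
  have h3 : (SemidirectProduct.rightHom : WP S Ω P →* P).ker ⊓
      Finset.univ.inf (fun ω => (orb S Ω P ω).ker) = ⊥ := by
    rw [eq_bot_iff]
    intro w hw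
    obtain ⟨hw1, hw2⟩ := hw
    have hw3 : w.right = 1 := hw1
    have hw4 : ∀ ω, w ∈ (orb S Ω P ω).ker := by
      intro ω
      have : Finset.univ.inf (fun ω => (orb S Ω P ω).ker) ≤ (orb S Ω P ω).ker :=
        Finset.inf_le (Finset.mem_univ ω)
      exact this hw2
    rw [Subgroup.mem_bot]
    refine SemidirectProduct.ext ?_ hw3
    funext ω
    have h5 : orb S Ω P ω w = 1 := hw4 ω
    have h6 := congrArg (fun w => RegularWreathProduct.left w 1) h5
    have h7 : w.left ((1 : P) • ω) = 1 := h6
    rw [one_smul] at h7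
    exact h7
  rw [h3] at h2
  exact gn_bot F hF _ h2

theorem ka2 (F : GrpClass) (hF : IsFormation F) (hS : SubClosed F) (S : Type) [Group S] :
    SubClosed (Wrc F S) := by
  classical
  intro G _ H h
  let U : Subgroup (RegularWreathProduct S G) := H.comap RegularWreathProduct.rightHom
  have h1 : F U := hS _ _ h
  let ψ : U →* RegularWreathProduct S H :=
    { toFun := fun w => ⟨fun x => (w : RegularWreathProduct S G).left x,
        ⟨(w : RegularWreathProduct S G).right, w.2⟩⟩
      map_one' := by
        ext x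
        · rfl
        · rfl
      map_mul' := by
        intro a b
        ext x
        · rfl
        · rfl }
  refine hF.quot U _ ψ ?_ h1
  rintro ⟨f, q⟩
  refine ⟨⟨⟨fun x => if hx : x ∈ H then f ⟨x, hx⟩ else 1, q⟩, q.2⟩, ?_⟩
  ext x
  · change (if hx : (x : G) ∈ H then f ⟨x, hx⟩ else 1) = f x
    rw [dif_pos x.2]
  · rfl

theorem ka3 (F : GrpClass) (hF : IsFormation F) (hS : SubClosed F) (S : Type) [Group S]
    (P Q : Type) [Group P] [Group Q] (φ : P →* Q) (hφ : Function.Surjective φ)
    (h : Wrc F S P) : Wrc F S Q := by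
  haveI : Finite (RegularWreathProduct S P) := hF.finite _ h
  haveI : Finite P := Finite.of_surjective
    (RegularWreathProduct.rightHom : RegularWreathProduct S P →* P) (fun p => ⟨⟨1, p⟩, rfl⟩)
  haveI : Finite Q := Finite.of_surjective φ hφ
  letI : MulAction P Q := MulAction.compHom Q φ
  have h1 : F (WP S Q P) := ka1 F hF hS S P Q h
  let ψ : WP S Q P →* RegularWreathProduct S Q :=
    { toFun := fun w => ⟨w.left, φ w.right⟩
      map_one' := by
        ext x
        · rfl
        · exact map_one φ
      map_mul' := by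
        intro a b
        ext x
        · change a.left x * b.left (φ (a.right⁻¹) * x) = a.left x * b.left ((φ a.right)⁻¹ * x)
          rw [map_inv]
        · exact map_mul φ a.right b.right }
  refine hF.quot _ _ ψ ?_ h1
  rintro ⟨f, q⟩
  obtain ⟨p, rfl⟩ := hφ q
  exact ⟨⟨f, p⟩, rfl⟩

end KAM

theorem kaStmt : KAStmt := by
  intro F hF hS S _
  refine ⟨?_, KAM.ka2 F hF hS S, ?_, ?_⟩
  · intro P Ω _ _ _ _ h
    exact KAM.ka1 F hF hS S P Ω h
  · intro P Q _ _ φ hφ h
    exact KAM.ka3 F hF hS S P Q φ hφ h
  · intro P _ h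
    exact KAM.ka4 F hF hS S P h

end Pool.Agent.Lib.MP_de73ed_al_H
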