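import Pool.Agent.Lib.MP_de73ed_al_H.Spec

set_option linter.all false
set_option autoImplicit false

/-! Module KB: the class of the groups `X` with `S ≀ X ∈ F`. -/

namespace Pool.Agent.Lib.MP_de73ed_al_H

open Pool.Agent.Lib.MP_de73ed_al

namespace KBM

/-- Closed under images. -/
def QC (J : GrpClass) : Prop :=
  ∀ (G H : Type) [Group G] [Group H] (φ : G →* H), Function.Surjective φ → J G → J H

theorem emb {J : GrpClass} (hq : QC J) (hS : SubClosed J) {G H : Type} [Group G] [Group H]
    (φ : G →* H) (hφ : Function.Injective φ) (h : J H) : J G := by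
  have h1 : J φ.range := hS H φ.range h
  exact hq _ _ (MonoidHom.ofInjective hφ).symm.toMonoidHom
    (MonoidHom.ofInjective hφ).symm.surjective h1

theorem qker {J : GrpClass} (hq : QC J) (hS : SubClosed J) {G H : Type} [Group G] [Group H]
    (φ : G →* H) (h : J H) : J (G ⧸ φ.ker) :=
  emb hq hS (QuotientGroup.kerLift φ) (QuotientGroup.kerLift_injective φ) h

theorem bot_quot {F : GrpClass} (hF : IsFormation F) (hS : SubClosed F) {G : Type} [Group G]
    (M : Subgroup G) [M.Normal] (hM : ∀ g ∈ M, g = 1) (h : F (G ⧸ M)) : F G := by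
  refine emb hF.quot hS (QuotientGroup.mk' M) ?_ h
  rw [← MonoidHom.ker_eq_bot_iff, QuotientGroup.ker_mk', eq_bot_iff]
  intro g hg
  exact Subgroup.mem_bot.2 (hM g hg)

theorem joint2 {F : GrpClass} (hF : IsFormation F) (hS : SubClosed F) {G H K : Type} [Group G]
    [Group H] [Group K] [Finite G] (φ : G →* H) (ψ : G →* K)
    (hinj : ∀ g, φ g = 1 → ψ g = 1 → g = 1) (hH : F H) (hK : F K) : F G :=
  bot_quot hF hS (φ.ker ⊓ ψ.ker) (fun g hg => hinj g hg.1 hg.2)
    (hF.inf G φ.ker ψ.ker (qker hF.quot hS φ hH) (qker hF.quot hS ψ hK))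

theorem finInf {F : GrpClass} (hF : IsFormation F) {G : Type} [Group G] [Finite G] {ι : Type}
    (N : ι → Subgroup G) [hn : ∀ i, (N i).Normal] (h : ∀ i, F (G ⧸ N i)) (s : Finset ι)
    (hs : s.Nonempty) :
    ∃ (M : Subgroup G) (_ : M.Normal), F (G ⧸ M) ∧ ∀ g, g ∈ M ↔ ∀ i ∈ s, g ∈ N i := by
  classical
  induction hs using Finset.Nonempty.cons_induction with
  | singleton a => exact ⟨N a, hn a, h a, by simp⟩
  | cons a s ha hs ih =>
    obtain ⟨M, hM, h1, h2⟩ := ih
    refine ⟨N a ⊓ M, inferInstance, hF.inf G (N a) M (h a) h1, ?_⟩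
    intro g
    rw [Subgroup.mem_inf, h2]
    simp

theorem jointF {F : GrpClass} (hF : IsFormation F) (hS : SubClosed F) {G H : Type} [Group G]
    [Group H] [Finite G] {ι : Type} [Finite ι] [Nonempty ι] (φ : ι → G →* H)
    (hinj : ∀ g, (∀ i, φ i g = 1) → g = 1) (hH : F H) : F G := by
  classical
  haveI := Fintype.ofFinite ι
  obtain ⟨M, hM, h1, h2⟩ := finInf hF (fun i => (φ i).ker) (fun i => qker hF.quot hS (φ i) hH)
    Finset.univ Finset.univ_nonempty
  exact bot_quot hF hS M (fun g hg => hinj g (fun i => (h2 g).1 hg i (Finset.mem_univ i))) h1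

section WPs

variable (S : Type) [Group S]

theorem wpFinite [Finite S] {P Ω : Type} [Group P] [MulAction P Ω] [Finite P] [Finite Ω] :
    Finite (WP S Ω P) := by
  refine Finite.of_injective (fun w : WP S Ω P => (w.left, w.right)) ?_
  intro a b h
  exact SemidirectProduct.ext (congrArg Prod.fst h) (congrArg Prod.snd h)

/-- Pulling back the functions along an equivariant map. -/
def pull {P Ω Ω' : Type} [Group P] [MulAction P Ω] [MulAction P Ω'] (j : Ω' → Ω)
    (hj : ∀ (p : P) (x : Ω'), j (p • x) = p • j x) : WP S Ω P →* WP S Ω' P where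
  toFun w := ⟨fun x => w.left (j x), w.right⟩
  map_one' := rfl
  map_mul' a b := by
    apply SemidirectProduct.ext
    · funext x
      show a.left (j x) * b.left (a.right⁻¹ • j x) = a.left (j x) * b.left (j (a.right⁻¹ • x))
      rw [hj]
    · rfl

theorem pull_surj {P Ω Ω' : Type} [Group P] [MulAction P Ω] [MulAction P Ω'] (j : Ω' → Ω)
    (hj : ∀ (p : P) (x : Ω'), j (p • x) = p • j x) (hi : Function.Injective j) :
    Function.Surjective (pull S j hj) := by
  intro w
  refine ⟨⟨Function.extend j w.left 1, w.right⟩, ?_⟩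
  apply SemidirectProduct.ext
  · funext x
    exact hi.extend_apply _ _ x
  · rfl

theorem pull_F {F : GrpClass} (hF : IsFormation F) {P Ω Ω' : Type} [Group P] [MulAction P Ω]
    [MulAction P Ω'] (j : Ω' → Ω) (hj : ∀ (p : P) (x : Ω'), j (p • x) = p • j x)
    (hi : Function.Injective j) (h : F (WP S Ω P)) : F (WP S Ω' P) :=
  hF.quot _ _ (pull S j hj) (pull_surj S j hj hi) h

/-- The action of `P × P` on `Ω₁ × Ω₂`. -/
@[reducible] def act2 (P Ω₁ Ω₂ : Type) [Group P] [MulAction P Ω₁] [MulAction P Ω₂] :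
    MulAction (P × P) (Ω₁ × Ω₂) where
  smul g x := (g.1 • x.1, g.2 • x.2)
  one_smul x := by
    show ((1 : P) • x.1, (1 : P) • x.2) = x
    rw [one_smul, one_smul]
  mul_smul g h x := by
    show ((g.1 * h.1) • x.1, (g.2 * h.2) • x.2) = (g.1 • h.1 • x.1, g.2 • h.2 • x.2)
    rw [mul_smul, mul_smul]

/-- The wreath product for the action of `P × P` on `Ω₁ × Ω₂`. -/
abbrev W2 (P Ω₁ Ω₂ : Type) [Group P] [MulAction P Ω₁] [MulAction P Ω₂] : Type :=
  @WP S (Ω₁ × Ω₂) (P × P) _ _ (act2 P Ω₁ Ω₂)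

variable {P Ω₁ Ω₂ : Type} [Group P] [MulAction P Ω₁] [MulAction P Ω₂]

/-- The elements of `W2` over `P × 1`. -/
def U1 (S P Ω₁ Ω₂ : Type) [Group S] [Group P] [MulAction P Ω₁] [MulAction P Ω₂] :
    Subgroup (W2 S P Ω₁ Ω₂) :=
  ((MonoidHom.snd P P).comp (SemidirectProduct.rightHom : W2 S P Ω₁ Ω₂ →* P × P)).ker

/-- The elements of `W2` over `1 × P`. -/
def U2 (S P Ω₁ Ω₂ : Type) [Group S] [Group P] [MulAction P Ω₁] [MulAction P Ω₂] :
    Subgroup (W2 S P Ω₁ Ω₂) :=
  ((MonoidHom.fst P P).comp (SemidirectProduct.rightHom : W2 S P Ω₁ Ω₂ →* P × P)).ker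

/-- Restriction to `Ω₁ × {y}`. -/
def r1 (y : Ω₂) : U1 S P Ω₁ Ω₂ →* WP S Ω₁ P where
  toFun w := ⟨fun x => w.1.left (x, y), w.1.right.1⟩
  map_one' := rfl
  map_mul' a b := by
    have ha : a.1.right.2 = 1 := a.2
    apply SemidirectProduct.ext
    · funext x
      show a.1.left (x, y) * b.1.left (a.1.right.1⁻¹ • x, a.1.right.2⁻¹ • y)
        = a.1.left (x, y) * b.1.left (a.1.right.1⁻¹ • x, y)
      rw [ha, inv_one, one_smul]
    · rfl

/-- Restriction to `{x} × Ω₂`. -/
def r2 (x : Ω₁) : U2 S P Ω₁ Ω₂ →* WP S Ω₂ P where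
  toFun w := ⟨fun y => w.1.left (x, y), w.1.right.2⟩
  map_one' := rfl
  map_mul' a b := by
    have ha : a.1.right.1 = 1 := a.2
    apply SemidirectProduct.ext
    · funext y
      show a.1.left (x, y) * b.1.left (a.1.right.1⁻¹ • x, a.1.right.2⁻¹ • y)
        = a.1.left (x, y) * b.1.left (x, a.1.right.2⁻¹ • y)
      rw [ha, inv_one, one_smul]
    · rfl

/-- The diagonal embedding. -/
def dia (S P Ω₁ Ω₂ : Type) [Group S] [Group P] [MulAction P Ω₁] [MulAction P Ω₂] :
    WP S (Ω₁ × Ω₂) P →* W2 S P Ω₁ Ω₂ where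
  toFun w := ⟨w.left, (w.right, w.right)⟩
  map_one' := rfl
  map_mul' a b := rfl

theorem dia_inj : Function.Injective (dia S P Ω₁ Ω₂) := by
  intro a b h
  have hl : (dia S P Ω₁ Ω₂ a).left = (dia S P Ω₁ Ω₂ b).left := by rw [h]
  have hr : (dia S P Ω₁ Ω₂ a).right = (dia S P Ω₁ Ω₂ b).right := by rw [h]
  exact SemidirectProduct.ext hl (congrArg Prod.fst hr)

theorem prodF {F : GrpClass} (hF : IsFormation F) (hS : SubClosed F) (hPr : PrdC F) [Finite S]
    [Finite P] [Finite Ω₁] [Finite Ω₂] (hP : F P) (h1 : F (WP S Ω₁ P)) (h2 : F (WP S Ω₂ P)) :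
    F (WP S (Ω₁ × Ω₂) P) := by
  rcases isEmpty_or_nonempty (Ω₁ × Ω₂) with he | hne
  · refine emb hF.quot hS (SemidirectProduct.rightHom : WP S (Ω₁ × Ω₂) P →* P) ?_ hP
    intro a b h
    exact SemidirectProduct.ext (funext fun x => (he.false x).elim) h
  · obtain ⟨x0, y0⟩ := hne.some
    haveI : Nonempty Ω₁ := ⟨x0⟩
    haveI : Nonempty Ω₂ := ⟨y0⟩
    haveI hfin : Finite (W2 S P Ω₁ Ω₂) := @wpFinite S _ _ (P × P) (Ω₁ × Ω₂) _ (act2 P Ω₁ Ω₂) _ _
    have hPP : F (P × P) := joint2 hF hS (MonoidHom.fst P P) (MonoidHom.snd P P)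
      (fun g a b => Prod.ext a b) hP hP
    refine emb hF.quot hS (dia S P Ω₁ Ω₂) (dia_inj S) ?_
    have hq : F (W2 S P Ω₁ Ω₂ ⧸ (SemidirectProduct.rightHom : W2 S P Ω₁ Ω₂ →* P × P).ker) :=
      qker hF.quot hS _ hPP
    refine hPr (W2 S P Ω₁ Ω₂) _ hq (U1 S P Ω₁ Ω₂) (U2 S P Ω₁ Ω₂) ?_ ?_ ?_ ?_ ?_
    · intro w hw
      exact congrArg Prod.snd hw
    · intro w hw
      exact congrArg Prod.fst hw
    · refine jointF hF hS (fun y : Ω₂ => r1 S y) ?_ h1
      intro w hw
      apply Subtype.ext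
      apply SemidirectProduct.ext
      · funext z
        have := hw z.2
        have h3 : (r1 S z.2 w).left z.1 = 1 := by rw [this]; rfl
        exact h3
      · have := hw y0
        have h3 : (r1 S y0 w).right = 1 := by rw [this]; rfl
        exact Prod.ext h3 w.2
    · refine jointF hF hS (fun x : Ω₁ => r2 S x) ?_ h2
      intro w hw
      apply Subtype.ext
      apply SemidirectProduct.ext
      · funext z
        have := hw z.1
        have h3 : (r2 S z.1 w).left z.2 = 1 := by rw [this]; rfl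
        exact h3
      · have := hw x0
        have h3 : (r2 S x0 w).right = 1 := by rw [this]; rfl
        exact Prod.ext w.2 h3
    · intro g
      refine ⟨⟨g.left, (g.right.1, 1)⟩, rfl, ⟨1, (1, g.right.2)⟩, rfl, ?_⟩
      apply SemidirectProduct.ext
      · funext x
        show g.left x = g.left x * 1
        rw [mul_one]
      · show g.right = (g.right.1 * 1, 1 * g.right.2)
        rw [mul_one, one_mul]

theorem powF {F : GrpClass} (hF : IsFormation F) (hS : SubClosed F) (hPr : PrdC F)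
    [Finite S] {Ω : Type} [MulAction P Ω] [Finite P] [Finite Ω] (hFS : F S) (hP : F P)
    (h : F (WP S Ω P)) (ι : Type) [Finite ι] : F (WP S (ι → Ω) P) := by
  induction ι using Finite.induction_empty_option with
  | of_equiv e ih =>
    refine pull_F S hF (fun g i => g (e i)) (fun p x => rfl) ?_ ih
    intro a b hab
    funext i
    have := congrFun hab (e.symm i)
    simpa using this
  | h_empty =>
    haveI : Finite (WP S (PEmpty → Ω) P) := wpFinite S
    refine joint2 hF hS (H := S) (K := P)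
      { toFun := fun w => w.left (fun i => i.elim)
        map_one' := rfl
        map_mul' := fun a b => ?_ } SemidirectProduct.rightHom ?_ hFS hP
    · show a.left (fun i => i.elim) * b.left (a.right⁻¹ • fun i => i.elim) = _
      rw [Subsingleton.elim (a.right⁻¹ • fun i : PEmpty => (i.elim : Ω)) (fun i => i.elim)]
    · intro g h1 h2
      apply SemidirectProduct.ext
      · funext x
        rw [Subsingleton.elim x (fun i : PEmpty => (i.elim : Ω))]
        exact h1
      · exact h2
  | h_option ih =>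
    rename_i α _
    refine pull_F S hF (Ω := Ω × (α → Ω)) (fun g => (g none, fun i => g (some i)))
      (fun p x => rfl) ?_ (prodF S hF hS hPr hP h ih)
    intro a b hab
    funext i
    cases i with
    | none => exact congrArg Prod.fst hab
    | some i => exact congrFun (congrArg Prod.snd hab) i

/-- The wreath product with the regular action. -/
def reg (P : Type) [Group P] : WP S P P →* RegularWreathProduct S P where
  toFun w := ⟨w.left, w.right⟩
  map_one' := rfl
  map_mul' a b := rfl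

theorem faithF {F : GrpClass} (hF : IsFormation F) (hS : SubClosed F) (hPr : PrdC F)
    [Finite S] {Ω : Type} [MulAction P Ω] [Finite P] [Finite Ω] [FaithfulSMul P Ω] (hFS : F S)
    (hP : F P) (h : F (WP S Ω P)) : Wrc F S P := by
  have h1 := powF S hF hS hPr hFS hP h Ω
  have h2 : F (WP S P P) := by
    refine pull_F S hF (fun x : P => fun ω : Ω => x • ω) ?_ ?_ h1
    · intro p x
      funext ω
      exact mul_smul p x ω
    · intro a b hab
      exact eq_of_smul_eq_smul (fun ω : Ω => congrFun hab ω)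
  exact hF.quot _ _ (reg S P) (fun w => ⟨⟨w.left, w.right⟩, rfl⟩) h2

/-- The elements of `S ≀ P` over `A` as elements of the wreath product for the action of `A`. -/
def ovr (A : Subgroup P) :
    A.comap (RegularWreathProduct.rightHom : RegularWreathProduct S P →* P) →* WP S P A where
  toFun w := ⟨w.1.left, ⟨w.1.right, w.2⟩⟩
  map_one' := rfl
  map_mul' a b := rfl

theorem ovr_inj (A : Subgroup P) : Function.Injective (ovr S A) := by
  intro a b h
  have hl : (ovr S A a).left = (ovr S A b).left := by rw [h]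
  have hr : (ovr S A a).right = (ovr S A b).right := by rw [h]
  apply Subtype.ext
  exact RegularWreathProduct.ext hl (congrArg Subtype.val hr)

end WPs

end KBM

open KBM in
theorem kbStmt (hKA : KAStmt) : KBStmt := by
  intro F hF hS hPr S _ hFS
  obtain ⟨k1, k2, k3, k4⟩ := hKA F hF hS S
  haveI : Finite S := hF.finite S hFS
  have hprod : ∀ (P : Type) [Group P] [Finite P], F P → ∀ A B : Subgroup P, Wrc F S A →
      Wrc F S B → Prd A B → Wrc F S P := by
    intro P _ _ hP A B hA hB hAB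
    have hq : F (RegularWreathProduct S P ⧸
        (RegularWreathProduct.rightHom : RegularWreathProduct S P →* P).ker) :=
      qker hF.quot hS _ hP
    refine hPr (RegularWreathProduct S P) _ hq (A.comap RegularWreathProduct.rightHom)
      (B.comap RegularWreathProduct.rightHom) ?_ ?_ ?_ ?_ ?_
    · exact Subgroup.comap_mono bot_le
    · exact Subgroup.comap_mono bot_le
    · exact emb hF.quot hS (ovr S A) (ovr_inj S A) (k1 A P hA)
    · exact emb hF.quot hS (ovr S B) (ovr_inj S B) (k1 B P hB)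
    · intro g
      obtain ⟨a, ha, b, hb, hg⟩ := hAB g.right
      refine ⟨⟨g.left, a⟩, ha, ⟨1, b⟩, hb, ?_⟩
      apply RegularWreathProduct.ext
      · funext x
        show g.left x = g.left x * 1
        rw [mul_one]
      · exact hg
  refine ⟨hprod, ⟨?_, k3, ?_⟩, ?_⟩
  · intro G _ h
    exact hF.finite G (k4 G h).1
  · intro G _ _ M N _ _ hM hN
    have hFM := (k4 _ hM).1
    have hFN := (k4 _ hN).1
    have hPP : F ((G ⧸ M) × (G ⧸ N)) := joint2 hF hS (MonoidHom.fst _ _) (MonoidHom.snd _ _)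
      (fun g a b => Prod.ext a b) hFM hFN
    have hA : Wrc F S (MonoidHom.inl (G ⧸ M) (G ⧸ N)).range :=
      k3 _ _ _ (MonoidHom.rangeRestrict_surjective _) hM
    have hB : Wrc F S (MonoidHom.inr (G ⧸ M) (G ⧸ N)).range :=
      k3 _ _ _ (MonoidHom.rangeRestrict_surjective _) hN
    have hW := hprod ((G ⧸ M) × (G ⧸ N)) hPP _ _ hA hB (by
      intro g
      exact ⟨(g.1, 1), ⟨g.1, rfl⟩, (1, g.2), ⟨g.2, rfl⟩, by simp⟩)
    refine emb k3 k2 (QuotientGroup.lift (M ⊓ N)
      ((QuotientGroup.mk' M).prod (QuotientGroup.mk' N)) ?_) ?_ hW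
    · intro g hg
      exact Prod.ext ((QuotientGroup.eq_one_iff g).2 hg.1) ((QuotientGroup.eq_one_iff g).2 hg.2)
    · rw [← MonoidHom.ker_eq_bot_iff, eq_bot_iff]
      intro x hx
      obtain ⟨g, rfl⟩ := QuotientGroup.mk_surjective x
      have h1 : ((g : G ⧸ M), (g : G ⧸ N)) = 1 := hx
      rw [Subgroup.mem_bot, QuotientGroup.eq_one_iff]
      exact ⟨(QuotientGroup.eq_one_iff g).1 (congrArg Prod.fst h1),
        (QuotientGroup.eq_one_iff g).1 (congrArg Prod.snd h1)⟩
  · intro P Ω _ _ _ _ _ hP hW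
    exact faithF S hF hS hPr hFS hP hW

end Pool.Agent.Lib.MP_de73ed_al_H
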