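import Pool.Agent.Lib.MP_de73ed_al_H.Spec

set_option linter.all false
set_option autoImplicit false

/-! Module KC: membership in `Wrc F S` by composition factors. -/

namespace Pool.Agent.Lib.MP_de73ed_al_H

open Pool.Agent.Lib.MP_de73ed_al

namespace KCM

/-- `S` maps onto `S ≀ 1`. -/
def toW (S : Type) [Group S] : S →* RegularWreathProduct S PUnit where
  toFun s := ⟨fun _ => s, 1⟩
  map_one' := rfl
  map_mul' _ _ := rfl

theorem toW_surj (S : Type) [Group S] : Function.Surjective (toW S) := by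
  intro w
  refine ⟨w.left 1, ?_⟩
  cases w
  rfl

end KCM

theorem kcStmt : KLStmt → KAStmt → KBStmt → CompStmt → KCStmt := by
  intro hKL hKA hKB hComp F hF hsub hP S _ hS P _
  obtain ⟨a1, a2, a3, a4⟩ := hKA F hF.1 hsub S
  obtain ⟨b1, b2, b3⟩ := hKB F hF.1 hsub hP S hS
  have hiso : IsoClosed (Wrc F S) := fun X Y _ _ e h => a3 X Y e.toMonoidHom e.surjective h
  obtain ⟨-, -, -, -, -, -, -, c8, -⟩ := hComp (Wrc F S) hiso
  constructor
  · intro h
    exact ⟨(a4 P h).1, c8 b2.finite a2 (fun G H _ _ φ hφ hG => a3 G H φ hφ hG) P h⟩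
  · rintro ⟨h1, h2⟩
    refine hKL F hF hsub (Wrc F S) b2 a2 (fun G _ hG => (a4 G hG).1) ?_ ?_ P h1 h2
    · exact ⟨PUnit, inferInstance, hF.1.quot S _ (KCM.toW S) (KCM.toW_surj S) hS⟩
    · intro G _ _ hG A B hA hB hAB
      exact b1 G hG A B hA hB hAB

end Pool.Agent.Lib.MP_de73ed_al_H
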