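import Pool.Agent.Lib.MP_de73ed_al_H.Spec

set_option linter.all false

/-!
The embedding of Kaloujnine and Krasner.
-/

namespace Pool.Agent.Lib.MP_de73ed_al_H

open Pool.Agent.Lib.MP_de73ed_al

namespace KKM

variable {G : Type} [Group G] (N : Subgroup G) [N.Normal]

/-- A representative. -/
noncomputable def s (x : G ⧸ N) : G := Quotient.out x

theorem s_spec (x : G ⧸ N) : ((s N x : G) : G ⧸ N) = x := QuotientGroup.out_eq' x

theorem mem (g : G) (x : G ⧸ N) : (s N x)⁻¹ * g * s N ((g : G ⧸ N)⁻¹ * x) ∈ N := by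
  rw [← QuotientGroup.eq_one_iff]
  rw [QuotientGroup.mk_mul, QuotientGroup.mk_mul, QuotientGroup.mk_inv, s_spec, s_spec]
  group

/-- The embedding. -/
noncomputable def emb : G →* RegularWreathProduct N (G ⧸ N) where
  toFun g := ⟨fun x => ⟨(s N x)⁻¹ * g * s N ((g : G ⧸ N)⁻¹ * x), mem N g x⟩, (g : G ⧸ N)⟩
  map_one' := by
    apply RegularWreathProduct.ext
    · funext x
      apply Subtype.ext
      simp
    · rfl
  map_mul' a b := by
    apply RegularWreathProduct.ext
    · funext x
      apply Subtype.ext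
      simp only [RegularWreathProduct.mul_left, Pi.mul_apply, Subgroup.coe_mul, QuotientGroup.mk_mul,
        mul_inv_rev, mul_assoc, mul_inv_cancel_left]
    · rfl

theorem emb_inj : Function.Injective (emb N) := by
  intro a b h
  have h1 : (a : G ⧸ N) = (b : G ⧸ N) := congrArg RegularWreathProduct.right h
  have h2 := congrFun (congrArg RegularWreathProduct.left h) 1
  have h3 : (s N 1)⁻¹ * a * s N ((a : G ⧸ N)⁻¹ * 1) = (s N 1)⁻¹ * b * s N ((b : G ⧸ N)⁻¹ * 1) :=
    congrArg Subtype.val h2
  rw [h1] at h3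
  exact mul_left_cancel (mul_right_cancel h3)

end KKM

theorem kkStmt : KKStmt := by
  intro G _ N _
  exact ⟨KKM.emb N, KKM.emb_inj N⟩

end Pool.Agent.Lib.MP_de73ed_al_H
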