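import Pool.Agent.Lib.MP_de73ed_al_H.Spec

set_option linter.all false
set_option autoImplicit false

/-! Module KL: the key lemma. -/

namespace Pool.Agent.Lib.MP_de73ed_al_H

open Pool.Agent.Lib.MP_de73ed_al

namespace KL

theorem iso {H : GrpClass} (hH : IsFormation H) {G K : Type} [Group G] [Group K] (e : G ≃* K)
    (h : H G) : H K :=
  hH.quot G K e.toMonoidHom e.surjective h

/-- The Sylow subgroups of a nilpotent normal subgroup, in terms of a normal subgroup of the whole
group. -/
theorem sylow_part {G : Type} [Group G] [Finite G] (M : Subgroup G) [M.Normal]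
    (hM : Group.IsNilpotent M) (q : ℕ) (hq : q.Prime) (hd : q ∣ Nat.card M) :
    ∃ P : Subgroup G, P.Normal ∧ P ≤ M ∧ P ≠ ⊥ ∧ IsPGroup q P := by
  haveI : Fact q.Prime := ⟨hq⟩
  haveI := hM
  let S : Sylow q M := default
  have hSn : (S : Subgroup M).Normal :=
    Sylow.normal_of_normalizerCondition normalizerCondition_of_isNilpotent S
  haveI := hSn
  haveI hSc : (S : Subgroup M).Characteristic := Sylow.characteristic_of_normal S hSn
  have hPn : ((S : Subgroup M).map M.subtype).Normal :=
    ConjAct.normal_of_characteristic_of_normal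
  refine ⟨(S : Subgroup M).map M.subtype, hPn, Subgroup.map_subtype_le _, ?_, ?_⟩
  · intro h
    rw [Subgroup.map_eq_bot_iff_of_injective _ M.subtype_injective] at h
    have h1 : Nat.card (S : Subgroup M) = 1 := by rw [h]; exact Subgroup.card_bot
    have h2 := S.dvd_card_of_dvd_card hd
    rw [h1] at h2
    exact hq.one_lt.ne' (Nat.dvd_one.1 h2)
  · exact S.isPGroup'.map _

theorem card_lt {G : Type} [Group G] [Finite G] (B : Subgroup G) (hB : B ≠ ⊤) :
    Nat.card B < Nat.card G := by
  rcases lt_or_eq_of_le (Subgroup.card_le_card_group B) with h | h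
  · exact h
  · exact absurd (Subgroup.eq_top_of_card_eq B h) hB

theorem card_quot_lt {G : Type} [Group G] [Finite G] (P : Subgroup G) (hP : P ≠ ⊥) :
    Nat.card (G ⧸ P) < Nat.card G := by
  have hmul : Nat.card G = Nat.card (G ⧸ P) * Nat.card P :=
    Subgroup.card_eq_card_quotient_mul_card_subgroup P
  have h1 : 1 < Nat.card P := by
    rw [Finite.one_lt_card_iff_nontrivial]
    exact (Subgroup.nontrivial_iff_ne_bot P).2 hP
  have h2 : 0 < Nat.card (G ⧸ P) := Nat.card_pos
  rw [hmul]
  nlinarith

open RegularWreathProduct in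
/-- `D ≀ Q ∈ H` if `D, Q ∈ H` and `D ≀ Q ∈ F`. -/
theorem wr (hCyc : CycStmt) {F H : GrpClass} (hH : IsFormation H)
    (hstep : ∀ (G : Type) [Group G] [Finite G], F G → ∀ A B : Subgroup G, H A → H B →
      Prd A B → H G)
    (D Q : Type) [Group D] [Group Q] [Finite D] [Finite Q] (hD : H D) (hQ : H Q)
    (hF : F (RegularWreathProduct D Q)) : H (RegularWreathProduct D Q) := by
  let A : Subgroup (RegularWreathProduct D Q) := (rightHom : RegularWreathProduct D Q →* Q).ker
  let B : Subgroup (RegularWreathProduct D Q) := (inl : Q →* RegularWreathProduct D Q).range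
  have hpi : H (Q → D) := (hCyc H hH).2 D Q hD
  have hA : H A := by
    let φ : (Q → D) →* A :=
      { toFun := fun f => ⟨⟨f, 1⟩, by
          show (rightHom : RegularWreathProduct D Q →* _) ⟨f, 1⟩ = 1
          rfl⟩
        map_one' := by
          apply Subtype.ext
          rfl
        map_mul' := by
          intro f g
          apply Subtype.ext
          show (⟨f * g, 1⟩ : RegularWreathProduct D Q) = ⟨f, 1⟩ * ⟨g, 1⟩
          rw [mul_def]
          simp }
    refine hH.quot _ _ φ ?_ hpi
    rintro ⟨⟨f, q⟩, hx⟩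
    refine ⟨f, ?_⟩
    apply Subtype.ext
    have hq : q = 1 := hx
    subst hq
    rfl
  have hB : H B := by
    refine hH.quot _ _ (inl : Q →* RegularWreathProduct D Q).rangeRestrict
      (MonoidHom.rangeRestrict_surjective _) hQ
  haveI : Finite (RegularWreathProduct D Q) := inferInstance
  refine hstep _ hF A B hA hB ?_
  rintro ⟨f, q⟩
  refine ⟨⟨f, 1⟩, ?_, ⟨1, q⟩, ⟨q, rfl⟩, ?_⟩
  · show (rightHom : RegularWreathProduct D Q →* _) ⟨f, 1⟩ = 1
    rfl
  · rw [mul_def]
    ext
    · simp
    · simp

theorem rightHom_surj {D Q : Type} [Group D] [Group Q] :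
    Function.Surjective (RegularWreathProduct.rightHom : RegularWreathProduct D Q →* Q) :=
  fun q => ⟨⟨1, q⟩, rfl⟩

open RegularWreathProduct in
/-- The kernel of `rightHom` is a `q`-group if `D` is one. -/
theorem ker_pgroup (q : ℕ) [Fact q.Prime] (D Q : Type) [Group D] [Group Q] [Finite D] [Finite Q]
    (hD : IsPGroup q D) : IsPGroup q (rightHom : RegularWreathProduct D Q →* Q).ker := by
  obtain ⟨n, hn⟩ := (IsPGroup.iff_card).1 hD
  haveI : Finite (RegularWreathProduct D Q) := inferInstance
  refine IsPGroup.of_card (n := n * Nat.card Q) ?_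
  have h1 := Subgroup.card_eq_card_quotient_mul_card_subgroup
    (rightHom : RegularWreathProduct D Q →* Q).ker
  have h2 : Nat.card (RegularWreathProduct D Q ⧸ (rightHom : RegularWreathProduct D Q →* Q).ker) =
      Nat.card Q :=
    Nat.card_congr (QuotientGroup.quotientKerEquivOfSurjective _ rightHom_surj).toEquiv
  rw [h2, RegularWreathProduct.card, hn, ← pow_mul, mul_comm] at h1
  exact (Nat.eq_of_mul_eq_mul_left Nat.card_pos h1).symm

end KL

open KL in
theorem klStmt (hComp : CompStmt) (hUnf : UnfStmt) (hKK : KKStmt) (hEx : ExStmt)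
    (hCyc : CycStmt) (hRGrp : RGrpStmt) : KLStmt := by
  intro F hloc hF H hH hHs hHF hHne hstep
  have hFf := hloc.1
  have hIso : IsoClosed H := fun X Y _ _ e h => iso hH e h
  obtain ⟨c1, c2, c3, c4, c5, c6, c7, c8, c9⟩ := hComp H hIso
  have hmem : ∀ (G : Type) [Group G], H G → CompIn H G :=
    c8 hH.finite hHs hH.quot
  have hHer : HerJ H := fun T _ _ hT U => hmem U (hHs T U hT)
  obtain ⟨X₀, _, hX₀⟩ := hHne
  have key : ∀ (n : ℕ) (G : Type) [Group G] [Finite G], Nat.card G = n → F G → CompIn H G →
      H G := by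
    intro n
    induction n using Nat.strong_induction_on with
    | _ n ih =>
      intro G _ _ hn hFG hCG
      rcases subsingleton_or_nontrivial G with hs | hnt
      · refine hH.quot X₀ G 1 ?_ hX₀
        intro x
        exact ⟨1, Subsingleton.elim _ _⟩
      have hprop : ∀ B : Subgroup G, B ≠ ⊤ → H B := fun B hB =>
        ih (Nat.card B) (hn ▸ card_lt B hB) B rfl (hF G B hFG) (c6 hHer G hCG B)
      have hquo : ∀ (P : Subgroup G) [P.Normal], P ≠ ⊥ → H (G ⧸ P) := fun P _ hP =>
        ih (Nat.card (G ⧸ P)) (hn ▸ card_quot_lt P hP) (G ⧸ P) rfl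
          (hFf.quot G _ _ (QuotientGroup.mk'_surjective P) hFG)
          (c1 G _ _ (QuotientGroup.mk'_surjective P) hCG)
      by_cases hfac : ∀ A B : Subgroup G, Prd A B → A = ⊤ ∨ B = ⊤
      swap
      · push Not at hfac
        obtain ⟨A, B, hAB, hA, hB⟩ := hfac
        exact hstep G hFG A B (hprop A hA) (hprop B hB) hAB
      obtain ⟨M, hMn, hXs, hsup, hnil, hdiv⟩ := hUnf G hnt hfac
      have hHX : H (G ⧸ M) :=
        (c4 (G ⧸ M) hXs).1 (c1 G _ _ (QuotientGroup.mk'_surjective M) hCG)
      by_cases hMb : M = ⊥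
      · subst hMb
        exact iso hH QuotientGroup.quotientBot hHX
      have hcM : 1 < Nat.card M := by
        rw [Finite.one_lt_card_iff_nontrivial]
        exact (Subgroup.nontrivial_iff_ne_bot M).2 hMb
      obtain ⟨q, hq, hqM⟩ := Nat.exists_prime_and_dvd hcM.ne'
      haveI : Fact q.Prime := ⟨hq⟩
      by_cases htwo : ∃ q' : ℕ, q'.Prime ∧ q' ≠ q ∧ q' ∣ Nat.card M
      · obtain ⟨q', hq', hne, hqM'⟩ := htwo
        haveI : Fact q'.Prime := ⟨hq'⟩
        obtain ⟨P, hPn, hPM, hPb, hPq⟩ := sylow_part M hnil q hq hqM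
        obtain ⟨P', hPn', hPM', hPb', hPq'⟩ := sylow_part M hnil q' hq' hqM'
        have hdisj : P ⊓ P' = ⊥ :=
          disjoint_iff.1 (IsPGroup.disjoint_of_ne q q' hne.symm P P' hPq hPq')
        have h := hH.inf G P P' (hquo P hPb) (hquo P' hPb')
        have h2 : H (G ⧸ (⊥ : Subgroup G)) := iso hH (QuotientGroup.quotientMulEquivOfEq hdisj) h
        exact iso hH QuotientGroup.quotientBot h2
      have hMq : IsPGroup q M := by
        refine IsPGroup.of_card (n := (Nat.card M).primeFactorsList.length) ?_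
        refine Nat.eq_prime_pow_of_unique_prime_dvd (by omega) ?_
        intro d hd hdM
        by_contra hne
        exact htwo ⟨d, hd, hne, hdM⟩
      have hqX : q ∣ Nat.card (G ⧸ M) := hdiv q hq hqM
      by_cases hab : ∀ a b : G ⧸ M, a * b = b * a
      · -- `G` is a `q`-group
        have hprime : (Nat.card (G ⧸ M)).Prime := by
          letI : CommGroup (G ⧸ M) := { (inferInstance : Group (G ⧸ M)) with mul_comm := hab }
          haveI := hXs
          exact IsSimpleGroup.prime_card
        have hcX : Nat.card (G ⧸ M) = q := ((Nat.prime_dvd_prime_iff_eq hq hprime).1 hqX).symm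
        haveI : NeZero q := ⟨hq.ne_zero⟩
        have hZ : H (Multiplicative (ZMod q)) := by
          refine iso hH (mulEquivOfPrimeCardEq (p := q) hcX ?_) hHX
          simp [Nat.card_eq_fintype_card, ZMod.card]
        have hGq : IsPGroup q G := by
          obtain ⟨k, hk⟩ := (IsPGroup.iff_card).1 hMq
          refine IsPGroup.of_card (n := k + 1) ?_
          rw [Subgroup.card_eq_card_quotient_mul_card_subgroup M, hcX, hk, pow_succ, mul_comm]
        refine hRGrp H hH (fun G _ N _ hG => hHs G N hG) q hq hZ ?_ G hGq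
        intro K _ _ hK A B hA hB hAB
        have hFK : F K :=
          ((hEx F hloc hF).1 q hq).2.1 K
            (((hEx F hloc hF).1 q hq).2.2.2.2.2.1 (hHF _ hZ) K hK)
        exact hstep K hFK A B hA hB hAB
      · have hMt : M ≠ ⊤ := by
          rintro rfl
          have hnt' := hXs.toNontrivial
          have : Subsingleton (G ⧸ (⊤ : Subgroup G)) := QuotientGroup.subsingleton_quotient_top
          exact not_subsingleton (G ⧸ (⊤ : Subgroup G)) this
        have hExt : Ext F q (G ⧸ M) :=
          ((hEx F hloc hF).1 q hq).2.2.2.2.1 (G ⧸ M) hXs hab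
            (hFf.quot G _ _ (QuotientGroup.mk'_surjective M) hFG) hqX
        haveI : Finite (RegularWreathProduct M (G ⧸ M)) := inferInstance
        have hFW : F (RegularWreathProduct M (G ⧸ M)) :=
          hExt.2 _ RegularWreathProduct.rightHom rightHom_surj
            (ker_pgroup q M (G ⧸ M) hMq)
        have hHW := wr hCyc hH hstep M (G ⧸ M) (hprop M hMt) hHX hFW
        obtain ⟨φ, hφ⟩ := hKK G M
        exact iso hH (MonoidHom.ofInjective hφ).symm (hHs _ φ.range hHW)
  intro G _ hFG hCG
  haveI := hFf.finite G hFG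
  exact key _ G rfl hFG hCG

end Pool.Agent.Lib.MP_de73ed_al_H
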