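import Pool.Agent.Lib.MP_de73ed_al_H.Spec
import Pool.Agent.Lib.MP_de73ed_al.Cent
import Pool.Agent.Lib.MP_de73ed_al.Elem

set_option linter.all false
set_option autoImplicit false

/-! Module Lift: extensions of soluble groups. -/

namespace Pool.Agent.Lib.MP_de73ed_al_H

open Pool.Agent.Lib.MP_de73ed_al
open scoped commutatorElement

namespace LiftM

/-- Commutative `q`-groups have composition factors of order `q`. -/
theorem comp_comm {J : GrpClass} (hJ : IsoClosed J) (q : ℕ) (hq : q.Prime)
    (hC : J (Multiplicative (ZMod q))) (U : Type) [Group U] [Finite U]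
    (hc : ∀ a b : U, a * b = b * a) (hU : IsPGroup q U) : CompIn J U := by
  haveI : Fact q.Prime := ⟨hq⟩
  refine ⟨inferInstance, ?_⟩
  intro N M _ hN hs
  have hXc : ∀ x y : N ⧸ M, x * y = y * x := by
    intro x y
    induction x using QuotientGroup.induction_on with
    | H a =>
      induction y using QuotientGroup.induction_on with
      | H b =>
        rw [← QuotientGroup.mk_mul, ← QuotientGroup.mk_mul]
        congr 1
        exact Subtype.ext (hc _ _)
  have hp : (Nat.card (N ⧸ M)).Prime := by
    letI : CommGroup (N ⧸ M) := { (inferInstance : Group (N ⧸ M)) with mul_comm := hXc }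
    haveI := hs
    exact IsSimpleGroup.prime_card
  have hd : Nat.card (N ⧸ M) ∣ Nat.card U :=
    (Subgroup.card_quotient_dvd_card M).trans (Subgroup.card_subgroup_dvd_card N)
  obtain ⟨n, hn⟩ := IsPGroup.iff_card.1 hU
  have h1 : Nat.card (N ⧸ M) = q := by
    rw [hn] at hd
    exact (Nat.prime_dvd_prime_iff_eq hp hq).1 (hp.dvd_of_dvd_pow hd)
  have h2 : Nat.card (Multiplicative (ZMod q)) = q := by
    rw [Nat.card_congr Multiplicative.toAdd, Nat.card_zmod]
  exact hJ _ _ (mulEquivOfPrimeCardEq h2 h1) hC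

/-- A soluble minimal normal subgroup is an elementary abelian group. -/
theorem min_ab {W : Type} [Group W] [Finite W] (U : Subgroup W) (hU : IsChief ⊥ U)
    (hs : Group.IsSolvable U) : ∃ q : ℕ, q.Prime ∧ q ∣ Nat.card U ∧ IsPGroup q U ∧
      ∀ a ∈ U, ∀ b ∈ U, a * b = b * a := by
  haveI := hU.nH
  haveI := hs
  have hne : U ≠ ⊥ := hU.lt.ne'
  have hcomm : ⁅U, U⁆ = ⊥ := by
    rcases hU.eq ⁅U, U⁆ inferInstance bot_le (Subgroup.commutator_le_left U U) with h | h
    · exact h
    · exfalso
      have h1 : (⊤ : Subgroup U) ≤ ⁅(⊤ : Subgroup U), (⊤ : Subgroup U)⁆ := by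
        intro x _
        have h2 : (x : W) ∈ (⁅(⊤ : Subgroup U), (⊤ : Subgroup U)⁆).map U.subtype := by
          rw [Subgroup.map_commutator, ← MonoidHom.range_eq_map, Subgroup.range_subtype, h]
          exact x.2
        obtain ⟨y, hy, hxy⟩ := Subgroup.mem_map.1 h2
        have h3 : y = x := Subtype.ext hxy
        rw [← h3]
        exact hy
      have h2 := Elem.perfect_eq_bot hs (⊤ : Subgroup U) h1
      apply hne
      rw [eq_bot_iff]
      intro x hx
      have h3 : (⟨x, hx⟩ : U) ∈ (⊤ : Subgroup U) := Subgroup.mem_top _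
      rw [h2, Subgroup.mem_bot] at h3
      rw [Subgroup.mem_bot]
      exact congrArg Subtype.val h3
  have hab : ∀ a ∈ U, ∀ b ∈ U, a * b = b * a := by
    intro a ha b hb
    have h1 : ⁅a, b⁆ ∈ ⁅U, U⁆ := Subgroup.commutator_mem_commutator ha hb
    rw [hcomm, Subgroup.mem_bot] at h1
    exact commutatorElement_eq_one_iff_mul_comm.1 h1
  have hcard : 1 < Nat.card U := by
    rw [Finite.one_lt_card_iff_nontrivial]
    exact (Subgroup.nontrivial_iff_ne_bot U).2 hne
  obtain ⟨q, hq, hqd⟩ := Nat.exists_prime_and_dvd (by omega : Nat.card U ≠ 1)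
  haveI : Fact q.Prime := ⟨hq⟩
  refine ⟨q, hq, hqd, ?_, hab⟩
  -- the elements of order dividing q
  let E : Subgroup W :=
    { carrier := {u | u ∈ U ∧ u ^ q = 1}
      one_mem' := ⟨U.one_mem, one_pow q⟩
      mul_mem' := by
        rintro a b ⟨ha, ha'⟩ ⟨hb, hb'⟩
        refine ⟨U.mul_mem ha hb, ?_⟩
        have h1 : Commute a b := hab a ha b hb
        rw [h1.mul_pow, ha', hb', one_mul]
      inv_mem' := by
        rintro a ⟨ha, ha'⟩
        refine ⟨U.inv_mem ha, ?_⟩
        rw [inv_pow, ha', inv_one] }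
  have hE : ∀ u, u ∈ E ↔ u ∈ U ∧ u ^ q = 1 := fun u => Iff.rfl
  have hEn : E.Normal := by
    refine ⟨fun u hu g => ?_⟩
    rw [hE] at hu ⊢
    refine ⟨hU.nH.conj_mem u hu.1 g, ?_⟩
    rw [conj_pow, hu.2, mul_one, mul_inv_cancel]
  have hEU : E = U := by
    rcases hU.eq E hEn bot_le (fun u hu => hu.1) with h | h
    · exfalso
      obtain ⟨x, hx⟩ := exists_prime_orderOf_dvd_card' (G := U) q hqd
      have h1 : (x : W) ∈ E := by
        rw [hE]
        refine ⟨x.2, ?_⟩
        have h2 : x ^ q = 1 := by rw [← hx]; exact pow_orderOf_eq_one x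
        have h3 := congrArg Subtype.val h2
        simpa using h3
      rw [h, Subgroup.mem_bot] at h1
      have h2 : x = 1 := Subtype.ext h1
      rw [h2, orderOf_one] at hx
      exact hq.one_lt.ne hx
    · exact h
  intro x
  refine ⟨1, ?_⟩
  have h1 : (x : W) ∈ E := by rw [hEU]; exact x.2
  rw [pow_one]
  apply Subtype.ext
  have h2 := ((hE _).1 h1).2
  simpa using h2

end LiftM

theorem liftStmt : ExStmt → CompStmt → LiftStmt := by
  intro hEx hComp F hF hsub hI π hπ
  obtain ⟨hE, -⟩ := hEx F hF hsub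
  have key : ∀ n : ℕ, ∀ (W : Type) [Group W] [Finite W] (V : Subgroup W) [V.Normal],
      Nat.card V = n → Group.IsSolvable V → (∀ q : ℕ, q.Prime → q ∣ Nat.card V → q ∈ π) →
      F (W ⧸ V) → (∀ q ∈ π, Ext F q (W ⧸ V)) → F W ∧ ∀ q ∈ π, Ext F q W := by
    intro n
    induction n using Nat.strong_induction_on with
    | _ n ih =>
    intro W _ _ V _ hn hs hd hFW hEW
    by_cases hV : V = ⊥
    · subst hV
      have e : W ⧸ (⊥ : Subgroup W) ≃* W := QuotientGroup.quotientBot
      refine ⟨hF.1.quot _ _ e.toMonoidHom e.surjective hFW, ?_⟩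
      intro q hq
      exact (hE q (hπ q hq).1).1.1.quot _ _ e.toMonoidHom e.surjective (hEW q hq)
    · obtain ⟨U, hU, hUV⟩ := (centStmt.2.1 W V inferInstance hV).2
      haveI : U.Normal := hU.nH
      haveI : Group.IsSolvable V := hs
      have hUs : Group.IsSolvable U := by
        have h1 : Function.Injective (Subgroup.inclusion hUV) :=
          Subgroup.inclusion_injective hUV
        exact Group.isSolvable_of_isSolvable_injective h1
      obtain ⟨q, hq, hqd, hqU, hUab⟩ := LiftM.min_ab U hU hUs
      have hqπ : q ∈ π := hd q hq (hqd.trans (Subgroup.card_dvd_of_le hUV))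
      -- the quotient
      haveI hVn : (V.map (QuotientGroup.mk' U)).Normal :=
        Subgroup.Normal.map inferInstance _ (QuotientGroup.mk'_surjective U)
      have e : (W ⧸ U) ⧸ V.map (QuotientGroup.mk' U) ≃* W ⧸ V :=
        QuotientGroup.quotientQuotientEquivQuotient U V hUV
      have hVs : Group.IsSolvable (V.map (QuotientGroup.mk' U)) := by
        have h1 : Function.Surjective ((QuotientGroup.mk' U).subgroupMap V) :=
          (QuotientGroup.mk' U).subgroupMap_surjective V
        exact Group.isSolvable_of_surjective h1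
      have hcd : Nat.card (V.map (QuotientGroup.mk' U)) ∣ Nat.card V :=
        Subgroup.card_map_dvd V (QuotientGroup.mk' U)
      have hlt : Nat.card (V.map (QuotientGroup.mk' U)) < n := by
        rw [← hn]
        apply lt_of_le_of_ne (Nat.le_of_dvd Nat.card_pos hcd)
        intro heq
        have h1 : Function.Surjective ((QuotientGroup.mk' U).subgroupMap V) :=
          (QuotientGroup.mk' U).subgroupMap_surjective V
        have h2 : Function.Injective ((QuotientGroup.mk' U).subgroupMap V) :=
          ((Nat.bijective_iff_surjective_and_card _).2 ⟨h1, heq.symm⟩).1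
        apply hU.lt.ne'
        rw [eq_bot_iff]
        intro u hu
        have h3 : (QuotientGroup.mk' U).subgroupMap V ⟨u, hUV hu⟩ = 1 := by
          apply Subtype.ext
          change QuotientGroup.mk' U u = 1
          rw [QuotientGroup.mk'_apply, QuotientGroup.eq_one_iff]
          exact hu
        rw [← map_one ((QuotientGroup.mk' U).subgroupMap V)] at h3
        have h4 := congrArg Subtype.val (h2 h3)
        rw [Subgroup.mem_bot]
        exact h4
      obtain ⟨h1, h2⟩ := ih _ hlt (W ⧸ U) (V.map (QuotientGroup.mk' U)) rfl hVs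
        (fun r hr hrd => hd r hr (hrd.trans hcd))
        (hF.1.quot _ _ e.symm.toMonoidHom e.symm.surjective hFW)
        (fun r hr => (hE r (hπ r hr).1).1.1.quot _ _ e.symm.toMonoidHom e.symm.surjective
          (hEW r hr))
      have hker : IsPGroup q (QuotientGroup.mk' U).ker := by
        rw [QuotientGroup.ker_mk']
        exact hqU
      have hFW' : F W := (h2 q hqπ).2 W (QuotientGroup.mk' U)
        (QuotientGroup.mk'_surjective U) hker
      refine ⟨hFW', ?_⟩
      intro r hr
      have hrp : r.Prime := (hπ r hr).1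
      have hEr := hE r hrp
      have hiso : IsoClosed (Ext F r) := fun X Y _ _ e' h =>
        hEr.1.1.quot X Y e'.toMonoidHom e'.surjective h
      obtain ⟨-, -, c3, -, -, -, -, c8, -⟩ := hComp (Ext F r) hiso
      have hCr : Ext F q (Multiplicative (ZMod r)) := (hπ q hqπ).2 r hr
      refine hI r hrp ((hE q hq).2.1 _ hCr) W hFW' ?_
      refine c3 W U ?_ ?_
      · exact LiftM.comp_comm hiso q hq ((hπ r hr).2 q hqπ) U
          (fun a b => Subtype.ext (hUab a a.2 b b.2)) hqU
      · exact c8 hEr.1.1.finite hEr.1.2 hEr.1.1.quot (W ⧸ U) (h2 r hr)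
  intro W _ _ V _ hs hd h1 h2
  exact (key _ W V rfl hs hd h1 h2).1

end Pool.Agent.Lib.MP_de73ed_al_H
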