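import Pool.Agent.Lib.MP_de73ed_al_H.Spec

set_option linter.all false

/-!
Module NecI: necessity of the conditions (i), (ii), (iii).
-/

namespace Pool.Agent.Lib.MP_de73ed_al_H

open Pool.Agent.Lib.MP_de73ed_al

namespace NecIM

theorem step (hEx : ExStmt) (hW : WrStmt) {F : GrpClass} (hloc : IsLocal F) (hsub : SubClosed F)
    (hPC : PrdC F) : ∀ p : ℕ, p.Prime → ∀ (K : Type) [Group K] [Finite K], F K →
      ∀ A B : Subgroup K, Ext F p A → Ext F p B → Prd A B → Ext F p K := by
  intro p hp K _ _ hK A B hA hB hAB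
  have hF := hloc.1
  have hE := (hEx F hloc hsub).1 p hp
  obtain ⟨W, _, φ, hfin, hsurj, hne, hpow, hcomm, hcent⟩ := hW p hp K
  have hup : ∀ C : Subgroup K, Ext F p C → F (C.comap φ) := by
    intro C hC
    refine hC.2 (C.comap φ) (φ.subgroupComap C)
      (φ.subgroupComap_surjective_of_surjective C hsurj) ?_
    rintro ⟨v, hv⟩
    refine ⟨1, ?_⟩
    have h1 : φ.subgroupComap C v = 1 := hv
    have h2 : φ (v : W) = 1 := congrArg Subtype.val h1
    have h3 := hpow (v : W) h2
    ext
    simpa using h3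
  have hker : ∀ C : Subgroup K, φ.ker ≤ C.comap φ := fun C v hv => by
    rw [Subgroup.mem_comap, MonoidHom.mem_ker.mp hv]
    exact C.one_mem
  have hq : F (W ⧸ φ.ker) :=
    hF.quot K (W ⧸ φ.ker) (QuotientGroup.quotientKerEquivOfSurjective φ hsurj).symm.toMonoidHom
      (QuotientGroup.quotientKerEquivOfSurjective φ hsurj).symm.surjective hK
  have hFW : F W := by
    refine hPC W φ.ker hq (A.comap φ) (B.comap φ) (hker A) (hker B) (hup A hA) (hup B hB) ?_
    intro w
    obtain ⟨a, ha, b, hb, hab⟩ := hAB (φ w)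
    obtain ⟨x, rfl⟩ := hsurj a
    refine ⟨x, ha, x⁻¹ * w, ?_, by group⟩
    rw [Subgroup.mem_comap, map_mul, map_inv, hab, inv_mul_cancel_left]
    exact hb
  have hQ : Ext F p (W ⧸ φ.ker) := by
    refine hE.2.2.2.1 W φ.ker φ.ker hne hpow hcomm ?_ hFW
    intro w
    exact ⟨fun hw v hv => hcomm w hw v hv, fun h => hcent w h⟩
  exact hE.1.1.quot (W ⧸ φ.ker) K (QuotientGroup.quotientKerEquivOfSurjective φ hsurj).toMonoidHom
    (QuotientGroup.quotientKerEquivOfSurjective φ hsurj).surjective hQ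

/-- If `Ext F p` is not empty then `C_p ∈ F`. -/
theorem cp {F : GrpClass} (hF : IsFormation F) {p : ℕ} (hp : p.Prime) (X : Type) [Group X]
    (hX : Ext F p X) : F (Multiplicative (ZMod p)) := by
  haveI : NeZero p := ⟨hp.ne_zero⟩
  haveI := hX.1
  have hsurj : Function.Surjective (MonoidHom.fst X (Multiplicative (ZMod p))) :=
    fun x => ⟨(x, 1), rfl⟩
  have h1 : F (X × Multiplicative (ZMod p)) := by
    refine hX.2 (X × Multiplicative (ZMod p)) (MonoidHom.fst X (Multiplicative (ZMod p))) hsurj ?_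
    rintro ⟨⟨x, c⟩, hv⟩
    refine ⟨1, ?_⟩
    have hx : x = 1 := hv
    have hc : c ^ p = 1 := by
      have h2 : c ^ Nat.card (Multiplicative (ZMod p)) = 1 := pow_card_eq_one'
      have h3 : Nat.card (Multiplicative (ZMod p)) = p := by
        simp
      rwa [h3] at h2
    apply Subtype.ext
    rw [pow_one]
    refine Prod.ext ?_ ?_
    · change x ^ p = 1
      rw [hx, one_pow]
    · exact hc
  exact hF.quot _ _ (MonoidHom.snd X (Multiplicative (ZMod p))) (fun c => ⟨(1, c), rfl⟩) h1

theorem isoC {F : GrpClass} (hF : IsFormation F) : IsoClosed F := by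
  intro X Y _ _ e hX
  exact hF.quot X Y e.toMonoidHom e.surjective hX

end NecIM

/-- Necessity of the conditions (i), (ii), (iii). -/
theorem necIStmt (hKL : KLStmt) (hEx : ExStmt) (hPCS : PCStmt) (hCo : CompStmt) (hW : WrStmt) :
    NecIStmt := by
  intro F hloc hsub hsr
  have hF := hloc.1
  have hPC : PrdC F := hPCS F hF hsub hsr
  have h1 := NecIM.step hEx hW hloc hsub hPC
  have h2 : CondI F := by
    intro p hp hCp G _ hG hcomp
    have hE := (hEx F hloc hsub).1 p hp
    refine hKL F hloc hsub (Ext F p) hE.1.1 hE.1.2 (fun X _ hX => hE.2.1 X hX) ?_ ?_ G hG hcomp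
    · refine ⟨PUnit, inferInstance, ?_⟩
      exact hE.2.2.2.2.2.1 hCp PUnit (fun g => ⟨0, Subsingleton.elim _ _⟩)
    · intro G _ _ hG A B hA hB hAB
      exact h1 p hp G hG A B hA hB hAB
  refine ⟨h1, h2, ?_, ?_⟩
  · intro p hp A _ T B C hA hT hB hC hBC
    have hE := (hEx F hloc hsub).1 p hp
    haveI : Finite A := hF.finite A hA
    by_cases hCp : F (Multiplicative (ZMod p))
    · have hB' : Ext F p B := h2 p hp hCp B (hsub A B hA) hB
      have hC' : Ext F p C := h2 p hp hCp C (hsub A C hA) hC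
      exact hE.1.2 A T (h1 p hp A hA B C hB' hC' hBC)
    · exfalso
      have hemp : ∀ (X : Type) [Group X], ¬ Ext F p X := fun X _ hX =>
        hCp (NecIM.cp hF hp X hX)
      have htriv : ∀ D : Subgroup A, CompIn (Ext F p) D → D = ⊥ := by
        intro D hD
        haveI := hD.1
        by_contra hne
        have hcard : Nat.card D ≠ 1 := by
          intro h
          exact hne (Subgroup.card_eq_one.1 h)
        obtain ⟨q, hq, hqd⟩ := Nat.exists_prime_and_dvd hcard
        obtain ⟨X, _, -, hX, -⟩ :=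
          (hCo (Ext F p) (NecIM.isoC hE.1.1)).2.2.2.2.2.2.1 D hD q hq hqd
        exact hemp X hX
      have hB1 := htriv B hB
      have hC1 := htriv C hC
      have hone : ∀ g : A, g = 1 := by
        intro g
        obtain ⟨b, hb, c, hc, rfl⟩ := hBC g
        rw [hB1, Subgroup.mem_bot] at hb
        rw [hC1, Subgroup.mem_bot] at hc
        rw [hb, hc, one_mul]
      apply hT.nonab
      intro a _ b _
      rw [hone a, hone b]
  · intro G _ _ S B C _ hq hB hC hFB hFC hBC
    exact hPC G (Subgroup.normalClosure (S : Set G)) hq B C hB hC hFB hFC hBC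

end Pool.Agent.Lib.MP_de73ed_al_H
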