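import Pool.Agent.Lib.MP_de73ed_al_H.Spec

set_option linter.all false

/-! Module PBm: composition factors of the permutation group induced by a subgroup. -/

namespace Pool.Agent.Lib.MP_de73ed_al_H

open Pool.Agent.Lib.MP_de73ed_al

namespace PBmM

theorem compIn_mono {J J' : GrpClass} (h : ∀ (X : Type) [Group X], J X → J' X) (G : Type)
    [Group G] (hG : CompIn J G) : CompIn J' G := by
  refine ⟨hG.1, ?_⟩
  intro N M _ hN hs
  exact h _ (hG.2 N M hN hs)

theorem wrc_congr {F : GrpClass} (hF : IsFormation F) {S T : Type} [Group S] [Group T]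
    (e : S ≃* T) (X : Type) [Group X] (h : Wrc F S X) : Wrc F T X := by
  have e2 : RegularWreathProduct S X ≃* RegularWreathProduct T X :=
    RegularWreathProduct.congr e (MulEquiv.refl X)
  exact hF.quot _ _ e2.toMonoidHom e2.surjective h

/-- Good normal subgroups. -/
def GC (J : GrpClass) (W : Type) [Group W] (N : Subgroup W) : Prop :=
  ∃ _ : N.Normal, CompIn J (W ⧸ N)

end PBmM

theorem pbmStmt (hSub : SubStmt) (hKA : KAStmt) (hComp : CompStmt) : PBmStmt := by
  classical
  intro F hF hS hA G _ _ S B hSc hGN hNB hFB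
  have hKA' := hKA F hF hS S
  have hiso : IsoClosed (Wrc F S) := by
    intro X Y _ _ e hX
    exact hKA'.2.2.1 X Y e.toMonoidHom e.surjective hX
  obtain ⟨c1, -, -, -, c5, -, -, -, c9⟩ := hComp (Wrc F S) hiso
  obtain ⟨K, hK, T, ρ, -, hinj, hall⟩ := hSub G S B hSc hNB
  have key : ∀ g, CompIn (Wrc F S) (PermG (T g)) := by
    intro g
    haveI := hK g
    obtain ⟨hc, ⟨e⟩, -, ⟨U, φ, hφ⟩, -⟩ := hall g
    have h1 : F (B ⧸ K g) :=
      hF.quot B _ (QuotientGroup.mk' (K g)) (QuotientGroup.mk'_surjective _) hFB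
    have h2 : F U := hS _ U hGN
    have h3 : F ((B ⧸ K g) ⧸ Subgroup.normalClosure (T g : Set (B ⧸ K g))) :=
      hF.quot U _ φ hφ h2
    have h4 := ((hA (B ⧸ K g) (T g) hc h3).1 h1).2
    exact PBmM.compIn_mono (fun X _ h => PBmM.wrc_congr hF e X h) _ h4
  haveI := Fintype.ofFinite G
  have h0 : PBmM.GC (Wrc F S) (PermB S B) ⊤ := by
    refine ⟨inferInstance, ?_⟩
    exact c5 _ QuotientGroup.subsingleton_quotient_top
  have h1 : ∀ g, PBmM.GC (Wrc F S) (PermB S B) (ρ g).ker := by
    intro g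
    refine ⟨inferInstance, ?_⟩
    have e := QuotientGroup.quotientKerEquivOfSurjective (ρ g) (hall g).2.2.1
    exact c1 _ _ e.symm.toMonoidHom e.symm.surjective (key g)
  have h2 : ∀ s : Finset G, PBmM.GC (Wrc F S) (PermB S B) (s.inf (fun g => (ρ g).ker)) := by
    intro s
    induction s using Finset.induction_on with
    | empty => simpa using h0
    | insert a s _ ih =>
      rw [Finset.inf_insert]
      obtain ⟨i, hi⟩ := ih
      obtain ⟨j, hj⟩ := h1 a
      exact ⟨inferInstance, c9 _ _ _ hj hi⟩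
  have h3 := h2 Finset.univ
  have h4 : Finset.univ.inf (fun g => (ρ g).ker) = ⊥ := by
    rw [eq_bot_iff]
    intro x hx
    rw [Subgroup.mem_bot]
    apply hinj
    intro g
    have : Finset.univ.inf (fun g => (ρ g).ker) ≤ (ρ g).ker :=
      Finset.inf_le (Finset.mem_univ g)
    exact this hx
  rw [h4] at h3
  obtain ⟨i, h5⟩ := h3
  have e : (PermB S B ⧸ (⊥ : Subgroup (PermB S B))) ≃* PermB S B := QuotientGroup.quotientBot
  exact c1 _ _ e.toMonoidHom e.surjective h5

end Pool.Agent.Lib.MP_de73ed_al_H
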