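import Pool.Agent.Lib.MP_de73ed_al_H.Spec

set_option linter.all false

/-!
Products above a normal subgroup (`PCStmt`).
-/

namespace Pool.Agent.Lib.MP_de73ed_al_H

open Pool.Agent.Lib.MP_de73ed_al

namespace PCM

/-- The residual of a subgroup `Z` is contained in `N` if `G / N` is in `F`. -/
theorem residLe (hFS : FSStmt) (F : GrpClass) (hF : IsFormation F) (hS : SubClosed F) (G : Type)
    [Group G] (N : Subgroup G) [N.Normal] (hN : F (G ⧸ N)) (Z : Subgroup G) : resid F Z ≤ N := by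
  have h := hFS.2.1 F hF G Z (Z.map (QuotientGroup.mk' N))
    ((QuotientGroup.mk' N).subgroupMap Z) ((QuotientGroup.mk' N).subgroupMap_surjective Z)
    (hS (G ⧸ N) (Z.map (QuotientGroup.mk' N)) hN)
  refine h.trans ?_
  rintro _ ⟨z, hz, rfl⟩
  have hz1 : ((QuotientGroup.mk' N).subgroupMap Z) z = 1 := MonoidHom.mem_ker.mp hz
  have hz2 : QuotientGroup.mk' N (z : G) = 1 := by
    have := congrArg (Subtype.val) hz1
    simpa using this
  exact (QuotientGroup.eq_one_iff (N := N) (z : G)).mp hz2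

end PCM

theorem pcStmt : FSStmt → PCStmt := by
  intro hFS F hF hS hR G _ _ N _ hN A B hNA hNB hA hB hAB
  refine hR.2 G A B ?_ ?_ hA hB hAB
  · exact hFS.1 F G A ⊤ le_top fun Z _ _ => (PCM.residLe hFS F hF hS G N hN Z).trans hNA
  · exact hFS.1 F G B ⊤ le_top fun Z _ _ => (PCM.residLe hFS F hF hS G N hN Z).trans hNB

end Pool.Agent.Lib.MP_de73ed_al_H
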