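import Pool.Agent.Lib.MP_de73ed_al_H.Spec

set_option linter.all false
set_option autoImplicit false

/-! Module PiM: groups in `F` which are not the product of two proper subgroups. -/

namespace Pool.Agent.Lib.MP_de73ed_al_H

open Pool.Agent.Lib.MP_de73ed_al

namespace PiMM

theorem simple_prime (Y : Type) [Group Y] [Finite Y] (hY : IsSimpleGroup Y)
    (hc : ∀ a b : Y, a * b = b * a) :
    (Nat.card Y).Prime ∧ Nonempty (Multiplicative (ZMod (Nat.card Y)) ≃* Y) := by
  letI : CommGroup Y := { (inferInstance : Group Y) with mul_comm := hc }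
  have hp : (Nat.card Y).Prime := IsSimpleGroup.prime_card
  haveI : Fact (Nat.card Y).Prime := ⟨hp⟩
  refine ⟨hp, ⟨?_⟩⟩
  exact mulEquivOfPrimeCardEq (p := Nat.card Y) (by simp) rfl

theorem sub_order {F : GrpClass} (hF : IsFormation F) (hS : SubClosed F) {X : Type} [Group X]
    [Finite X] (hX : F X) {r : ℕ} (hr : r.Prime) (hd : r ∣ Nat.card X) :
    F (Multiplicative (ZMod r)) := by
  haveI : Fact r.Prime := ⟨hr⟩
  obtain ⟨x, hx⟩ := exists_prime_orderOf_dvd_card' (G := X) r hd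
  have h1 := hS X (Subgroup.zpowers x) hX
  have hc : Nat.card (Subgroup.zpowers x) = r := by rw [Nat.card_zpowers, hx]
  have e : Subgroup.zpowers x ≃* Multiplicative (ZMod r) :=
    mulEquivOfPrimeCardEq (p := r) hc (by simp)
  exact hF.quot _ _ e.toMonoidHom e.surjective h1

theorem compIn_nilp {J : GrpClass} (hJ : IsFormation J) {M : Type} [Group M] [Finite M]
    (hM : Group.IsNilpotent M)
    (h : ∀ r : ℕ, r.Prime → r ∣ Nat.card M → J (Multiplicative (ZMod r))) : CompIn J M := by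
  refine ⟨inferInstance, ?_⟩
  intro N K _ _ hsim
  haveI := hM
  haveI hs : Group.IsSolvable (N ⧸ K) := inferInstance
  have hc : ∀ a b : N ⧸ K, a * b = b * a := IsSimpleGroup.comm_iff_isSolvable.2 hs
  obtain ⟨hp, ⟨e⟩⟩ := simple_prime (N ⧸ K) hsim hc
  have hd : Nat.card (N ⧸ K) ∣ Nat.card M :=
    (Subgroup.card_quotient_dvd_card K).trans (Subgroup.card_subgroup_dvd_card N)
  exact hJ.quot _ _ e.toMonoidHom e.surjective (h _ hp hd)

end PiMM

open PiMM in
theorem piMStmt (hU : UnfStmt) (hE : ExStmt) (hC : CompStmt) : PiMStmt := by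
  intro F hL hS hI Q _ _ hne hFQ hprd
  have hF := hL.1
  obtain ⟨M, hMn, hsim, hsup, hnil, hdiv⟩ := hU Q hne hprd
  have hFX : F (Q ⧸ M) := hF.quot _ _ (QuotientGroup.mk' M) (QuotientGroup.mk'_surjective M) hFQ
  have hcard : Nat.card Q = Nat.card (Q ⧸ M) * Nat.card M :=
    Subgroup.card_eq_card_quotient_mul_card_subgroup M
  have hall : ∀ q : ℕ, q.Prime → q ∣ Nat.card Q → q ∣ Nat.card (Q ⧸ M) := by
    intro q hq hd
    rw [hcard] at hd
    rcases (Nat.Prime.dvd_mul hq).1 hd with h | h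
    · exact h
    · exact hdiv q hq h
  obtain ⟨hE1, _⟩ := hE F hL hS
  refine ⟨{q | q.Prime ∧ q ∣ Nat.card (Q ⧸ M)}, ?_, ?_, fun q hq hd => ⟨hq, hall q hq hd⟩⟩
  · rintro q ⟨hq, hqd⟩
    refine ⟨hq, ?_⟩
    rintro r ⟨hr, hrd⟩
    obtain ⟨⟨h1, h1'⟩, -, -, -, h5, h6, -⟩ := hE1 q hq
    by_cases hab : ∀ a b : Q ⧸ M, a * b = b * a
    · obtain ⟨hp, ⟨e⟩⟩ := simple_prime (Q ⧸ M) hsim hab
      have hqe : q = Nat.card (Q ⧸ M) := (Nat.prime_dvd_prime_iff_eq hq hp).1 hqd
      have hre : r = Nat.card (Q ⧸ M) := (Nat.prime_dvd_prime_iff_eq hr hp).1 hrd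
      have hrq : r = q := hre.trans hqe.symm
      subst hrq
      have hFr : F (Multiplicative (ZMod r)) := sub_order hF hS hFX hr hrd
      haveI : Fact r.Prime := ⟨hr⟩
      haveI : Finite (Multiplicative (ZMod r)) := inferInstanceAs (Finite (ZMod r))
      refine h6 hFr _ ?_
      apply IsPGroup.of_card (n := 1)
      simp
    · exact sub_order h1 h1' (h5 _ hsim hab hFX hqd) hr hrd
  · rintro q ⟨hq, hqd⟩
    obtain ⟨⟨h1, h1'⟩, -, -, -, h5, h6, -⟩ := hE1 q hq
    have hFq : F (Multiplicative (ZMod q)) := sub_order hF hS hFX hq hqd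
    by_cases hab : ∀ a b : Q ⧸ M, a * b = b * a
    · obtain ⟨hp, ⟨e⟩⟩ := simple_prime (Q ⧸ M) hsim hab
      have hqe : q = Nat.card (Q ⧸ M) := (Nat.prime_dvd_prime_iff_eq hq hp).1 hqd
      refine h6 hFq Q ?_
      haveI : Fact q.Prime := ⟨hq⟩
      rw [IsPGroup.iff_card]
      refine ⟨(Nat.card Q).primeFactorsList.length, ?_⟩
      refine Nat.eq_prime_pow_of_unique_prime_dvd Nat.card_pos.ne' ?_
      intro r hr hrd
      have := hall r hr hrd
      rw [← hqe] at this
      exact (Nat.prime_dvd_prime_iff_eq hr hq).1 this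
    · have hEX : Ext F q (Q ⧸ M) := h5 _ hsim hab hFX hqd
      have hiso : IsoClosed (Ext F q) := by
        intro X Y _ _ e h
        exact h1.quot _ _ e.toMonoidHom e.surjective h
      obtain ⟨-, -, c3, c4, -⟩ := hC (Ext F q) hiso
      refine hI q hq hFq Q hFQ ?_
      refine c3 Q M ?_ ((c4 (Q ⧸ M) hsim).2 hEX)
      refine compIn_nilp h1 hnil ?_
      intro r hr hrd
      exact sub_order h1 h1' hEX hr (hdiv r hr hrd)

end Pool.Agent.Lib.MP_de73ed_al_H
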