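import Pool.Agent.Lib.MP_de73ed_al_H.Spec

set_option linter.all false
set_option autoImplicit false

/-! Module Quo: factoring out the centralizer. -/

namespace Pool.Agent.Lib.MP_de73ed_al_H

open Pool.Agent.Lib.MP_de73ed_al

namespace QuoM

variable {B : Type} [Group B]

/-- A simple nonabelian subgroup has trivial center. -/
theorem center_triv {S : Subgroup B} (hs : IsSimpleGroup S) (hn : NonAb S) {z : B} (hz : z ∈ S)
    (h : ∀ s ∈ S, s * z = z * s) : z = 1 := by
  have h1 : (⟨z, hz⟩ : S) ∈ Subgroup.center S := by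
    rw [Subgroup.mem_center_iff]
    intro s
    exact Subtype.ext (h s s.2)
  rcases (inferInstance : (Subgroup.center S).Normal).eq_bot_or_eq_top with h2 | h2
  · rw [h2, Subgroup.mem_bot] at h1
    exact congrArg Subtype.val h1
  · exfalso
    refine hn fun a ha b hb => ?_
    have h3 : (⟨b, hb⟩ : S) ∈ Subgroup.center S := by
      rw [h2]
      exact Subgroup.mem_top _
    rw [Subgroup.mem_center_iff] at h3
    exact congrArg Subtype.val (h3 ⟨a, ha⟩)

section

variable {S K : Subgroup B} [K.Normal]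

theorem cent_of_mem (hK : K = (Subgroup.centralizer (S : Set B)).normalCore) {k : B} (hk : k ∈ K)
    {s : B} (hs : s ∈ S) : s * k = k * s := by
  have h : k ∈ Subgroup.centralizer (S : Set B) := by
    rw [hK] at hk
    exact Subgroup.normalCore_le _ hk
  exact Subgroup.mem_centralizer_iff.1 h s hs

/-- `K` centralizes the conjugates of `S`. -/
theorem cent_conj (hK : K = (Subgroup.centralizer (S : Set B)).normalCore) {k : B} (hk : k ∈ K)
    (b : B) {s : B} (hs : s ∈ S) : (b * s * b⁻¹) * k = k * (b * s * b⁻¹) := by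
  have h1 : b⁻¹ * k * b⁻¹⁻¹ ∈ K := (inferInstance : K.Normal).conj_mem k hk b⁻¹
  have h2 := cent_of_mem hK h1 hs
  rw [inv_inv] at h2
  calc (b * s * b⁻¹) * k = b * (s * (b⁻¹ * k * b)) * b⁻¹ := by group
    _ = b * ((b⁻¹ * k * b) * s) * b⁻¹ := by rw [h2]
    _ = k * (b * s * b⁻¹) := by group

theorem inf_triv (hs : IsSimpleGroup S) (hn : NonAb S)
    (hK : K = (Subgroup.centralizer (S : Set B)).normalCore) {z : B} (hz : z ∈ S) (hk : z ∈ K) :
    z = 1 :=
  center_triv hs hn hz fun _ h => cent_of_mem hK hk h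

theorem mk_eq {a b : B} : (QuotientGroup.mk' K a = QuotientGroup.mk' K b) ↔ a⁻¹ * b ∈ K :=
  QuotientGroup.eq

theorem inj (hs : IsSimpleGroup S) (hn : NonAb S)
    (hK : K = (Subgroup.centralizer (S : Set B)).normalCore) {a b : B} (ha : a ∈ S) (hb : b ∈ S)
    (h : QuotientGroup.mk' K a = QuotientGroup.mk' K b) : a = b := by
  have h1 := inf_triv hs hn hK (S.mul_mem (S.inv_mem ha) hb) (mk_eq.1 h)
  exact inv_mul_eq_one.1 h1

/-- The isomorphism with the image. -/
theorem exists_iso (hs : IsSimpleGroup S) (hn : NonAb S)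
    (hK : K = (Subgroup.centralizer (S : Set B)).normalCore) :
    ∃ e : S ≃* S.map (QuotientGroup.mk' K), ∀ s : S, (e s : B ⧸ K) = QuotientGroup.mk' K (s : B) :=
  ⟨MulEquiv.ofBijective ((QuotientGroup.mk' K).subgroupMap S)
    ⟨fun a b h => Subtype.ext (inj hs hn hK a.2 b.2 (congrArg Subtype.val h)),
      (QuotientGroup.mk' K).subgroupMap_surjective S⟩, fun _ => rfl⟩

theorem norm_of [Finite B] {b : B} (h : ∀ s ∈ S, b * s * b⁻¹ ∈ S) :
    b ∈ Subgroup.normalizer (S : Set B) :=
  Subgroup.mem_normalizer_fintype h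

/-- The normalizer of the image. -/
theorem norm_iff [Finite B] (hs : IsSimpleGroup S) (hn : NonAb S) (hc : ConjComm S)
    (hK : K = (Subgroup.centralizer (S : Set B)).normalCore) (b : B) :
    (b : B ⧸ K) ∈ Subgroup.normalizer (S.map (QuotientGroup.mk' K) : Set (B ⧸ K)) ↔
      b ∈ Subgroup.normalizer (S : Set B) := by
  constructor
  · intro h
    rcases hc b with h1 | h1
    · exact norm_of h1
    · exfalso
      -- all conjugates by `b` are in `K`
      have h2 : ∀ s ∈ S, b * s * b⁻¹ ∈ K := by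
        intro s hs'
        have h3 := (Subgroup.mem_normalizer_iff.1 h (QuotientGroup.mk' K s)).1
          (Subgroup.mem_map_of_mem _ hs')
        obtain ⟨s', h4, h5⟩ := Subgroup.mem_map.1 h3
        have h6 : s'⁻¹ * (b * s * b⁻¹) ∈ K := mk_eq.1 h5
        have h7 : s' = 1 := by
          refine center_triv hs hn h4 fun t ht => ?_
          have e1 := h1 s hs' t ht
          have e2 := cent_of_mem hK h6 ht
          have e3 : s' = (b * s * b⁻¹) * (s'⁻¹ * (b * s * b⁻¹))⁻¹ := by group
          have c1 : Commute t (b * s * b⁻¹) := e1.symm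
          have c2 : Commute t (s'⁻¹ * (b * s * b⁻¹)) := e2
          have c3 := c1.mul_right c2.inv_right
          rw [← e3] at c3
          exact c3
        rw [h7, inv_one, one_mul] at h6
        exact h6
      refine hn fun s hs' t ht => ?_
      have h3 := cent_conj hK (h2 s hs') b ht
      have h4 : b * (t * s) * b⁻¹ = b * (s * t) * b⁻¹ := by
        calc b * (t * s) * b⁻¹ = (b * t * b⁻¹) * (b * s * b⁻¹) := by group
          _ = (b * s * b⁻¹) * (b * t * b⁻¹) := h3
          _ = b * (s * t) * b⁻¹ := by group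
      exact (mul_left_cancel (mul_right_cancel h4)).symm
  · intro h
    refine norm_of fun t ht => ?_
    obtain ⟨s, hs', rfl⟩ := Subgroup.mem_map.1 ht
    exact Subgroup.mem_map.2 ⟨b * s * b⁻¹, (Subgroup.mem_normalizer_iff.1 h s).1 hs', rfl⟩

end

end QuoM

open QuoM in
theorem quoStmt : QuoStmt := by
  intro B _ _ S K _ hs hn hc hK
  obtain ⟨e, he⟩ := exists_iso hs hn hK
  have hnorm := norm_iff hs hn hc hK
  refine ⟨⟨?_, ?_, ?_, ?_⟩, ⟨e.symm⟩, hnorm, ?_⟩
  · exact MulEquiv.isSimpleGroup e.symm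
  · intro h
    refine hn fun a ha b hb => ?_
    refine inj hs hn hK (S.mul_mem ha hb) (S.mul_mem hb ha) ?_
    rw [map_mul, map_mul]
    exact h _ (Subgroup.mem_map_of_mem _ ha) _ (Subgroup.mem_map_of_mem _ hb)
  · intro g
    obtain ⟨b, rfl⟩ := QuotientGroup.mk'_surjective K g
    rcases hc b with h | h
    · left
      intro t ht
      obtain ⟨s, hs', rfl⟩ := Subgroup.mem_map.1 ht
      exact Subgroup.mem_map.2 ⟨b * s * b⁻¹, h s hs', rfl⟩
    · right
      intro t ht t' ht'
      obtain ⟨s, hs', rfl⟩ := Subgroup.mem_map.1 ht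
      obtain ⟨s', hs'', rfl⟩ := Subgroup.mem_map.1 ht'
      exact congrArg (QuotientGroup.mk' K) (h s hs' s' hs'')
  · rw [eq_bot_iff]
    intro x hx
    obtain ⟨b, rfl⟩ := QuotientGroup.mk'_surjective K x
    -- an element whose image centralizes the image of `S` centralizes `S`
    have key : ∀ c : B, QuotientGroup.mk' K c ∈
        Subgroup.centralizer (S.map (QuotientGroup.mk' K) : Set (B ⧸ K)) →
        c ∈ Subgroup.centralizer (S : Set B) := by
      intro c hc'
      have h1 : c ∈ Subgroup.normalizer (S : Set B) :=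
        (hnorm c).1 (Subgroup.centralizer_le_normalizer _ hc')
      rw [Subgroup.mem_centralizer_iff]
      intro s hs'
      have h2 : c * s * c⁻¹ ∈ S := (Subgroup.mem_normalizer_iff.1 h1 s).1 hs'
      have h3 : QuotientGroup.mk' K (c * s * c⁻¹) = QuotientGroup.mk' K s := by
        have h4 := Subgroup.mem_centralizer_iff.1 hc' _ (Subgroup.mem_map_of_mem _ hs')
        rw [map_mul, map_mul, map_inv, ← h4, mul_inv_cancel_right]
      have h5 := inj hs hn hK h2 hs' h3
      calc s * c = (c * s * c⁻¹) * c := by rw [h5]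
        _ = c * s := by rw [inv_mul_cancel_right]
    rw [Subgroup.mem_bot]
    refine (QuotientGroup.eq_one_iff b).2 ?_
    rw [hK]
    intro c
    refine key _ ?_
    have h1 := hx (QuotientGroup.mk' K c)
    rw [← map_inv, ← map_mul, ← map_mul] at h1
    exact h1
  · have hmem : ∀ a : AutG (S.map (QuotientGroup.mk' K)),
        MulAut.congr e.symm (a : MulAut (S.map (QuotientGroup.mk' K))) ∈ AutG S := by
      rintro ⟨a, ⟨x, hx⟩, rfl⟩
      obtain ⟨b, rfl⟩ := QuotientGroup.mk'_surjective K x
      refine ⟨⟨b, (hnorm b).1 hx⟩, ?_⟩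
      refine MulEquiv.ext fun s => ?_
      refine e.injective (Subtype.ext ?_)
      rw [he]
      change QuotientGroup.mk' K (b * (s : B) * b⁻¹) = (e (e.symm _) : B ⧸ K)
      rw [e.apply_symm_apply]
      change _ = QuotientGroup.mk' K b * (e s : B ⧸ K) * (QuotientGroup.mk' K b)⁻¹
      rw [he, map_mul, map_mul, map_inv]
    refine ⟨((MulAut.congr e.symm).toMonoidHom.comp
      (AutG (S.map (QuotientGroup.mk' K))).subtype).codRestrict (AutG S) hmem, ?_⟩
    intro a a' h
    refine Subtype.ext ((MulAut.congr e.symm).injective ?_)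
    exact congrArg Subtype.val h

end Pool.Agent.Lib.MP_de73ed_al_H
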