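import Pool.Agent.Lib.MP_de73ed_al_H.Spec

set_option linter.all false

/-! Module SA1: the cyclic case of the sufficiency of (a), (b), (c). -/

namespace Pool.Agent.Lib.MP_de73ed_al_H

open Pool.Agent.Lib.MP_de73ed_al

namespace SA1M

theorem of_equiv {F : GrpClass} (hF : IsFormation F) {G H : Type} [Group G] [Group H]
    (e : G ≃* H) (h : F G) : F H :=
  hF.quot G H e.toMonoidHom e.surjective h

theorem of_le {F : GrpClass} (hF : IsFormation F) (hS : SubClosed F) {G : Type} [Group G]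
    {A B : Subgroup G} (hAB : A ≤ B) (h : F B) : F A :=
  of_equiv hF (Subgroup.subgroupOfEquivOfLe hAB) (hS B (A.subgroupOf B) h)

theorem of_range {F : GrpClass} (hF : IsFormation F) {G H : Type} [Group G] [Group H]
    (φ : G →* H) (h : F G) : F φ.range :=
  hF.quot G _ φ.rangeRestrict φ.rangeRestrict_surjective h

/-- The subgroup `V / (T ∩ V)` of `A / T`. -/
theorem quot_sub {F : GrpClass} (hF : IsFormation F) (hS : SubClosed F) {A : Type} [Group A]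
    (T V : Subgroup A) [T.Normal] (h : F (A ⧸ T)) : F (V ⧸ T.subgroupOf V) := by
  have hk : ((QuotientGroup.mk' T).comp V.subtype).ker = T.subgroupOf V := by
    ext x
    simp [MonoidHom.mem_ker, Subgroup.mem_subgroupOf]
  have h1 : F (V ⧸ ((QuotientGroup.mk' T).comp V.subtype).ker) :=
    of_equiv hF (QuotientGroup.quotientKerEquivRange _).symm (hS _ _ h)
  exact of_equiv hF (QuotientGroup.quotientMulEquivOfEq hk) h1

theorem soc_sub {A : Type} [Group A] {T V : Subgroup A} (hT : IsSoc T) (hTV : T ≤ V) :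
    IsSoc (T.subgroupOf V) := by
  have hn := hT.normal
  have hs := hT.simple
  refine ⟨inferInstance, ?_, ?_, ?_⟩
  · exact (Subgroup.subgroupOfEquivOfLe hTV).isSimpleGroup
  · intro h
    apply hT.nonab
    intro a ha b hb
    exact congrArg Subtype.val (h ⟨a, hTV ha⟩ ha ⟨b, hTV hb⟩ hb)
  · rw [eq_bot_iff]
    rintro ⟨v, hv⟩ h
    rw [Subgroup.mem_centralizer_iff] at h
    have h1 : v ∈ Subgroup.centralizer (T : Set A) := by
      rw [Subgroup.mem_centralizer_iff]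
      intro t ht
      exact congrArg Subtype.val (h ⟨t, hTV ht⟩ ht)
    rw [hT.cent, Subgroup.mem_bot] at h1
    rw [Subgroup.mem_bot]
    exact Subtype.ext h1

/-- Every element of the normal closure of `S` induces an inner automorphism on `S`. -/
theorem inner {G : Type} [Group G] (S : Subgroup G) (hc : ConjComm S) :
    ∀ n ∈ Subgroup.normalClosure (S : Set G), ∃ t ∈ S, ∀ s ∈ S, n * s * n⁻¹ = t * s * t⁻¹ := by
  intro n hn
  unfold Subgroup.normalClosure at hn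
  induction hn using Subgroup.closure_induction with
  | mem x hx =>
    rw [Group.mem_conjugatesOfSet_iff] at hx
    obtain ⟨s₀, hs₀, hx⟩ := hx
    rw [isConj_iff] at hx
    obtain ⟨g, rfl⟩ := hx
    rcases hc g with h | h
    · exact ⟨g * s₀ * g⁻¹, h s₀ hs₀, fun s _ => rfl⟩
    · refine ⟨1, S.one_mem, fun s hs => ?_⟩
      rw [h s₀ hs₀ s hs]
      group
  | one => exact ⟨1, S.one_mem, fun s _ => rfl⟩
  | mul x y _ _ hx hy =>
    obtain ⟨t, ht, hx⟩ := hx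
    obtain ⟨u, hu, hy⟩ := hy
    refine ⟨t * u, S.mul_mem ht hu, fun s hs => ?_⟩
    have h1 : u * s * u⁻¹ ∈ S := S.mul_mem (S.mul_mem hu hs) (S.inv_mem hu)
    calc x * y * s * (x * y)⁻¹ = x * (y * s * y⁻¹) * x⁻¹ := by group
      _ = x * (u * s * u⁻¹) * x⁻¹ := by rw [hy s hs]
      _ = t * (u * s * u⁻¹) * t⁻¹ := hx _ h1
      _ = t * u * s * (t * u)⁻¹ := by group
  | inv x _ hx =>
    obtain ⟨t, ht, hx⟩ := hx
    refine ⟨t⁻¹, S.inv_mem ht, fun s hs => ?_⟩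
    have h1 : t⁻¹ * s * t ∈ S := S.mul_mem (S.mul_mem (S.inv_mem ht) hs) ht
    have h2 := hx _ h1
    have h3 : t * (t⁻¹ * s * t) * t⁻¹ = s := by group
    rw [h3] at h2
    calc x⁻¹ * s * x⁻¹⁻¹ = x⁻¹ * (x * (t⁻¹ * s * t) * x⁻¹) * x := by rw [h2]; group
      _ = t⁻¹ * s * t⁻¹⁻¹ := by group

/-- A finite simple `r`-group has order `r`. -/
theorem simple_pgroup {X : Type} [Group X] [Finite X] {r : ℕ} (hr : r.Prime) (hs : IsSimpleGroup X)
    (hp : IsPGroup r X) : Nonempty (Multiplicative (ZMod r) ≃* X) := by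
  haveI : Fact r.Prime := ⟨hr⟩
  haveI : Nontrivial X := hs.toNontrivial
  have h1 := hp.center_nontrivial
  have h2 : Subgroup.center X = ⊤ := by
    rcases hs.eq_bot_or_eq_top_of_normal (Subgroup.center X) inferInstance with h | h
    · rw [Subgroup.nontrivial_iff_ne_bot] at h1
      exact absurd h h1
    · exact h
  letI : CommGroup X := Group.commGroupOfCenterEqTop h2
  haveI : IsSimpleGroup X := hs
  have h3 : (Nat.card X).Prime := IsSimpleGroup.prime_card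
  obtain ⟨n, hn⟩ := (IsPGroup.iff_card (p := r) (G := X)).1 hp
  have h4 : Nat.card X = r := by
    have hd : r ∣ Nat.card X := by
      have hne : n ≠ 0 := by
        rintro rfl
        rw [pow_zero] at hn
        exact h3.one_lt.ne' hn
      rw [hn]
      exact dvd_pow_self r hne
    exact ((Nat.prime_dvd_prime_iff_eq hr h3).1 hd).symm
  have h5 : Nat.card (Multiplicative (ZMod r)) = r := by
    rw [Nat.card_eq_fintype_card, Fintype.card_multiplicative, ZMod.card]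
  exact ⟨mulEquivOfPrimeCardEq h5 h4⟩

theorem compIn_of_pgroup {J : GrpClass} (hJ : IsoClosed J) {r : ℕ} (hr : r.Prime)
    (h : J (Multiplicative (ZMod r))) {Q : Type} [Group Q] [Finite Q] (hQ : IsPGroup r Q) :
    CompIn J Q := by
  refine ⟨inferInstance, fun N M _ _ hs => ?_⟩
  have h1 : IsPGroup r (N ⧸ M) := (hQ.to_subgroup N).to_quotient M
  obtain ⟨e⟩ := simple_pgroup hr hs h1
  exact hJ _ _ e h

/-- A simple quotient. -/
theorem exists_simple_quot (Q : Type) [Group Q] [Finite Q] [Nontrivial Q] :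
    ∃ (M : Subgroup Q) (_ : M.Normal), IsSimpleGroup (Q ⧸ M) := by
  have hfin : Set.Finite {M : Subgroup Q | M.Normal ∧ M ≠ ⊤} := Set.toFinite _
  have hne : Set.Nonempty {M : Subgroup Q | M.Normal ∧ M ≠ ⊤} :=
    ⟨⊥, inferInstance, bot_ne_top⟩
  obtain ⟨M, hM⟩ := hfin.exists_maximal hne
  obtain ⟨hMn, hMt⟩ := hM.prop
  refine ⟨M, hMn, ?_⟩
  haveI : Nontrivial (Q ⧸ M) := by
    by_contra hcon
    rw [not_nontrivial_iff_subsingleton] at hcon
    apply hMt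
    rw [eq_top_iff]
    intro x _
    rw [← QuotientGroup.eq_one_iff]
    exact Subsingleton.elim _ _
  constructor
  intro H hH
  have h1 : M ≤ H.comap (QuotientGroup.mk' M) := by
    intro x hx
    rw [Subgroup.mem_comap, QuotientGroup.mk'_apply, (QuotientGroup.eq_one_iff x).2 hx]
    exact H.one_mem
  by_cases h2 : H.comap (QuotientGroup.mk' M) = ⊤
  · right
    rw [eq_top_iff]
    intro y _
    obtain ⟨x, rfl⟩ := QuotientGroup.mk_surjective y
    have : x ∈ H.comap (QuotientGroup.mk' M) := by rw [h2]; trivial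
    exact this
  · left
    have h3 : H.comap (QuotientGroup.mk' M) ≤ M := hM.le_of_ge ⟨hH.comap _, h2⟩ h1
    rw [eq_bot_iff]
    intro y hy
    obtain ⟨x, rfl⟩ := QuotientGroup.mk_surjective y
    rw [Subgroup.mem_bot]
    exact (QuotientGroup.eq_one_iff x).2 (h3 hy)

theorem pgroup_trivial {J : GrpClass} (hC : CompStmt) (hJ : IsoClosed J) {r : ℕ} (hr : r.Prime)
    (h : ¬ J (Multiplicative (ZMod r))) {Q : Type} [Group Q] [Finite Q] (hQ : IsPGroup r Q)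
    (hQJ : CompIn J Q) : Subsingleton Q := by
  by_contra hcon
  haveI : Nontrivial Q := not_subsingleton_iff_nontrivial.1 hcon
  obtain ⟨M, hM, hs⟩ := exists_simple_quot Q
  obtain ⟨c1, -, -, c4, -⟩ := hC J hJ
  have h1 : CompIn J (Q ⧸ M) := c1 Q _ (QuotientGroup.mk' M) (QuotientGroup.mk'_surjective M) hQJ
  have h2 : J (Q ⧸ M) := (c4 _ hs).1 h1
  obtain ⟨e⟩ := simple_pgroup hr hs (hQ.to_quotient M)
  exact h (hJ _ _ e.symm h2)

/-- Elements of a subgroup `D₀ ≥ N` in `F`, which is an `r`-group modulo `N`, normalize all the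
conjugates of `S` if `S ≀ C_r` is not in `F`. -/
theorem norm_all {F : GrpClass} (hF : IsFormation F) (hS : SubClosed F) (hA : CondA F)
    (hPB : PBmStmt) (hSoc : SocStmt) (hComp : CompStmt) (hKA : KAStmt) {G : Type} [Group G]
    [Finite G] {S : Subgroup G} (hcomp : IsComp S)
    (hQ : F (G ⧸ Subgroup.normalClosure (S : Set G))) {r : ℕ} (hr : r.Prime)
    (hw : ¬ Wrc F S (Multiplicative (ZMod r))) (D₀ : Subgroup G)
    (hND : Subgroup.normalClosure (S : Set G) ≤ D₀) (hFD : F D₀)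
    (hp : ∀ x ∈ D₀, ∃ k : ℕ, x ^ r ^ k ∈ Subgroup.normalClosure (S : Set G)) :
    ∀ b ∈ D₀, ∀ x : G, x⁻¹ * b * x ∈ Subgroup.normalizer (S : Set G) := by
  obtain ⟨hα, -, -, -⟩ := hSoc.2 G S hcomp
  have hNn : Subgroup.normalClosure (S : Set G) ≤ Subgroup.normalizer (S : Set G) := by
    intro n hn
    rw [Subgroup.mem_normalizer_iff]
    intro s
    refine ⟨hα n hn s, fun h => ?_⟩
    have h1 := hα n⁻¹ (Subgroup.inv_mem _ hn) _ h
    have h2 : n⁻¹ * (n * s * n⁻¹) * n⁻¹⁻¹ = s := by group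
    rwa [h2] at h1
  have hNact : ∀ n ∈ Subgroup.normalClosure (S : Set G),
      MulAction.toPermHom G (G ⧸ Subgroup.normalizer (S : Set G)) n = 1 := by
    intro n hn
    ext x
    obtain ⟨x, rfl⟩ := QuotientGroup.mk_surjective x
    change (((n * x : G)) : G ⧸ Subgroup.normalizer (S : Set G)) = (x : G ⧸ _)
    rw [QuotientGroup.eq]
    apply hNn
    have h1 : (n * x)⁻¹ * x = x⁻¹ * n⁻¹ * (x⁻¹)⁻¹ := by group
    rw [h1]
    exact Subgroup.normalClosure_normal.conj_mem _ (Subgroup.inv_mem _ hn) _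
  have hJ : IsoClosed (Wrc F S) := fun X Y _ _ e h =>
    (hKA F hF hS S).2.2.1 X Y e.toMonoidHom e.surjective h
  have h1 : CompIn (Wrc F S) (PermB S D₀) := hPB F hF hS hA G S D₀ hcomp hQ hND hFD
  have h2 : IsPGroup r (PermB S D₀) := by
    rintro ⟨y, b, hb, rfl⟩
    obtain ⟨k, hk⟩ := hp b hb
    refine ⟨k, Subtype.ext ?_⟩
    have h3 := hNact _ hk
    rw [map_pow] at h3
    simpa using h3
  haveI : Finite (PermB S D₀) := h1.1
  have h3 := pgroup_trivial hComp hJ hr hw h2 h1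
  intro b hb x
  have h4 : MulAction.toPermHom G (G ⧸ Subgroup.normalizer (S : Set G)) b⁻¹ = 1 := by
    have h5 : (⟨_, ⟨b⁻¹, D₀.inv_mem hb, rfl⟩⟩ : PermB S D₀) = 1 := Subsingleton.elim _ _
    exact congrArg Subtype.val h5
  have h6 : ((b⁻¹ * x : G) : G ⧸ Subgroup.normalizer (S : Set G)) = (x : G ⧸ _) :=
    Equiv.ext_iff.1 h4 (x : G ⧸ Subgroup.normalizer (S : Set G))
  rw [QuotientGroup.eq] at h6
  have h7 : (b⁻¹ * x)⁻¹ * x = x⁻¹ * b * x := by group
  rwa [h7] at h6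

end SA1M

open SA1M in
open scoped Pointwise in
/-- (SA1) The cyclic case. -/
theorem sa1Stmt (hPB : PBmStmt) (hSoc : SocStmt) (hSyl : SylStmt) (hComp : CompStmt)
    (hKA : KAStmt) (hAut : AutSStmt) : SA1Stmt := by
  intro F hF hS hA hCc G _ _ S B C hcomp hQ hNB hNC hFB hFC hprd r hr g hg U hU
  obtain ⟨T, hT, ⟨eT⟩, hTm, hTq⟩ := hAut G S hcomp
  haveI := hT.normal
  obtain ⟨U', φ, hφ⟩ := hTq hT.normal
  haveI : Fact r.Prime := ⟨hr⟩
  have hSN : S ≤ Subgroup.normalClosure (S : Set G) := Subgroup.subset_normalClosure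
  have hFS : F S := of_le hF hS (hSN.trans hNB) hFB
  have hFT : F T := of_equiv hF eT hFS
  have hFAT : F (AutG S ⧸ T) := hF.quot U' _ φ hφ (hS _ U' hQ)
  let a : AutG S := ⟨S.normalizerMonoidHom g, ⟨g, rfl⟩⟩
  have hTV : T ≤ T ⊔ Subgroup.zpowers a := le_sup_left
  have hUV : U ≤ T ⊔ Subgroup.zpowers a := by
    intro u hu
    obtain ⟨n, t, ht⟩ := hU ⟨u, hu⟩
    have h1 : (a ^ n)⁻¹ * u ∈ T := by
      rw [hTm]
      refine ⟨t, ?_⟩
      change (S.normalizerMonoidHom g ^ n)⁻¹ * (u : MulAut S) = MulAut.conj t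
      change (u : MulAut S) = _ at ht
      rw [ht, inv_mul_cancel_left]
    have h2 : u = a ^ n * ((a ^ n)⁻¹ * u) := by group
    rw [h2]
    exact Subgroup.mul_mem _ (Subgroup.mem_sup_right (Subgroup.npow_mem_zpowers a n))
      (Subgroup.mem_sup_left h1)
  refine of_le hF hS hUV ?_
  -- the `r`-group `V / T`
  have hin := inner S hcomp.conj
  have hga : ∃ k : ℕ, a ^ r ^ k ∈ T := by
    obtain ⟨k, hk⟩ := hg
    refine ⟨k, ?_⟩
    rw [hTm]
    obtain ⟨t, ht, h1⟩ := hin _ hk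
    refine ⟨⟨t, ht⟩, ?_⟩
    change S.normalizerMonoidHom g ^ r ^ k = _
    rw [← map_pow]
    ext s
    exact h1 s s.2
  have hVp : IsPGroup r ((T ⊔ Subgroup.zpowers a : Subgroup (AutG S)) ⧸
      T.subgroupOf (T ⊔ Subgroup.zpowers a)) := by
    obtain ⟨k, hk⟩ := hga
    intro x
    obtain ⟨⟨v, hv⟩, rfl⟩ := QuotientGroup.mk_surjective x
    refine ⟨k, ?_⟩
    rw [← QuotientGroup.mk_pow, QuotientGroup.eq_one_iff, Subgroup.mem_subgroupOf]
    change v ^ r ^ k ∈ T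
    rw [Subgroup.mem_sup_of_normal_left] at hv
    obtain ⟨t, ht, z, ⟨m, hz⟩, rfl⟩ := hv
    have hz' : a ^ m = z := hz
    rw [← QuotientGroup.eq_one_iff] at hk ht ⊢
    rw [QuotientGroup.mk_pow, QuotientGroup.mk_mul, ht, one_mul, ← hz', QuotientGroup.mk_zpow,
      ← zpow_natCast, ← zpow_mul, mul_comm, zpow_mul, zpow_natCast, ← QuotientGroup.mk_pow, hk,
      one_zpow]
  by_cases hw : Wrc F S (Multiplicative (ZMod r))
  · -- Case 1
    have e₂ : S ≃* T.subgroupOf (T ⊔ Subgroup.zpowers a) :=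
      eT.trans (Subgroup.subgroupOfEquivOfLe hTV).symm
    have hw2 : Wrc F (T.subgroupOf (T ⊔ Subgroup.zpowers a)) (Multiplicative (ZMod r)) :=
      of_equiv hF (RegularWreathProduct.congr e₂ (MulEquiv.refl _)) hw
    have hJ : IsoClosed (Wrc F (T.subgroupOf (T ⊔ Subgroup.zpowers a))) := fun X Y _ _ e h =>
      (hKA F hF hS _).2.2.1 X Y e.toMonoidHom e.surjective h
    exact (hCc _ _ (soc_sub hT hTV) (quot_sub hF hS T _ hFAT)).2 (of_equiv hF e₂ hFS)
      (compIn_of_pgroup hJ hr hw2 hVp)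
  -- Case 2
  set N := Subgroup.normalClosure (S : Set G) with hN
  have hNnorm : N.Normal := Subgroup.normalClosure_normal
  have hprd' : Prd (B.map (QuotientGroup.mk' N)) (C.map (QuotientGroup.mk' N)) := by
    intro x
    obtain ⟨x, rfl⟩ := QuotientGroup.mk_surjective x
    obtain ⟨b, hb, c, hc, rfl⟩ := hprd x
    exact ⟨_, ⟨b, hb, rfl⟩, _, ⟨c, hc, rfl⟩, rfl⟩
  obtain ⟨R, A₁, B₁, hA₁, hB₁, hA₁R, hB₁R, hR⟩ := hSyl (G ⧸ N) _ _ hprd' r hr
  have hle : ∀ (E : Subgroup G) (E₁ : Subgroup (G ⧸ N)), N ≤ E →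
      E₁ ≤ E.map (QuotientGroup.mk' N) → E₁.comap (QuotientGroup.mk' N) ≤ E := by
    intro E E₁ hNE hE x hx
    obtain ⟨e, he, h1⟩ := hE hx
    have h2 : e⁻¹ * x ∈ N := (QuotientGroup.eq).1 h1
    have h3 : x = e * (e⁻¹ * x) := by group
    rw [h3]
    exact E.mul_mem he (hNE h2)
  have hNc : ∀ E₁ : Subgroup (G ⧸ N), N ≤ E₁.comap (QuotientGroup.mk' N) := by
    intro E₁ x hx
    rw [Subgroup.mem_comap, QuotientGroup.mk'_apply, (QuotientGroup.eq_one_iff x).2 hx]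
    exact E₁.one_mem
  have hpw : ∀ E₁ : Subgroup (G ⧸ N), E₁ ≤ R → ∀ x ∈ E₁.comap (QuotientGroup.mk' N),
      ∃ k : ℕ, x ^ r ^ k ∈ N := by
    intro E₁ hE x hx
    obtain ⟨k, hk⟩ := R.isPGroup' ⟨_, hE hx⟩
    refine ⟨k, ?_⟩
    have h1 := congrArg Subtype.val hk
    rw [← QuotientGroup.eq_one_iff, QuotientGroup.mk_pow]
    exact h1
  have hFB₀ : F (A₁.comap (QuotientGroup.mk' N)) := of_le hF hS (hle B A₁ hNB hA₁) hFB
  have hFC₀ : F (B₁.comap (QuotientGroup.mk' N)) := of_le hF hS (hle C B₁ hNC hB₁) hFC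
  have hnB := norm_all hF hS hA hPB hSoc hComp hKA hcomp hQ hr hw _ (hNc A₁) hFB₀ (hpw A₁ hA₁R)
  have hnC := norm_all hF hS hA hPB hSoc hComp hKA hcomp hQ hr hw _ (hNc B₁) hFC₀ (hpw B₁ hB₁R)
  -- decomposition of the elements over `R`
  have hdec : ∀ x : G, (x : G ⧸ N) ∈ R → ∃ b ∈ A₁.comap (QuotientGroup.mk' N),
      ∃ c ∈ B₁.comap (QuotientGroup.mk' N), x = b * c := by
    intro x hx
    obtain ⟨a', ha', b', hb', h1⟩ := hR _ hx
    obtain ⟨b, rfl⟩ := QuotientGroup.mk_surjective a'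
    refine ⟨b, ha', b⁻¹ * x, ?_, by group⟩
    rw [Subgroup.mem_comap]
    change ((b⁻¹ * x : G) : G ⧸ N) ∈ B₁
    rw [QuotientGroup.mk_mul, QuotientGroup.mk_inv, h1, inv_mul_cancel_left]
    exact hb'
  have hnG : ∀ x : G, (x : G ⧸ N) ∈ R → ∀ y : G, y⁻¹ * x * y ∈ Subgroup.normalizer (S : Set G) := by
    intro x hx y
    obtain ⟨b, hb, c, hc, rfl⟩ := hdec x hx
    have h1 : y⁻¹ * (b * c) * y = (y⁻¹ * b * y) * (y⁻¹ * c * y) := by group
    rw [h1]
    exact Subgroup.mul_mem _ (hnB b hb y) (hnC c hc y)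
  -- a conjugate of `g` is over `R`
  obtain ⟨y, hy⟩ : ∃ y : G, ((y * g * y⁻¹ : G) : G ⧸ N) ∈ R := by
    have hz : IsPGroup r (Subgroup.zpowers (((g : G) : G ⧸ N))) := by
      obtain ⟨k, hk⟩ := hg
      rintro ⟨z, m, rfl⟩
      refine ⟨k, Subtype.ext ?_⟩
      change ((((g : G) : G ⧸ N)) ^ m) ^ r ^ k = 1
      rw [← zpow_natCast, ← zpow_mul, mul_comm, zpow_mul, zpow_natCast, ← QuotientGroup.mk_pow,
        (QuotientGroup.eq_one_iff _).2 hk, one_zpow]
    obtain ⟨R', hR'⟩ := hz.exists_le_sylow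
    obtain ⟨x, hx⟩ := MulAction.exists_smul_eq (G ⧸ N) R' R
    obtain ⟨y, rfl⟩ := QuotientGroup.mk_surjective x
    refine ⟨y, ?_⟩
    rw [← hx]
    have h1 : (((g : G) : G ⧸ N)) ∈ R' := hR' (Subgroup.mem_zpowers _)
    have h2 : MulAut.conj (y : G ⧸ N) • (((g : G) : G ⧸ N)) ∈ MulAut.conj (y : G ⧸ N) • (R' : Subgroup (G ⧸ N)) :=
      Subgroup.smul_mem_pointwise_smul _ _ _ h1
    exact h2
  -- the group `D`
  let G₀ : Subgroup G := (R : Subgroup (G ⧸ N)).comap (QuotientGroup.mk' N)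
  have hB₀G : A₁.comap (QuotientGroup.mk' N) ≤ G₀ := Subgroup.comap_mono hA₁R
  have hC₀G : B₁.comap (QuotientGroup.mk' N) ≤ G₀ := Subgroup.comap_mono hB₁R
  let c : G₀ →* Subgroup.normalizer (S : Set G) :=
    { toFun := fun x => ⟨y⁻¹ * x * y, hnG x x.2 y⟩
      map_one' := by
        apply Subtype.ext
        change y⁻¹ * 1 * y = 1
        group
      map_mul' := by
        intro x z
        apply Subtype.ext
        change y⁻¹ * (x * z) * y = (y⁻¹ * x * y) * (y⁻¹ * z * y)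
        group }
  let θ : G₀ →* AutG S := S.normalizerMonoidHom.rangeRestrict.comp c
  let D₁ : Subgroup (AutG S) := (θ.comp (Subgroup.inclusion hB₀G)).range
  let D₂ : Subgroup (AutG S) := (θ.comp (Subgroup.inclusion hC₀G)).range
  have hD₁ : D₁ ≤ θ.range := by
    rintro _ ⟨x, rfl⟩
    exact ⟨_, rfl⟩
  have hD₂ : D₂ ≤ θ.range := by
    rintro _ ⟨x, rfl⟩
    exact ⟨_, rfl⟩
  have hTD : ∀ (E₀ : Subgroup G) (hE : E₀ ≤ G₀), N ≤ E₀ →
      T ≤ (θ.comp (Subgroup.inclusion hE)).range := by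
    intro E₀ hE hNE t ht
    obtain ⟨s, hs⟩ := (hTm t).1 ht
    have h1 : y * s * y⁻¹ ∈ N := hNnorm.conj_mem _ (hSN s.2) y
    refine ⟨⟨y * s * y⁻¹, hNE h1⟩, ?_⟩
    apply Subtype.ext
    rw [hs]
    ext x
    change (y⁻¹ * (y * s * y⁻¹) * y) * (x : G) * (y⁻¹ * (y * s * y⁻¹) * y)⁻¹ = s * x * (s : G)⁻¹
    group
  have hTD1 : T ≤ D₁ := hTD _ hB₀G (hNc A₁)
  have hTD2 : T ≤ D₂ := hTD _ hC₀G (hNc B₁)
  have haD : a ∈ θ.range := by
    refine ⟨⟨y * g * y⁻¹, hy⟩, ?_⟩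
    apply Subtype.ext
    ext x
    change (y⁻¹ * (y * g * y⁻¹) * y) * (x : G) * (y⁻¹ * (y * g * y⁻¹) * y)⁻¹ = g * x * (g : G)⁻¹
    group
  have hVD : T ⊔ Subgroup.zpowers a ≤ θ.range := by
    rw [sup_le_iff, Subgroup.zpowers_le]
    exact ⟨hTD1.trans hD₁, haD⟩
  refine of_le hF hS hVD ?_
  have hTD0 : T ≤ θ.range := hTD1.trans hD₁
  refine (hCc θ.range (T.subgroupOf θ.range) (soc_sub hT hTD0) (quot_sub hF hS T _ hFAT)).1
    (D₁.subgroupOf θ.range) (D₂.subgroupOf θ.range) ?_ ?_ ?_ ?_ ?_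
  · exact fun x hx => hTD1 hx
  · exact fun x hx => hTD2 hx
  · exact of_equiv hF (Subgroup.subgroupOfEquivOfLe hD₁).symm (of_range hF _ hFB₀)
  · exact of_equiv hF (Subgroup.subgroupOfEquivOfLe hD₂).symm (of_range hF _ hFC₀)
  · rintro ⟨_, ⟨x, rfl⟩⟩
    obtain ⟨b, hb, c', hc', hx⟩ := hdec x x.2
    refine ⟨⟨θ ⟨b, hB₀G hb⟩, ⟨_, rfl⟩⟩, ⟨⟨b, hb⟩, rfl⟩, ⟨θ ⟨c', hC₀G hc'⟩, ⟨_, rfl⟩⟩,
      ⟨⟨c', hc'⟩, rfl⟩, ?_⟩
    apply Subtype.ext
    change θ x = θ ⟨b, hB₀G hb⟩ * θ ⟨c', hC₀G hc'⟩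
    rw [← map_mul]
    congr 1
    exact Subtype.ext hx

end Pool.Agent.Lib.MP_de73ed_al_H
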