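import Pool.Agent.Lib.MP_de73ed_al_H.Spec

set_option linter.all false

/-!
Nonabelian minimal normal subgroups and their components.
-/

namespace Pool.Agent.Lib.MP_de73ed_al_H

open Pool.Agent.Lib.MP_de73ed_al

namespace SocM

variable {G : Type} [Group G]

theorem ncl_le (S K : Subgroup G) (h : ∀ a : G, ∀ s ∈ S, a * s * a⁻¹ ∈ K) :
    Subgroup.normalClosure (S : Set G) ≤ K := by
  rw [Subgroup.normalClosure, Subgroup.closure_le]
  intro x hx
  obtain ⟨s, hs, hsx⟩ := Group.mem_conjugatesOfSet_iff.1 hx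
  obtain ⟨c, rfl⟩ := isConj_iff.1 hsx
  exact h c s hs

theorem le_ncl (S : Subgroup G) : S ≤ Subgroup.normalClosure (S : Set G) :=
  fun _ hx => Subgroup.subset_normalClosure hx

/-- The subgroup of the elements which commute with all conjugates. -/
theorem conj_mem_ncl (S : Subgroup G) (g s : G) (hs : s ∈ S) :
    g * s * g⁻¹ ∈ Subgroup.normalClosure (S : Set G) :=
  Subgroup.normalClosure_normal.conj_mem s (le_ncl S hs) g

/-- An element normalizes `H` if it and its inverse map `H` into `H`. -/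
theorem mem_norm (H : Subgroup G) (g : G) (h1 : ∀ h ∈ H, g * h * g⁻¹ ∈ H)
    (h2 : ∀ h ∈ H, g⁻¹ * h * g ∈ H) : g ∈ Subgroup.normalizer (H : Set G) := by
  rw [Subgroup.mem_normalizer_iff]
  intro h
  refine ⟨h1 h, fun hh => ?_⟩
  have := h2 _ hh
  simpa [mul_assoc] using this

/-- Under `ConjComm`, the normal closure normalizes every subgroup of `S` normalized by `S`. -/
theorem ncl_le_norm (S H : Subgroup G) (hc : ConjComm S) (hHS : H ≤ S)
    (hH : ∀ s ∈ S, ∀ h ∈ H, s * h * s⁻¹ ∈ H) :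
    Subgroup.normalClosure (S : Set G) ≤ Subgroup.normalizer (H : Set G) := by
  apply ncl_le
  intro a s hs
  rcases hc a with h | h
  · have h1 := h s hs
    apply mem_norm
    · exact fun x hx => hH _ h1 x hx
    · intro x hx
      have := hH _ (S.inv_mem h1) x hx
      rwa [inv_inv] at this
  · apply mem_norm
    · intro x hx
      rw [h s hs x (hHS hx), mul_assoc, mul_inv_cancel, mul_one]
      exact hx
    · intro x hx
      rw [mul_assoc, ← h s hs x (hHS hx), inv_mul_cancel_left]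
      exact hx

theorem conj_of_norm (H : Subgroup G) (g : G) (hg : g ∈ Subgroup.normalizer (H : Set G)) (h : G)
    (hh : h ∈ H) : g * h * g⁻¹ ∈ H := (Subgroup.mem_normalizer_iff.1 hg h).1 hh

/-- The normal closure of an abelian `S` with `ConjComm` is abelian. -/
theorem ncl_comm (S : Subgroup G) (hc : ConjComm S) (ha : ∀ a ∈ S, ∀ b ∈ S, a * b = b * a) :
    ∀ x ∈ Subgroup.normalClosure (S : Set G), ∀ y ∈ Subgroup.normalClosure (S : Set G),
      x * y = y * x := by
  have h0 : ∀ g : G, ∀ s ∈ S, ∀ t ∈ S, g * s * g⁻¹ * t = t * (g * s * g⁻¹) := by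
    intro g s hs t ht
    rcases hc g with h | h
    · exact ha _ (h s hs) t ht
    · exact h s hs t ht
  have h1 : ∀ g : G, ∀ s ∈ S, ∀ a : G, ∀ t ∈ S,
      g * s * g⁻¹ * (a * t * a⁻¹) = a * t * a⁻¹ * (g * s * g⁻¹) := by
    intro g s hs a t ht
    have h2 := h0 (a⁻¹ * g) s hs t ht
    have h3 : a * (a⁻¹ * g * s * (a⁻¹ * g)⁻¹ * t) * a⁻¹ = g * s * g⁻¹ * (a * t * a⁻¹) := by group
    have h4 : a * (t * (a⁻¹ * g * s * (a⁻¹ * g)⁻¹)) * a⁻¹ = a * t * a⁻¹ * (g * s * g⁻¹) := by group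
    rw [← h3, h2, h4]
  have h2 : ∀ x ∈ Subgroup.normalClosure (S : Set G), ∀ a : G, ∀ t ∈ S,
      x * (a * t * a⁻¹) = a * t * a⁻¹ * x := by
    intro x hx a t ht
    have h3 := ncl_le S (Subgroup.centralizer {a * t * a⁻¹}) (fun g s hs => by
      rw [Subgroup.mem_centralizer_iff]
      intro y hy
      rw [Set.mem_singleton_iff.1 hy]
      exact (h1 g s hs a t ht).symm) hx
    rw [Subgroup.mem_centralizer_iff] at h3
    exact (h3 _ rfl).symm
  intro x hx y hy
  have h3 := ncl_le S (Subgroup.centralizer {x}) (fun a t ht => by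
    rw [Subgroup.mem_centralizer_iff]
    intro z hz
    rw [Set.mem_singleton_iff.1 hz]
    exact h2 x hx a t ht) hy
  rw [Subgroup.mem_centralizer_iff] at h3
  exact h3 _ rfl

theorem simple_of (T : Subgroup G) (hT : T ≠ ⊥)
    (h : ∀ H : Subgroup G, H ≤ T → (∀ s ∈ T, ∀ h ∈ H, s * h * s⁻¹ ∈ H) → H ≠ ⊥ → H = T) :
    IsSimpleGroup T := by
  haveI : Nontrivial T := (Subgroup.nontrivial_iff_ne_bot T).2 hT
  refine ⟨fun H hH => ?_⟩
  by_cases h1 : H = ⊥
  · exact Or.inl h1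
  · right
    have h2 : H.map T.subtype ≠ ⊥ := by
      intro h3
      apply h1
      exact (Subgroup.map_eq_bot_iff_of_injective H T.subtype_injective).1 h3
    have h3 := h (H.map T.subtype) (Subgroup.map_subtype_le H) (by
      intro s hs x hx
      obtain ⟨y, hy, rfl⟩ := hx
      exact ⟨⟨s, hs⟩ * y * ⟨s, hs⟩⁻¹, hH.conj_mem y hy ⟨s, hs⟩, rfl⟩) h2
    rw [eq_top_iff]
    intro x _
    have h4 : (x : G) ∈ H.map T.subtype := by rw [h3]; exact x.2
    obtain ⟨y, hy, hyx⟩ := h4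
    have : y = x := Subtype.ext hyx
    rw [← this]
    exact hy

section One

variable [Finite G] (R : Subgroup G)

/-- Nontrivial subgroups of `R` normalized by `R`. -/
def Pr (T : Subgroup G) : Prop := T ≤ R ∧ T ≠ ⊥ ∧ ∀ r ∈ R, ∀ t ∈ T, r * t * r⁻¹ ∈ T

theorem one (hR : IsChief ⊥ R) (hna : NonAb R) :
    ∃ T : Subgroup G, T ≤ R ∧ IsSimpleGroup T ∧ NonAb T ∧ ConjComm T ∧
      Subgroup.normalClosure (T : Set G) = R ∧ ∀ r ∈ R, ∀ t ∈ T, r * t * r⁻¹ ∈ T := by
  have hRn := hR.nH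
  have hRb : R ≠ ⊥ := hR.lt.ne'
  obtain ⟨T, hT, hmin⟩ := Set.Finite.exists_minimalFor (fun N : Subgroup G => Nat.card N)
    {T | Pr R T} (Set.toFinite _) ⟨R, le_rfl, hRb, fun r hr t ht =>
      R.mul_mem (R.mul_mem hr ht) (R.inv_mem hr)⟩
  obtain ⟨hTR, hTb, hTn⟩ := hT
  have hmin' : ∀ H : Subgroup G, Pr R H → Nat.card T ≤ Nat.card H := by
    intro H hH
    by_contra hlt
    exact hlt (hmin hH (le_of_not_ge hlt))
  have hcc : ConjComm T := by
    intro g
    let Tg : Subgroup G := T.map (MulAut.conj g).toMonoidHom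
    have hTg : ∀ x, x ∈ Tg ↔ ∃ t ∈ T, g * t * g⁻¹ = x := by
      intro x
      constructor
      · rintro ⟨t, ht, rfl⟩
        exact ⟨t, ht, rfl⟩
      · rintro ⟨t, ht, rfl⟩
        exact ⟨t, ht, rfl⟩
    have hcard : Nat.card Tg = Nat.card T :=
      Nat.card_congr (T.equivMapOfInjective _ (MulAut.conj g).injective).symm.toEquiv
    have hTgR : Tg ≤ R := by
      intro x hx
      obtain ⟨t, ht, rfl⟩ := (hTg x).1 hx
      exact hRn.conj_mem t (hTR ht) g
    have hTgn : ∀ r ∈ R, ∀ t ∈ Tg, r * t * r⁻¹ ∈ Tg := by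
      intro r hr x hx
      obtain ⟨t, ht, rfl⟩ := (hTg x).1 hx
      refine (hTg _).2 ⟨g⁻¹ * r * g * t * (g⁻¹ * r * g)⁻¹, hTn _ ?_ t ht, by group⟩
      have := hRn.conj_mem r hr g⁻¹
      rwa [inv_inv] at this
    by_cases hb : T ⊓ Tg = ⊥
    · right
      intro s hs t ht
      have hx : g * s * g⁻¹ ∈ Tg := (hTg _).2 ⟨s, hs, rfl⟩
      have h1 : g * s * g⁻¹ * t * (g * s * g⁻¹)⁻¹ * t⁻¹ ∈ T :=
        T.mul_mem (hTn _ (hTgR hx) t ht) (T.inv_mem ht)
      have h2 : g * s * g⁻¹ * t * (g * s * g⁻¹)⁻¹ * t⁻¹ ∈ Tg := by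
        have := Tg.mul_mem hx (hTgn t (hTR ht) _ (Tg.inv_mem hx))
        have e : g * s * g⁻¹ * (t * (g * s * g⁻¹)⁻¹ * t⁻¹)
            = g * s * g⁻¹ * t * (g * s * g⁻¹)⁻¹ * t⁻¹ := by simp only [mul_assoc]
        rwa [e] at this
      have h3 : g * s * g⁻¹ * t * (g * s * g⁻¹)⁻¹ * t⁻¹ ∈ (⊥ : Subgroup G) := by
        rw [← hb]
        exact ⟨h1, h2⟩
      rw [Subgroup.mem_bot] at h3
      have h4 := mul_inv_eq_one.1 h3
      exact mul_inv_eq_iff_eq_mul.1 h4
    · left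
      have h1 : Pr R (T ⊓ Tg) := ⟨inf_le_left.trans hTR, hb, fun r hr t ht =>
        ⟨hTn r hr t ht.1, hTgn r hr t ht.2⟩⟩
      have h2 := hmin' _ h1
      have h3 : T ⊓ Tg = T := Subgroup.eq_of_le_of_card_ge inf_le_left h2
      have h4 : T ≤ Tg := inf_eq_left.1 h3
      have h5 : T = Tg := Subgroup.eq_of_le_of_card_ge h4 hcard.le
      intro s hs
      have : g * s * g⁻¹ ∈ Tg := (hTg _).2 ⟨s, hs, rfl⟩
      rwa [← h5] at this
  have hncl : Subgroup.normalClosure (T : Set G) = R := by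
    rcases hR.eq (Subgroup.normalClosure (T : Set G)) Subgroup.normalClosure_normal bot_le
      (Subgroup.normalClosure_le_normal hTR) with h | h
    · exfalso
      apply hTb
      rw [eq_bot_iff, ← h]
      exact le_ncl T
    · exact h
  refine ⟨T, hTR, ?_, ?_, hcc, hncl, hTn⟩
  · apply simple_of T hTb
    intro H hHT hH hHb
    have h1 := ncl_le_norm T H hcc hHT hH
    rw [hncl] at h1
    have h2 : Pr R H := ⟨hHT.trans hTR, hHb, fun r hr t ht => conj_of_norm H r (h1 hr) t ht⟩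
    exact Subgroup.eq_of_le_of_card_ge hHT (hmin' H h2)
  · intro hab
    apply hna
    have := ncl_comm T hcc hab
    rw [hncl] at this
    exact this

end One

theorem nonab_ne_bot (S : Subgroup G) (h : ¬ ∀ a ∈ S, ∀ b ∈ S, a * b = b * a) : S ≠ ⊥ := by
  rintro rfl
  apply h
  intro a ha b hb
  rw [Subgroup.mem_bot.1 ha, Subgroup.mem_bot.1 hb]

theorem two_delta (S : Subgroup G) (hS : IsComp S) (L : Subgroup G) (hL : L.Normal) (hLb : L ≠ ⊥) :
    Subgroup.normalClosure (S : Set G) ≤ L := by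
  suffices h : S ≤ L from Subgroup.normalClosure_le_normal h
  have h1 : ∃ l ∈ L, ∃ s ∈ S, ¬ l * s = s * l := by
    by_contra hcon
    push Not at hcon
    apply hLb
    have h2 : L ≤ Subgroup.centralizer (S : Set G) := by
      intro l hl
      rw [Subgroup.mem_centralizer_iff]
      intro s hs
      exact (hcon l hl s hs).symm
    haveI := hL
    have h3 : L ≤ (Subgroup.centralizer (S : Set G)).normalCore := Subgroup.normal_le_normalCore.2 h2
    rw [hS.cent] at h3
    exact eq_bot_iff.2 h3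
  have h2 : ∃ y, y ∈ S ∧ y ∈ L ∧ y ≠ 1 := by
    obtain ⟨l, hl, s, hs, hls⟩ := h1
    rcases hS.conj l with h | h
    · refine ⟨l * s * l⁻¹ * s⁻¹, S.mul_mem (h s hs) (S.inv_mem hs), ?_, ?_⟩
      · have h3 := L.mul_mem hl (hL.conj_mem _ (L.inv_mem hl) s)
        simpa only [mul_assoc] using h3
      · intro h3
        apply hls
        exact mul_inv_eq_iff_eq_mul.1 (mul_inv_eq_one.1 h3)
    · obtain ⟨a, ha, b, hb, hab⟩ : ∃ a ∈ S, ∃ b ∈ S, ¬ a * b = b * a := by
        by_contra hcon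
        push Not at hcon
        exact hS.nonab hcon
      have h4 : l * a * l⁻¹ * a⁻¹ ∈ L := by
        have h3 := L.mul_mem hl (hL.conj_mem _ (L.inv_mem hl) a)
        simpa only [mul_assoc] using h3
      have h5 : (l * a * l⁻¹ * a⁻¹) * b * (l * a * l⁻¹ * a⁻¹)⁻¹ * b⁻¹ ∈ L := by
        have h6 := L.mul_mem h4 (hL.conj_mem _ (L.inv_mem h4) b)
        have e : (l * a * l⁻¹ * a⁻¹) * (b * (l * a * l⁻¹ * a⁻¹)⁻¹ * b⁻¹)
            = (l * a * l⁻¹ * a⁻¹) * b * (l * a * l⁻¹ * a⁻¹)⁻¹ * b⁻¹ := by simp only [mul_assoc]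
        rwa [e] at h6
      have hc : a⁻¹ * b * a ∈ S := S.mul_mem (S.mul_mem (S.inv_mem ha) hb) ha
      have h6 : (l * a * l⁻¹ * a⁻¹) * b * (l * a * l⁻¹ * a⁻¹)⁻¹ * b⁻¹ = a⁻¹ * b * a * b⁻¹ := by
        have h7 := h a ha _ hc
        have e : (l * a * l⁻¹ * a⁻¹) * b * (l * a * l⁻¹ * a⁻¹)⁻¹ * b⁻¹
            = (l * a * l⁻¹ * (a⁻¹ * b * a)) * (l * a * l⁻¹)⁻¹ * b⁻¹ := by group
        rw [e, h7]
        group
      rw [h6] at h5
      refine ⟨a⁻¹ * b * a * b⁻¹, S.mul_mem hc (S.inv_mem hb), h5, ?_⟩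
      intro h7
      apply hab
      have h8 := mul_inv_eq_one.1 h7
      have h9 : a * (a⁻¹ * b * a) = a * b := by rw [h8]
      rw [← h9]
      group
  obtain ⟨y, hyS, hyL, hy1⟩ := h2
  haveI := hS.simple
  haveI := hL
  rcases IsSimpleGroup.eq_bot_or_eq_top_of_normal (L.subgroupOf S) inferInstance with h | h
  · exfalso
    apply hy1
    have h3 : (⟨y, hyS⟩ : S) ∈ L.subgroupOf S := hyL
    rw [h, Subgroup.mem_bot] at h3
    exact congrArg Subtype.val h3
  · exact Subgroup.subgroupOf_eq_top.1 h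

theorem two (S : Subgroup G) (hS : IsComp S) :
    (∀ r ∈ Subgroup.normalClosure (S : Set G), ∀ s ∈ S, r * s * r⁻¹ ∈ S) ∧
    IsChief ⊥ (Subgroup.normalClosure (S : Set G)) ∧
    (∀ g : G, (∀ n ∈ Subgroup.normalClosure (S : Set G), g * n = n * g) → g = 1) ∧
    ∀ L : Subgroup G, L.Normal → L ≠ ⊥ → Subgroup.normalClosure (S : Set G) ≤ L := by
  refine ⟨?_, ?_, ?_, fun L hL hLb => two_delta S hS L hL hLb⟩
  · intro r hr s hs
    exact conj_of_norm S r (ncl_le_norm S S hS.conj le_rfl (fun s hs h hh =>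
      S.mul_mem (S.mul_mem hs hh) (S.inv_mem hs)) hr) s hs
  · refine ⟨inferInstance, Subgroup.normalClosure_normal, ?_, ?_⟩
    · rw [bot_lt_iff_ne_bot]
      intro h
      apply nonab_ne_bot S hS.nonab
      rw [eq_bot_iff, ← h]
      exact le_ncl S
    · intro L hL _ hLN
      by_cases hLb : L = ⊥
      · exact Or.inl hLb
      · exact Or.inr (le_antisymm hLN (two_delta S hS L hL hLb))
  · intro g hg
    haveI : (Subgroup.normalClosure (S : Set G)).Normal := Subgroup.normalClosure_normal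
    have h1 : Subgroup.centralizer ((Subgroup.normalClosure (S : Set G) : Subgroup G) : Set G)
        ≤ (Subgroup.centralizer (S : Set G)).normalCore := by
      apply Subgroup.normal_le_normalCore.2
      exact Subgroup.centralizer_le (le_ncl S)
    rw [hS.cent] at h1
    have h2 : g ∈ Subgroup.centralizer
        ((Subgroup.normalClosure (S : Set G) : Subgroup G) : Set G) := by
      rw [Subgroup.mem_centralizer_iff]
      intro n hn
      exact (hg n hn).symm
    exact Subgroup.mem_bot.1 (h1 h2)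

end SocM

theorem socStmt : SocStmt :=
  ⟨fun G _ _ R hR hna => SocM.one R hR hna, fun G _ _ S hS => SocM.two S hS⟩

end Pool.Agent.Lib.MP_de73ed_al_H
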