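import Pool.Agent.Lib.MP_de73ed_al_H.Spec

set_option linter.all false
set_option autoImplicit false

namespace Pool.Agent.Lib.MP_de73ed_al_H

open Pool.Agent.Lib.MP_de73ed_al

namespace SolPM

/-- A nontrivial finite soluble group has a normal subgroup of prime index. -/
theorem exists_prime_index : ∀ (n : ℕ) (X : Type) [Group X] [Finite X], Nat.card X = n →
    Group.IsSolvable X → Nontrivial X → ∃ (M : Subgroup X), M.Normal ∧ M.index.Prime := by
  intro n
  induction n using Nat.strong_induction_on with
  | _ n ih =>
    intro X _ _ hn hsol hnt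
    by_cases hs : IsSimpleGroup X
    · haveI := hs
      have hcomm := (IsSimpleGroup.comm_iff_isSolvable (G := X)).2 hsol
      have hp : (Nat.card X).Prime := by
        letI : CommGroup X := { ‹Group X› with mul_comm := hcomm }
        exact IsSimpleGroup.prime_card
      refine ⟨⊥, inferInstance, ?_⟩
      rw [Subgroup.index_bot]
      exact hp
    · have hex : ∃ N : Subgroup X, N.Normal ∧ N ≠ ⊥ ∧ N ≠ ⊤ := by
        by_contra hcon
        push Not at hcon
        apply hs
        refine { eq_bot_or_eq_top_of_normal := ?_ }
        intro H hH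
        by_cases h : H = ⊥
        · exact Or.inl h
        · exact Or.inr (hcon H hH h)
      obtain ⟨N, hNn, hNb, hNt⟩ := hex
      haveI := hNn
      have hmul : Nat.card X = Nat.card (X ⧸ N) * Nat.card N :=
        Subgroup.card_eq_card_quotient_mul_card_subgroup N
      have hN1 : 1 < Nat.card N := by
        rw [Finite.one_lt_card_iff_nontrivial]
        exact (Subgroup.nontrivial_iff_ne_bot N).2 hNb
      have hQ1 : 1 < Nat.card (X ⧸ N) := by
        have h0 : Nat.card (X ⧸ N) ≠ 1 := by
          intro h
          exact hNt (Subgroup.index_eq_one.1 h)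
        have h1 : 0 < Nat.card (X ⧸ N) := Nat.card_pos
        omega
      obtain ⟨M', hM'n, hM'i⟩ := ih (Nat.card (X ⧸ N)) (by rw [← hn, hmul]; nlinarith) (X ⧸ N) rfl
        (inferInstance : Group.IsSolvable (X ⧸ N)) (Finite.one_lt_card_iff_nontrivial.1 hQ1)
      haveI := hM'n
      refine ⟨M'.comap (QuotientGroup.mk' N), inferInstance, ?_⟩
      rw [Subgroup.index_comap_of_surjective _ (QuotientGroup.mk'_surjective N)]
      exact hM'i

/-- For a subgroup `M` of prime index `r`, normal, and an element `y` outside `M` there is an
element `x` of `r`-power order outside `M`. -/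
theorem exists_rel {X : Type} [Group X] [Finite X] (M : Subgroup X) (hM : M.Normal)
    (hr : M.index.Prime) : ∃ x : X, x ∉ M ∧ ∃ k : ℕ, x ^ M.index ^ k = 1 := by
  have hne : M ≠ ⊤ := by
    intro h
    rw [h, Subgroup.index_top] at hr
    exact Nat.not_prime_one hr
  obtain ⟨y, hy⟩ : ∃ y, y ∉ M := by
    by_contra hcon
    push Not at hcon
    exact hne ((Subgroup.eq_top_iff' M).2 hcon)
  have hpos : 0 < orderOf y := orderOf_pos y
  obtain ⟨a, m, hm, hfac⟩ := Nat.exists_eq_pow_mul_and_not_dvd hpos.ne' M.index hr.ne_one
  refine ⟨y ^ m, ?_, a, ?_⟩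
  · intro hmem
    -- y ^ index ∈ M
    have h1 : y ^ M.index ∈ M := by
      haveI := hM
      exact Subgroup.pow_index_mem M y
    have hcop : Nat.Coprime m M.index := ((Nat.Prime.coprime_iff_not_dvd hr).2 hm).symm
    apply hy
    have hb := Nat.gcd_eq_gcd_ab m M.index
    rw [hcop.gcd_eq_one] at hb
    have : y = (y ^ m) ^ (Nat.gcdA m M.index) * (y ^ M.index) ^ (Nat.gcdB m M.index) := by
      rw [← zpow_natCast y m, ← zpow_natCast y M.index, ← zpow_mul, ← zpow_mul, ← zpow_add, ← hb]
      simp
    rw [this]
    exact M.mul_mem (M.zpow_mem hmem _) (M.zpow_mem h1 _)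
  · rw [← pow_mul, mul_comm, ← hfac]
    exact pow_orderOf_eq_one y

end SolPM

open SolPM in
theorem solPStmt : SolPStmt := by
  intro H _ _ hsol C hcyc hprd
  have key : ∀ (n : ℕ) (U : Subgroup H), Nat.card U = n → C U := by
    intro n
    induction n using Nat.strong_induction_on with
    | _ n ih =>
      intro U hn
      rcases subsingleton_or_nontrivial U with hss | hnt
      · refine hcyc U 2 Nat.prime_two ?_ ?_
        · infer_instance
        · intro g
          exact ⟨0, Subsingleton.elim _ _⟩
      · haveI := hsol
        obtain ⟨M, hMn, hMi⟩ := exists_prime_index (Nat.card U) U rfl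
          (inferInstance : Group.IsSolvable U) hnt
        obtain ⟨x, hxM, k, hxk⟩ := exists_rel M hMn hMi
        haveI := hMn
        have hcardM : Nat.card (M.map U.subtype) = Nat.card M :=
          Subgroup.card_map_of_injective U.subtype_injective
        have hlt : Nat.card (M.map U.subtype) < n := by
          rw [hcardM, ← hn, ← M.card_mul_index]
          have h2 := hMi.one_lt
          have h3 : 0 < Nat.card M := Nat.card_pos
          nlinarith
        have hA : C (M.map U.subtype) := ih _ hlt _ rfl
        have hB : C (Subgroup.zpowers (x : H)) := by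
          refine hcyc _ M.index hMi inferInstance ?_
          rintro ⟨g, hg⟩
          obtain ⟨j, rfl⟩ := Subgroup.mem_zpowers_iff.1 hg
          refine ⟨k, ?_⟩
          apply Subtype.ext
          have hxk' : (x : H) ^ M.index ^ k = 1 := by
            have := congrArg (fun t : U => (t : H)) hxk
            simpa using this
          show ((x : H) ^ j) ^ M.index ^ k = 1
          rw [← zpow_natCast, ← zpow_mul, mul_comm, zpow_mul, zpow_natCast, hxk', one_zpow]
        refine hprd U _ _ ?_ ?_ hA hB ?_
        · exact Subgroup.map_subtype_le M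
        · rw [Subgroup.zpowers_le]
          exact x.2
        · intro u hu
          -- the quotient U / M is generated by the image of x
          have hcardq : Nat.card (U ⧸ M) = M.index := rfl
          haveI : Fact (M.index).Prime := ⟨hMi⟩
          have hne : (QuotientGroup.mk' M x) ≠ 1 := by
            intro h
            exact hxM ((QuotientGroup.eq_one_iff x).1 h)
          have hgen : ∀ q : U ⧸ M, q ∈ Subgroup.zpowers (QuotientGroup.mk' M x) := by
            intro q
            exact mem_zpowers_of_prime_card (p := M.index) hcardq hne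
          obtain ⟨j, hj⟩ := Subgroup.mem_zpowers_iff.1 (hgen (QuotientGroup.mk' M ⟨u, hu⟩))
          refine ⟨((⟨u, hu⟩ * x ^ (-j) : U) : H), ?_, (x : H) ^ j, ?_, ?_⟩
          · refine Subgroup.mem_map.2 ⟨⟨u, hu⟩ * x ^ (-j), ?_, rfl⟩
            rw [← QuotientGroup.eq_one_iff]
            have : ((⟨u, hu⟩ * x ^ (-j) : U) : U ⧸ M) = QuotientGroup.mk' M ⟨u, hu⟩ *
                (QuotientGroup.mk' M x) ^ (-j) := by
              rw [← map_zpow, ← map_mul]
              rfl
            rw [this, ← hj]
            group
          · exact Subgroup.zpow_mem_zpowers _ j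
          · simp
  exact key _ ⊤ rfl

end Pool.Agent.Lib.MP_de73ed_al_H
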