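import Pool.Agent.Lib.MP_de73ed_al_H.Spec

set_option linter.all false
set_option autoImplicit false

/-! Module Sub: passing to a subgroup above the socle. -/

namespace Pool.Agent.Lib.MP_de73ed_al_H

open Pool.Agent.Lib.MP_de73ed_al

namespace SubM

theorem ex_lift {A B C : Type} [Group A] [Group B] [Group C] (f : A →* B)
    (hf : Function.Surjective f) (g : A →* C) (h : f.ker ≤ g.ker) :
    ∃ φ : B →* C, ∀ a, φ (f a) = g a :=
  ⟨f.liftOfSurjective hf ⟨g, h⟩, fun a => MonoidHom.liftOfRightInverse_comp_apply f _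
    (Function.rightInverse_surjInv hf) ⟨g, h⟩ a⟩

/-- The permutations of the cosets. -/
theorem perm_one {G : Type} [Group G] (H : Subgroup G) (x : G) :
    MulAction.toPermHom G (G ⧸ H) x = 1 ↔ ∀ h : G, h⁻¹ * x * h ∈ H := by
  constructor
  · intro hx h
    have h1 : x • (h : G ⧸ H) = (h : G ⧸ H) := by
      have h2 := congrArg (fun p : Equiv.Perm (G ⧸ H) => p (h : G ⧸ H)) hx
      exact h2
    have h3 : ((x * h : G) : G ⧸ H) = (h : G ⧸ H) := h1
    have h4 := QuotientGroup.eq.1 h3.symm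
    rw [mul_assoc]
    exact h4
  · intro hx
    apply Equiv.ext
    intro q
    induction q using QuotientGroup.induction_on with
    | H h =>
      change ((x * h : G) : G ⧸ H) = (h : G ⧸ H)
      symm
      apply QuotientGroup.eq.2
      rw [← mul_assoc]
      exact hx h

section

variable {G : Type} [Group G] (S B : Subgroup G) (g : G)

/-- The conjugate `g S g⁻¹`, as a subgroup of `B`. -/
def SB : Subgroup B := S.comap ((MulAut.conj g⁻¹).toMonoidHom.comp B.subtype)

theorem mem_SB (b : B) : b ∈ SB S B g ↔ g⁻¹ * (b : G) * g ∈ S := by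
  unfold SB
  rw [Subgroup.mem_comap]
  change g⁻¹ * (b : G) * g⁻¹⁻¹ ∈ S ↔ _
  rw [inv_inv]

variable {S B}

theorem conj_mem (hB : Subgroup.normalClosure (S : Set G) ≤ B) {s : G} (hs : s ∈ S) :
    g * s * g⁻¹ ∈ B :=
  hB (Subgroup.normalClosure_normal.conj_mem s (Subgroup.subset_normalClosure hs) g)

/-- The isomorphism `S ≃ g S g⁻¹`. -/
def eS (hB : Subgroup.normalClosure (S : Set G) ≤ B) : S ≃* SB S B g where
  toFun s := ⟨⟨g * s * g⁻¹, conj_mem g hB s.2⟩, by
    rw [mem_SB]
    change g⁻¹ * (g * s * g⁻¹) * g ∈ S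
    have : g⁻¹ * (g * s * g⁻¹) * g = s := by group
    rw [this]
    exact s.2⟩
  invFun x := ⟨g⁻¹ * ((x : B) : G) * g, (mem_SB S B g x).1 x.2⟩
  left_inv s := by
    apply Subtype.ext
    change g⁻¹ * (g * s * g⁻¹) * g = s
    group
  right_inv x := by
    apply Subtype.ext
    apply Subtype.ext
    change g * (g⁻¹ * ((x : B) : G) * g) * g⁻¹ = ((x : B) : G)
    group
  map_mul' s t := by
    apply Subtype.ext
    apply Subtype.ext
    change g * (s * t) * g⁻¹ = (g * s * g⁻¹) * (g * t * g⁻¹)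
    group

theorem eS_coe (hB : Subgroup.normalClosure (S : Set G) ≤ B) (s : S) :
    ((eS g hB s : B) : G) = g * s * g⁻¹ := rfl

theorem eS_symm_coe (hB : Subgroup.normalClosure (S : Set G) ≤ B) (x : SB S B g) :
    ((eS g hB).symm x : G) = g⁻¹ * ((x : B) : G) * g := rfl

theorem norm_iff [Finite G] (hB : Subgroup.normalClosure (S : Set G) ≤ B) (b : B) :
    b ∈ Subgroup.normalizer (SB S B g : Set B) ↔
      g⁻¹ * (b : G) * g ∈ Subgroup.normalizer (S : Set G) := by
  constructor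
  · intro h
    apply Subgroup.mem_normalizer_fintype
    intro s hs
    rw [SetLike.mem_coe] at hs
    have h1 := (Subgroup.mem_normalizer_iff.1 h (eS g hB ⟨s, hs⟩ : B)).1 (eS g hB ⟨s, hs⟩).2
    rw [mem_SB] at h1
    have h2 : g⁻¹ * (b : G) * g * s * (g⁻¹ * (b : G) * g)⁻¹ =
        g⁻¹ * ((b * (eS g hB ⟨s, hs⟩ : B) * b⁻¹ : B) : G) * g := by
      change _ = g⁻¹ * ((b : G) * (g * s * g⁻¹) * (b : G)⁻¹) * g
      group
    rw [h2]
    exact h1
  · intro h
    apply Subgroup.mem_normalizer_fintype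
    intro x hx
    rw [SetLike.mem_coe, mem_SB] at hx
    rw [SetLike.mem_coe, mem_SB]
    have h1 := (Subgroup.mem_normalizer_iff.1 h _).1 hx
    have h2 : g⁻¹ * ((b * x * b⁻¹ : B) : G) * g =
        g⁻¹ * (b : G) * g * (g⁻¹ * (x : G) * g) * (g⁻¹ * (b : G) * g)⁻¹ := by
      change g⁻¹ * ((b : G) * (x : G) * (b : G)⁻¹) * g = _
      group
    rw [h2]
    exact h1

theorem conjComm (hS : IsComp S) : ConjComm (SB S B g) := by
  intro b
  rcases hS.conj (g⁻¹ * (b : G) * g) with h | h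
  · left
    intro s hs
    rw [mem_SB] at hs ⊢
    have h1 := h _ hs
    have h2 : g⁻¹ * ((b * s * b⁻¹ : B) : G) * g =
        g⁻¹ * (b : G) * g * (g⁻¹ * (s : G) * g) * (g⁻¹ * (b : G) * g)⁻¹ := by
      change g⁻¹ * ((b : G) * (s : G) * (b : G)⁻¹) * g = _
      group
    rw [h2]
    exact h1
  · right
    intro s hs t ht
    rw [mem_SB] at hs ht
    have h1 := h _ hs _ ht
    apply Subtype.ext
    change (b : G) * (s : G) * (b : G)⁻¹ * (t : G) = (t : G) * ((b : G) * (s : G) * (b : G)⁻¹)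
    have h2 : (b : G) * (s : G) * (b : G)⁻¹ * (t : G) =
        g * (g⁻¹ * (b : G) * g * (g⁻¹ * (s : G) * g) * (g⁻¹ * (b : G) * g)⁻¹ *
          (g⁻¹ * (t : G) * g)) * g⁻¹ := by group
    rw [h2, h1]
    group

theorem nonAb (hB : Subgroup.normalClosure (S : Set G) ≤ B) (hS : NonAb S) :
    NonAb (SB S B g) := by
  intro h
  apply hS
  intro a ha b hb
  have h1 := h _ (eS g hB ⟨a, ha⟩).2 _ (eS g hB ⟨b, hb⟩).2
  have h2 : eS g hB (⟨a, ha⟩ * ⟨b, hb⟩) = eS g hB (⟨b, hb⟩ * ⟨a, ha⟩) := by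
    apply Subtype.ext
    rw [map_mul, map_mul]
    exact h1
  exact congrArg Subtype.val ((eS g hB).injective h2)

variable (S B)

/-- The core of the centralizer of `g S g⁻¹` in `B`. -/
def KB : Subgroup B := (Subgroup.centralizer (SB S B g : Set B)).normalCore

instance : (KB S B g).Normal := by
  unfold KB
  infer_instance

/-- The image of `g S g⁻¹` in `B / K g`. -/
def TB : Subgroup (B ⧸ KB S B g) := (SB S B g).map (QuotientGroup.mk' (KB S B g))

theorem mem_KB (b : B) : b ∈ KB S B g ↔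
    ∀ c : B, ∀ x ∈ SB S B g, x * (c * b * c⁻¹) = (c * b * c⁻¹) * x := by
  constructor
  · intro h c x hx
    have h1 : c * b * c⁻¹ ∈ Subgroup.centralizer (SB S B g : Set B) := h c
    exact Subgroup.mem_centralizer_iff.1 h1 x hx
  · intro h c
    exact Subgroup.mem_centralizer_iff.2 (fun x hx => h c x hx)

end

/-- Two conjugates of `S` commute or the first one is contained in the second one. -/
theorem two {G : Type} [Group G] {S : Subgroup G} (hS : IsComp S) (a c : G) :
    (∀ s ∈ S, a⁻¹ * (c * s * c⁻¹) * a ∈ S) ∨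
      ∀ s ∈ S, ∀ t ∈ S, (c * s * c⁻¹) * (a * t * a⁻¹) = (a * t * a⁻¹) * (c * s * c⁻¹) := by
  rcases hS.conj (a⁻¹ * c) with h | h
  · left
    intro s hs
    have h1 := h s hs
    have h2 : a⁻¹ * (c * s * c⁻¹) * a = a⁻¹ * c * s * (a⁻¹ * c)⁻¹ := by group
    rw [h2]
    exact h1
  · right
    intro s hs t ht
    have h1 := h s hs t ht
    have h2 : (c * s * c⁻¹) * (a * t * a⁻¹) =
        a * (a⁻¹ * c * s * (a⁻¹ * c)⁻¹ * t) * a⁻¹ := by group
    rw [h2, h1]
    group

/-- The normal closure of `S` is mapped into the normal closure of `T g`. -/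
theorem image {G : Type} [Group G] {S B : Subgroup G} (hS : IsComp S)
    (hB : Subgroup.normalClosure (S : Set G) ≤ B) (g : G) (b : B)
    (hb : (b : G) ∈ Subgroup.normalClosure (S : Set G)) :
    QuotientGroup.mk' (KB S B g) b ∈
      Subgroup.normalClosure (TB S B g : Set (B ⧸ KB S B g)) := by
  have key : Subgroup.normalClosure (S : Set G) ≤
      ((Subgroup.normalClosure (TB S B g : Set (B ⧸ KB S B g))).comap
        (QuotientGroup.mk' (KB S B g))).map B.subtype := by
    rw [Subgroup.normalClosure, Subgroup.closure_le]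
    intro x hx
    obtain ⟨s, hs, hsx⟩ := Group.mem_conjugatesOfSet_iff.1 hx
    obtain ⟨h, rfl⟩ := isConj_iff.1 hsx
    have hxB : h * s * h⁻¹ ∈ B := conj_mem h hB hs
    refine ⟨⟨h * s * h⁻¹, hxB⟩, ?_, rfl⟩
    rw [SetLike.mem_coe, Subgroup.mem_comap]
    by_cases hc : ∃ c : B, ∀ s ∈ S, ((c : G) * g)⁻¹ * (h * s * h⁻¹) * ((c : G) * g) ∈ S
    · obtain ⟨c, hc⟩ := hc
      have h1 := hc s hs
      -- c⁻¹ x c is in SB
      have h2 : c⁻¹ * ⟨h * s * h⁻¹, hxB⟩ * c ∈ SB S B g := by
        rw [mem_SB]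
        have h3 : g⁻¹ * ((c⁻¹ * ⟨h * s * h⁻¹, hxB⟩ * c : B) : G) * g =
            ((c : G) * g)⁻¹ * (h * s * h⁻¹) * ((c : G) * g) := by
          change g⁻¹ * ((c : G)⁻¹ * (h * s * h⁻¹) * (c : G)) * g = _
          group
        rw [h3]
        exact h1
      have h4 : QuotientGroup.mk' (KB S B g) (c⁻¹ * ⟨h * s * h⁻¹, hxB⟩ * c) ∈
          Subgroup.normalClosure (TB S B g : Set (B ⧸ KB S B g)) :=
        Subgroup.subset_normalClosure ⟨_, h2, rfl⟩
      have h5 := (Subgroup.normalClosure_normal (s := (TB S B g : Set (B ⧸ KB S B g)))).conj_mem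
        _ h4 (QuotientGroup.mk' (KB S B g) c)
      have h6 : QuotientGroup.mk' (KB S B g) c *
          QuotientGroup.mk' (KB S B g) (c⁻¹ * ⟨h * s * h⁻¹, hxB⟩ * c) *
          (QuotientGroup.mk' (KB S B g) c)⁻¹ =
          QuotientGroup.mk' (KB S B g) ⟨h * s * h⁻¹, hxB⟩ := by
        rw [← map_mul, ← map_inv, ← map_mul]
        congr 1
        group
      rw [h6] at h5
      exact h5
    · have hK : (⟨h * s * h⁻¹, hxB⟩ : B) ∈ KB S B g := by
        rw [mem_KB]
        intro c x hx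
        rw [mem_SB] at hx
        -- the conjugates `c h S h⁻¹ c⁻¹` and `g S g⁻¹` commute
        rcases two hS ((c⁻¹ : B) * g : G) h with h1 | h1
        · exact absurd ⟨c⁻¹, h1⟩ hc
        · have h2 := h1 s hs _ hx
          apply Subtype.ext
          change (x : G) * ((c : G) * (h * s * h⁻¹) * (c : G)⁻¹) =
            ((c : G) * (h * s * h⁻¹) * (c : G)⁻¹) * (x : G)
          have h3 : ((c⁻¹ : B) : G) = (c : G)⁻¹ := rfl
          rw [h3] at h2
          have h4 : ((c : G)⁻¹ * g) * (g⁻¹ * (x : G) * g) * ((c : G)⁻¹ * g)⁻¹ =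
            (c : G)⁻¹ * (x : G) * (c : G) := by group
          rw [h4] at h2
          have h5 : ((c : G) * (h * s * h⁻¹) * (c : G)⁻¹) * (x : G) =
              (c : G) * (h * s * h⁻¹ * ((c : G)⁻¹ * (x : G) * (c : G))) * (c : G)⁻¹ := by group
          rw [h5, h2]
          group
      have h1 : QuotientGroup.mk' (KB S B g) ⟨h * s * h⁻¹, hxB⟩ = 1 := by
        rw [QuotientGroup.mk'_apply, QuotientGroup.eq_one_iff]
        exact hK
      rw [h1]
      exact Subgroup.one_mem _
  obtain ⟨b', hb', h1⟩ := key hb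
  have h2 : b' = b := Subtype.ext h1
  rw [← h2]
  exact hb'

/-- The automorphisms induced by `B` on `g S g⁻¹` come from automorphisms of `S`. -/
theorem autE {G : Type} [Group G] [Finite G] {S B : Subgroup G}
    (hB : Subgroup.normalClosure (S : Set G) ≤ B) (g : G) :
    ∃ ψ : AutG (SB S B g) →* AutG S, Function.Injective ψ := by
  have hin : ∀ a : AutG (SB S B g), MulAut.congr (eS g hB).symm (a : MulAut (SB S B g)) ∈
      AutG S := by
    rintro ⟨_, ⟨b, rfl⟩⟩
    refine ⟨⟨g⁻¹ * ((b : B) : G) * g, (norm_iff g hB b).1 b.2⟩, ?_⟩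
    apply MulEquiv.ext
    intro s
    apply Subtype.ext
    change (g⁻¹ * ((b : B) : G) * g) * (s : G) * (g⁻¹ * ((b : B) : G) * g)⁻¹ =
      g⁻¹ * (((b : B) : G) * (g * s * g⁻¹) * ((b : B) : G)⁻¹) * g
    group
  refine ⟨((MulAut.congr (eS g hB).symm).toMonoidHom.comp (AutG (SB S B g)).subtype).codRestrict
    (AutG S) hin, ?_⟩
  intro a b hab
  have h1 : MulAut.congr (eS g hB).symm (a : MulAut (SB S B g)) =
      MulAut.congr (eS g hB).symm (b : MulAut (SB S B g)) := congrArg Subtype.val hab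
  exact Subtype.ext ((MulAut.congr (eS g hB).symm).injective h1)

end SubM

open SubM in
theorem subStmt : SocStmt → QuoStmt → SubStmt := by
  intro _ hQuo G _ _ S B hS hB
  haveI := hS.simple
  have hsimp : ∀ g, IsSimpleGroup (SB S B g) := fun g => (eS g hB).symm.isSimpleGroup
  have hQ := fun g : G => hQuo B (SB S B g) (KB S B g) (hsimp g) (nonAb g hB hS.nonab)
    (conjComm g hS) rfl
  -- the map on permutations
  have hker : ∀ g : G, ((MulAction.toPermHom G (G ⧸ Subgroup.normalizer (S : Set G))).subgroupMap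
      B).ker ≤ ((MulAction.toPermHom (B ⧸ KB S B g) ((B ⧸ KB S B g) ⧸
        Subgroup.normalizer (TB S B g : Set (B ⧸ KB S B g)))).rangeRestrict.comp
          (QuotientGroup.mk' (KB S B g))).ker := by
    intro g b hb
    rw [MonoidHom.mem_ker] at hb ⊢
    have h1 : MulAction.toPermHom G (G ⧸ Subgroup.normalizer (S : Set G)) (b : G) = 1 :=
      congrArg Subtype.val hb
    rw [perm_one] at h1
    apply Subtype.ext
    change MulAction.toPermHom (B ⧸ KB S B g) ((B ⧸ KB S B g) ⧸
        Subgroup.normalizer (TB S B g : Set (B ⧸ KB S B g))) (QuotientGroup.mk' (KB S B g) b) = 1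
    rw [perm_one]
    intro h
    obtain ⟨c, rfl⟩ := QuotientGroup.mk'_surjective (KB S B g) h
    rw [← map_inv, ← map_mul, ← map_mul]
    apply ((hQ g).2.2.1 (c⁻¹ * b * c)).2
    rw [norm_iff g hB]
    have h2 := h1 ((c : G) * g)
    have h3 : g⁻¹ * ((c⁻¹ * b * c : B) : G) * g = ((c : G) * g)⁻¹ * (b : G) * ((c : G) * g) := by
      change g⁻¹ * ((c : G)⁻¹ * (b : G) * (c : G)) * g = _
      group
    rw [h3]
    exact h2
  have hρ := fun g : G => ex_lift _ (MonoidHom.subgroupMap_surjective _ B) _ (hker g)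
  choose ρ hρ' using hρ
  refine ⟨KB S B, fun g => inferInstance, TB S B, ρ, ?_, ?_, ?_⟩
  · intro b hb
    have h1 : (b : G) ∈ (Subgroup.centralizer (S : Set G)).normalCore := by
      intro h
      apply Subgroup.mem_centralizer_iff.2
      intro s hs
      rw [SetLike.mem_coe] at hs
      have h2 := (mem_KB S B h⁻¹ b).1 (hb h⁻¹) 1 _ (eS h⁻¹ hB ⟨s, hs⟩).2
      have h3 := congrArg Subtype.val h2
      change (h⁻¹ * s * h⁻¹⁻¹) * (1 * (b : G) * 1⁻¹) = 1 * (b : G) * 1⁻¹ * (h⁻¹ * s * h⁻¹⁻¹) at h3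
      rw [inv_inv, one_mul, inv_one, mul_one] at h3
      have h4 : s * (h * (b : G) * h⁻¹) = h * (h⁻¹ * s * h * (b : G)) * h⁻¹ := by group
      rw [h4, h3]
      group
    rw [hS.cent, Subgroup.mem_bot] at h1
    exact Subtype.ext h1
  · intro x hx
    obtain ⟨b, rfl⟩ := MonoidHom.subgroupMap_surjective _ B x
    apply Subtype.ext
    change MulAction.toPermHom G (G ⧸ Subgroup.normalizer (S : Set G)) (b : G) = 1
    rw [perm_one]
    intro g
    have h1 := hx g
    rw [hρ'] at h1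
    have h2 : MulAction.toPermHom (B ⧸ KB S B g) ((B ⧸ KB S B g) ⧸
        Subgroup.normalizer (TB S B g : Set (B ⧸ KB S B g))) (QuotientGroup.mk' (KB S B g) b) = 1 :=
      congrArg Subtype.val h1
    rw [perm_one] at h2
    have h3 := h2 1
    rw [inv_one, one_mul, mul_one] at h3
    exact (norm_iff g hB b).1 (((hQ g).2.2.1 b).1 h3)
  · intro g
    refine ⟨(hQ g).1, ?_, ?_, ?_, ?_⟩
    · obtain ⟨e⟩ := (hQ g).2.1
      exact ⟨e.trans (eS g hB).symm⟩
    · intro y
      obtain ⟨b, hb⟩ := MonoidHom.rangeRestrict_surjective _ y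
      obtain ⟨c, rfl⟩ := QuotientGroup.mk'_surjective (KB S B g) b
      exact ⟨_, (hρ' g c).trans hb⟩
    · have hk : ((QuotientGroup.mk' (Subgroup.normalClosure (S : Set G))).subgroupMap B).ker ≤
          ((QuotientGroup.mk' (Subgroup.normalClosure (TB S B g : Set (B ⧸ KB S B g)))).comp
            (QuotientGroup.mk' (KB S B g))).ker := by
        intro b hb
        rw [MonoidHom.mem_ker] at hb ⊢
        have h1 : QuotientGroup.mk' (Subgroup.normalClosure (S : Set G)) (b : G) = 1 :=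
          congrArg Subtype.val hb
        rw [QuotientGroup.mk'_apply, QuotientGroup.eq_one_iff] at h1
        have h2 := image hS hB g b h1
        change QuotientGroup.mk' (Subgroup.normalClosure (TB S B g : Set (B ⧸ KB S B g)))
          (QuotientGroup.mk' (KB S B g) b) = 1
        rw [QuotientGroup.mk'_apply, QuotientGroup.eq_one_iff]
        exact h2
      obtain ⟨φ, hφ⟩ := ex_lift _ (MonoidHom.subgroupMap_surjective _ B) _ hk
      refine ⟨B.map (QuotientGroup.mk' (Subgroup.normalClosure (S : Set G))), φ, ?_⟩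
      intro q
      obtain ⟨a, rfl⟩ := QuotientGroup.mk'_surjective _ q
      obtain ⟨b, rfl⟩ := QuotientGroup.mk'_surjective _ a
      exact ⟨_, hφ b⟩
    · obtain ⟨ψ₁, h1⟩ := (hQ g).2.2.2
      obtain ⟨ψ₂, h2⟩ := autE hB g
      exact ⟨ψ₂.comp ψ₁, h2.comp h1⟩

end Pool.Agent.Lib.MP_de73ed_al_H
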