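import Pool.Agent.Lib.MP_de73ed_al_H.Spec

set_option linter.all false

/-!
Sufficiency of (a), (b), (c): they imply (iii).
-/

namespace Pool.Agent.Lib.MP_de73ed_al_H

open Pool.Agent.Lib.MP_de73ed_al

namespace SuffAM

/-- Transport along an isomorphism. -/
theorem iso {F : GrpClass} (hF : IsFormation F) {G H : Type} [Group G] [Group H] (e : G ≃* H)
    (h : F G) : F H :=
  hF.quot G H e.toMonoidHom e.surjective h

theorem sub_le {F : GrpClass} (hF : IsFormation F) (hS : SubClosed F) {G : Type} [Group G]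
    {A B : Subgroup G} (hAB : A ≤ B) (h : F B) : F A :=
  iso hF (Subgroup.subgroupOfEquivOfLe hAB) (hS B (A.subgroupOf B) h)

theorem comp_iso (hComp : CompStmt) {J : GrpClass} (hJ : IsoClosed J) {G H : Type} [Group G]
    [Group H] (e : G ≃* H) (h : CompIn J G) : CompIn J H :=
  (hComp J hJ).1 G H e.toMonoidHom e.surjective h

/-- The permutation group is an image of `G / N`. -/
theorem perm_F {F : GrpClass} (hF : IsFormation F) (hSoc : SocStmt) (G : Type) [Group G]
    [Finite G] (S : Subgroup G) (hS : IsComp S)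
    (hQ : F (G ⧸ Subgroup.normalClosure (S : Set G))) : F (PermG S) := by
  have h1 := (hSoc.2 G S hS).1
  have h2 : ∀ n ∈ Subgroup.normalClosure (S : Set G), n ∈ Subgroup.normalizer (S : Set G) := by
    intro n hn
    rw [Subgroup.mem_normalizer_iff]
    intro h
    refine ⟨fun hh => h1 n hn h hh, fun hh => ?_⟩
    have h3 := h1 n⁻¹ (inv_mem hn) _ hh
    have h4 : n⁻¹ * (n * h * n⁻¹) * n⁻¹⁻¹ = h := by group
    rwa [h4] at h3
  have hk : ∀ n ∈ Subgroup.normalClosure (S : Set G),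
      (MulAction.toPermHom G (G ⧸ Subgroup.normalizer (S : Set G))).rangeRestrict n = 1 := by
    intro n hn
    apply Subtype.ext
    apply Equiv.ext
    intro x
    obtain ⟨g, rfl⟩ := QuotientGroup.mk_surjective x
    change ((n * g : G) : G ⧸ Subgroup.normalizer (S : Set G)) = (g : G)
    rw [QuotientGroup.eq]
    apply h2
    have h3 : (n * g)⁻¹ * g = g⁻¹ * n⁻¹ * g⁻¹⁻¹ := by group
    rw [h3]
    exact Subgroup.normalClosure_normal.conj_mem _ (inv_mem hn) _
  refine hF.quot _ _ (QuotientGroup.lift _ _ hk) ?_ hQ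
  apply QuotientGroup.lift_surjective_of_surjective
  exact MonoidHom.rangeRestrict_surjective _

/-- (β) -/
theorem beta (hPB : PBmStmt) (hAS : ASStmt) (hKA : KAStmt) (hComp : CompStmt) (hSoc : SocStmt)
    {F : GrpClass} (hF : IsFormation F) (hS : SubClosed F) (hA : CondA F) (hB : CondB F)
    (G : Type) [Group G] [Finite G] (S B C : Subgroup G) (hIC : IsComp S)
    (hQ : F (G ⧸ Subgroup.normalClosure (S : Set G)))
    (hNB : Subgroup.normalClosure (S : Set G) ≤ B) (hNC : Subgroup.normalClosure (S : Set G) ≤ C)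
    (hFB : F B) (hFC : F C) (hP : Prd B C) : CompIn (Wrc F S) (PermG S) := by
  obtain ⟨_, hK2, hK3, hK4⟩ := hKA F hF hS S
  have hSB : S ≤ B := Subgroup.le_normalClosure.trans hNB
  have hFS : F S := sub_le hF hS hSB hFB
  have hJ : IsoClosed (Wrc F S) := fun X Y _ _ e h => hK3 X Y e.toMonoidHom e.surjective h
  have hfin : ∀ (G : Type) [Group G], Wrc F S G → Finite G := fun G _ h => hF.finite G (hK4 G h).1
  have hin : ∀ (G : Type) [Group G], Wrc F S G → CompIn (Wrc F S) G :=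
    (hComp (Wrc F S) hJ).2.2.2.2.2.2.2.1 hfin hK2 hK3
  have hher : HerJ (Wrc F S) := fun T _ _ hT U => hin U (hK2 T U hT)
  have hna : ¬ ∀ a b : S, a * b = b * a := fun h =>
    hIC.nonab fun a ha b hb => congrArg Subtype.val (h ⟨a, ha⟩ ⟨b, hb⟩)
  have hfact := hB S hIC.simple hna hFS
  have hperm := perm_F hF hSoc G S hIC hQ
  have hBm := hPB F hF hS hA G S B hIC hQ hNB hFB
  have hCm := hPB F hF hS hA G S C hIC hQ hNC hFC
  have hle : ∀ D : Subgroup G, PermB S D ≤ PermG S := by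
    rintro D _ ⟨g, _, rfl⟩
    exact ⟨g, rfl⟩
  refine hAS F hF hS (Wrc F S) hJ hher hfact (PermG S) hperm
    ((PermB S B).subgroupOf (PermG S)) ((PermB S C).subgroupOf (PermG S))
    (comp_iso hComp hJ (Subgroup.subgroupOfEquivOfLe (hle B)).symm hBm)
    (comp_iso hComp hJ (Subgroup.subgroupOfEquivOfLe (hle C)).symm hCm) ?_
  rintro ⟨_, g, rfl⟩
  obtain ⟨b, hb, c, hc, rfl⟩ := hP g
  exact ⟨⟨_, b, rfl⟩, ⟨b, hb, rfl⟩, ⟨_, c, rfl⟩, ⟨c, hc, rfl⟩, Subtype.ext (map_mul _ b c)⟩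

/-- Products in `A / T`. -/
theorem prodStep {F : GrpClass} (hF : IsFormation F) (hS : SubClosed F) (hC : CondC F) {A : Type}
    [Group A] [Finite A] (T : Subgroup A) [T.Normal] (hT : IsSoc T) (hQ : F (A ⧸ T))
    (U V W : Subgroup (A ⧸ T)) (hVU : V ≤ U) (hWU : W ≤ U)
    (hV : F (V.comap (QuotientGroup.mk' T))) (hW : F (W.comap (QuotientGroup.mk' T)))
    (hp : ∀ u ∈ U, ∃ a ∈ V, ∃ b ∈ W, u = a * b) : F (U.comap (QuotientGroup.mk' T)) := by
  have hle : ∀ X : Subgroup (A ⧸ T), T ≤ X.comap (QuotientGroup.mk' T) := by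
    intro X t ht
    have h1 : QuotientGroup.mk' T t = 1 := (QuotientGroup.eq_one_iff t).2 ht
    rw [Subgroup.mem_comap, h1]
    exact one_mem _
  have hTU := hle U
  have hVU' : V.comap (QuotientGroup.mk' T) ≤ U.comap (QuotientGroup.mk' T) :=
    Subgroup.comap_mono hVU
  have hWU' : W.comap (QuotientGroup.mk' T) ≤ U.comap (QuotientGroup.mk' T) :=
    Subgroup.comap_mono hWU
  haveI := hT.simple
  have hsoc : IsSoc (T.subgroupOf (U.comap (QuotientGroup.mk' T))) := by
    refine ⟨inferInstance, (Subgroup.subgroupOfEquivOfLe hTU).isSimpleGroup, ?_, ?_⟩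
    · intro h
      refine hT.nonab fun a ha b hb => ?_
      exact congrArg Subtype.val (h ⟨a, hTU ha⟩ ha ⟨b, hTU hb⟩ hb)
    · rw [eq_bot_iff]
      rintro ⟨x, hx⟩ hxc
      have h1 : x ∈ Subgroup.centralizer (T : Set A) := by
        rw [Subgroup.mem_centralizer_iff]
        intro t ht
        exact congrArg Subtype.val (Subgroup.mem_centralizer_iff.1 hxc ⟨t, hTU ht⟩ ht)
      rw [hT.cent, Subgroup.mem_bot] at h1
      rw [Subgroup.mem_bot]
      exact Subtype.ext h1
  have hquot : F (U.comap (QuotientGroup.mk' T) ⧸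
      T.subgroupOf (U.comap (QuotientGroup.mk' T))) := by
    have hker : ((QuotientGroup.mk' T).comp (U.comap (QuotientGroup.mk' T)).subtype).ker =
        T.subgroupOf (U.comap (QuotientGroup.mk' T)) := by
      rw [← MonoidHom.comap_ker, QuotientGroup.ker_mk']
      rfl
    refine iso hF ((QuotientGroup.quotientKerEquivRange
      ((QuotientGroup.mk' T).comp (U.comap (QuotientGroup.mk' T)).subtype)).symm.trans
      (QuotientGroup.quotientMulEquivOfEq hker)) ?_
    exact hS _ _ hQ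
  refine (hC (U.comap (QuotientGroup.mk' T)) (T.subgroupOf _) hsoc hquot).1
    ((V.comap (QuotientGroup.mk' T)).subgroupOf _) ((W.comap (QuotientGroup.mk' T)).subgroupOf _)
    (fun x hx => hle V hx) (fun x hx => hle W hx)
    (iso hF (Subgroup.subgroupOfEquivOfLe hVU').symm hV)
    (iso hF (Subgroup.subgroupOfEquivOfLe hWU').symm hW) ?_
  rintro ⟨x, hx⟩
  obtain ⟨a, ha, b, hb, hab⟩ := hp _ hx
  obtain ⟨a', rfl⟩ := QuotientGroup.mk_surjective a
  have hb' : QuotientGroup.mk' T (a'⁻¹ * x) ∈ W := by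
    have h1 : QuotientGroup.mk' T (a'⁻¹ * x) = b := by
      rw [map_mul, map_inv, hab]
      exact inv_mul_cancel_left _ _
    rw [h1]
    exact hb
  refine ⟨⟨a', hVU ha⟩, ha, ⟨a'⁻¹ * x, hWU hb'⟩, hb', Subtype.ext ?_⟩
  exact (mul_inv_cancel_left a' x).symm

/-- Cyclic groups. -/
theorem cycStep (hSA : SA1Stmt) {F : GrpClass} (hF : IsFormation F) (hS : SubClosed F)
    (hA : CondA F) (hC : CondC F)
    (G : Type) [Group G] [Finite G] (S B C : Subgroup G) (hIC : IsComp S)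
    (hQ : F (G ⧸ Subgroup.normalClosure (S : Set G)))
    (hNB : Subgroup.normalClosure (S : Set G) ≤ B) (hNC : Subgroup.normalClosure (S : Set G) ≤ C)
    (hFB : F B) (hFC : F C) (hP : Prd B C) [Finite (AutG S)] (T : Subgroup (AutG S)) [T.Normal]
    (hT : ∀ a : AutG S, a ∈ T → ∃ t : S, (a : MulAut S) = MulAut.conj t)
    (U : Subgroup (AutG S ⧸ T)) (r : ℕ) (hr : r.Prime) (hcyc : IsCyclic U) (hU : IsPGroup r U) :
    F (U.comap (QuotientGroup.mk' T)) := by
  obtain ⟨⟨u, hu⟩, hgen⟩ := hcyc.exists_generator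
  obtain ⟨a, rfl⟩ := QuotientGroup.mk_surjective u
  obtain ⟨_, g₁, rfl⟩ := a
  obtain ⟨e, he⟩ := hU ⟨_, hu⟩
  have hq0 : orderOf ((g₁ : G) : G ⧸ Subgroup.normalClosure (S : Set G)) ≠ 0 :=
    (orderOf_pos _).ne'
  obtain ⟨f, m, hm, hn⟩ := Nat.exists_eq_pow_mul_and_not_dvd hq0 r hr.ne_one
  have hcop : Nat.Coprime m (orderOf (⟨_, hu⟩ : U)) := by
    have h1 : orderOf (⟨_, hu⟩ : U) ∣ r ^ e := orderOf_dvd_of_pow_eq_one he
    refine Nat.Coprime.coprime_dvd_right h1 ?_
    exact Nat.Coprime.pow_right _ ((Nat.Prime.coprime_iff_not_dvd hr).2 hm).symm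
  obtain ⟨t, ht⟩ := exists_pow_eq_self_of_coprime hcop
  refine hSA F hF hS hA hC G S B C hIC hQ hNB hNC hFB hFC hP r hr (g₁ ^ m) ⟨f, ?_⟩
    (U.comap (QuotientGroup.mk' T)) ?_
  · have h1 : (((g₁ ^ m : Subgroup.normalizer (S : Set G)) : G)) ^ r ^ f =
        (g₁ : G) ^ (r ^ f * m) := by
      rw [Subgroup.coe_pow, ← pow_mul, mul_comm]
    rw [h1, ← hn, ← QuotientGroup.eq_one_iff, QuotientGroup.mk_pow]
    exact pow_orderOf_eq_one _
  · rintro ⟨x, hx⟩
    have h1 : (⟨QuotientGroup.mk' T x, hx⟩ : U) ∈ Submonoid.powers (⟨_, hu⟩ : U) :=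
      mem_powers_iff_mem_zpowers.2 (hgen _)
    obtain ⟨k, hk⟩ := h1
    have h2 := congrArg Subtype.val hk
    have h3 := congrArg Subtype.val ht
    have h4 : ((S.normalizerMonoidHom.rangeRestrict g₁ ^ (m * t * k) : AutG S) : AutG S ⧸ T) =
        (x : AutG S) := by
      rw [QuotientGroup.mk_pow, pow_mul, pow_mul]
      refine Eq.trans ?_ h2
      exact congrArg (· ^ k) h3
    have h5 := QuotientGroup.eq.1 h4
    obtain ⟨s, hs⟩ := hT _ h5
    refine ⟨t * k, s, ?_⟩
    have h6 : ((S.normalizerMonoidHom.rangeRestrict g₁ ^ (m * t * k) : AutG S) : MulAut S) =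
        S.normalizerMonoidHom (g₁ ^ m) ^ (t * k) := by
      rw [map_pow, ← pow_mul, ← mul_assoc]
      rfl
    rw [← h6, ← hs]
    change (x : MulAut S) = _ * ((_)⁻¹ * (x : MulAut S))
    exact (mul_inv_cancel_left _ _).symm

/-- (α) -/
theorem alpha (hSA : SA1Stmt) (hAut : AutSStmt) (hSol : SolPStmt)
    {F : GrpClass} (hF : IsFormation F) (hS : SubClosed F) (hA : CondA F) (hC : CondC F)
    (hO : OutSol F) (G : Type) [Group G] [Finite G] (S B C : Subgroup G) (hIC : IsComp S)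
    (hQ : F (G ⧸ Subgroup.normalClosure (S : Set G)))
    (hNB : Subgroup.normalClosure (S : Set G) ≤ B) (hNC : Subgroup.normalClosure (S : Set G) ≤ C)
    (hFB : F B) (hFC : F C) (hP : Prd B C) : F (AutG S) := by
  obtain ⟨T, hT, ⟨eT⟩, hmem, hq⟩ := hAut G S hIC
  haveI := hT.normal
  obtain ⟨U, φ, hφ⟩ := hq hT.normal
  have hSB : S ≤ B := Subgroup.le_normalClosure.trans hNB
  have hFS : F S := sub_le hF hS hSB hFB
  have hFT : F T := iso hF eT hFS
  have hFQ : F (AutG S ⧸ T) := hF.quot U _ φ hφ (hS _ U hQ)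
  haveI : Finite (MulAut S) :=
    Finite.of_injective (fun e : MulAut S => (e : S → S)) DFunLike.coe_injective
  have hsol : Group.IsSolvable (AutG S ⧸ T) := hO (AutG S) T hT hFT
  have key := hSol (AutG S ⧸ T) hsol (fun U => F (U.comap (QuotientGroup.mk' T)))
    (fun U r hr hc hp => cycStep hSA hF hS hA hC G S B C hIC hQ hNB hNC hFB hFC hP T
      (fun a ha => (hmem a).1 ha) U r hr hc hp)
    (fun U V W hVU hWU hV hW h => prodStep hF hS hC T hT hFQ U V W hVU hWU hV hW h)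
  have h1 : (⊤ : Subgroup (AutG S ⧸ T)).comap (QuotientGroup.mk' T) = ⊤ := Subgroup.comap_top _
  exact iso hF ((MulEquiv.subgroupCongr h1).trans Subgroup.topEquiv) key

end SuffAM

open SuffAM in
theorem suffAStmt : PBmStmt → ASStmt → KAStmt → CompStmt → SolPStmt → SA1Stmt → AutSStmt →
    SocStmt → SuffAStmt := by
  intro hPB hAS hKA hComp hSol hSA hAut hSoc F hloc hS hA hB hC hO G _ _ S B C hIC hQ hNB hNC
    hFB hFC hP
  have hF := hloc.1
  exact (hA G S hIC hQ).2 ⟨alpha hSA hAut hSol hF hS hA hC hO G S B C hIC hQ hNB hNC hFB hFC hP,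
    beta hPB hAS hKA hComp hSoc hF hS hA hB G S B C hIC hQ hNB hNC hFB hFC hP⟩

end Pool.Agent.Lib.MP_de73ed_al_H
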