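import Pool.Agent.Lib.MP_de73ed_al_H.Spec

set_option linter.all false

/-!
Module SuffP: the step for a minimal normal subgroup.
-/

namespace Pool.Agent.Lib.MP_de73ed_al_H

open Pool.Agent.Lib.MP_de73ed_al

namespace SuffPM

theorem prdMap {G H : Type} [Group G] [Group H] (f : G →* H) (hf : Function.Surjective f)
    {M N : Subgroup G} (h : Prd M N) : Prd (M.map f) (N.map f) := by
  intro y
  obtain ⟨g, rfl⟩ := hf y
  obtain ⟨a, ha, b, hb, rfl⟩ := h g
  exact ⟨f a, Subgroup.mem_map_of_mem f ha, f b, Subgroup.mem_map_of_mem f hb, map_mul f a b⟩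

theorem pow_eq {G : Type} [Group G] [Finite G] {L : Subgroup G} [hL : L.Normal]
    (hch : IsChief ⊥ L) (hab : ∀ a ∈ L, ∀ b ∈ L, a * b = b * a) :
    ∃ p : ℕ, p.Prime ∧ ∀ v ∈ L, v ^ p = 1 := by
  have hne : Nat.card L ≠ 1 := by
    intro h
    exact hch.lt.ne' (Subgroup.card_eq_one.1 h)
  obtain ⟨p, hp, hpd⟩ := Nat.exists_prime_and_dvd hne
  haveI : Fact p.Prime := ⟨hp⟩
  refine ⟨p, hp, ?_⟩
  let P : Subgroup G :=
    { carrier := {v | v ∈ L ∧ v ^ p = 1}
      mul_mem' := by
        rintro a b ⟨ha, ha'⟩ ⟨hb, hb'⟩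
        refine ⟨L.mul_mem ha hb, ?_⟩
        have h1 : Commute a b := hab a ha b hb
        rw [h1.mul_pow, ha', hb', one_mul]
      one_mem' := ⟨L.one_mem, one_pow p⟩
      inv_mem' := by
        rintro a ⟨ha, ha'⟩
        refine ⟨L.inv_mem ha, ?_⟩
        rw [inv_pow, ha', inv_one] }
  have hPmem : ∀ v : G, v ∈ P ↔ v ∈ L ∧ v ^ p = 1 := fun v => Iff.rfl
  have hPn : P.Normal := by
    refine ⟨fun v hv g => ?_⟩
    rw [hPmem] at hv ⊢
    refine ⟨hL.conj_mem v hv.1 g, ?_⟩
    rw [conj_pow, hv.2, mul_one, mul_inv_cancel]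
  rcases hch.eq P hPn bot_le (fun v hv => hv.1) with h | h
  · exfalso
    obtain ⟨x, hx⟩ := exists_prime_orderOf_dvd_card' (G := L) p hpd
    have hx1 : (x : G) ∈ P := by
      rw [hPmem]
      refine ⟨x.2, ?_⟩
      have h2 : x ^ p = 1 := by rw [← hx]; exact pow_orderOf_eq_one x
      have h3 := congrArg Subtype.val h2
      simpa using h3
    rw [h, Subgroup.mem_bot] at hx1
    have h4 : x = 1 := Subtype.ext hx1
    rw [h4, orderOf_one] at hx
    exact hp.one_lt.ne hx
  · intro v hv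
    rw [← h] at hv
    exact hv.2

theorem abCase (hEx : ExStmt) {F : GrpClass} (hloc : IsLocal F) (hsub : SubClosed F)
    (hst : ∀ p : ℕ, p.Prime → ∀ (K : Type) [Group K] [Finite K], F K → ∀ A B : Subgroup K,
      Ext F p A → Ext F p B → Prd A B → Ext F p K) {G : Type} [Group G] [Finite G]
    (L M N C : Subgroup G) [L.Normal] [C.Normal] (hch : IsChief ⊥ L) (hC : IsCent ⊥ L C)
    (hLM : L ≤ M) (hLN : L ≤ N) (hGL : F (G ⧸ L)) (hM : F M) (hN : F N) (hMN : Prd M N)
    (hab : ∀ a ∈ L, ∀ b ∈ L, a * b = b * a) : F G := by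
  have hF := hloc.1
  obtain ⟨p, hp, hpow⟩ := pow_eq hch hab
  have hE := (hEx F hloc hsub).1 p hp
  have hCm : ∀ g : G, g ∈ C ↔ ∀ h ∈ L, g * h = h * g := by
    intro g
    rw [hC g]
    refine forall₂_congr fun h hh => ?_
    rw [Subgroup.mem_bot]
    constructor
    · intro h1
      have h2 := eq_of_mul_inv_eq_one h1
      exact mul_inv_eq_iff_eq_mul.1 h2
    · intro h1
      rw [h1]
      group
  have hLC : L ≤ C := fun g hg => (hCm g).2 fun h hh => hab g hg h hh
  have himg : ∀ X : Subgroup G, L ≤ X → F X → Ext F p (X.map (QuotientGroup.mk' C)) := by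
    intro X hLX hX
    have h1 : Ext F p (X ⧸ C.subgroupOf X) := by
      refine hE.2.2.2.1 X (L.subgroupOf X) (C.subgroupOf X) ?_ ?_ ?_ ?_ hX
      · intro h
        rw [Subgroup.subgroupOf_eq_bot, disjoint_iff, inf_eq_left.2 hLX] at h
        exact hch.lt.ne' h
      · rintro ⟨v, hv'⟩ hv
        apply Subtype.ext
        exact hpow v hv
      · rintro ⟨v, hv'⟩ hv ⟨w, hw'⟩ hw
        apply Subtype.ext
        exact hab v hv w hw
      · rintro ⟨w, hw'⟩
        rw [Subgroup.mem_subgroupOf]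
        constructor
        · rintro h ⟨v, hv'⟩ hv
          apply Subtype.ext
          exact (hCm w).1 h v hv
        · intro h
          refine (hCm w).2 fun v hv => ?_
          exact congrArg Subtype.val (h ⟨v, hLX hv⟩ hv)
    let ψ : X →* X.map (QuotientGroup.mk' C) := (QuotientGroup.mk' C).subgroupMap X
    have hψ : Function.Surjective ψ := (QuotientGroup.mk' C).subgroupMap_surjective X
    have hker : C.subgroupOf X ≤ ψ.ker := by
      rintro ⟨x, hx⟩ hxC
      rw [Subgroup.mem_subgroupOf] at hxC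
      apply Subtype.ext
      exact (QuotientGroup.eq_one_iff x).2 hxC
    refine hE.1.1.quot (X ⧸ C.subgroupOf X) _ (QuotientGroup.lift (C.subgroupOf X) ψ hker) ?_ h1
    intro y
    obtain ⟨x, rfl⟩ := hψ y
    exact ⟨(x : X ⧸ C.subgroupOf X), rfl⟩
  have hGC : F (G ⧸ C) := by
    refine hF.quot (G ⧸ L) (G ⧸ C) (QuotientGroup.map L C (MonoidHom.id G) hLC) ?_ hGL
    intro y
    obtain ⟨x, rfl⟩ := QuotientGroup.mk'_surjective C y
    exact ⟨(x : G ⧸ L), rfl⟩
  have hEC : Ext F p (G ⧸ C) :=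
    hst p hp (G ⧸ C) hGC _ _ (himg M hLM hM) (himg N hLN hN)
      (prdMap (QuotientGroup.mk' C) (QuotientGroup.mk'_surjective C) hMN)
  refine hE.2.2.2.2.2.2 G L C hch ?_ hC hGL hEC
  rintro ⟨v, hv⟩
  refine ⟨1, ?_⟩
  apply Subtype.ext
  rw [pow_one]
  exact hpow v hv

theorem nonabCase (hEx : ExStmt) (hSoc : SocStmt) {F : GrpClass} (hloc : IsLocal F)
    (hsub : SubClosed F) (hIII : CondIII F) {G : Type} [Group G] [Finite G]
    (L M N C : Subgroup G) [hLn : L.Normal] [C.Normal] (hch : IsChief ⊥ L) (hC : IsCent ⊥ L C)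
    (hLM : L ≤ M) (hLN : L ≤ N) (hGL : F (G ⧸ L)) (hM : F M) (hN : F N) (hMN : Prd M N)
    (hnab : NonAb L) : F G := by
  have hF := hloc.1
  have hsurj := QuotientGroup.mk'_surjective C
  have hLC : L ⊓ C = ⊥ := by
    rcases hch.eq (L ⊓ C) inferInstance bot_le inf_le_left with h | h
    · exact h
    · exfalso
      apply hnab
      intro a ha b hb
      have h1 : a ∈ C := (inf_eq_left.1 h) ha
      have h2 := (hC a).1 h1 b hb
      rw [Subgroup.mem_bot] at h2
      exact mul_inv_eq_iff_eq_mul.1 (eq_of_mul_inv_eq_one h2)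
  have hLC' : ∀ x ∈ L, (x : G ⧸ C) = 1 → x = 1 := by
    intro x hx h
    have h1 : x ∈ L ⊓ C := ⟨hx, (QuotientGroup.eq_one_iff x).1 h⟩
    rwa [hLC, Subgroup.mem_bot] at h1
  set L' : Subgroup (G ⧸ C) := L.map (QuotientGroup.mk' C) with hL'
  have hL'n : L'.Normal := hLn.map _ hsurj
  have hch' : IsChief ⊥ L' := by
    refine ⟨inferInstance, hL'n, bot_lt_iff_ne_bot.2 ?_, ?_⟩
    · intro h
      apply hch.lt.ne'
      rw [eq_bot_iff]
      intro x hx
      have h1 : QuotientGroup.mk' C x ∈ L' := Subgroup.mem_map_of_mem _ hx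
      rw [h, Subgroup.mem_bot] at h1
      rw [Subgroup.mem_bot]
      exact hLC' x hx h1
    · intro X hX _ hXL
      haveI := hX
      have hn : (X.comap (QuotientGroup.mk' C) ⊓ L).Normal := inferInstance
      rcases hch.eq _ hn bot_le inf_le_right with h | h
      · left
        rw [eq_bot_iff]
        intro y hy
        obtain ⟨l, hl, rfl⟩ := hXL hy
        have h1 : l ∈ X.comap (QuotientGroup.mk' C) ⊓ L := ⟨hy, hl⟩
        rw [h, Subgroup.mem_bot] at h1
        rw [Subgroup.mem_bot, h1, map_one]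
      · right
        refine le_antisymm hXL ?_
        rw [hL', Subgroup.map_le_iff_le_comap]
        exact inf_eq_right.1 h
  have hnab' : NonAb L' := by
    intro hall
    apply hnab
    intro a ha b hb
    have h1 := hall _ (Subgroup.mem_map_of_mem (QuotientGroup.mk' C) ha) _
      (Subgroup.mem_map_of_mem (QuotientGroup.mk' C) hb)
    rw [← map_mul, ← map_mul] at h1
    have h2 : ((a * b * (b * a)⁻¹ : G) : G ⧸ C) = 1 := by
      change QuotientGroup.mk' C (a * b * (b * a)⁻¹) = 1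
      rw [map_mul, map_inv, h1, mul_inv_cancel]
    have h3 := hLC' _ (L.mul_mem (L.mul_mem ha hb) (L.inv_mem (L.mul_mem hb ha))) h2
    exact eq_of_mul_inv_eq_one h3
  have hcent' : ∀ y : G ⧸ C, (∀ z ∈ L', y * z = z * y) → y = 1 := by
    intro y hy
    obtain ⟨g, rfl⟩ := hsurj y
    refine (QuotientGroup.eq_one_iff g).2 ?_
    rw [hC g]
    intro h hh
    rw [Subgroup.mem_bot]
    have h1 := hy _ (Subgroup.mem_map_of_mem (QuotientGroup.mk' C) hh)
    have h2 : ((g * h * g⁻¹ * h⁻¹ : G) : G ⧸ C) = 1 := by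
      change QuotientGroup.mk' C (g * h * g⁻¹ * h⁻¹) = 1
      rw [map_mul, map_mul, map_mul, map_inv, map_inv, h1]
      group
    exact hLC' _ (L.mul_mem (hLn.conj_mem h hh g) (L.inv_mem hh)) h2
  obtain ⟨T, hTL, hTs, hTn, hTc, hTnc, -⟩ := hSoc.1 (G ⧸ C) L' hch' hnab'
  have hcomp : IsComp T := by
    refine ⟨hTs, hTn, hTc, ?_⟩
    rw [eq_bot_iff]
    intro y hy
    rw [Subgroup.mem_bot]
    apply hcent'
    have h1 : L' ≤ Subgroup.centralizer
        (((Subgroup.centralizer (T : Set (G ⧸ C))).normalCore : Subgroup (G ⧸ C)) :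
          Set (G ⧸ C)) := by
      rw [← hTnc]
      refine Subgroup.normalClosure_le_normal ?_
      intro t ht
      rw [SetLike.mem_coe, Subgroup.mem_centralizer_iff]
      intro k hk
      have h2 := Subgroup.normalCore_le _ hk
      rw [Subgroup.mem_centralizer_iff] at h2
      exact (h2 t ht).symm
    intro z hz
    have h2 := h1 hz
    rw [Subgroup.mem_centralizer_iff] at h2
    exact h2 y hy
  have hmap : ∀ X : Subgroup G, F X → F (X.map (QuotientGroup.mk' C)) := fun X hX =>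
    hF.quot X _ ((QuotientGroup.mk' C).subgroupMap X)
      ((QuotientGroup.mk' C).subgroupMap_surjective X) hX
  have hq : F ((G ⧸ C) ⧸ Subgroup.normalClosure (T : Set (G ⧸ C))) := by
    let θ : G →* (G ⧸ C) ⧸ Subgroup.normalClosure (T : Set (G ⧸ C)) :=
      (QuotientGroup.mk' (Subgroup.normalClosure (T : Set (G ⧸ C)))).comp (QuotientGroup.mk' C)
    have hθ : Function.Surjective θ :=
      (QuotientGroup.mk'_surjective (Subgroup.normalClosure (T : Set (G ⧸ C)))).comp hsurj
    have hker : L ≤ θ.ker := by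
      intro x hx
      rw [MonoidHom.mem_ker]
      refine (QuotientGroup.eq_one_iff (QuotientGroup.mk' C x)).2 ?_
      rw [hTnc]
      exact Subgroup.mem_map_of_mem _ hx
    refine hF.quot (G ⧸ L) _ (QuotientGroup.lift L θ hker) ?_ hGL
    intro y
    obtain ⟨x, rfl⟩ := hθ y
    exact ⟨(x : G ⧸ L), rfl⟩
  have hGC : F (G ⧸ C) := by
    refine hIII (G ⧸ C) T (M.map (QuotientGroup.mk' C)) (N.map (QuotientGroup.mk' C)) hcomp hq
      ?_ ?_ (hmap M hM) (hmap N hN) (prdMap _ hsurj hMN)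
    · rw [hTnc]
      exact Subgroup.map_mono hLM
    · rw [hTnc]
      exact Subgroup.map_mono hLN
  exact (hEx F hloc hsub).2 G L C hch hnab hC hGL hGC

end SuffPM

/-- The step for a minimal normal subgroup. -/
theorem suffPStmt (hCent : CentStmt) (hEx : ExStmt) (hSoc : SocStmt) : SuffPStmt := by
  intro F hloc hsub hst hIII G _ _ L M N hLn hch hLM hLN hGL hM hN hMN
  obtain ⟨C, hCn, hC⟩ := hCent.1 G ⊥ L inferInstance hLn
  haveI := hCn
  by_cases hab : ∀ a ∈ L, ∀ b ∈ L, a * b = b * a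
  · exact SuffPM.abCase hEx hloc hsub hst L M N C hch hC hLM hLN hGL hM hN hMN hab
  · exact SuffPM.nonabCase hEx hSoc hloc hsub hIII L M N C hch hC hLM hLN hGL hM hN hMN hab

end Pool.Agent.Lib.MP_de73ed_al_H
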