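import Pool.Agent.Lib.MP_de73ed_al_H.Spec

set_option linter.all false

namespace Pool.Agent.Lib.MP_de73ed_al_H

open Pool.Agent.Lib.MP_de73ed_al

/-!
# Sylow subgroups of a product
-/

namespace SylM

/-- `|A| |B| = |A ⊓ B| |G|` for `G = A B`. -/
theorem card_prd {G : Type} [Group G] [Finite G] {A B : Subgroup G} (h : Prd A B) :
    Nat.card A * Nat.card B = Nat.card (A ⊓ B : Subgroup G) * Nat.card G := by
  have hp : MulAction.IsPretransitive A (G ⧸ B) := by
    rw [MulAction.isPretransitive_iff_base ((1 : G) : G ⧸ B)]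
    intro y
    induction y using QuotientGroup.induction_on with
    | H g =>
      obtain ⟨a, ha, b, hb, rfl⟩ := h g
      refine ⟨⟨a, ha⟩, ?_⟩
      change ((a * 1 : G) : G ⧸ B) = _
      rw [mul_one, QuotientGroup.eq, inv_mul_cancel_left]
      exact hb
  have hs : MulAction.stabilizer A ((1 : G) : G ⧸ B) = B.subgroupOf A := by
    ext a
    rw [MulAction.mem_stabilizer_iff, Subgroup.mem_subgroupOf]
    change (((a : G) * 1 : G) : G ⧸ B) = _ ↔ _
    rw [mul_one, QuotientGroup.eq, mul_one, inv_mem_iff]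
  have h1 : (B.subgroupOf A).index = B.index := by
    rw [← hs, MulAction.index_stabilizer_of_transitive]
    rfl
  have h2 : Nat.card (B.subgroupOf A) = Nat.card (A ⊓ B : Subgroup G) := by
    rw [← Subgroup.inf_subgroupOf_left]
    exact Nat.card_congr (Subgroup.subgroupOfEquivOfLe inf_le_left).toEquiv
  rw [← Subgroup.card_mul_index (B.subgroupOf A), h1, h2, mul_assoc, mul_comm B.index,
    Subgroup.card_mul_index]

theorem main {G : Type} [Group G] [Finite G] {A B R : Subgroup G}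
    (h : Nat.card R * Nat.card (A ⊓ B : Subgroup G) ≤ Nat.card A * Nat.card B) (hA : A ≤ R)
    (hB : B ≤ R) : ∀ x ∈ R, ∃ a ∈ A, ∃ b ∈ B, x = a * b := by
  classical
  have := Fintype.ofFinite G
  let s : Finset (G × G) := (Finset.univ.filter (· ∈ A)) ×ˢ (Finset.univ.filter (· ∈ B))
  have hs : s.card = Nat.card A * Nat.card B := by
    rw [Finset.card_product, Nat.card_eq_fintype_card, Nat.card_eq_fintype_card,
      Fintype.card_subtype, Fintype.card_subtype]
  have hi : s.image (fun p => p.1 * p.2) ⊆ Finset.univ.filter (· ∈ R) := by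
    intro x hx
    obtain ⟨p, hp, rfl⟩ := Finset.mem_image.1 hx
    obtain ⟨h1, h2⟩ := Finset.mem_product.1 hp
    exact Finset.mem_filter.2 ⟨Finset.mem_univ _, R.mul_mem (hA (Finset.mem_filter.1 h1).2)
      (hB (Finset.mem_filter.1 h2).2)⟩
  have hf : s.card ≤ Nat.card (A ⊓ B : Subgroup G) * (s.image fun p => p.1 * p.2).card := by
    refine Finset.card_le_mul_card_image s _ fun x hx => ?_
    obtain ⟨q, hq, rfl⟩ := Finset.mem_image.1 hx
    obtain ⟨h1, h2⟩ := Finset.mem_product.1 hq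
    rw [Nat.card_eq_fintype_card, Fintype.card_subtype]
    refine Finset.card_le_card_of_injOn (fun p => q.1⁻¹ * p.1) ?_ ?_
    · intro p hp
      obtain ⟨h3, h4⟩ := Finset.mem_filter.1 (Finset.mem_coe.1 hp)
      obtain ⟨h5, h6⟩ := Finset.mem_product.1 h3
      refine Finset.mem_coe.2 (Finset.mem_filter.2 ⟨Finset.mem_univ _, ?_, ?_⟩)
      · exact A.mul_mem (A.inv_mem (Finset.mem_filter.1 h1).2) (Finset.mem_filter.1 h5).2
      · have : q.1⁻¹ * p.1 = q.2 * p.2⁻¹ := by
          rw [inv_mul_eq_iff_eq_mul, ← mul_assoc, ← h4, mul_inv_cancel_right]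
        change q.1⁻¹ * p.1 ∈ B
        rw [this]
        exact B.mul_mem (Finset.mem_filter.1 h2).2 (B.inv_mem (Finset.mem_filter.1 h6).2)
    · intro p hp p' hp' he
      have h3 := (Finset.mem_filter.1 (Finset.mem_coe.1 hp)).2
      have h4 := (Finset.mem_filter.1 (Finset.mem_coe.1 hp')).2
      have h5 : p.1 = p'.1 := mul_left_cancel he
      refine Prod.ext h5 ?_
      rw [← h3, h5] at h4
      exact (mul_left_cancel h4).symm
  have hR : (Finset.univ.filter (· ∈ R)).card = Nat.card R := by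
    rw [Nat.card_eq_fintype_card, Fintype.card_subtype]
  have he : s.image (fun p => p.1 * p.2) = Finset.univ.filter (· ∈ R) := by
    refine Finset.eq_of_subset_of_card_le hi ?_
    rw [hR]
    have hpos : 0 < Nat.card (A ⊓ B : Subgroup G) := Nat.card_pos
    rw [hs] at hf
    refine Nat.le_of_mul_le_mul_left ?_ hpos
    rw [mul_comm]
    exact h.trans hf
  intro x hx
  have h1 : x ∈ s.image (fun p => p.1 * p.2) := by
    rw [he]
    exact Finset.mem_filter.2 ⟨Finset.mem_univ _, hx⟩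
  obtain ⟨p, hp, rfl⟩ := Finset.mem_image.1 h1
  obtain ⟨h2, h3⟩ := Finset.mem_product.1 hp
  exact ⟨p.1, (Finset.mem_filter.1 h2).2, p.2, (Finset.mem_filter.1 h3).2, rfl⟩

/-- The order of a subgroup which contains a conjugate by an element of `A` of a Sylow subgroup. -/
theorem card_ge {G : Type} [Group G] [Finite G] {A : Subgroup G} {r : ℕ} [Fact r.Prime]
    (P : Sylow r A) (R : Subgroup G) (g : G) (hg : g ∈ A)
    (h : ∀ x ∈ P, g * (x : G) * g⁻¹ ∈ R) :
    r ^ (Nat.card A).factorization r ≤ Nat.card (A ⊓ R : Subgroup G) := by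
  rw [← P.card_eq_multiplicity]
  refine Nat.card_le_card_of_injective (fun x : P => (⟨g * ((x : A) : G) * g⁻¹,
    A.mul_mem (A.mul_mem hg (x : A).2) (A.inv_mem hg), h x.1 x.2⟩ : (A ⊓ R : Subgroup G))) ?_
  intro x y hxy
  have h1 : g * ((x : A) : G) * g⁻¹ = g * ((y : A) : G) * g⁻¹ := congrArg Subtype.val hxy
  exact Subtype.ext (Subtype.ext (mul_left_cancel (mul_right_cancel h1)))

end SylM

theorem sylStmt : SylStmt := by
  intro G _ _ A B hAB r hr
  have : Fact r.Prime := ⟨hr⟩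
  obtain ⟨PA⟩ : Nonempty (Sylow r A) := inferInstance
  obtain ⟨PB⟩ : Nonempty (Sylow r B) := inferInstance
  obtain ⟨P, hP⟩ := (PA.2.map A.subtype).exists_le_sylow
  obtain ⟨Q, hQ⟩ := (PB.2.map B.subtype).exists_le_sylow
  obtain ⟨g, hg⟩ := MulAction.exists_smul_eq G P Q
  obtain ⟨a, ha, b, hb, hab⟩ := hAB g⁻¹
  -- `Q = g P g⁻¹`, `g⁻¹ = a b`
  have hg' : g = b⁻¹ * a⁻¹ := by rw [← mul_inv_rev, ← hab, inv_inv]
  let R : Sylow r G := a⁻¹ • P
  have hR1 : ∀ x ∈ PA, a⁻¹ * (x : G) * a⁻¹⁻¹ ∈ (R : Subgroup G) := by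
    intro x hx
    have h1 : (x : G) ∈ (P : Subgroup G) := hP ⟨x, hx, rfl⟩
    exact Subgroup.smul_mem_pointwise_smul _ (MulAut.conj a⁻¹) _ h1
  have hR2 : ∀ x ∈ PB, b * (x : G) * b⁻¹ ∈ (R : Subgroup G) := by
    intro x hx
    have h1 : (x : G) ∈ (Q : Subgroup G) := hQ ⟨x, hx, rfl⟩
    have h2 : b • Q = R := by
      rw [← hg, hg', smul_smul, mul_inv_cancel_left]
    rw [← h2]
    exact Subgroup.smul_mem_pointwise_smul _ (MulAut.conj b) _ h1
  have h1 := SylM.card_ge PA (R : Subgroup G) a⁻¹ (A.inv_mem ha) hR1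
  have h2 := SylM.card_ge PB (R : Subgroup G) b hb hR2
  refine ⟨R, A ⊓ R, B ⊓ R, inf_le_left, inf_le_left, inf_le_right, inf_le_right,
    SylM.main ?_ inf_le_right inf_le_right⟩
  have h3 : Nat.card ((A ⊓ R) ⊓ (B ⊓ R) : Subgroup G) ≤
      r ^ (Nat.card (A ⊓ B : Subgroup G)).factorization r := by
    have hp : IsPGroup r ((A ⊓ R) ⊓ (B ⊓ R) : Subgroup G) :=
      R.2.to_le (inf_le_left.trans inf_le_right)
    obtain ⟨n, hn⟩ := IsPGroup.iff_card.1 hp
    rw [hn]
    refine Nat.pow_le_pow_right hr.pos ?_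
    rw [← hr.pow_dvd_iff_le_factorization Nat.card_pos.ne', ← hn]
    exact Subgroup.card_dvd_of_le (inf_le_inf inf_le_left inf_le_left)
  have h4 : (Nat.card A).factorization r + (Nat.card B).factorization r =
      (Nat.card (A ⊓ B : Subgroup G)).factorization r + (Nat.card G).factorization r := by
    rw [← Finsupp.add_apply, ← Finsupp.add_apply,
      ← Nat.factorization_mul Nat.card_pos.ne' Nat.card_pos.ne',
      ← Nat.factorization_mul Nat.card_pos.ne' Nat.card_pos.ne', SylM.card_prd hAB]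
  calc Nat.card R * Nat.card ((A ⊓ R) ⊓ (B ⊓ R) : Subgroup G)
      ≤ r ^ (Nat.card G).factorization r * r ^ (Nat.card (A ⊓ B : Subgroup G)).factorization r :=
        Nat.mul_le_mul (le_of_eq R.card_eq_multiplicity) h3
    _ = r ^ (Nat.card A).factorization r * r ^ (Nat.card B).factorization r := by
        rw [← pow_add, ← pow_add, h4, add_comm]
    _ ≤ _ := Nat.mul_le_mul h1 h2

end Pool.Agent.Lib.MP_de73ed_al_H
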