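import Pool.Agent.Lib.MP_de73ed_al_H.Spec

set_option linter.all false
set_option autoImplicit false

/-! Module Tw: the twist. -/

namespace Pool.Agent.Lib.MP_de73ed_al_H

open Pool.Agent.Lib.MP_de73ed_al

namespace TwM

theorem emb {F : GrpClass} (hF : IsFormation F) (hS : SubClosed F) {G H : Type} [Group G] [Group H]
    (φ : G →* H) (hφ : Function.Injective φ) (h : F H) : F G := by
  have h1 : F φ.range := hS H φ.range h
  exact hF.quot _ _ (MonoidHom.ofInjective hφ).symm.toMonoidHom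
    (MonoidHom.ofInjective hφ).symm.surjective h1

theorem joint2 {F : GrpClass} (hF : IsFormation F) (hS : SubClosed F) {G H K : Type} [Group G]
    [Group H] [Group K] [Finite G] (φ : G →* H) (ψ : G →* K)
    (hinj : ∀ g, φ g = 1 → ψ g = 1 → g = 1) (hH : F H) (hK : F K) : F G := by
  have h1 : F (G ⧸ φ.ker) :=
    emb hF hS (QuotientGroup.kerLift φ) (QuotientGroup.kerLift_injective φ) hH
  have h2 : F (G ⧸ ψ.ker) :=
    emb hF hS (QuotientGroup.kerLift ψ) (QuotientGroup.kerLift_injective ψ) hK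
  have h3 := hF.inf G φ.ker ψ.ker h1 h2
  have hb : Function.Injective (QuotientGroup.mk' (φ.ker ⊓ ψ.ker)) := by
    rw [← MonoidHom.ker_eq_bot_iff, QuotientGroup.ker_mk', eq_bot_iff]
    rintro g ⟨ha, hb⟩
    exact Subgroup.mem_bot.2 (hinj g ha hb)
  exact emb hF hS _ hb h3

variable {A : Type} [Group A] (T : Subgroup A) [hT : T.Normal]

/-- The elements of `A ≀ (A ⧸ T)` with all coordinates in `T`. -/
def G0 : Subgroup (RegularWreathProduct A (A ⧸ T)) where
  carrier := {w | ∀ x, w.left x ∈ T}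
  one_mem' := fun x => T.one_mem
  mul_mem' := fun {a b} ha hb x => T.mul_mem (ha x) (hb _)
  inv_mem' := fun {a} ha x => T.inv_mem (ha _)

/-- The elements of `A ≀ (A ⧸ T)` with all coordinates in the same coset of `T`. -/
def Ga : Subgroup (RegularWreathProduct A (A ⧸ T)) where
  carrier := {w | ∀ x y, (w.left x : A ⧸ T) = w.left y}
  one_mem' := fun x y => rfl
  mul_mem' := fun {a b} ha hb x y => by
    have h1 := ha x y
    have h2 := hb (a.right⁻¹ * x) (a.right⁻¹ * y)
    show ((a.left x * b.left (a.right⁻¹ * x) : A) : A ⧸ T)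
      = ((a.left y * b.left (a.right⁻¹ * y) : A) : A ⧸ T)
    rw [QuotientGroup.mk_mul, QuotientGroup.mk_mul, h1, h2]
  inv_mem' := fun {a} ha x y => by
    have h1 := ha (a.right * x) (a.right * y)
    show (((a.left (a.right * x))⁻¹ : A) : A ⧸ T) = (((a.left (a.right * y))⁻¹ : A) : A ⧸ T)
    rw [QuotientGroup.mk_inv, QuotientGroup.mk_inv, h1]

/-- `G0` embeds in `T ≀ (A ⧸ T)`. -/
def g0map : G0 T →* RegularWreathProduct T (A ⧸ T) where
  toFun w := ⟨fun x => ⟨w.1.left x, w.2 x⟩, w.1.right⟩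
  map_one' := rfl
  map_mul' a b := rfl

theorem g0map_inj : Function.Injective (g0map T) := by
  intro a b h
  have hl : (g0map T a).left = (g0map T b).left := by rw [h]
  have hr : (g0map T a).right = (g0map T b).right := by rw [h]
  apply Subtype.ext
  apply RegularWreathProduct.ext
  · funext x
    exact congrArg Subtype.val (congrFun hl x)
  · exact hr

/-- The map of `Ga` to `(A ⧸ T) × (A ⧸ T)`. -/
def gaMap : Ga T →* (A ⧸ T) × (A ⧸ T) where
  toFun w := ((w.1.left 1 : A ⧸ T), w.1.right)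
  map_one' := rfl
  map_mul' a b := by
    have h := b.2 (a.1.right⁻¹ * 1) 1
    ext
    · show ((a.1.left 1 * b.1.left (a.1.right⁻¹ * 1) : A) : A ⧸ T)
        = (a.1.left 1 : A ⧸ T) * (b.1.left 1 : A ⧸ T)
      rw [QuotientGroup.mk_mul, h]
    · rfl

/-- The subgroup of `Ga` with all coordinates in `T`. -/
def B1 : Subgroup (Ga T) := (G0 T).comap (Ga T).subtype

/-- The subgroup of `Ga` with all coordinates in the coset of the right component. -/
def B2 : Subgroup (Ga T) where
  carrier := {w | ∀ x, (w.1.left x : A ⧸ T) = w.1.right}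
  one_mem' := fun x => rfl
  mul_mem' := fun {a b} ha hb x => by
    show ((a.1.left x * b.1.left (a.1.right⁻¹ * x) : A) : A ⧸ T) = a.1.right * b.1.right
    rw [QuotientGroup.mk_mul, ha x, hb]
  inv_mem' := fun {a} ha x => by
    show (((a.1.left (a.1.right * x))⁻¹ : A) : A ⧸ T) = a.1.right⁻¹
    rw [QuotientGroup.mk_inv, ha]

/-- The twisting element. -/
noncomputable def cc : RegularWreathProduct A (A ⧸ T) := ⟨fun x => (x⁻¹).out, 1⟩

/-- Conjugation by the twisting element maps `B2` to `G0`. -/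
noncomputable def b2map : B2 T →* G0 T :=
  ((MulAut.conj (cc T)).toMonoidHom.comp ((Ga T).subtype.comp (B2 T).subtype)).codRestrict (G0 T)
    (by
      intro w x
      have hw := w.2
      rw [← QuotientGroup.eq_one_iff]
      show (((x⁻¹ : A ⧸ T).out * w.1.1.left (1⁻¹ * x) *
        ((1 : A ⧸ T) * ((1 * w.1.1.right)⁻¹ * x))⁻¹.out⁻¹ : A) : A ⧸ T) = 1
      rw [QuotientGroup.mk_mul, QuotientGroup.mk_mul, QuotientGroup.mk_inv, QuotientGroup.out_eq',
        QuotientGroup.out_eq', hw]
      group)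

theorem b2map_inj : Function.Injective (b2map T) := by
  intro a b h
  have h1 := congrArg Subtype.val h
  exact Subtype.ext (Subtype.ext ((MulAut.conj (cc T)).injective h1))

theorem prd : Prd (B1 T) (B2 T) := by
  intro w
  let b : Ga T := ⟨⟨fun _ => w.1.left 1, (w.1.left 1 : A ⧸ T)⟩, fun x y => rfl⟩
  have hb : b ∈ B2 T := fun x => rfl
  refine ⟨w * b⁻¹, ?_, b, hb, by group⟩
  intro x
  rw [← QuotientGroup.eq_one_iff]
  show ((w.1.left x * (w.1.left 1)⁻¹ : A) : A ⧸ T) = 1
  rw [QuotientGroup.mk_mul, QuotientGroup.mk_inv, w.2 x 1]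
  group

/-- The subgroup of `Ga` with trivial right component. -/
def K1 : Subgroup (Ga T) := (RegularWreathProduct.rightHom.comp (Ga T).subtype).ker

/-- Its map to `A`. -/
def k1map : K1 T →* A where
  toFun w := w.1.1.left 1
  map_one' := rfl
  map_mul' a b := by
    have ha : a.1.1.right = 1 := a.2
    show a.1.1.left 1 * b.1.1.left (a.1.1.right⁻¹ * 1) = a.1.1.left 1 * b.1.1.left 1
    rw [ha]
    simp

theorem k1map_surj : Function.Surjective (k1map T) := by
  intro a
  exact ⟨⟨⟨⟨fun _ => a, 1⟩, fun x y => rfl⟩, rfl⟩, rfl⟩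

end TwM

open TwM in
theorem twStmt (hKA : KAStmt) : TwStmt := by
  intro F hF hS hP A _ _ T _ hW
  have hH : F (A ⧸ T) := ((hKA F hF hS T).2.2.2 (A ⧸ T) hW).1
  have hHH : F ((A ⧸ T) × (A ⧸ T)) :=
    joint2 hF hS (MonoidHom.fst _ _) (MonoidHom.snd _ _)
      (fun g h1 h2 => Prod.ext h1 h2) hH hH
  have hG0 : F (G0 T) := emb hF hS (g0map T) (g0map_inj T) hW
  have hB1 : F (B1 T) := by
    refine emb hF hS (((Ga T).subtype.comp (B1 T).subtype).codRestrict (G0 T) (fun w => w.2)) ?_ hG0
    intro a b h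
    have h0 := congrArg Subtype.val h
    have h1 : a.1.1 = b.1.1 := h0
    exact Subtype.ext (Subtype.ext h1)
  have hB2 : F (B2 T) := emb hF hS (b2map T) (b2map_inj T) hG0
  have hq : F (Ga T ⧸ (gaMap T).ker) :=
    emb hF hS (QuotientGroup.kerLift _) (QuotientGroup.kerLift_injective _) hHH
  have hGa : F (Ga T) := by
    refine hP (Ga T) (gaMap T).ker hq (B1 T) (B2 T) ?_ ?_ hB1 hB2 (prd T)
    · intro w hw x
      have h1 : (w.1.left 1 : A ⧸ T) = 1 := congrArg Prod.fst hw
      rw [← QuotientGroup.eq_one_iff, ← h1]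
      exact w.2 x 1
    · intro w hw x
      have h1 : (w.1.left 1 : A ⧸ T) = 1 := congrArg Prod.fst hw
      have h2 : w.1.right = 1 := congrArg Prod.snd hw
      rw [h2, ← h1]
      exact w.2 x 1
  exact hF.quot _ _ (k1map T) (k1map_surj T) (hS _ (K1 T) hGa)

end Pool.Agent.Lib.MP_de73ed_al_H
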