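import Pool.Agent.Lib.MP_de73ed_al_H.Spec

set_option linter.all false

/-!
Groups which are not the product of two proper subgroups.
-/

namespace Pool.Agent.Lib.MP_de73ed_al_H

open Pool.Agent.Lib.MP_de73ed_al

namespace UnfM

variable {Q : Type} [Group Q]

theorem exists_max [Finite Q] (hQ : Nontrivial Q) :
    ∃ M : Subgroup Q, M.Normal ∧ M ≠ ⊤ ∧ ∀ N : Subgroup Q, N.Normal → N ≠ ⊤ → M ≤ N → N = M := by
  classical
  have hfin : (Set.range fun N : Subgroup Q => Nat.card N).Finite := Set.toFinite _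
  let A : Set (Subgroup Q) := {N | N.Normal ∧ N ≠ ⊤}
  have hA : A.Nonempty := ⟨⊥, inferInstance, bot_ne_top⟩
  obtain ⟨M, hM, hmax⟩ := Set.Finite.exists_maximalFor (fun N : Subgroup Q => Nat.card N) A
    (Set.toFinite _) hA
  refine ⟨M, hM.1, hM.2, fun N hN hNt hMN => ?_⟩
  have h1 : Nat.card N ≤ Nat.card M := hmax ⟨hN, hNt⟩ (Subgroup.card_le_of_le hMN)
  exact (Subgroup.eq_of_le_of_card_ge hMN h1).symm

theorem simple_of_max (M : Subgroup Q) [M.Normal] (hM : M ≠ ⊤)
    (hmax : ∀ N : Subgroup Q, N.Normal → N ≠ ⊤ → M ≤ N → N = M) : IsSimpleGroup (Q ⧸ M) := by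
  haveI : Nontrivial (Q ⧸ M) := QuotientGroup.nontrivial_iff.2 hM
  refine ⟨fun H hH => ?_⟩
  by_cases h : H.comap (QuotientGroup.mk' M) = ⊤
  · right
    rw [← Subgroup.map_comap_eq_self_of_surjective (QuotientGroup.mk'_surjective M) H, h,
      ← MonoidHom.range_eq_map, MonoidHom.range_eq_top]
    exact QuotientGroup.mk'_surjective M
  · left
    have h1 := hmax _ (Subgroup.Normal.comap hH _) h
      (by intro m hm
          rw [Subgroup.mem_comap]
          have : (QuotientGroup.mk' M) m = 1 := (QuotientGroup.eq_one_iff m).2 hm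
          rw [this]
          exact H.one_mem)
    rw [← Subgroup.map_comap_eq_self_of_surjective (QuotientGroup.mk'_surjective M) H, h1,
      QuotientGroup.map_mk'_self]

theorem prd_of_sup (K M : Subgroup Q) [M.Normal] (h : K ⊔ M = ⊤) : Prd K M := by
  intro g
  have hg : g ∈ ((K ⊔ M : Subgroup Q) : Set Q) := by rw [h]; trivial
  rw [Subgroup.mul_normal] at hg
  obtain ⟨a, ha, b, hb, hab⟩ := hg
  exact ⟨a, ha, b, hb, hab.symm⟩

theorem nilp [Finite Q] (M : Subgroup Q) (hM : ∀ K : Subgroup Q, K ⊔ M = ⊤ → K = ⊤) :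
    Group.IsNilpotent M := by
  have hle : M ≤ frattini Q := by
    rw [frattini, Order.radical]
    refine le_iInf₂ fun K hK => ?_
    by_contra hn
    have h1 : K < K ⊔ M := lt_of_le_of_ne le_sup_left
      (fun h => hn (by rw [h]; exact le_sup_right))
    exact hK.1 (hM K (hK.2 _ h1))
  haveI := frattini_nilpotent (G := Q)
  exact Group.nilpotent_of_mulEquiv (Subgroup.subgroupOfEquivOfLe hle)

theorem prm [Finite Q] (M : Subgroup Q) [M.Normal] (hM : ∀ K : Subgroup Q, K ⊔ M = ⊤ → K = ⊤)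
    (hn : Group.IsNilpotent M) (q : ℕ) (hq : q.Prime) (h1 : q ∣ Nat.card M) :
    q ∣ Nat.card (Q ⧸ M) := by
  by_contra h2
  haveI : Fact q.Prime := ⟨hq⟩
  let R : Sylow q Q := default
  have hRM : (R : Subgroup Q) ≤ M := by
    intro r hr
    obtain ⟨k, hk⟩ := R.isPGroup' ⟨r, hr⟩
    have hk' : r ^ q ^ k = 1 := congrArg Subtype.val hk
    rw [← QuotientGroup.eq_one_iff]
    have e1 : (r : Q ⧸ M) ^ q ^ k = 1 := by
      rw [← QuotientGroup.mk_pow, hk', QuotientGroup.mk_one]
    have e2 : orderOf (r : Q ⧸ M) ∣ q ^ k := orderOf_dvd_of_pow_eq_one e1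
    have e3 : orderOf (r : Q ⧸ M) ∣ Nat.card (Q ⧸ M) := orderOf_dvd_natCard _
    have e4 : Nat.Coprime (q ^ k) (Nat.card (Q ⧸ M)) :=
      Nat.Coprime.pow_left k ((Nat.Prime.coprime_iff_not_dvd hq).2 h2)
    have e5 : orderOf (r : Q ⧸ M) = 1 := Nat.eq_one_of_dvd_coprimes e4 e2 e3
    exact orderOf_eq_one_iff.1 e5
  let R' : Sylow q M := R.subtype hRM
  haveI h3 : (R' : Subgroup M).Normal := inferInstance
  haveI h4 : (R' : Subgroup M).Characteristic := R'.characteristic_of_normal h3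
  have h5 : ((R' : Subgroup M).map M.subtype).Normal := inferInstance
  have h6 : (R' : Subgroup M).map M.subtype = (R : Subgroup Q) := by
    change ((R : Subgroup Q).subgroupOf M).map M.subtype = _
    rw [Subgroup.subgroupOf_map_subtype, inf_eq_left.2 hRM]
  haveI h7 : (R : Subgroup Q).Normal := by rw [← h6]; exact h5
  obtain ⟨K, hK⟩ := Subgroup.exists_right_complement'_of_coprime (N := (R : Subgroup Q))
    R.card_coprime_index
  have h8 : K ⊔ M = ⊤ := by
    rw [eq_top_iff, ← hK.sup_eq_top]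
    exact sup_le (hRM.trans le_sup_right) le_sup_left
  have h9 := hM K h8
  have h10 : (R : Subgroup Q) = ⊥ := by
    have := hK.disjoint
    rw [h9] at this
    exact disjoint_top.1 this
  exact R.ne_bot_of_dvd_card (h1.trans (Subgroup.card_subgroup_dvd_card M)) h10

end UnfM

theorem unfStmt : UnfStmt := by
  intro Q _ _ hQ h
  obtain ⟨M, hMn, hMt, hmax⟩ := UnfM.exists_max hQ
  haveI := hMn
  have h1 : ∀ K : Subgroup Q, K ⊔ M = ⊤ → K = ⊤ := by
    intro K hK
    rcases h K M (UnfM.prd_of_sup K M hK) with h | h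
    · exact h
    · exact absurd h hMt
  have h2 := UnfM.nilp M h1
  exact ⟨M, hMn, UnfM.simple_of_max M hMt hmax, h1, h2, fun q hq hqM => UnfM.prm M h1 h2 q hq hqM⟩

end Pool.Agent.Lib.MP_de73ed_al_H
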