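import Pool.Agent.Lib.MP_de73ed_al.Cent
import Pool.Agent.Lib.MP_de73ed_al.CF
import Pool.Agent.Lib.MP_de73ed_al.Triv
import Pool.Agent.Lib.MP_de73ed_al.Up
import Pool.Agent.Lib.MP_de73ed_al.Down
import Pool.Agent.Lib.MP_de73ed_al.Wr
import Pool.Agent.Lib.MP_de73ed_al.FPProps
import Pool.Agent.Lib.MP_de73ed_al.FS
import Pool.Agent.Lib.MP_de73ed_al.Cyc
import Pool.Agent.Lib.MP_de73ed_al.RGrp
import Pool.Agent.Lib.MP_de73ed_al.PLoc
import Pool.Agent.Lib.MP_de73ed_al_H.Comp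
import Pool.Agent.Lib.MP_de73ed_al_H.Unf
import Pool.Agent.Lib.MP_de73ed_al_H.KK
import Pool.Agent.Lib.MP_de73ed_al_H.Soc
import Pool.Agent.Lib.MP_de73ed_al_H.AS
import Pool.Agent.Lib.MP_de73ed_al_H.Syl
import Pool.Agent.Lib.MP_de73ed_al_H.SolP
import Pool.Agent.Lib.MP_de73ed_al_H.Ex
import Pool.Agent.Lib.MP_de73ed_al_H.PC
import Pool.Agent.Lib.MP_de73ed_al_H.KL
import Pool.Agent.Lib.MP_de73ed_al_H.NecI
import Pool.Agent.Lib.MP_de73ed_al_H.SuffP
import Pool.Agent.Lib.MP_de73ed_al_H.SuffI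
import Pool.Agent.Lib.MP_de73ed_al_H.KA
import Pool.Agent.Lib.MP_de73ed_al_H.KB
import Pool.Agent.Lib.MP_de73ed_al_H.KC
import Pool.Agent.Lib.MP_de73ed_al_H.Tw
import Pool.Agent.Lib.MP_de73ed_al_H.Emb
import Pool.Agent.Lib.MP_de73ed_al_H.Lift
import Pool.Agent.Lib.MP_de73ed_al_H.PiM
import Pool.Agent.Lib.MP_de73ed_al_H.Core
import Pool.Agent.Lib.MP_de73ed_al_H.Quo
import Pool.Agent.Lib.MP_de73ed_al_H.Sub
import Pool.Agent.Lib.MP_de73ed_al_H.CA
import Pool.Agent.Lib.MP_de73ed_al_H.CBC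
import Pool.Agent.Lib.MP_de73ed_al_H.PBm
import Pool.Agent.Lib.MP_de73ed_al_H.AutS
import Pool.Agent.Lib.MP_de73ed_al_H.SA1
import Pool.Agent.Lib.MP_de73ed_al_H.SuffA

set_option linter.all false

/-! The two theorems on subgroup-closed local formations. -/

namespace Pool.Agent.Lib.MP_de73ed_al_H

open Pool.Agent.Lib.MP_de73ed_al

theorem finalStmt : FinalStmt := by
  have oC := centStmt
  have oCF := cfStmt
  have oT := trivStmt
  have oU := upStmt oCF oT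
  have oD := downStmt oC
  have oW := wrStmt
  have oFP := fpPropsStmt oU oD oW
  have oFS := fsStmt
  have oCy := cycStmt
  have oR := rGrpStmt oCy
  have oPL := pLocStmt oT oC
  have hComp := compStmt
  have hUnf := unfStmt
  have hKK := kkStmt
  have hSoc := socStmt
  have hAS := asStmt oC hSoc
  have hSyl := sylStmt
  have hSolP := solPStmt
  have hEx := exStmt oC oCF oT oU oD oW oFP oPL
  have hPC := pcStmt oFS
  have hKL := klStmt hComp hUnf hKK hEx oCy oR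
  have hNecI := necIStmt hKL hEx hPC hComp oW
  have hSuffP := suffPStmt oC hEx hSoc
  have hSuffI := suffIStmt hSuffP hComp hAS hEx oFS oC
  have hKA := kaStmt
  have hKB := kbStmt hKA
  have hKC := kcStmt hKL hKA hKB hComp
  have hTw := twStmt hKA
  have hEmb := embStmt hSoc
  have hLift := liftStmt hEx hComp
  have hPi := piMStmt hUnf hEx hComp
  have hQuo := quoStmt
  have hSub := subStmt hSoc hQuo
  have hAutS := autSStmt hSoc
  have hCore := coreStmt oCy hPi hEx hKA hKB hEmb hLift hSoc hAutS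
  have hCA := caStmt hSub hCore hSoc hKA hKB hKC hComp
  have hCBC := cbcStmt hKA hKB hKC hTw
  have hPB := pbmStmt hSub hKA hComp
  have hSA1 := sa1Stmt hPB hSoc hSyl hComp hKA hAutS
  have hSuffA := suffAStmt hPB hAS hKA hComp hSolP hSA1 hAutS hSoc
  intro F hloc hs
  refine ⟨⟨fun h => (hNecI F hloc hs h).2, fun ⟨h1, h2, h3⟩ => hSuffI F hloc hs h1 h2 h3⟩,
    fun hO => ⟨fun h => ?_, fun ⟨h1, h2, hA, hB, hC⟩ =>
      hSuffI F hloc hs h1 h2 (hSuffA F hloc hs hA hB hC hO)⟩⟩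
  obtain ⟨-, h1, h2, -⟩ := hNecI F hloc hs h
  have hP := hPC F hloc.1 hs h
  exact ⟨h1, h2, hCA F hloc hs hP h1 hO, hCBC F hloc hs hP⟩

end Pool.Agent.Lib.MP_de73ed_al_H
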