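import Pool.Agent.Lib.MP_de73ed_al.Spec
import Pool.Agent.Lib.MP_de73ed_al_H.Defs

set_option linter.all false

/-!
Statements of the modules, as Props, with proofs in the docstrings (paper proof: note 3440). Each
module is a file `MP_de73ed_al_H/<Name>.lean` which imports only this file and proves
`theorem <name>Stmt (h₁ : ..Stmt) ... : <Name>Stmt` from the modules named in its docstring. The Props of
`Pool.Agent.Lib.MP_de73ed_al.Spec` (old modules: `CFStmt`, `TrivStmt`, `UpStmt`, ...) are all proved and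
may be taken as hypotheses too.
-/

namespace Pool.Agent.Lib.MP_de73ed_al_H

open Pool.Agent.Lib.MP_de73ed_al

/-- Closed under isomorphism. -/
def IsoClosed (J : GrpClass) : Prop := ∀ (X Y : Type) [Group X] [Group Y], (X ≃* Y) → J X → J Y

/-- Every subgroup of a simple group in `J` has all its composition factors in `J`. -/
def HerJ (J : GrpClass) : Prop :=
  ∀ (T : Type) [Group T], IsSimpleGroup T → J T → ∀ U : Subgroup T, CompIn J U

/-- The commuting condition for the conjugates of `S`. -/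
def ConjComm {G : Type} [Group G] (S : Subgroup G) : Prop :=
  ∀ g : G, (∀ s ∈ S, g * s * g⁻¹ ∈ S) ∨ ∀ s ∈ S, ∀ t ∈ S, g * s * g⁻¹ * t = t * (g * s * g⁻¹)

/-- Nonabelian. -/
def NonAb {G : Type} [Group G] (S : Subgroup G) : Prop := ¬ ∀ a ∈ S, ∀ b ∈ S, a * b = b * a

/-- Products above a normal subgroup with quotient in `F`. -/
def PrdC (F : GrpClass) : Prop :=
  ∀ (G : Type) [Group G] [Finite G] (N : Subgroup G) [N.Normal], F (G ⧸ N) →
    ∀ A B : Subgroup G, N ≤ A → N ≤ B → F A → F B → Prd A B → F G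

/-- `(Ω → S) ⋊ P`, with `P` permuting the coordinates. -/
abbrev WP (S Ω P : Type) [Group S] [Group P] [MulAction P Ω] : Type :=
  (Ω → S) ⋊[(mulAutArrow : P →* MulAut (Ω → S))] P

/-! ## General group theory -/

/-! ### Module Comp -/

/-- (Comp) Composition factors. `J` closed under isomorphism.
(1) images: a subnormal subgroup of `H` is the image of a subnormal subgroup of `G` (preimages), and
`N'/M'` simple gives the simple quotient of the preimage.
(2) normal subgroups: subnormality is transitive (map by `N.subtype`).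
(3) extensions: let `K` be subnormal in `G`, `M` normal in `K`, `K/M` simple. `(K ⊓ N) ⊔ M` is normal in
`K`, so it is `M` or `K` (as subgroups of `K`). If `K = (K ⊓ N) M` then `K/M ≅ (K ⊓ N)/(M ⊓ N)`, and `K ⊓ N` is
subnormal in `N`. If `K ⊓ N ≤ M` then `K/M ≅ (KN/N)/(MN/N)` and `KN/N` is subnormal in `G/N`.
(4) the subnormal subgroups of a simple group are `⊥`, `⊤`.
(5) trivial groups. (6) subgroups, for `HerJ J`: strong induction on `|G|`; for `G` nontrivial take `M`
normal with `G/M` simple; `U ⊓ M` is a subgroup of `M`, `U/(U ⊓ M)` is isomorphic to a subgroup of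
`G/M ∈ J`; use (3), (2).
(7) strong induction on `|G|`: `M` normal, `G/M` simple: `p ∣ |G/M|` or `p ∣ |M|`.
(8) for a class `H` closed under subgroups and images.
(9) subdirect products: `M/(M ⊓ N)` is isomorphic to the normal subgroup `MN/N` of `G/N`; (3). -/
def CompStmt : Prop :=
  ∀ J : GrpClass, IsoClosed J →
    (∀ (G H : Type) [Group G] [Group H] (φ : G →* H), Function.Surjective φ → CompIn J G →
      CompIn J H) ∧
    (∀ (G : Type) [Group G] (N : Subgroup G), N.Normal → CompIn J G → CompIn J N) ∧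
    (∀ (G : Type) [Group G] [Finite G] (N : Subgroup G) [N.Normal], CompIn J N →
      CompIn J (G ⧸ N) → CompIn J G) ∧
    (∀ (G : Type) [Group G] [Finite G], IsSimpleGroup G → (CompIn J G ↔ J G)) ∧
    (∀ (G : Type) [Group G], Subsingleton G → CompIn J G) ∧
    (HerJ J → ∀ (G : Type) [Group G], CompIn J G → ∀ U : Subgroup G, CompIn J U) ∧
    (∀ (G : Type) [Group G], CompIn J G → ∀ p : ℕ, p.Prime → p ∣ Nat.card G →
      ∃ (T : Type) (_ : Group T), IsSimpleGroup T ∧ J T ∧ p ∣ Nat.card T) ∧
    ((∀ (G : Type) [Group G], J G → Finite G) → SubClosed J →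
      (∀ (G H : Type) [Group G] [Group H] (φ : G →* H), Function.Surjective φ → J G → J H) →
      ∀ (G : Type) [Group G], J G → CompIn J G) ∧
    (∀ (G : Type) [Group G] [Finite G] (M N : Subgroup G) [M.Normal] [N.Normal],
      CompIn J (G ⧸ M) → CompIn J (G ⧸ N) → CompIn J (G ⧸ (M ⊓ N)))

/-! ### Module Unf -/

/-- (Unf) Groups which are not the product of two proper subgroups.
PROOF. Let `M` be a maximal proper normal subgroup, so `Q/M` is simple. If `K ⊔ M = ⊤` then `Q = M K`
(`M` normal), so `K = ⊤`. Hence `M` is contained in all the maximal subgroups, `M ≤ frattini Q`, nilpotent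
(`frattini_nilpotent`). Let `q ∣ |M|`, `q ∤ |Q/M|`, `R` a Sylow `q`-subgroup of `Q`: `R ≤ M` (its image in
`Q/M` is trivial), `R` is the Sylow subgroup of the nilpotent group `M`, hence normal in `Q` (it is the set of
the elements of `M` of `q`-power order); by Schur-Zassenhaus there is a complement `K`, `K ⊔ M = ⊤`, so `K = ⊤`
and `R = ⊥`, contradiction. -/
def UnfStmt : Prop :=
  ∀ (Q : Type) [Group Q] [Finite Q], Nontrivial Q →
    (∀ A B : Subgroup Q, Prd A B → A = ⊤ ∨ B = ⊤) →
    ∃ (M : Subgroup Q) (_ : M.Normal), IsSimpleGroup (Q ⧸ M) ∧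
      (∀ K : Subgroup Q, K ⊔ M = ⊤ → K = ⊤) ∧ Group.IsNilpotent M ∧
      ∀ q : ℕ, q.Prime → q ∣ Nat.card M → q ∣ Nat.card (Q ⧸ M)

/-! ### Module KK -/

/-- (KK) The embedding of Kaloujnine and Krasner.
PROOF. Let `s x` be a representative of `x : G ⧸ N`. `φ g = ⟨fun x => (s x)⁻¹ * g * s ((g : G ⧸ N)⁻¹ * x), g⟩`
(in `N`). Multiplicative with `(a * b).left x = a.left x * b.left (a.right⁻¹ * x)`. -/
def KKStmt : Prop :=
  ∀ (G : Type) [Group G] (N : Subgroup G) [N.Normal],
    ∃ φ : G →* RegularWreathProduct N (G ⧸ N), Function.Injective φ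

/-! ### Module Soc -/

/-- (Soc) Nonabelian minimal normal subgroups and components.
(i) `R` minimal normal in `G` and not abelian. Let `T ≤ R` be minimal among the nontrivial subgroups of `G`
which are normalized by `R`. The conjugates of `T` are also minimal of this kind; two of them are
equal or intersect trivially, and then they commute (both are normal in `R`). `R` is the normal
closure of `T`. If `T` were abelian, `R`, generated by the conjugates of `T`, would be abelian. A
subgroup of `T` normalized by `T` is normalized by `R` (which is generated by `T` and the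
conjugates which commute with `T`; the conjugates equal to `T` included), so `T` is simple.
(ii) `S` as in `IsComp`, `N` the normal closure. (α) each conjugate of `S` normalizes `S`. (β) let `L` be a
nontrivial normal subgroup of `G`. If `L` centralizes a conjugate of `S`, it centralizes all, so
`L ≤ (centralizer S).normalCore = ⊥`. So `⁅L, S⁆ ≠ ⊥`; then `N ⊓ L ≠ ⊥`... `L ∩ S`: for `l ∈ L` not centralizing
`S`: if `l` normalizes `S`, `⁅l, S⁆` is in `L ∩ S`, not trivial; otherwise `l S l⁻¹` commutes with `S` and for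
`s, t ∈ S` with `s t ≠ t s`: `⁅⁅l, s⁆, t⁆ = ⁅s⁻¹, t⁆`-like element: `l s l⁻¹ s⁻¹ ∈ L`, and its commutator with `t` is
`⁅s⁻¹, t⁆ ∈ L ∩ S`, not trivial. `S ⊓ L` is normal in `S` (simple), so `S ≤ L` and `N ≤ L`. This gives (δ), and (β),
(γ) (the centralizer of `N` is normal and contained in the core of the centralizer of `S`). -/
def SocStmt : Prop :=
  (∀ (G : Type) [Group G] [Finite G] (R : Subgroup G), IsChief ⊥ R → NonAb R →
    ∃ T : Subgroup G, T ≤ R ∧ IsSimpleGroup T ∧ NonAb T ∧ ConjComm T ∧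
      Subgroup.normalClosure (T : Set G) = R ∧ ∀ r ∈ R, ∀ t ∈ T, r * t * r⁻¹ ∈ T) ∧
  (∀ (G : Type) [Group G] [Finite G] (S : Subgroup G), IsComp S →
    (∀ r ∈ Subgroup.normalClosure (S : Set G), ∀ s ∈ S, r * s * r⁻¹ ∈ S) ∧
    IsChief ⊥ (Subgroup.normalClosure (S : Set G)) ∧
    (∀ g : G, (∀ n ∈ Subgroup.normalClosure (S : Set G), g * n = n * g) → g = 1) ∧
    ∀ L : Subgroup G, L.Normal → L ≠ ⊥ → Subgroup.normalClosure (S : Set G) ≤ L)

/-! ### Module AS -/

/-- (AS) Factorizations reduce to almost simple groups. Uses `CompStmt`, `SocStmt`.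
PROOF. Strong induction on `|K|`. `K` trivial: Comp (5). Let `R` be minimal normal in `K`; `K/R` is the
product of the images of `A`, `B`, so `CompIn J (K ⧸ R)` by induction. If `CompIn J R` use Comp (3). Suppose
not. `R` is not abelian: otherwise `R` is an elementary abelian `q`-group, `q` divides `|A|` or `|B|`, so
`A` or `B` has a subgroup of order `q`, `J` contains the group of order `q` (Comp (6), (4)), and then
`CompIn J R` (Comp (3)). The centralizer `C` of `R` is `⊥`: otherwise `CompIn J (K ⧸ C)` by induction, and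
`R` is isomorphic to a normal subgroup of `K ⧸ C` (`R ⊓ C = ⊥`). `K' = (R ⊔ A) ⊓ (R ⊔ B)` is the product of
`A ⊓ (R ⊔ B)` and `B ⊓ (R ⊔ A)` (if `g = a b ∈ K'` then `a = g b⁻¹ ∈ R ⊔ B`, `b = a⁻¹ g ∈ R ⊔ A`); if `K' ≠ ⊤` then
`CompIn J K'` by induction (Comp (6)) and `CompIn J R`, contradiction. So `R ⊔ A = ⊤ = R ⊔ B`.
`T ≤ R` from `SocStmt` (i). `N₁` = normalizer, `C₁` = centralizer of `T`; `N₁ = R (N₁ ⊓ A)`, `R ≤ T C₁` (the
conjugates of `T` different from `T` centralize `T`), `X = C₁ (N₁ ⊓ A)` subgroup, `N₁ = X T`.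
CLAIM `K = X B` (set of the products). Then `N₁ = X (N₁ ⊓ B)`, and the almost simple group `N₁ / C₁ ∈ F` (socle
the image of `T`) is the product of the images of `N₁ ⊓ A` and `N₁ ⊓ B`, which have the
composition factors in `J`; so `J` contains the image of `T`, and `CompIn J R` (conjugates of `T`, Comp
(3)): contradiction. PROOF OF THE CLAIM. Otherwise, for every `g : K`, `N₁ g` is not contained in `X B`
(`N₁ g B = K`: `K = N₁ B` since `R ≤ N₁`, and `g = n b`). Choose `x₁, ..., x_m ∈ A` such that the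
`T_j = x_j⁻¹ T x_j` are all the different conjugates of `T` (`K = N₁ A`), and `t_j ∈ T` with `t_j x_j ∉ X B`
(`N₁ x_j = X T x_j`). Let `r = ∏ x_j⁻¹ t_j x_j` (commuting factors, in different `T_j`). Then
`x_j r = t_j c x_j` with `c ∈ C₁`, so `x_j r ∈ X t_j x_j` is not in `X B`. But `r = a b`, and there is `j` with
`a⁻¹ T_j a = T`, so `x_j a ∈ N₁ ⊓ A ≤ X` and `x_j r = (x_j a) b ∈ X B`. -/
def ASStmt : Prop :=
  ∀ F : GrpClass, IsFormation F → SubClosed F → ∀ J : GrpClass, IsoClosed J → HerJ J →
    FactClosed F J → ∀ (K : Type) [Group K] [Finite K], F K → ∀ A B : Subgroup K,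
      CompIn J A → CompIn J B → Prd A B → CompIn J K

/-! ### Module Syl -/

/-- (Syl) Sylow subgroups of a product.
PROOF. `A₀`, `B₀` Sylow `r`-subgroups of `A`, `B`, `P ≥ A₀` a Sylow subgroup of `G`, `B₀ ≤ g⁻¹ P g`, `g = a b`. Then
`a⁻¹ A₀ a`, `b B₀ b⁻¹ ≤ a⁻¹ P a =: R`. The number of the products is `|A₀| |B₀| / |A₁ ⊓ B₁|` with `A₁ ⊓ B₁` an
`r`-subgroup of `A ⊓ B`, so it is at least the `r`-part of `|A| |B| / |A ⊓ B| = |G|`, so all of `R`. -/
def SylStmt : Prop :=
  ∀ (G : Type) [Group G] [Finite G] (A B : Subgroup G), Prd A B → ∀ r : ℕ, r.Prime →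
    ∃ (R : Sylow r G) (A₁ B₁ : Subgroup G), A₁ ≤ A ∧ B₁ ≤ B ∧ A₁ ≤ R ∧ B₁ ≤ R ∧
      ∀ x ∈ R, ∃ a ∈ A₁, ∃ b ∈ B₁, x = a * b

/-! ### Module SolP -/

/-- (SolP) A soluble group is obtained from cyclic subgroups of prime power order by products.
PROOF. Strong induction on the order of the subgroup `U`. `U = ⊥` is cyclic. `U` nontrivial soluble has
a normal subgroup `M` of prime index `r`; `S` a Sylow `r`-subgroup of `U`. If `S < U` then `U = M S` and both are
smaller. If `U` is an `r`-group, not cyclic, it has two different maximal subgroups (one maximal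
subgroup `M`; an element `x ∉ M` is in a maximal subgroup as `U` is not cyclic); both are normal, and
`U` is their product. -/
def SolPStmt : Prop :=
  ∀ (H : Type) [Group H] [Finite H], Group.IsSolvable H → ∀ C : Subgroup H → Prop,
    (∀ (U : Subgroup H) (r : ℕ), r.Prime → IsCyclic U → IsPGroup r U → C U) →
    (∀ U A B : Subgroup H, A ≤ U → B ≤ U → C A → C B → (∀ u ∈ U, ∃ a ∈ A, ∃ b ∈ B, u = a * b) → C U) →
    C ⊤

/-! ## Local formations -/

/-! ### Module Ex -/

/-- (Ex) The canonical function `F(p) = Ext F p` of a local formation closed under subgroups. Uses the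
old modules `CentStmt`, `CFStmt`, `TrivStmt`, `UpStmt`, `DownStmt`, `WrStmt`, `FPPropsStmt`, `CycStmt`,
`RGrpStmt`, `PLocStmt`. With `F = LF f` we have `Ext F p X ↔ FP f p X` (`→`: `WrStmt`, `DownStmt`; `←`: `UpStmt`).
(e1) formation: `FPPropsStmt`; subgroups: `X ∈ Ext`, `U ≤ X`, `φ : W → X` from `WrStmt`; the preimage of `U` is in
`F`; `DownStmt`. (e2) `φ = id`. (e3) composition of `W → X → X ⧸ V`.
(e4) `V` elementary abelian normal in `W ∈ F`, `C` its centralizer. `{(v w, w)}` is a subgroup of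
`W × W ∈ F`, isomorphic to `V ⋊ W`; factor out `{(c, c) | c ∈ C}`: the group `V ⋊ (W/C)` is in `F` and `V` is
self-centralizing in it; `DownStmt`. (Or adapt the proof of `DownStmt`.)
(e5) `X` simple nonabelian, `p ∣ |X|`: `(⊥, ⊤)` is a chief factor with centralizer `⊥`, so `f p X`; `N = ⊥`
in `FP`. (e6) `PLocStmt`: `f p` is not empty (as `C_p ∈ F`), all `p`-groups are in `F` by (i), and in `FP`
with `N = ⊤`. (e7) `L` a minimal normal `p`-subgroup of `G`, `C` its centralizer, `Ext F p (G ⧸ C)`: there is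
a normal `p`-subgroup `N'` of `G/C` with quotient in `f p`; its preimage in `G` is `≤ C` by `TrivStmt`, so
`f p (G ⧸ C)`; `CFStmt` for `N = L` (the only chief factor inside `L` is `(⊥, L)`).
(e8) `L` minimal normal nonabelian with centralizer `C`, `G ⧸ C ∈ F`: the image of `L` in `G ⧸ C` is a
chief factor with trivial centralizer and the same order, so `f p (G ⧸ C)` for all `p ∣ |L|`; `CFStmt`. -/
def ExStmt : Prop :=
  ∀ F : GrpClass, IsLocal F → SubClosed F →
    (∀ p : ℕ, p.Prime →
      (IsFormation (Ext F p) ∧ SubClosed (Ext F p)) ∧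
      (∀ (X : Type) [Group X], Ext F p X → F X) ∧
      (∀ (X : Type) [Group X] [Finite X] (V : Subgroup X) [V.Normal], IsPGroup p V →
        Ext F p (X ⧸ V) → Ext F p X) ∧
      (∀ (W : Type) [Group W] (V C : Subgroup W) [V.Normal] [C.Normal], V ≠ ⊥ →
        (∀ v ∈ V, v ^ p = 1) → (∀ v ∈ V, ∀ w ∈ V, v * w = w * v) →
        (∀ w : W, w ∈ C ↔ ∀ v ∈ V, w * v = v * w) → F W → Ext F p (W ⧸ C)) ∧
      (∀ (X : Type) [Group X], IsSimpleGroup X → (¬ ∀ a b : X, a * b = b * a) → F X →
        p ∣ Nat.card X → Ext F p X) ∧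
      (F (Multiplicative (ZMod p)) → ∀ (X : Type) [Group X] [Finite X], IsPGroup p X →
        Ext F p X) ∧
      (∀ (G : Type) [Group G] [Finite G] (L C : Subgroup G) [L.Normal] [C.Normal], IsChief ⊥ L →
        IsPGroup p L → IsCent ⊥ L C → F (G ⧸ L) → Ext F p (G ⧸ C) → F G)) ∧
    (∀ (G : Type) [Group G] [Finite G] (L C : Subgroup G) [L.Normal] [C.Normal], IsChief ⊥ L →
      NonAb L → IsCent ⊥ L C → F (G ⧸ L) → F (G ⧸ C) → F G)

/-! ### Module PC -/

/-- (PC) Uses the old `FSStmt`. PROOF. For `N ≤ Z ≤ G`, `Z / N` is isomorphic to a subgroup of `G ⧸ N ∈ F`,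
so `resid F Z ≤ N` (FS (ii)), and all subgroups containing `N` are `F`-subnormal (FS (i)). -/
def PCStmt : Prop :=
  ∀ F : GrpClass, IsFormation F → SubClosed F → Superradical F → PrdC F

/-! ### Module KL -/

/-- (KL) THE KEY LEMMA. Uses `CompStmt`, `UnfStmt`, `KKStmt`, `ExStmt`, the old `CycStmt`, `RGrpStmt`.
PROOF. `H` is `HerJ` (Comp (8)). Strong induction on `|G|`. All proper subgroups and quotients of `G` are
in `F` and have the composition factors in `H` (Comp (6), (1)), so they are in `H`. `G` trivial: an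
image of any group in `H`. If `G` is the product of two proper subgroups, use the hypothesis. Otherwise
`M` from `UnfStmt`, `X = G/M` simple, in `H` (Comp (1), (4)). If `M = ⊥` done. If two different primes `q, q'`
divide `|M|`: the Sylow subgroups `P, P'` of the nilpotent group `M` are normal in `G`, `P ⊓ P' = ⊥`, and
`G/P, G/P' ∈ H` by induction; `inf`. So `M` is a `q`-group, `q ∣ |X|`. If `X` is abelian then it has order
`q` and `G` is a `q`-group: `RGrpStmt` for `H` (the group of order `q` is isomorphic to `X ∈ H`; all `q`-groups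
are in `F` by Ex (e6), (e2)). If `X` is nonabelian: `Ext F q X` by Ex (e5); `W = RegularWreathProduct M X`:
the kernel of `rightHom` is a `q`-group, so `F W` by the definition of `Ext`. `W` is the product of this
kernel, isomorphic to `X → M` with `M ∈ H` (proper subgroup; `CycStmt` (ii)), and of the range of `inl`,
isomorphic to `X ∈ H`. So `W ∈ H`, and `G` embeds in `W` (`KKStmt`). -/
def KLStmt : Prop :=
  ∀ F : GrpClass, IsLocal F → SubClosed F → ∀ H : GrpClass, IsFormation H → SubClosed H →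
    (∀ (G : Type) [Group G], H G → F G) → (∃ (X : Type) (_ : Group X), H X) →
    (∀ (G : Type) [Group G] [Finite G], F G → ∀ A B : Subgroup G, H A → H B → Prd A B → H G) →
    ∀ (G : Type) [Group G], F G → CompIn H G → H G

/-! ### Module NecI -/

/-- (NecI) Necessity of (i), (ii), (iii). Uses `KLStmt`, `ExStmt`, `PCStmt`, `SocStmt`, `CompStmt`, the old
`WrStmt`. (1) `φ : W → K` from `WrStmt`; `W` is the product of the preimages of `A`, `B`, which are in `F` by the
definition of `Ext`, and contain `φ.ker`, `W/φ.ker ≅ K ∈ F`; so `F W` by `PCStmt`; Ex (e4) with `C = V = φ.ker`.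
(2) `KLStmt` for `H = Ext F p`. (3) `B, C ∈ F` with the composition factors in `Ext F p`: `Ext F p B` by (2)
if `C_p ∈ F`; if `C_p ∉ F`, `Ext F p` is empty (`X × C_p`) and `B`, `C` are trivial, so `A` is: contradiction. By
(1) `Ext F p A`, and the subgroup `T`. (4) is `PrdC`. -/
def NecIStmt : Prop :=
  ∀ F : GrpClass, IsLocal F → SubClosed F → Superradical F →
    (∀ p : ℕ, p.Prime → ∀ (K : Type) [Group K] [Finite K], F K → ∀ A B : Subgroup K, Ext F p A →
      Ext F p B → Prd A B → Ext F p K) ∧ CondI F ∧ CondII F ∧ CondIII F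

/-! ### Module SuffP -/

/-- (SuffP) Uses `ExStmt`, `SocStmt`, the old `CentStmt`. The step for a minimal normal subgroup.
PROOF. `L` minimal normal in `G`, `L ≤ M ⊓ N`. `C` its centralizer (`CentStmt` (i)). `G ⧸ C` is the product
of the images of `M`, `N`. If `L` is abelian it is elementary abelian for a prime `p`; the image of `M` is
isomorphic to `M / C_M(L)`, in `Ext F p` by Ex (e4), similarly for `N`; `G ⧸ C ∈ F` as `L ≤ C`; so
`Ext F p (G ⧸ C)` and Ex (e7). If `L` is not abelian: the image `L'` of `L` in `G ⧸ C` is minimal normal,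
not abelian, with trivial centralizer; `S` from `SocStmt` (i) with `normalClosure S = L'`, `IsComp S`
(`cent`: the core of the centralizer of `S` centralizes the normal closure). The quotient of `G ⧸ C` by
`L'` is an image of `G ⧸ L`. The images of `M`, `N` contain `L'`. So `F (G ⧸ C)` by (iii), and Ex (e8). -/
def SuffPStmt : Prop :=
  ∀ F : GrpClass, IsLocal F → SubClosed F →
    (∀ p : ℕ, p.Prime → ∀ (K : Type) [Group K] [Finite K], F K → ∀ A B : Subgroup K, Ext F p A →
      Ext F p B → Prd A B → Ext F p K) → CondIII F →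
    ∀ (G : Type) [Group G] [Finite G] (L M N : Subgroup G) [L.Normal], IsChief ⊥ L → L ≤ M → L ≤ N →
      F (G ⧸ L) → F M → F N → Prd M N → F G

/-! ### Module SuffI -/

/-- (SuffI) Uses `SuffPStmt`, `CompStmt`, `ASStmt`, `ExStmt`, the old `FSStmt`, `CentStmt`.
PROOF. (P) `Ext F p` is closed under products in `F`: `ASStmt` for `J = Ext F p` (`HerJ`, Comp (8)), then (i)
(if `C_p ∉ F` then `Ext F p` is empty). `CompIn (Ext F p) A` by Comp (8).
(Q) `R ≤ M ⊓ N` normal in `G`, `F (G ⧸ R)`, `F M`, `F N`, `Prd M N` imply `F G`: strong induction on `|G|`. `R = ⊥`: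
clear. Otherwise `L ≤ R` minimal normal in `G`; `F (G ⧸ L)` by induction (images of `M`, `N`, `R`);
`SuffPStmt`. (R) then exactly as in the old module `SSup` (copy it). -/
def SuffIStmt : Prop :=
  ∀ F : GrpClass, IsLocal F → SubClosed F → CondI F → CondII F → CondIII F → Superradical F

/-! ## The conditions (a), (b), (c) -/

/-! ### Module KA -/

/-- (KA) Uses nothing. `F` a formation closed under subgroups.
(1) `S ≀ P ∈ F` implies `WP S Ω P ∈ F` for every finite `P`-set: `P ∈ F` (image), so assume `Ω` not empty; for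
`ω ∈ Ω` the map `WP S Ω P → RegularWreathProduct S P`, `(f, p) ↦ ⟨fun x => f (x • ω), p⟩` is a homomorphism
(`(p • f) ω' = f (p⁻¹ • ω')`, and `x ↦ f (p⁻¹ • x • ω) = f ((p⁻¹ * x) • ω)`), its image is in `F` as a
subgroup; the intersection of the kernels over `ω ∈ Ω` is trivial; so `WP S Ω P ∈ F` (a finite
intersection of normal subgroups with quotient in `F`).
(2) subgroups: `Q ≤ P`: `S ≀ Q` is an image of the subgroup `{w | w.right ∈ Q}` of `S ≀ P`
(restrict the functions to `Q`).
(3) images: `φ : P → Q` surjective. By (1) for the `P`-set `Q`; `WP S Q P → S ≀ Q`, `(f, p) ↦ ⟨f, φ p⟩`. So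
`Wrc F S` is closed under isomorphism. (4) `S ≀ P ∈ F` implies `P ∈ F` and `S ∈ F` (the subgroup of the
functions supported at `1`). -/
def KAStmt : Prop :=
  ∀ F : GrpClass, IsFormation F → SubClosed F → ∀ (S : Type) [Group S],
    (∀ (P Ω : Type) [Group P] [Finite P] [Finite Ω] [MulAction P Ω], Wrc F S P → F (WP S Ω P)) ∧
    SubClosed (Wrc F S) ∧
    (∀ (P Q : Type) [Group P] [Group Q] (φ : P →* Q), Function.Surjective φ → Wrc F S P →
      Wrc F S Q) ∧
    (∀ (P : Type) [Group P], Wrc F S P → F P ∧ F S)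

/-! ### Module KB -/

/-- (KB) Uses `KAStmt`. `PrdC F`.
(1) products: `RegularWreathProduct S P` is the product of `{w | w.right ∈ A}` and `{w | w.right ∈ B}`, which
contain the kernel of `rightHom` (quotient `P ∈ F`); and `{w | w.right ∈ A}` is isomorphic to `WP S P A`
(`A` acting on `P` by left multiplication), in `F` by KA (1).
(2) `Wrc F S` is a formation (`F S`): `finite`, `quot`: KA; `inf`: `P = G/(M ⊓ N)` embeds in `G/M × G/N`, which is
the product of `G/M × 1` and `1 × G/N`, isomorphic to `G/M`, `G/N`; (1) and KA (2).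
(3) faithful actions: `P ∈ F` acts on `Ω₁`, `Ω₂`, `WP S Ω₁ P`, `WP S Ω₂ P ∈ F`. Then `WP S (Ω₁ × Ω₂) P ∈ F`: it
embeds in `W = WP S (Ω₁ × Ω₂) (P × P)` (diagonal), and `W` is the product of the subgroups over `P × 1` and
`1 × P`; the first one embeds in a power of `WP S Ω₁ P` (for `ω ∈ Ω₂` the functions `f (·, ω)`), so it is
in `F` (finite subdirect product), similarly the second. So `WP S (Fin n → Ω) P ∈ F` for all `n`
(induction; `Fin 0 → Ω`: `WP` is `S × P`, in `F`), and for `Ω → Ω` (`n = |Ω|`). If `P` acts faithfully on `Ω` the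
orbit of `id : Ω → Ω` is regular, and restriction of the functions to it is a homomorphism of
`WP S (Ω → Ω) P` onto `S ≀ P`: `(f, p) ↦ ⟨fun x => f (x • id), p⟩`.
(`F S` and `F P` follow from `F (WP S Ω P)` if `Ω` is not empty; if `Ω` is empty `P` is trivial.) -/
def KBStmt : Prop :=
  ∀ F : GrpClass, IsFormation F → SubClosed F → PrdC F → ∀ (S : Type) [Group S], F S →
    (∀ (P : Type) [Group P] [Finite P], F P → ∀ A B : Subgroup P, Wrc F S A → Wrc F S B →
      Prd A B → Wrc F S P) ∧
    IsFormation (Wrc F S) ∧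
    (∀ (P Ω : Type) [Group P] [Finite P] [Finite Ω] [MulAction P Ω] [FaithfulSMul P Ω], F P →
      F (WP S Ω P) → Wrc F S P)

/-! ### Module KC -/

/-- (KC) Uses `KLStmt`, `KAStmt`, `KBStmt`. `KLStmt` for `H = Wrc F S`; the trivial group is in `Wrc F S`
(`S ≀ 1 ≅ S`). The converse: `CompStmt` (8) with `KAStmt`. -/
def KCStmt : Prop :=
  ∀ F : GrpClass, IsLocal F → SubClosed F → PrdC F → ∀ (S : Type) [Group S], F S →
    ∀ (P : Type) [Group P], Wrc F S P ↔ F P ∧ CompIn (Wrc F S) P

/-! ### Module Tw -/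

/-- (Tw) The twist. Uses `KAStmt`. PROOF. `H = A ⧸ T`. In `A ≀ H` let
`Γ = {w | ∀ x y, (w.left x : A ⧸ T) = w.left y}`, `N = {w | w.right = 1 ∧ ∀ x, w.left x ∈ T}`; the map
`Γ → H × H`, `w ↦ (w.left 1, w.right)` is a surjective homomorphism with kernel `N`, and `H × H ∈ F`.
`Γ₁ = {w | ∀ x, w.left x ∈ T}` is isomorphic to `T ≀ H ∈ F`. `Γ₂ = {w | ∀ x, (w.left x : A ⧸ T) = w.right}` is
the conjugate `c⁻¹ Γ₁ c` for `c = ⟨fun x => s (x⁻¹), 1⟩`, `s` a section of `A → H`: for `w ∈ Γ₁` the value of
`c⁻¹ w c` at `x` is `s(x⁻¹)⁻¹ w.left x s((w.right⁻¹ x)⁻¹)`, modulo `T` equal to `x x⁻¹ w.right`. `Γ = Γ₁ Γ₂`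
(`(d, h) = (1, d⁻¹ h)(d, d)` in `H × H`, constants commute with the permutations modulo `N`). So `Γ ∈ F` by
`PrdC`. The subgroup `{w ∈ Γ | w.right = 1}` maps onto `A` by `w ↦ w.left 1`. -/
def TwStmt : Prop :=
  ∀ F : GrpClass, IsFormation F → SubClosed F → PrdC F → ∀ (A : Type) [Group A] [Finite A]
    (T : Subgroup A) [T.Normal], Wrc F T (A ⧸ T) → F A

/-! ### Module Emb -/

/-- (Emb) The embedding of `G` in `AutG S ≀ PermG S`. Uses `SocStmt`. `Ω = G ⧸ normalizer S`.
PROOF. Let `s ω` be a representative of `ω`. For `g ∈ G`: `Φ g = (f, π)`, `π` the permutation induced by `g`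
and `f ω` the automorphism of `S` induced by `(s ω)⁻¹ * g * s (g⁻¹ • ω) ∈ normalizer S`. Kernel: `g` acts
trivially on `Ω` and `(s ω)⁻¹ g (s ω)` centralizes `S` for all `ω`, so `g` is in the core of the centralizer
of `S`. `N` normalizes all the conjugates of `S` and induces inner automorphisms (`N` is generated by the
conjugates of `S`; those different from `s ω S (s ω)⁻¹` centralize it). The last statement: for `ω`, `t ∈ S` the
element `s ω t (s ω)⁻¹` is mapped to the function which is `conj t` at `ω` and `1` elsewhere; these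
functions generate all the functions with values in the inner automorphisms. -/
def EmbStmt : Prop :=
  ∀ (G : Type) [Group G] [Finite G] (S : Subgroup G), IsComp S →
    ∃ Φ : G →* WP (AutG S) (G ⧸ Subgroup.normalizer (S : Set G)) (PermG S),
      Function.Injective Φ ∧ (∀ π : PermG S, ∃ g : G, (Φ g).right = π) ∧
      ∀ w : WP (AutG S) (G ⧸ Subgroup.normalizer (S : Set G)) (PermG S),
        (w.right = 1 ∧ ∀ ω, ∃ t : S, ((w.left ω : AutG S) : MulAut S) = MulAut.conj t) ↔
          ∃ n ∈ Subgroup.normalClosure (S : Set G), Φ n = w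

/-! ### Module Lift -/

/-- (Lift) Uses `ExStmt`, `CompStmt`. Extensions of soluble groups. `F` with (i).
PROOF. Strong induction on `|V|`, simultaneously `F W` and `Ext F q W` for all `q ∈ π`. `V = ⊥`: hypothesis (and
Ex (e2)). Otherwise let `U ≤ V` be minimal normal in `W`: a `q`-group (soluble), `q ∈ π`. `F (W ⧸ U)` and
`Ext F r (W ⧸ U)` for `r ∈ π` by induction. `F W` by the definition of `Ext F q (W ⧸ U)`. For `r ∈ π`:
`CompIn (Ext F r) W` by Comp (3): `W ⧸ U ∈ Ext F r` (Comp (8)), and `U` is a `q`-group with composition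
factors of order `q`, in `Ext F r` by hypothesis; so `Ext F r W` by (i) (`C_r ∈ F` follows from `Ext F r` not
empty). (If `π` is empty then `V = ⊥`.) -/
def LiftStmt : Prop :=
  ∀ F : GrpClass, IsLocal F → SubClosed F → CondI F → ∀ π : Set ℕ,
    (∀ q ∈ π, q.Prime ∧ ∀ r ∈ π, Ext F q (Multiplicative (ZMod r))) →
    ∀ (W : Type) [Group W] [Finite W] (V : Subgroup W) [V.Normal], Group.IsSolvable V →
      (∀ q : ℕ, q.Prime → q ∣ Nat.card V → q ∈ π) → F (W ⧸ V) → (∀ q ∈ π, Ext F q (W ⧸ V)) → F W

/-! ### Module PiM -/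

/-- (PiM) Uses `UnfStmt`, `ExStmt`, `CompStmt`. PROOF. `M`, `X = Q/M` from `UnfStmt`, `π` = the primes dividing
`|X|`; so all primes dividing `|Q|` are in `π`. `X ∈ F`. If `X` is nonabelian: `Ext F q X` for `q ∈ π` (Ex (e5)),
its subgroups of order `r` are in `Ext F q` (Ex (e1)), so `Ext F q C_r` for `r ∈ π`. `M` is nilpotent, so its
composition factors have prime order, in `π`: `CompIn (Ext F q) M` (e.g. `M` is soluble: strong induction
with a normal subgroup of prime index, Comp (3)), so `CompIn (Ext F q) Q` (Comp (3), (8)) and `Ext F q Q` by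
(i). If `X` is abelian, `|X| = q`, then `π = {q}` and `Q` is a `q`-group: Ex (e6) (`C_q ≅ X ∈ F`). -/
def PiMStmt : Prop :=
  ∀ F : GrpClass, IsLocal F → SubClosed F → CondI F → ∀ (Q : Type) [Group Q] [Finite Q],
    Nontrivial Q → F Q → (∀ A B : Subgroup Q, Prd A B → A = ⊤ ∨ B = ⊤) →
    ∃ π : Set ℕ, (∀ q ∈ π, q.Prime ∧ ∀ r ∈ π, Ext F q (Multiplicative (ZMod r))) ∧
      (∀ q ∈ π, Ext F q Q) ∧ ∀ q : ℕ, q.Prime → q ∣ Nat.card Q → q ∈ π

/-! ### Module Core -/

/-- (Core) The unfactorizable case of (a). Uses `PiMStmt`, `CompStmt`, `ExStmt`, `KAStmt`, `KBStmt`, `EmbStmt`,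
`LiftStmt`, `SocStmt`, `AutSStmt`. PROOF. `F S`: `S ≅ Inn S ≤ AutG S`. If `PermG S` is trivial both sides are
true: `S` is normal, `G` embeds in `AutG S` (the centralizer of `S` is its own core, `⊥`), and
`S ≀ 1 ≅ S`. Otherwise `Q = G/N` is nontrivial. `A = AutG S`, `P = PermG S`, `Ω`. `N ≤ normalizer S` acts
trivially on `Ω`, so `P` is an image of `Q`. `π` from `PiMStmt`: `F P`, `Ext F q P` for `q ∈ π`.
CLAIM: `W = WP A Ω P ∈ F` if `WP S Ω P ∈ F` or `G ∈ F`. Let `N₀ = {w | w.right = 1, w.left ω ∈ T}` with `T = Inn S`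
(AutS), normal in `W`. `W/N₀ ∈ F` by `LiftStmt`: `V` = image of `{w | w.right = 1}`, isomorphic to
`Ω → (A ⧸ T)`, soluble by `OutSol` (`T ≅ S ∈ F`), the primes dividing `|A ⧸ T|` divide `|Q|` (AutS, last
part); the quotient of `W/N₀` by `V` is isomorphic to `P`. The subgroup `{w | w.right = 1} ≅ (Ω → A)` of `W`
is in `F` (old `CycStmt` (ii)). `W` is the product of it and of `{w | ∀ ω, w.left ω ∈ T}`, isomorphic to
`WP S Ω P` (`T ≅ S`), or of it and the image of `G` (`EmbStmt`: all `π ∈ P` occur). Both contain `N₀`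
(`EmbStmt`). By `PrdC`, `W ∈ F`. (⇒): `G ∈ F` gives `W ∈ F`, the subgroup `WP S Ω P ∈ F`, `P` is faithful on
`Ω`, KB (3). (⇐): KA (1), CLAIM, `G` embeds in `W`. -/
def CoreStmt : Prop :=
  ∀ F : GrpClass, IsLocal F → SubClosed F → PrdC F → CondI F → OutSol F →
    ∀ (G : Type) [Group G] [Finite G] (S : Subgroup G), IsComp S →
      F (G ⧸ Subgroup.normalClosure (S : Set G)) → F (AutG S) →
      (∀ A B : Subgroup (G ⧸ Subgroup.normalClosure (S : Set G)), Prd A B → A = ⊤ ∨ B = ⊤) →
      (F G ↔ Wrc F S (PermG S))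

/-! ### Module Quo -/

/-- (Quo) Factoring out the centralizer. `K` is the core of the centralizer of `S'`, `T` the image of `S'` in
`B/K`. PROOF. `S' ⊓ K = ⊥` (`S'` has trivial center). So `T ≅ S'`.
(*) the third statement: if `b` normalizes `S'` its image normalizes `T`. Conversely let
`b S' b⁻¹ ≤ S' K`; if `b` does not normalize `S'` then `b S' b⁻¹` commutes with `S'`, so it is contained in
`K` (if `s k` commutes with `S'` then `s` is in the center of `S'`), and `K` centralizes all conjugates of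
`S'`, so `b S' b⁻¹` is abelian, contradiction.
(1) `IsComp T`: `conj` is clear. `cent`: let the image of `b` be in the core of the centralizer of `T`. It
normalizes `T`, so `b` normalizes `S'`, and for `s ∈ S'`, `b s b⁻¹ s⁻¹ ∈ S' ⊓ K = ⊥`: `b` centralizes `S'`. The
same for the conjugates of `b`; so `b ∈ K`.
(4) `ψ` (aut. of `T` induced by the image of `b`) = (aut. of `S'` induced by `b`), transported by `T ≃* S'`
(`MulAut.congr`). -/
def QuoStmt : Prop :=
  ∀ (B : Type) [Group B] [Finite B] (S' K : Subgroup B) [K.Normal], IsSimpleGroup S' → NonAb S' →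
    ConjComm S' → K = (Subgroup.centralizer (S' : Set B)).normalCore →
    IsComp (S'.map (QuotientGroup.mk' K)) ∧
    Nonempty (S'.map (QuotientGroup.mk' K) ≃* S') ∧
    (∀ b : B, (b : B ⧸ K) ∈ Subgroup.normalizer (S'.map (QuotientGroup.mk' K) : Set (B ⧸ K)) ↔
      b ∈ Subgroup.normalizer (S' : Set B)) ∧
    ∃ ψ : AutG (S'.map (QuotientGroup.mk' K)) →* AutG S', Function.Injective ψ

/-! ### Module Sub -/

/-- The group of the permutations of the conjugates of `S` induced by the subgroup `B`. -/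
abbrev PermB {G : Type} [Group G] (S B : Subgroup G) :
    Subgroup (Equiv.Perm (G ⧸ Subgroup.normalizer (S : Set G))) :=
  B.map (MulAction.toPermHom G (G ⧸ Subgroup.normalizer (S : Set G)))

/-- (Sub) Passing to a subgroup `B ≥ N`. Uses `SocStmt`, `QuoStmt` (for `S'` as a subgroup of `B`; it gives (*),
(1) and half of (3)). For `g ∈ G` let `S' = g S g⁻¹` (`≤ N ≤ B`), `K g` the
core in `B` of the centralizer of `S'` in `B`, `Ḡ = B/K`, `T g` the image of `S'` in `Ḡ` (isomorphic to `S'`
as `S'` has trivial center).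
(*) `b ∈ B` normalizes `S'` if and only if its image in `Ḡ` normalizes `T g`: if `b S' b⁻¹ ≤ S' K` and
`b S' b⁻¹` is not `S'` then it commutes with `S'`, so it is contained in `K` (for `s k` commuting with `S'`
`s` is in the center of `S'`), hence centralizes its own conjugate `b S' b⁻¹` (`K` centralizes all
`B`-conjugates of `S'`), but it is not abelian.
(1) `IsComp (T g)`: `conj` is clear. `cent`: let the image of `b` be in the core of the centralizer of
`T g`. It normalizes `T g`, so `b` normalizes `S'`, and for `s ∈ S'` `b s b⁻¹ s⁻¹ ∈ S' ⊓ K = ⊥`; the same for the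
`B`-conjugates of `S'`, so `b ∈ K g`.
(2) the quotient of `Ḡ` by the normal closure of `T g` is an image of `B/N`, which is isomorphic to the
subgroup `U` = image of `B` of `G/N` (`N` is mapped into the normal closure of `T g`: conjugates of `S` which are
not `B`-conjugates of `S'` commute with all of these, so they are in `K g`).
(3) `AutG (T g)` is isomorphic to a subgroup of `AutG S` (conjugation by `g`; by (*)).
(4) `PermG (T g)` is the group induced by `B` on the `B`-orbit of the point `g` of `G ⧸ normalizer S`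
(stabilizer of this point in `B`: the elements normalizing `S'`, (*)). `ρ g (perm. of b) = perm. of b̄`.
Joint injectivity: if `ρ g x = 1` for all `g`, `x` induced by `b`, then `b` normalizes all the `S'`.
(5) the intersection of the `K g` centralizes the normal closure of `S`. -/
def SubStmt : Prop :=
  ∀ (G : Type) [Group G] [Finite G] (S B : Subgroup G), IsComp S →
    Subgroup.normalClosure (S : Set G) ≤ B →
    ∃ (K : G → Subgroup B) (_ : ∀ g, (K g).Normal) (T : ∀ g, Subgroup (B ⧸ K g))
      (ρ : ∀ g, PermB S B →* PermG (T g)),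
      (∀ b : B, (∀ g, b ∈ K g) → b = 1) ∧ (∀ x : PermB S B, (∀ g, ρ g x = 1) → x = 1) ∧
      ∀ g, IsComp (T g) ∧ Nonempty (T g ≃* S) ∧ Function.Surjective (ρ g) ∧
        (∃ (U : Subgroup (G ⧸ Subgroup.normalClosure (S : Set G)))
          (φ : U →* ((B ⧸ K g) ⧸ Subgroup.normalClosure (T g : Set (B ⧸ K g)))),
          Function.Surjective φ) ∧
        ∃ ψ : AutG (T g) →* AutG S, Function.Injective ψ

/-! ### Module CA -/

/-- (CA) The condition (a). Uses `SubStmt`, `CoreStmt`, `SocStmt`, `KAStmt`, `KBStmt`, `KCStmt`, `CompStmt`.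
PROOF. By `KCStmt` (`F S` follows from `F (AutG S)` (`Inn S ≅ S`) and from `F G`; `PermG S` is an image of `G/N`)
the right side is `F (AutG S) ∧ Wrc F S (PermG S)`. `F G` implies `F (AutG S)` (image of a subgroup).
Strong induction on `|G|` for all `S`. Let `Q = G/N`. If `Q` is not a product of two proper subgroups:
`CoreStmt`. Otherwise `G = B C`, `N ≤ B, C < G`. `SubStmt` for `B` and `C`; all hypotheses hold for the `B/K g`
(smaller than `G`) and `T g` (`T g ≅ S` and `RegularWreathProduct.congr`).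
(⇐) `Wrc F S (PermB S B)` (subgroup of `PermG S`), so `Wrc F (T g) (PermG (T g))` (image), `F (B ⧸ K g)` by
induction, `F B` (finite subdirect product), similarly `F C`; `PrdC`.
(⇒) `F (B ⧸ K g)`, so `Wrc F S (PermG (T g))` by induction; `Wrc F S` is a formation (KB), so it contains the
subdirect product `PermB S B`; similarly `PermB S C`; `PermG S` is their product, in `F`; KB (1). -/
def CAStmt : Prop :=
  ∀ F : GrpClass, IsLocal F → SubClosed F → PrdC F → CondI F → OutSol F → CondA F

/-! ### Module CBC -/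

/-- (CBC) The conditions (b), (c). Uses `KAStmt`, `KBStmt`, `KCStmt`, `TwStmt`, `CompStmt`.
(b) `A ∈ F`, `B`, `C ∈ F` with composition factors in `Wrc F S`: `Wrc F S B`, `Wrc F S C` by `KCStmt`,
`Wrc F S A` by KB (1), `Wrc F S T` by KA (2). (c) part 1 is `PrdC`; part 2: `KCStmt` for `S = T`, `P = A ⧸ T`, and
`TwStmt`. -/
def CBCStmt : Prop :=
  ∀ F : GrpClass, IsLocal F → SubClosed F → PrdC F → CondB F ∧ CondC F

/-! ### Module PBm -/

/-- (PBm) Uses `SubStmt`, `SocStmt`, `KAStmt`, `CompStmt`. PROOF. `SubStmt`; `B ⧸ K g ∈ F`, (a) (`⇒`) for `T g`: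
`CompIn (Wrc F (T g)) (PermG (T g))`, so `CompIn (Wrc F S) (PermG (T g))` (`T g ≅ S`). `PermB S B` is a finite
subdirect product of the `PermG (T g)`: Comp (9), (1) (kernels of the `ρ g`, intersection `⊥`). -/
def PBmStmt : Prop :=
  ∀ F : GrpClass, IsFormation F → SubClosed F → CondA F →
    ∀ (G : Type) [Group G] [Finite G] (S B : Subgroup G), IsComp S →
      F (G ⧸ Subgroup.normalClosure (S : Set G)) → Subgroup.normalClosure (S : Set G) ≤ B → F B →
      CompIn (Wrc F S) (PermB S B)

/-! ### Module AutS -/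

/-- (AutS) Uses `SocStmt`. The almost simple group `AutG S`, `T = {a | ∃ t : S, a = conj t}`.
PROOF. `T ≅ S` since `S` has trivial center; `α ∘ conj t ∘ α⁻¹ = conj (α t)`: `T` is normal, and `α`
centralizing `T` fixes all `t`. `AutG S ⧸ T` is an image of `normalizer S / N`, `N` induces `T` on `S`. -/
def AutSStmt : Prop :=
  ∀ (G : Type) [Group G] [Finite G] (S : Subgroup G), IsComp S →
    ∃ T : Subgroup (AutG S), IsSoc T ∧ Nonempty (S ≃* T) ∧
      (∀ a : AutG S, a ∈ T ↔ ∃ t : S, (a : MulAut S) = MulAut.conj t) ∧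
      (∀ (hT : T.Normal), ∃ (U : Subgroup (G ⧸ Subgroup.normalClosure (S : Set G)))
        (φ : U →* AutG S ⧸ T), Function.Surjective φ)

/-! ### Module SA1 -/

/-- (SA1) The cyclic case. Uses `PBmStmt`, `SocStmt`, `SylStmt`, `CompStmt`, `KAStmt`, `AutSStmt`.
`g` normalizes `S` and its image in `G/N` has `r`-power order; `U ≤ AutG S` is generated by `Inn S` and the
automorphism induced by `g`. Then `U ∈ F`.
PROOF. `U/Inn S` is a cyclic `r`-group, in `F` (a subgroup of `AutG S ⧸ Inn S`, AutS), `Inn S ∈ F` (`S ≤ B`).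
Case 1: `S ≀ C_r ∈ F`. The composition factors of `U/Inn S` are of order `r`; `T = Inn S ≅ S`: (c) part 2.
Case 2: not. `SylStmt` for `G/N = (B/N)(C/N)`: `R = A₁ B₁`. Some conjugate `x g x⁻¹ N` is in `R`. Let `G₀`, `B₀`,
`C₀` be the preimages of `R`, `A₁`, `B₁`: `N ≤ B₀ ≤ B`, so `F B₀`, `F C₀`, `G₀ = B₀ C₀`. `PermB S B₀` is an `r`-group
with the composition factors in `Wrc F S` (`PBmStmt`), so trivial; `PermB S C₀` too. So `G₀` normalizes
`S₁ = x S x⁻¹`. The images `D`, `D₁`, `D₂` of `G₀`, `B₀`, `C₀` in `MulAut S₁`: `D = D₁ D₂`, `D₁, D₂ ∈ F`,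
`Inn S₁ ≤ D₁, D₂`, `D/Inn S₁` is an image of `R`, so in `F`; (c) part 1: `D ∈ F`. `U` is isomorphic (conjugation
by `x`) to a subgroup of `D`. -/
def SA1Stmt : Prop :=
  ∀ F : GrpClass, IsFormation F → SubClosed F → CondA F → CondC F →
    ∀ (G : Type) [Group G] [Finite G] (S B C : Subgroup G), IsComp S →
      F (G ⧸ Subgroup.normalClosure (S : Set G)) → Subgroup.normalClosure (S : Set G) ≤ B →
      Subgroup.normalClosure (S : Set G) ≤ C → F B → F C → Prd B C →
      ∀ r : ℕ, r.Prime → ∀ g : Subgroup.normalizer (S : Set G),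
        (∃ k : ℕ, (g : G) ^ r ^ k ∈ Subgroup.normalClosure (S : Set G)) →
        ∀ U : Subgroup (AutG S), (∀ u : U, ∃ (n : ℕ) (t : S),
          ((u : AutG S) : MulAut S) = S.normalizerMonoidHom g ^ n * MulAut.conj t) → F U

/-! ### Module SuffA -/

/-- (SuffA) Uses `PBmStmt`, `ASStmt`, `KAStmt`, `CompStmt`, `SolPStmt`, `SA1Stmt`, `AutSStmt`, `SocStmt`.
PROOF. `G`, `S`, `B`, `C` as in (iii). By (a) we need (α) `F (AutG S)`, (β) `CompIn (Wrc F S) (PermG S)`.
(β) `PermG S ∈ F` (image of `G/N`: `N` normalizes the conjugates of `S`) is the product of `PermB S B` and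
`PermB S C`; `PBmStmt`; `ASStmt` for `J = Wrc F S` (`IsoClosed`, `HerJ`: KA (2), (3), Comp (8); `FactClosed`: (b),
`F S` as `S ≤ B`).
(α) `T = Inn S` (AutS), `A = AutG S`, `A ⧸ T ∈ F`, soluble by `OutSol`. `SolPStmt` for `H = A ⧸ T` and the
property `F (preimage of U in A)`. Products: (c) part 1 for the preimage of `U`. Cyclic `r`-groups `U`: let
`g₁ ∈ normalizer S` induce a generator of `U` modulo `T`, of order `r ^ a`; a power `g = g₁ ^ m` with
`m ≡ 1` modulo `r ^ a` and `m ≡ 0` modulo the `r'`-part of the order of `g₁ N` has `r`-power order modulo `N` and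
induces the same generator. `SA1Stmt`. -/
def SuffAStmt : Prop :=
  ∀ F : GrpClass, IsLocal F → SubClosed F → CondA F → CondB F → CondC F → OutSol F → CondIII F

/-! ## Final -/

/-- The theorem. -/
def FinalStmt : Prop :=
  ∀ F : GrpClass, IsLocal F → SubClosed F →
    (Superradical F ↔ CondI F ∧ CondII F ∧ CondIII F) ∧
    (OutSol F → (Superradical F ↔ CondI F ∧ CondII F ∧ CondA F ∧ CondB F ∧ CondC F))

end Pool.Agent.Lib.MP_de73ed_al_H
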