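import Pool.Agent.Lib.MP_de73ed_al_H.Spec

set_option linter.all false
set_option autoImplicit false

/-! Module SuffI: the conditions (i), (ii), (iii) are sufficient. -/

namespace Pool.Agent.Lib.MP_de73ed_al_H

open Pool.Agent.Lib.MP_de73ed_al

namespace SuffIM

theorem of_equiv {F : GrpClass} (hF : IsFormation F) {G H : Type} [Group G] [Group H]
    (e : G ≃* H) (h : F G) : F H :=
  hF.quot G H e.toMonoidHom e.surjective h

theorem of_map {F : GrpClass} (hF : IsFormation F) {G H : Type} [Group G] [Group H]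
    (φ : G →* H) (A : Subgroup G) (h : F A) : F (A.map φ) :=
  hF.quot _ _ (φ.subgroupMap A) (φ.subgroupMap_surjective A) h

theorem fsub_le {F : GrpClass} {G : Type} [Group G] {H L : Subgroup G} (h : FSub F H L) :
    H ≤ L := by
  unfold FSub at h
  induction h with
  | refl => exact le_refl _
  | tail _ h2 ih => exact le_trans ih h2.1.le

theorem of_le {F : GrpClass} (hF : IsFormation F) (hS : SubClosed F) {G : Type} [Group G]
    {A B : Subgroup G} (hAB : A ≤ B) (h : F B) : F A :=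
  of_equiv hF (Subgroup.subgroupOfEquivOfLe hAB) (hS B (A.subgroupOf B) h)

theorem prd_map {G H : Type} [Group G] [Group H] (φ : G →* H) (hφ : Function.Surjective φ)
    {A B : Subgroup G} (h : Prd A B) : Prd (A.map φ) (B.map φ) := by
  intro x
  obtain ⟨g, rfl⟩ := hφ x
  obtain ⟨a, ha, b, hb, rfl⟩ := h g
  exact ⟨φ a, ⟨a, ha, rfl⟩, φ b, ⟨b, hb, rfl⟩, map_mul φ a b⟩

/-- (P) -/
theorem extPrd (hComp : CompStmt) (hAS : ASStmt) (hEx : ExStmt) (F : GrpClass) (hF : IsLocal F)
    (hsub : SubClosed F) (hI : CondI F) (hII : CondII F) (p : ℕ) (hp : p.Prime) (K : Type)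
    [Group K] [Finite K] (hK : F K) (A B : Subgroup K) (hA : Ext F p A) (hB : Ext F p B)
    (hAB : Prd A B) : Ext F p K := by
  obtain ⟨⟨hEf, hEs⟩, -⟩ := (hEx F hF hsub).1 p hp
  have hiso : IsoClosed (Ext F p) := fun X Y _ _ e h => of_equiv hEf e h
  obtain ⟨-, -, -, -, -, -, -, c8, -⟩ := hComp (Ext F p) hiso
  have hC : ∀ (X : Type) [Group X], Ext F p X → CompIn (Ext F p) X :=
    c8 hEf.finite hEs hEf.quot
  have hCp : F (Multiplicative (ZMod p)) := by
    haveI : Fact p.Prime := ⟨hp⟩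
    haveI : Finite A := hA.1
    haveI : Finite (Multiplicative (ZMod p)) := inferInstanceAs (Finite (ZMod p))
    have h1 : F (A × Multiplicative (ZMod p)) := by
      refine hA.2 (A × Multiplicative (ZMod p)) (MonoidHom.fst _ _)
        (fun x => ⟨(x, 1), rfl⟩) ?_
      rintro ⟨⟨a, z⟩, h⟩
      refine ⟨1, ?_⟩
      have ha : a = 1 := h
      subst ha
      apply Subtype.ext
      apply Prod.ext
      · change ((1 : A) ^ p ^ 1) = 1
        exact one_pow _
      · change z ^ p ^ 1 = 1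
        rw [pow_one, ← toAdd_eq_zero]
        rw [toAdd_pow]
        simp
    exact hF.1.quot _ _ (MonoidHom.snd A (Multiplicative (ZMod p))) (fun z => ⟨(1, z), rfl⟩) h1
  refine hI p hp hCp K hK ?_
  refine hAS F hF.1 hsub (Ext F p) hiso ?_ (hII p hp) K hK A B (hC A hA) (hC B hB) hAB
  intro T _ _ hT U
  exact hC U (hEs T U hT)

/-- (Q) -/
theorem stepQ (hSuffP : SuffPStmt) (F : GrpClass) (hF : IsLocal F) (hsub : SubClosed F)
    (hP : ∀ p : ℕ, p.Prime → ∀ (K : Type) [Group K] [Finite K], F K → ∀ A B : Subgroup K,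
      Ext F p A → Ext F p B → Prd A B → Ext F p K) (hIII : CondIII F) (hCent : CentStmt) :
    ∀ (n : ℕ) (G : Type) [Group G] [Finite G] (R M N : Subgroup G) [R.Normal], Nat.card G = n →
      R ≤ M → R ≤ N → F (G ⧸ R) → F M → F N → Prd M N → F G := by
  intro n
  induction n using Nat.strong_induction_on with
  | _ n ih =>
  intro G _ _ R M N _ hn hRM hRN hFR hFM hFN hMN
  by_cases hR : R = ⊥
  · subst hR
    exact of_equiv hF.1 (QuotientGroup.quotientBot : G ⧸ (⊥ : Subgroup G) ≃* G) hFR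
  · obtain ⟨L, hL, hLR⟩ := (hCent.2.1 G R inferInstance hR).2
    haveI : L.Normal := hL.nH
    haveI hRn : (R.map (QuotientGroup.mk' L)).Normal :=
      Subgroup.Normal.map inferInstance _ (QuotientGroup.mk'_surjective L)
    have e : (G ⧸ L) ⧸ R.map (QuotientGroup.mk' L) ≃* G ⧸ R :=
      QuotientGroup.quotientQuotientEquivQuotient L R hLR
    have hlt : Nat.card (G ⧸ L) < n := by
      rw [← hn, Subgroup.card_eq_card_quotient_mul_card_subgroup L]
      have h1 : 1 < Nat.card L := by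
        rw [Finite.one_lt_card_iff_nontrivial]
        exact (Subgroup.nontrivial_iff_ne_bot L).2 hL.lt.ne'
      have h2 : 0 < Nat.card (G ⧸ L) := Nat.card_pos
      nlinarith
    have hFL : F (G ⧸ L) := by
      refine ih _ hlt (G ⧸ L) (R.map (QuotientGroup.mk' L)) (M.map (QuotientGroup.mk' L))
        (N.map (QuotientGroup.mk' L)) rfl (Subgroup.map_mono hRM) (Subgroup.map_mono hRN) ?_
        (of_map hF.1 _ M hFM) (of_map hF.1 _ N hFN)
        (prd_map _ (QuotientGroup.mk'_surjective L) hMN)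
      exact of_equiv hF.1 e.symm hFR
    exact hSuffP F hF hsub hP hIII G L M N hL (hLR.trans hRM) (hLR.trans hRN) hFL hFM hFN hMN

theorem main (hFS : FSStmt) (F : GrpClass) (hF : IsFormation F) (hS : SubClosed F)
    (hQ : ∀ (n : ℕ) (G : Type) [Group G] [Finite G] (R M N : Subgroup G) [R.Normal],
      Nat.card G = n → R ≤ M → R ≤ N → F (G ⧸ R) → F M → F N → Prd M N → F G)
    (h1 : F PUnit) (G : Type) [Group G] [Finite G] :
    ∀ (n : ℕ) (D A B : Subgroup G), Nat.card D = n → FSub F A D →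
      FSub F B D → F A → F B →
      (∀ g ∈ D, ∃ a ∈ A, ∃ b ∈ B, g = a * b) → F D := by
  intro n
  induction n using Nat.strong_induction_on with
  | _ n ih =>
  intro D A B hn hA hB hFA hFB hAB
  obtain ⟨-, -, h3, -, h5⟩ := hFS
  rcases Relation.ReflTransGen.cases_tail hA with hA' | ⟨M, hAM, hMD⟩
  · subst hA'; exact hFA
  rcases Relation.ReflTransGen.cases_tail hB with hB' | ⟨N, hBN, hND⟩
  · subst hB'; exact hFB
  have hAM' : FSub F A M := hAM
  have hBN' : FSub F B N := hBN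
  have hAleM : A ≤ M := fsub_le hAM'
  have hBleN : B ≤ N := fsub_le hBN'
  have hMlt : M < D := hMD.1.lt
  have hNlt : N < D := hND.1.lt
  have hcardM : Nat.card M < n := by
    rw [← hn]
    exact Set.ncard_lt_ncard (SetLike.coe_ssubset_coe.2 hMlt) (Set.toFinite _)
  have hcardN : Nat.card N < n := by
    rw [← hn]
    exact Set.ncard_lt_ncard (SetLike.coe_ssubset_coe.2 hNlt) (Set.toFinite _)
  have hFM : F M := by
    refine ih (Nat.card M) hcardM M A (B ⊓ M) rfl hAM' (h5 _ hF hS h1 G B D M hB hMlt.le) hFA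
      (of_le hF hS inf_le_left hFB) ?_
    intro g hg
    obtain ⟨a, ha, b, hb, rfl⟩ := hAB g (hMlt.le hg)
    refine ⟨a, ha, b, ⟨hb, ?_⟩, rfl⟩
    have : a⁻¹ * (a * b) ∈ M := M.mul_mem (M.inv_mem (hAleM ha)) hg
    simpa using this
  have hFN : F N := by
    refine ih (Nat.card N) hcardN N (A ⊓ N) B rfl (h5 _ hF hS h1 G A D N hA hNlt.le) hBN'
      (of_le hF hS inf_le_left hFA) hFB ?_
    intro g hg
    obtain ⟨a, ha, b, hb, rfl⟩ := hAB g (hNlt.le hg)
    refine ⟨a, ⟨ha, ?_⟩, b, hb, rfl⟩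
    have : (a * b) * b⁻¹ ∈ N := N.mul_mem hg (N.inv_mem (hBleN hb))
    simpa using this
  obtain ⟨R, hRn, hR, hFR⟩ := h3 _ hF h1 G D
  haveI := hRn
  have hRM : R ≤ M.subgroupOf D := by
    intro x hx
    rw [Subgroup.mem_subgroupOf]
    apply hMD.2
    rw [hR]
    exact Subgroup.mem_map.2 ⟨x, hx, rfl⟩
  have hRN : R ≤ N.subgroupOf D := by
    intro x hx
    rw [Subgroup.mem_subgroupOf]
    apply hND.2
    rw [hR]
    exact Subgroup.mem_map.2 ⟨x, hx, rfl⟩
  refine hQ _ D R (M.subgroupOf D) (N.subgroupOf D) rfl hRM hRN hFR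
    (of_equiv hF (Subgroup.subgroupOfEquivOfLe hMlt.le).symm hFM)
    (of_equiv hF (Subgroup.subgroupOfEquivOfLe hNlt.le).symm hFN) ?_
  rintro ⟨g, hg⟩
  obtain ⟨a, ha, b, hb, rfl⟩ := hAB g hg
  refine ⟨⟨a, hMlt.le (hAleM ha)⟩, ?_, ⟨b, hNlt.le (hBleN hb)⟩, ?_, ?_⟩
  · rw [Subgroup.mem_subgroupOf]; exact hAleM ha
  · rw [Subgroup.mem_subgroupOf]; exact hBleN hb
  · rfl

end SuffIM

theorem suffIStmt : SuffPStmt → CompStmt → ASStmt → ExStmt → FSStmt → CentStmt → SuffIStmt := by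
  intro hSuffP hComp hAS hEx hFS hCent F hF hsub hI hII hIII
  have hP := SuffIM.extPrd hComp hAS hEx F hF hsub hI hII
  have hQ := SuffIM.stepQ hSuffP F hF hsub hP hIII hCent
  refine ⟨fun G _ N _ hG => hsub G N hG, ?_⟩
  intro G _ _ A B hA hB hFA hFB hAB
  have h1 : F PUnit := by
    refine hF.1.quot A PUnit (1 : A →* PUnit) ?_ hFA
    intro x
    exact ⟨1, rfl⟩
  have := SuffIM.main hFS F hF.1 hsub hQ h1 G (Nat.card (⊤ : Subgroup G)) ⊤ A B rfl hA hB hFA hFB
    (fun g _ => hAB g)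
  exact SuffIM.of_equiv hF.1 Subgroup.topEquiv this

end Pool.Agent.Lib.MP_de73ed_al_H
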